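import Pool.Agent.Work.MP_98b61d_nt.Tail4

/-!
The tail bound, final form.
-/

namespace Pool.Agent.Work.MP_98b61d_nt

open Finset Real Filter

lemma hsSet_card_le {D : ℝ} {K : ℕ} (hK : K = 2 * 160) (hD : 8 ≤ D) (h1 : 160 * log D + 1 ≤ D)
    (h2 : 11000 ^ 2 * (3 + 80 * log D) ^ 4 ≤ D) {X : ℕ} {x : ℝ} (hx0 : 0 < x)
    (hXx : (X : ℝ) ≤ x) : ((hsSet D X K).card : ℝ) ≤ 75 * (x / D ^ 160) := by
  classical
  have hD0 : 0 < D := by linarith
  have hD1 : 1 ≤ D := by linarith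
  have hlogD : 0 ≤ log D := Real.log_nonneg hD1
  have h6 : ((hsSet D X K).card : ℝ) ≤ ∑ j ∈ Ico 2 77,
      ((HS (Hb (D ^ 80) (D ^ (j - 1))) (yc D j) (yc D (j + 1)) X K).card : ℝ) := by
    have h5 : (hsSet D X K).card ≤ ∑ j ∈ Ico 2 77,
        (HS (Hb (D ^ 80) (D ^ (j - 1))) (yc D j) (yc D (j + 1)) X K).card :=
      Finset.card_biUnion_le
    exact_mod_cast h5
  refine h6.trans ?_
  have h7 : ∀ j ∈ Ico 2 77, ((HS (Hb (D ^ 80) (D ^ (j - 1))) (yc D j) (yc D (j + 1)) X K).card :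
      ℝ) ≤ x / D ^ 160 := by
    intro j hj
    rw [Finset.mem_Ico] at hj
    refine (card_HS_le _ _ _ _ _).trans ?_
    have h8 := wt_interval_le (D := D) (r := 80) (j := j) hj.1 (by omega) hD (by
      push_cast; linarith)
    push_cast at h8
    obtain ⟨w, hw⟩ : ∃ w, w = wt (Hb (D ^ 80) (D ^ (j - 1))) (yc D j) (yc D (j + 1)) := ⟨_, rfl⟩
    rw [← hw] at h8 ⊢
    have hw0 : 0 ≤ w := by rw [hw]; exact wt_nonneg _ _ _
    have h9 : w ^ 2 ≤ 1 / D := by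
      calc w ^ 2 ≤ (11000 * (3 + 80 * log D) ^ 2 / D) ^ 2 := by gcongr
        _ = (11000 ^ 2 * (3 + 80 * log D) ^ 4) / D ^ 2 := by ring
        _ ≤ D / D ^ 2 := by gcongr
        _ = 1 / D := by field_simp
    have h10 : w ^ K ≤ 1 / D ^ 160 := by
      rw [hK, pow_mul]
      calc (w ^ 2) ^ 160 ≤ (1 / D) ^ 160 := pow_le_pow_left₀ (by positivity) h9 160
        _ = 1 / D ^ 160 := by rw [one_div_pow]
    have h11 : 0 ≤ w ^ K := pow_nonneg hw0 K
    calc (X : ℝ) * w ^ K ≤ x * (1 / D ^ 160) := mul_le_mul hXx h10 h11 hx0.le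
      _ = x / D ^ 160 := by ring
  calc _ ≤ ∑ j ∈ Ico 2 77, x / D ^ 160 := Finset.sum_le_sum h7
    _ = 75 * (x / D ^ 160) := by
        rw [Finset.sum_const, nsmul_eq_mul, Nat.card_Ico]; norm_num

/-- the numerical part of the bounds for the three sets counted with the sieve. -/
lemma final_num {D x P l T : ℝ} {j k : ℕ} (hD : 1 ≤ D) (hx : 0 < x)
    (hk : k + 7 ≤ j) (hkey : 3440 * (P * l) ≤ D) (hT : T = D ^ k) :
    (x * (3440 * P) / D ^ 75) * (l * T / D ^ j) ≤ x / D ^ 81 := by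
  have hD0 : 0 < D := by linarith
  obtain ⟨c, rfl⟩ := Nat.exists_eq_add_of_le hk
  have e1 : (x * (3440 * P) / D ^ 75) * (l * T / D ^ (k + 7 + c)) =
      x / D ^ 81 * ((3440 * (P * l)) / D ^ (c + 1)) := by
    rw [hT, pow_add, pow_add, pow_add]
    field_simp
  rw [e1]
  apply mul_le_of_le_one_right (by positivity)
  rw [div_le_one (by positivity)]
  refine hkey.trans ?_
  calc D = D ^ 1 := (pow_one D).symm
    _ ≤ D ^ (c + 1) := pow_le_pow_right₀ hD (by omega)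

lemma tail_card_le_aux {D : ℝ} {K : ℕ} (hK : K = 2 * 160) (hD : 8 ≤ D)
    (h1 : 160 * log D + 1 ≤ D) (h2 : 11000 ^ 2 * (3 + 80 * log D) ^ 4 ≤ D)
    (h3 : 3440 * 11000 * (61 + 4800 * log D) ^ (2 * K * 75 + 2) ≤ D)
    (h4 : (1 + D ^ 80) * D ^ 81 ≤ 2 ^ ⌊D / 2⌋₊)
    (h5 : D ^ 81 ≤ yc D 10) {x : ℝ} (hx : x = exp (D ^ 80)) :
    ((tailSet D ⌊x⌋₊).card : ℝ) ≤ 8 * (x / D ^ 81) := by
  classical
  have hD0 : 0 < D := by linarith
  have hD1 : 1 ≤ D := by linarith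
  have hx0 : 0 < x := by rw [hx]; exact Real.exp_pos _
  obtain ⟨X, hX⟩ : ∃ X, X = ⌊x⌋₊ := ⟨_, rfl⟩
  rw [← hX]
  have hXx : (X : ℝ) ≤ x := by rw [hX]; exact Nat.floor_le hx0.le
  have hlogD : 0 ≤ log D := Real.log_nonneg hD1
  have hpow : ∀ a b : ℕ, a ≤ b → D ^ a ≤ D ^ b := fun a b hab => pow_le_pow_right₀ hD1 hab
  have hsub := fun n (hn : n ∈ tailSet D X) => tail_mem K hD h1 hx hX hn
  obtain ⟨R, hR⟩ : ∃ R, R = 2 * K * 75 := ⟨_, rfl⟩
  rw [← hR] at hsub h3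
  have hp81 : 0 < D ^ 81 := by positivity
  have hxp : 0 ≤ x / D ^ 81 := by positivity
  obtain ⟨P, hP⟩ : ∃ P, P = (61 + 60 * (80 * log D)) ^ R := ⟨_, rfl⟩
  have hbase : 1 ≤ 61 + 60 * (80 * log D) := by linarith
  have hP0 : 0 ≤ P := by rw [hP]; exact pow_nonneg (by linarith) R
  have hkey : 3440 * (P * (11000 * (3 + 80 * log D) ^ 2)) ≤ D := by
    refine le_trans ?_ h3
    have e1 : 61 + 4800 * log D = 61 + 60 * (80 * log D) := by ring
    rw [e1, pow_add, ← hP]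
    have : (3 + 80 * log D) ^ 2 ≤ (61 + 60 * (80 * log D)) ^ 2 := by
      apply pow_le_pow_left₀ (by positivity)
      linarith
    have h6 : P * (3 + 80 * log D) ^ 2 ≤ P * (61 + 60 * (80 * log D)) ^ 2 :=
      mul_le_mul_of_nonneg_left this hP0
    linarith
  have hkey1 : 3440 * (P * (96 * (3 + 80 * log D))) ≤ D := by
    refine le_trans ?_ hkey
    have h6 : (3 + 80 * log D) ≤ (3 + 80 * log D) ^ 2 := by
      have : 1 ≤ 3 + 80 * log D := by linarith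
      nlinarith
    have h7 : P * (3 + 80 * log D) ≤ P * (3 + 80 * log D) ^ 2 :=
      mul_le_mul_of_nonneg_left h6 hP0
    have h8 : 0 ≤ P * (3 + 80 * log D) ^ 2 := mul_nonneg hP0 (sq_nonneg _)
    linarith
  -- the individual bounds
  have bA : (((Ioc 0 ⌊x / D ^ 160⌋₊).card : ℕ) : ℝ) ≤ x / D ^ 81 := by
    rw [Nat.card_Ioc, Nat.sub_zero]
    refine (Nat.floor_le (by positivity)).trans ?_
    exact div_le_div_of_nonneg_left hx0.le hp81 (hpow _ _ (by norm_num))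
  have bB : ((hsSet D X K).card : ℝ) ≤ x / D ^ 81 := by
    refine (hsSet_card_le hK hD h1 h2 hx0 hXx).trans ?_
    have e1 : D ^ 160 = D ^ 81 * D ^ 79 := by rw [← pow_add]
    have e2 : D ^ 3 ≤ D ^ 79 := hpow _ _ (by norm_num)
    have e3 : 75 ≤ D ^ 3 := by
      calc (75 : ℝ) ≤ 8 ^ 3 := by norm_num
        _ ≤ D ^ 3 := pow_le_pow_left₀ (by norm_num) hD 3
    rw [e1, ← div_div, ← mul_div_assoc, mul_comm, mul_div_assoc]
    apply mul_le_of_le_one_right hxp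
    rw [div_le_one (by positivity)]
    linarith
  have bC1 : ((manySet X ⌊D / 2⌋₊).card : ℝ) ≤ x / D ^ 81 := by
    refine (card_many_le X _).trans ?_
    have e1 : log (X : ℝ) ≤ D ^ 80 := by
      rcases Nat.eq_zero_or_pos X with h | h
      · rw [h]
        have : 0 ≤ D ^ 80 := by positivity
        simpa using this
      · have := Real.log_le_log (by exact_mod_cast h) hXx
        rwa [hx, Real.log_exp] at this
    have e2 : 0 ≤ log (X : ℝ) := Real.log_natCast_nonneg X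
    rw [div_le_div_iff₀ (by positivity) hp81]
    have e3 : (X : ℝ) * (1 + log X) ≤ x * (1 + D ^ 80) :=
      mul_le_mul hXx (by linarith) (by linarith) hx0.le
    calc (X : ℝ) * (1 + log X) * D ^ 81 ≤ x * (1 + D ^ 80) * D ^ 81 :=
          mul_le_mul_of_nonneg_right e3 hp81.le
      _ = x * ((1 + D ^ 80) * D ^ 81) := by ring
      _ ≤ x * 2 ^ ⌊D / 2⌋₊ := mul_le_mul_of_nonneg_left h4 hx0.le
  have hyc0 : (0 : ℝ) < yc D 10 := lt_of_lt_of_le hp81 h5
  have hXy : (X : ℝ) / yc D 10 ≤ x / D ^ 81 := by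
    rw [div_le_div_iff₀ hyc0 hp81]
    exact mul_le_mul hXx h5 hp81.le hx0.le
  have bC2 : ((powSet X (yc D 10)).card : ℝ) ≤ x / D ^ 81 :=
    (card_highpow_le X (yc D 10) (one_le_yc hD0.le 10)).trans hXy
  have bC3 : ((sqSet X (yc D 10)).card : ℝ) ≤ x / D ^ 81 :=
    (card_square_le X (yc D 10) (one_le_yc hD0.le 10)).trans hXy
  have hT11 : 2 * D ^ 11 ≤ D ^ 80 / 4 := by
    have e1 : D ^ 80 = D ^ 11 * D ^ 69 := by rw [← pow_add]
    have e2 : D ^ 1 ≤ D ^ 69 := hpow _ _ (by norm_num)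
    have e3 : 0 < D ^ 11 := by positivity
    rw [pow_one] at e2
    rw [e1]; nlinarith
  have hT20 : 2 * D ^ 20 ≤ D ^ 80 / 4 := by
    have e1 : D ^ 80 = D ^ 20 * D ^ 60 := by rw [← pow_add]
    have e2 : D ^ 1 ≤ D ^ 60 := hpow _ _ (by norm_num)
    have e3 : 0 < D ^ 20 := by positivity
    rw [pow_one] at e2
    rw [e1]; nlinarith
  have h1T11 : 1 ≤ 2 * D ^ 11 := by
    have : 1 ≤ D ^ 11 := one_le_pow₀ hD1
    linarith
  have h1T20 : 1 ≤ 2 * D ^ 20 := by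
    have : 1 ≤ D ^ 20 := one_le_pow₀ hD1
    linarith
  have cG1 : ((fewDvd (yc D 2) (yc D 77) X R (pairSet (Hb (D ^ 80) D) (yc D 10) (yc D 30))
      (fun i => i.1 * i.2)).card : ℝ) ≤ x / D ^ 81 := by
    refine (G1_le R hD h1 hx hX).trans ?_
    rw [← hP]
    have := final_num (T := 1) (j := 9) (k := 0) hD1 hx0 (by norm_num) hkey (by simp)
    rwa [mul_one] at this
  have cG2 : ((fewDvd (yc D 2) (yc D 77) X R
      (nearSet (D ^ 80) (2 * D ^ 11) (yc D 19) (Nat.sqrt X)) (fun p => p)).card : ℝ) ≤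
      x / D ^ 81 := by
    refine (G2_le R 19 hD h1 hx hX (by norm_num) h1T11 hT11).trans ?_
    rw [← hP]
    have := final_num (T := D ^ 11) (j := 19) (k := 11) hD1 hx0 (by norm_num) hkey1 rfl
    refine le_trans (le_of_eq ?_) this
    congr 2
    ring
  have cG3 : ((fewDvd (yc D 2) (yc D 77) X R
      (nearSet (D ^ 80) (2 * D ^ 20) (yc D 30) (Nat.sqrt X)) (fun p => p)).card : ℝ) ≤
      x / D ^ 81 := by
    refine (G2_le R 30 hD h1 hx hX (by norm_num) h1T20 hT20).trans ?_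
    rw [← hP]
    have := final_num (T := D ^ 20) (j := 30) (k := 20) hD1 hx0 (by norm_num) hkey1 rfl
    refine le_trans (le_of_eq ?_) this
    congr 2
    ring
  have hcard := Finset.card_le_card (s := tailSet D X) (t := Ioc 0 ⌊x / D ^ 160⌋₊ ∪
    (hsSet D X K ∪ (manySet X ⌊D / 2⌋₊ ∪ (powSet X (yc D 10) ∪ (sqSet X (yc D 10) ∪
    (fewDvd (yc D 2) (yc D 77) X R (pairSet (Hb (D ^ 80) D) (yc D 10) (yc D 30))
      (fun i => i.1 * i.2) ∪
    (fewDvd (yc D 2) (yc D 77) X R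
      (nearSet (D ^ 80) (2 * D ^ 11) (yc D 19) (Nat.sqrt X)) (fun p => p) ∪
    fewDvd (yc D 2) (yc D 77) X R
      (nearSet (D ^ 80) (2 * D ^ 20) (yc D 30) (Nat.sqrt X)) (fun p => p)))))))) (by
    intro n hn
    simp only [Finset.mem_union]
    exact hsub n hn)
  have hun : ∀ A B : Finset ℕ, ∀ a b : ℝ, (A.card : ℝ) ≤ a → (B.card : ℝ) ≤ b →
      ((A ∪ B).card : ℝ) ≤ a + b := by
    intro A B a b hA hB
    have : ((A ∪ B).card : ℝ) ≤ A.card + B.card := by exact_mod_cast Finset.card_union_le A B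
    linarith
  have htot := hun _ _ _ _ bA (hun _ _ _ _ bB (hun _ _ _ _ bC1 (hun _ _ _ _ bC2
    (hun _ _ _ _ bC3 (hun _ _ _ _ cG1 (hun _ _ _ _ cG2 cG3))))))
  refine le_trans (by exact_mod_cast hcard) (htot.trans (le_of_eq (by ring)))

/-- The tail bound. -/
theorem tail_card_le : ∀ᶠ D : ℝ in atTop, ∀ x : ℝ, x = exp (D ^ 80) →
    ((tailSet D ⌊x⌋₊).card : ℝ) ≤ 8 * (x / D ^ 81) := by
  obtain ⟨K, hK⟩ : ∃ K, K = 2 * 160 := ⟨_, rfl⟩
  have a1 := eventually_log_pow_le 1 1 160 1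
  have a2 := eventually_log_pow_le (11000 ^ 2) 3 80 4
  have a3 := eventually_log_pow_le (3440 * 11000) 61 4800 (2 * K * 75 + 2)
  have a4 : ∀ᶠ D : ℝ in atTop, (1 + D ^ 80) * D ^ 81 ≤ 2 ^ ⌊D / 2⌋₊ := by
    have b1 : Tendsto (fun n : ℕ => (n : ℝ) ^ 162 / (2 : ℝ) ^ n) atTop (nhds 0) :=
      tendsto_pow_const_div_const_pow_of_one_lt 162 (by norm_num)
    have b2 : Tendsto (fun D : ℝ => ⌊D / 2⌋₊) atTop atTop :=
      tendsto_nat_floor_atTop.comp (tendsto_id.atTop_div_const (by norm_num))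
    have b3 := (b1.comp b2).eventually (gt_mem_nhds (show (0 : ℝ) < (1 / 8) ^ 162 by positivity))
    filter_upwards [b3, eventually_ge_atTop 8] with D c1 hD
    simp only [Function.comp_apply] at c1
    rw [div_lt_iff₀ (by positivity)] at c1
    have c2 : D / 2 < ⌊D / 2⌋₊ + 1 := Nat.lt_floor_add_one _
    have c3 : D / 4 ≤ ⌊D / 2⌋₊ := by linarith
    have c4 : (D / 4) ^ 162 ≤ (⌊D / 2⌋₊ : ℝ) ^ 162 := pow_le_pow_left₀ (by linarith) c3 162
    have c5 : (D / 4) ^ 162 < (1 / 8) ^ 162 * 2 ^ ⌊D / 2⌋₊ := lt_of_le_of_lt c4 c1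
    have c6 : (D / 4) ^ 162 = (2 * D) ^ 162 * (1 / 8) ^ 162 := by
      rw [← mul_pow]; congr 1; ring
    rw [c6, mul_comm] at c5
    have c7 : (2 * D) ^ 162 < 2 ^ ⌊D / 2⌋₊ := lt_of_mul_lt_mul_left c5 (by positivity)
    have c8 : (1 + D ^ 80) * D ^ 81 ≤ (2 * D) ^ 162 := by
      have d1 : 1 + D ^ 80 ≤ (2 * D) ^ 81 := by
        have e1 : D ^ 80 ≤ D ^ 81 := pow_le_pow_right₀ (by linarith) (by norm_num)
        have e2 : 1 ≤ D ^ 80 := one_le_pow₀ (by linarith)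
        have e3 : (2 * D) ^ 81 = 2 ^ 81 * D ^ 81 := by rw [mul_pow]
        have e4 : (2 : ℝ) * D ^ 81 ≤ 2 ^ 81 * D ^ 81 :=
          mul_le_mul_of_nonneg_right (by norm_num) (by positivity)
        rw [e3]; linarith
      have d2 : D ^ 81 ≤ (2 * D) ^ 81 := pow_le_pow_left₀ (by linarith) (by linarith) 81
      have d3 : (2 * D) ^ 162 = (2 * D) ^ 81 * (2 * D) ^ 81 := by rw [← pow_add]
      rw [d3]
      exact mul_le_mul d1 d2 (by positivity) (by positivity)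
    linarith
  have a5 : ∀ᶠ D : ℝ in atTop, D ^ 81 ≤ yc D 10 := by
    have b1 := (Real.tendsto_pow_mul_exp_neg_atTop_nhds_zero 81).eventually
      (gt_mem_nhds (show (0 : ℝ) < 1 / 2 by norm_num))
    filter_upwards [b1, eventually_ge_atTop 8] with D c1 hD
    have c2 : D ^ 81 < 1 / 2 * exp D := by
      rw [Real.exp_neg] at c1
      have := Real.exp_pos D
      rwa [← div_eq_mul_inv, div_lt_iff₀ this] at c1
    have c3 : exp D ≤ exp (D ^ 10) := by
      apply Real.exp_le_exp.mpr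
      calc D = D ^ 1 := (pow_one D).symm
        _ ≤ D ^ 10 := pow_le_pow_right₀ (by linarith) (by norm_num)
    have c4 : exp (D ^ 10) < yc D 10 + 1 := Nat.lt_floor_add_one _
    have c5 : 2 ≤ exp (D ^ 10) := by
      have := Real.add_one_le_exp D
      linarith
    linarith
  filter_upwards [a1, a2, a3, a4, a5, eventually_ge_atTop 8] with D b1 b2 b3 b4 b5 b6
  intro x hx
  rw [pow_one] at b1
  exact tail_card_le_aux hK b6 (by linarith) b2 b3 b4 b5 hx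

end Pool.Agent.Work.MP_98b61d_nt
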