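import Pool.Agent.Work.MP_98b61d_nt.Piece
import Pool.Agent.Work.MP_98b61d_nt.Tail5

/-!
Counting the integers `m q` and the integral of `W`.
-/

namespace Pool.Agent.Work.MP_98b61d_nt

open Finset Real Filter MeasureTheory

/-- lower cut for the products `m q`. -/
noncomputable def uu (X0 : ℝ) (m : ℕ) : ℝ := max ((m : ℝ) ^ 2) X0

/-- number of primes `q` for `m`. -/
noncomputable def cc (X0 x : ℝ) (m : ℕ) : ℕ :=
  Nat.card {q : ℕ // q.Prime ∧ uu X0 m < (m * q : ℝ) ∧ (m * q : ℝ) ≤ x ∧ EE (m * q) m}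

open Classical in
/-- the set of these primes. -/
noncomputable def QQ (X0 x : ℝ) (m : ℕ) : Finset ℕ :=
  (Icc 1 ⌊x⌋₊).filter (fun q => q.Prime ∧ uu X0 m < (m * q : ℝ) ∧ (m * q : ℝ) ≤ x ∧ EE (m * q) m)

lemma mem_QQ {X0 x : ℝ} {m q : ℕ} (hm : 1 ≤ m) : q ∈ QQ X0 x m ↔
    q.Prime ∧ uu X0 m < (m * q : ℝ) ∧ (m * q : ℝ) ≤ x ∧ EE (m * q) m := by
  classical
  unfold QQ
  simp only [Finset.mem_filter, Finset.mem_Icc]
  constructor
  · exact fun h => h.2
  · intro h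
    refine ⟨⟨h.1.one_le, Nat.le_floor ?_⟩, h⟩
    have hm' : (1 : ℝ) ≤ m := by exact_mod_cast hm
    have hq : (0 : ℝ) ≤ q := Nat.cast_nonneg q
    nlinarith [h.2.2.1]

lemma cc_eq {X0 x : ℝ} {m : ℕ} (hm : 1 ≤ m) : cc X0 x m = (QQ X0 x m).card := by
  unfold cc
  rw [← Fintype.card_coe, ← Nat.card_eq_fintype_card]
  apply Nat.card_congr
  apply Equiv.subtypeEquivRight
  intro q
  rw [mem_QQ hm]

lemma lt_of_mem_QQ {X0 x : ℝ} {m q : ℕ} (hm : 1 ≤ m) (hq : q ∈ QQ X0 x m) : m < q := by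
  rw [mem_QQ hm] at hq
  have h1 : (m : ℝ) ^ 2 < m * q := lt_of_le_of_lt (le_max_left _ _) hq.2.1
  have hm' : (0 : ℝ) < m := by exact_mod_cast hm
  have h2 : (m : ℝ) < q := by nlinarith
  exact_mod_cast h2

lemma rel_of_mem_QQ {X0 x : ℝ} {m q : ℕ} (hm : 1 ≤ m) (hq : q ∈ QQ X0 x m) :
    m * q ∈ relSet ⌊x⌋₊ := by
  have hlt := lt_of_mem_QQ hm hq
  rw [mem_QQ hm] at hq
  obtain ⟨h1, h2, h3, h4⟩ := hq
  rw [mem_relSet]
  refine ⟨⟨Nat.mul_pos hm h1.pos, Nat.le_floor (by push_cast; exact h3)⟩, ?_⟩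
  rw [f_eq_F_iff hm h1 hlt, E_iff]
  refine ⟨hm, ?_, ?_⟩
  · push_cast
    exact ((le_max_left _ _).trans_lt h2).le
  · push_cast
    exact h4

/-- lower bound for the count. -/
lemma sum_cc_le (X0 x : ℝ) (J : ℕ) :
    ∑ m ∈ Icc 1 J, cc X0 x m ≤ (relSet ⌊x⌋₊).card := by
  have h1 : ∑ m ∈ Icc 1 J, cc X0 x m = ((Icc 1 J).sigma (fun m => QQ X0 x m)).card := by
    rw [Finset.card_sigma]
    apply Finset.sum_congr rfl
    intro m hm
    rw [Finset.mem_Icc] at hm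
    exact cc_eq hm.1
  rw [h1]
  apply Finset.card_le_card_of_injOn (fun y : (_ : ℕ) × ℕ => y.1 * y.2)
  · rintro ⟨m, q⟩ hy
    simp only [Finset.coe_sigma, Set.mem_sigma_iff, Finset.mem_coe, Finset.mem_Icc] at hy
    exact rel_of_mem_QQ hy.1.1 hy.2
  · rintro ⟨m, q⟩ hy ⟨m', q'⟩ hy' heq
    simp only [Finset.coe_sigma, Set.mem_sigma_iff, Finset.mem_coe, Finset.mem_Icc] at hy hy' heq
    have a1 := lt_of_mem_QQ hy.1.1 hy.2
    have a2 := lt_of_mem_QQ hy'.1.1 hy'.2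
    have b1 := ((mem_QQ hy.1.1).mp hy.2).1
    have b2 := ((mem_QQ hy'.1.1).mp hy'.2).1
    have hqq : q = q' := by
      by_contra hne
      have c1 : q ∣ m' * q' := by rw [← heq]; exact Dvd.intro_left m rfl
      have c2 : q' ∣ m * q := by rw [heq]; exact Dvd.intro_left m' rfl
      have d1 : q ∣ m' := by
        rcases (Nat.Prime.dvd_mul b1).mp c1 with h | h
        · exact h
        · exact absurd ((Nat.prime_dvd_prime_iff_eq b1 b2).mp h) hne
      have d2 : q' ∣ m := by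
        rcases (Nat.Prime.dvd_mul b2).mp c2 with h | h
        · exact h
        · exact absurd ((Nat.prime_dvd_prime_iff_eq b2 b1).mp h).symm hne
      have e1 := Nat.le_of_dvd (by omega) d1
      have e2 := Nat.le_of_dvd (by omega) d2
      omega
    subst hqq
    have hmm : m = m' := Nat.eq_of_mul_eq_mul_right b1.pos heq
    subst hmm
    rfl

/-- upper bound for the count. -/
lemma card_relSet_le {D X0 x : ℝ} (hX0 : 0 ≤ X0) (hM : exp (D ^ 20) ^ 2 ≤ X0) :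
    ((relSet ⌊x⌋₊).card : ℝ) ≤ X0 + (tailSet D ⌊x⌋₊).card +
      ∑ m ∈ Icc 1 ⌊exp (D ^ 20)⌋₊, (cc X0 x m : ℝ) := by
  classical
  have hsub : relSet ⌊x⌋₊ ⊆ (Ioc 0 ⌊X0⌋₊ ∪ tailSet D ⌊x⌋₊) ∪
      (Icc 1 ⌊exp (D ^ 20)⌋₊).biUnion (fun m => (QQ X0 x m).image (fun q => m * q)) := by
    intro n hn
    have hn' := mem_relSet.mp hn
    obtain ⟨⟨hn0, hnX⟩, hf⟩ := hn'
    rw [Finset.mem_union, Finset.mem_union]
    by_cases hs : n ≤ ⌊X0⌋₊
    · left; left; rw [Finset.mem_Ioc]; exact ⟨hn0, hs⟩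
    by_cases ht : n ∈ tailSet D ⌊x⌋₊
    · left; right; exact ht
    right
    push Not at hs
    have hs' : X0 < n := Nat.lt_of_floor_lt hs
    rw [mem_tailSet] at ht
    push Not at ht
    obtain ⟨q, hq, hlog⟩ := ht ⟨⟨hn0, hnX⟩, hf⟩
    have hqp := Nat.prime_of_mem_primeFactors hq
    have hqn := Nat.dvd_of_mem_primeFactors hq
    obtain ⟨m, hm⟩ : ∃ m, m = n / q := ⟨_, rfl⟩
    rw [← hm] at hlog
    have hmq : n = m * q := by rw [hm, Nat.div_mul_cancel hqn]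
    have hm0 : 1 ≤ m := by
      rcases Nat.eq_zero_or_pos m with h | h
      · rw [h] at hmq; omega
      · exact h
    have hmR : (0 : ℝ) < m := by exact_mod_cast hm0
    have hmle : (m : ℝ) ≤ exp (D ^ 20) := by rwa [Real.log_le_iff_le_exp hmR] at hlog
    have hm2 : (m : ℝ) ^ 2 ≤ X0 := le_trans (by gcongr) hM
    have hnx : (n : ℝ) ≤ x := by
      have h0 : 0 < ⌊x⌋₊ := by omega
      have hx0 : 0 ≤ x := by
        by_contra hneg
        push Not at hneg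
        rw [Nat.floor_of_nonpos hneg.le] at h0
        omega
      exact le_trans (by exact_mod_cast hnX) (Nat.floor_le hx0)
    have hnc : (n : ℝ) = m * q := by rw [hmq]; push_cast; ring
    have hlt : m < q := by
      have h1 : (m : ℝ) ^ 2 < m * q := by rw [← hnc]; linarith
      have h2 : (m : ℝ) < q := by nlinarith
      exact_mod_cast h2
    rw [Finset.mem_biUnion]
    refine ⟨m, ?_, ?_⟩
    · rw [Finset.mem_Icc]; exact ⟨hm0, Nat.le_floor hmle⟩
    · rw [Finset.mem_image]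
      refine ⟨q, ?_, hmq.symm⟩
      rw [mem_QQ hm0]
      refine ⟨hqp, ?_, ?_, ?_⟩
      · rw [uu, max_eq_right hm2, ← hnc]; exact hs'
      · rw [← hnc]; exact hnx
      · rw [hmq, f_eq_F_iff hm0 hqp hlt, E_iff] at hf
        have := hf.2.2
        push_cast at this
        exact this
  have h1 := Finset.card_le_card hsub
  have h2 : (relSet ⌊x⌋₊).card ≤ (⌊X0⌋₊ + (tailSet D ⌊x⌋₊).card) +
      ∑ m ∈ Icc 1 ⌊exp (D ^ 20)⌋₊, cc X0 x m := by
    refine h1.trans ((Finset.card_union_le _ _).trans (Nat.add_le_add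
      ((Finset.card_union_le _ _).trans (le_of_eq (by simp))) (Finset.card_biUnion_le.trans ?_)))
    apply Finset.sum_le_sum
    intro m hm
    rw [Finset.mem_Icc] at hm
    rw [cc_eq hm.1]
    exact Finset.card_image_le
  have h3 : (⌊X0⌋₊ : ℝ) ≤ X0 := Nat.floor_le hX0
  have h4 : ((relSet ⌊x⌋₊).card : ℝ) ≤ (⌊X0⌋₊ + (tailSet D ⌊x⌋₊).card) +
      ∑ m ∈ Icc 1 ⌊exp (D ^ 20)⌋₊, (cc X0 x m : ℝ) := by exact_mod_cast h2
  linarith

/-- the set of `t` for `m`. -/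
def SS (X0 x : ℝ) (m : ℕ) : Set ℝ := {t | EE t m} ∩ Set.Ioc (uu X0 m) x

lemma measurable_SS (X0 x : ℝ) (m : ℕ) : MeasurableSet (SS X0 x m) :=
  (measurable_EE m).inter measurableSet_Ioc

lemma volume_SS_lt (X0 x : ℝ) (m : ℕ) : volume (SS X0 x m) < ⊤ :=
  lt_of_le_of_lt (measure_mono Set.inter_subset_right) (by rw [Real.volume_Ioc]; exact ENNReal.ofReal_lt_top)

lemma volume_EI_lt (x : ℝ) (m : ℕ) : volume ({t | E t m} ∩ Set.Ioc 1 x) < ⊤ :=
  lt_of_le_of_lt (measure_mono Set.inter_subset_right) (by rw [Real.volume_Ioc]; exact ENNReal.ofReal_lt_top)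

lemma W_eq {t x : ℝ} (ht : t ≤ x) : W t = ∑ m ∈ Icc 1 ⌊x⌋₊,
    Set.indicator {t | E t m} (fun _ => 1 / (m : ℝ)) t := by
  classical
  unfold W
  rw [Finset.sum_filter]
  have hsub : Icc 1 ⌊t⌋₊ ⊆ Icc 1 ⌊x⌋₊ := Finset.Icc_subset_Icc_right (Nat.floor_le_floor ht)
  rw [← Finset.sum_subset hsub]
  · apply Finset.sum_congr rfl
    intro m _
    simp only [Set.indicator, Set.mem_ofPred_eq]
  · intro m hm hmt
    simp only [Set.indicator, Set.mem_ofPred_eq]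
    rw [if_neg]
    intro hE
    apply hmt
    rw [Finset.mem_Icc]
    refine ⟨hE.1, Nat.le_floor ?_⟩
    have h1 : (1 : ℝ) ≤ m := by exact_mod_cast hE.1
    have h2 := hE.2.1
    nlinarith

lemma integral_W {x : ℝ} (hx : 1 ≤ x) : ∫ t in (1 : ℝ)..x, W t =
    ∑ m ∈ Icc 1 ⌊x⌋₊, volume.real ({t | E t m} ∩ Set.Ioc 1 x) / m := by
  rw [intervalIntegral.integral_of_le hx]
  have h1 : ∫ t in Set.Ioc 1 x, W t = ∫ t in Set.Ioc 1 x, ∑ m ∈ Icc 1 ⌊x⌋₊,
      Set.indicator {t | E t m} (fun _ => 1 / (m : ℝ)) t :=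
    setIntegral_congr_fun measurableSet_Ioc (fun t ht => W_eq ht.2)
  rw [h1, integral_finsetSum]
  · apply Finset.sum_congr rfl
    intro m _
    rw [setIntegral_indicator (measurable_E m), setIntegral_const, Set.inter_comm, smul_eq_mul]
    ring
  · intro m _
    apply Integrable.indicator _ (measurable_E m)
    exact integrable_const _

/-- `W` is at least `1` on `[1, ∞)`. -/
lemma integral_W_ge {x : ℝ} (hx : 1 ≤ x) : x - 1 ≤ ∫ t in (1 : ℝ)..x, W t := by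
  rw [integral_W hx]
  have h1 : (1 : ℕ) ∈ Icc 1 ⌊x⌋₊ := by
    rw [Finset.mem_Icc]
    exact ⟨le_refl _, by rwa [Nat.one_le_floor_iff]⟩
  have h2 : {t | E t 1} ∩ Set.Ioc 1 x = Set.Ioc 1 x := by
    apply Set.inter_eq_right.mpr
    intro t ht
    refine ⟨le_refl _, by simpa using ht.1.le, ?_⟩
    intro b hb2 hb
    obtain ⟨p, hp, hpb⟩ := Nat.exists_prime_and_dvd (n := b) (by omega)
    have := hb p hp hpb
    exact absurd (Nat.dvd_one.mp this) hp.one_lt.ne'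
  have h3 : volume.real ({t | E t 1} ∩ Set.Ioc 1 x) / ((1 : ℕ) : ℝ) = x - 1 := by
    rw [h2, Measure.real, Real.volume_Ioc, ENNReal.toReal_ofReal (by linarith)]
    simp
  rw [← h3]
  exact Finset.single_le_sum (f := fun m : ℕ => volume.real ({t | E t m} ∩ Set.Ioc 1 x) / (m : ℝ))
    (fun m _ => by positivity) h1

lemma SS_le {X0 x : ℝ} {m : ℕ} (hX0 : 1 ≤ X0) (hm : 1 ≤ m) :
    volume.real (SS X0 x m) ≤ volume.real ({t | E t m} ∩ Set.Ioc 1 x) := by
  apply measureReal_mono _ (volume_EI_lt x m).ne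
  rintro t ⟨h1, h2⟩
  refine ⟨⟨hm, ((le_max_left _ _).trans_lt h2.1).le, h1⟩, ?_, h2.2⟩
  exact lt_of_le_of_lt hX0 ((le_max_right _ _).trans_lt h2.1)

lemma le_SS {X0 x : ℝ} {m : ℕ} (hX0 : 1 ≤ X0) :
    volume.real ({t | E t m} ∩ Set.Ioc 1 x) ≤ volume.real (SS X0 x m) + X0 := by
  have hsub : {t | E t m} ∩ Set.Ioc 1 x ⊆ (SS X0 x m ∪ Set.Ioc 0 X0) ∪ {(m : ℝ) ^ 2} := by
    rintro t ⟨h1, h2⟩
    rw [Set.mem_union, Set.mem_union]
    by_cases h3 : t ≤ X0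
    · left; right; exact ⟨by linarith [h2.1], h3⟩
    by_cases h4 : t = (m : ℝ) ^ 2
    · right; exact h4
    left; left
    push Not at h3
    refine ⟨h1.2.2, ?_, h2.2⟩
    rw [uu, max_lt_iff]
    exact ⟨lt_of_le_of_ne h1.2.1 (Ne.symm h4), h3⟩
  have hfin : volume ((SS X0 x m ∪ Set.Ioc 0 X0) ∪ {(m : ℝ) ^ 2}) ≠ ⊤ := by
    apply ne_of_lt
    refine (measure_union_le _ _).trans_lt (ENNReal.add_lt_top.mpr ⟨?_, ?_⟩)
    · refine (measure_union_le _ _).trans_lt (ENNReal.add_lt_top.mpr ⟨volume_SS_lt _ _ _, ?_⟩)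
      rw [Real.volume_Ioc]; exact ENNReal.ofReal_lt_top
    · simp
  refine (measureReal_mono hsub hfin).trans ?_
  refine (measureReal_union_le _ _).trans ?_
  have h1 : volume.real {(m : ℝ) ^ 2} = 0 := by simp [Measure.real]
  have h2 : volume.real (Set.Ioc 0 X0) = X0 := by
    rw [Measure.real, Real.volume_Ioc, ENNReal.toReal_ofReal (by linarith)]; ring
  rw [h1, add_zero]
  refine (measureReal_union_le _ _).trans ?_
  rw [h2]

lemma EI_eq_zero {x : ℝ} {m : ℕ} (hm : Nat.sqrt ⌊x⌋₊ < m) :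
    volume.real ({t | E t m} ∩ Set.Ioc 1 x) = 0 := by
  have : {t | E t m} ∩ Set.Ioc 1 x = ∅ := by
    ext t
    simp only [Set.mem_inter_iff, Set.mem_ofPred_eq, Set.mem_Ioc, Set.mem_empty_iff_false,
      iff_false]
    rintro ⟨h1, h2⟩
    have h3 : (m : ℝ) ^ 2 ≤ x := h1.2.1.trans h2.2
    have h4 : m * m ≤ ⌊x⌋₊ := by
      apply Nat.le_floor
      push_cast
      nlinarith
    rw [← Nat.le_sqrt] at h4
    omega
  rw [this]
  simp

lemma sum_SS_le {X0 x : ℝ} (hX0 : 1 ≤ X0) (hx : 1 ≤ x) {J : ℕ} (hJ : J ≤ ⌊x⌋₊) :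
    ∑ m ∈ Icc 1 J, volume.real (SS X0 x m) / m ≤ ∫ t in (1 : ℝ)..x, W t := by
  rw [integral_W hx]
  calc ∑ m ∈ Icc 1 J, volume.real (SS X0 x m) / m
      ≤ ∑ m ∈ Icc 1 J, volume.real ({t | E t m} ∩ Set.Ioc 1 x) / m := by
        apply Finset.sum_le_sum
        intro m hm
        rw [Finset.mem_Icc] at hm
        exact div_le_div_of_nonneg_right (SS_le hX0 hm.1) (Nat.cast_nonneg m)
    _ ≤ _ := by
        apply Finset.sum_le_sum_of_subset_of_nonneg
        · exact Finset.Icc_subset_Icc_right hJ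
        · intro m _ _; positivity

lemma le_sum_SS {X0 x : ℝ} (hX0 : 1 ≤ X0) (hx : 1 ≤ x) :
    ∫ t in (1 : ℝ)..x, W t ≤ ∑ m ∈ Icc 1 (Nat.sqrt ⌊x⌋₊), volume.real (SS X0 x m) / m +
      X0 * (1 + log x) := by
  rw [integral_W hx]
  have hsub : Icc 1 (Nat.sqrt ⌊x⌋₊) ⊆ Icc 1 ⌊x⌋₊ :=
    Finset.Icc_subset_Icc_right (Nat.sqrt_le_self _)
  rw [← Finset.sum_subset hsub]
  · calc ∑ m ∈ Icc 1 (Nat.sqrt ⌊x⌋₊), volume.real ({t | E t m} ∩ Set.Ioc 1 x) / m
        ≤ ∑ m ∈ Icc 1 (Nat.sqrt ⌊x⌋₊), (volume.real (SS X0 x m) / m + X0 * (1 / m)) := by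
          apply Finset.sum_le_sum
          intro m hm
          have h1 := le_SS (x := x) (m := m) hX0
          calc volume.real ({t | E t m} ∩ Set.Ioc 1 x) / m ≤ (volume.real (SS X0 x m) + X0) / m :=
                div_le_div_of_nonneg_right h1 (Nat.cast_nonneg m)
            _ = _ := by ring
      _ = ∑ m ∈ Icc 1 (Nat.sqrt ⌊x⌋₊), volume.real (SS X0 x m) / m +
          X0 * ∑ m ∈ Icc 1 (Nat.sqrt ⌊x⌋₊), (1 : ℝ) / m := by
          rw [Finset.sum_add_distrib, Finset.mul_sum]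
      _ ≤ _ := by
          have h1 : ∑ m ∈ Icc 1 (Nat.sqrt ⌊x⌋₊), (1 : ℝ) / m ≤ 1 + log x := by
            have h2 : Icc 1 (Nat.sqrt ⌊x⌋₊) = Ioc 0 (Nat.sqrt ⌊x⌋₊) := by
              ext; simp [Finset.mem_Ioc, Finset.mem_Icc]; omega
            rw [h2]
            refine (sum_inv_Ioc_le _).trans ?_
            have h3 : log (Nat.sqrt ⌊x⌋₊ : ℝ) ≤ log x := by
              rcases Nat.eq_zero_or_pos (Nat.sqrt ⌊x⌋₊) with h | h
              · rw [h]
                have := Real.log_nonneg hx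
                simpa using this
              · apply Real.log_le_log (by exact_mod_cast h)
                calc (Nat.sqrt ⌊x⌋₊ : ℝ) ≤ ⌊x⌋₊ := by exact_mod_cast Nat.sqrt_le_self _
                  _ ≤ x := Nat.floor_le (by linarith)
            linarith
          have : 0 ≤ X0 := by linarith
          gcongr
  · intro m _ hm
    rw [Finset.mem_Icc] at hm
    push Not at hm
    rcases Nat.eq_zero_or_pos m with h | h
    · rw [h]; simp
    · rw [EI_eq_zero (hm h)]; simp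

end Pool.Agent.Work.MP_98b61d_nt
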