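import Pool.Agent.Work.MP_98b61d_nt.Main1

/-!
`N x = x (log x)^(-1+o(1))`.
-/

namespace Pool.Agent.Work.MP_98b61d_nt

open Finset Real Filter

lemma F_prime {p : ℕ} (hp : p.Prime) : F p = p := by
  classical
  apply le_antisymm
  · unfold F
    apply Finset.sup_le
    intro A hA
    rw [Finset.mem_filter, Finset.mem_powerset] at hA
    obtain ⟨h1, h2, h3⟩ := hA.2
    have h4 : ∀ a ∈ A, a = p := by
      intro a ha
      have ha2 := h1 a ha
      obtain ⟨q, hq, hqa⟩ := Nat.exists_prime_and_dvd (n := a) (by omega)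
      have h5 := h3 a ha q hq hqa
      have h6 : q = p := (Nat.prime_dvd_prime_iff_eq hq hp).mp h5
      have h7 : p ≤ a := by
        rw [← h6]; exact Nat.le_of_dvd (by omega) hqa
      omega
    have h5 : A ⊆ {p} := by
      intro a ha; rw [Finset.mem_singleton]; exact h4 a ha
    calc ∑ a ∈ A, a ≤ ∑ a ∈ {p}, a := Finset.sum_le_sum_of_subset h5
      _ = p := by simp
  · have h : Admissible p {p} := by
      refine ⟨?_, ?_, ?_⟩
      · intro a ha; rw [Finset.mem_singleton] at ha; subst ha; exact ⟨hp.two_le, le_refl _⟩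
      · intro a ha b hb hab
        rw [Finset.mem_singleton] at ha hb
        exact absurd (ha.trans hb.symm) hab
      · intro a ha q _ hqa
        rw [Finset.mem_singleton] at ha
        rwa [ha] at hqa
    have := sum_le_F h
    simpa using this

lemma f_prime {p : ℕ} (hp : p.Prime) : f p = p := by
  unfold f
  rw [hp.primeFactors, Finset.sum_singleton]
  have : Nat.log p p = 1 := by
    have := Nat.log_pow hp.one_lt 1
    rwa [pow_one] at this
  rw [this, pow_one]

lemma N_eq (x : ℝ) : N x = ((Ioo 0 ⌈x⌉₊).filter (fun n => n ∈ relSet ⌈x⌉₊)).card := by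
  unfold N
  rw [← Fintype.card_coe, ← Nat.card_eq_fintype_card]
  apply Nat.card_congr
  apply Equiv.subtypeEquivRight
  intro n
  rw [Finset.mem_filter, Finset.mem_Ioo, mem_relSet]
  constructor
  · rintro ⟨h1, h2, h3⟩
    exact ⟨⟨h1, Nat.lt_ceil.mpr h2⟩, ⟨h1, (Nat.lt_ceil.mpr h2).le⟩, h3⟩
  · rintro ⟨⟨h1, h2⟩, ⟨_, _⟩, h3⟩
    exact ⟨h1, Nat.lt_ceil.mp h2, h3⟩

lemma N_le (x : ℝ) : N x ≤ (relSet ⌊x⌋₊).card := by
  rw [N_eq]
  apply Finset.card_le_card
  intro n hn
  rw [Finset.mem_filter, Finset.mem_Ioo, mem_relSet] at hn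
  rw [mem_relSet]
  refine ⟨⟨hn.1.1, ?_⟩, hn.2.2⟩
  have := Nat.lt_ceil.mp hn.1.2
  exact Nat.le_floor this.le

lemma le_N (x : ℝ) : Nat.primeCounting ⌊x⌋₊ ≤ N x + 1 := by
  rw [N_eq]
  have h1 : Nat.primeCounting ⌊x⌋₊ = ((Ioc 0 ⌊x⌋₊).filter Nat.Prime).card := by
    rw [Nat.primeCounting, Nat.primeCounting', Nat.count_eq_card_filter_range]
    congr 1
    ext p
    simp only [Finset.mem_filter, Finset.mem_range, Finset.mem_Ioc]
    constructor
    · rintro ⟨h1, h2⟩; exact ⟨⟨h2.pos, by omega⟩, h2⟩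
    · rintro ⟨h1, h2⟩; exact ⟨by omega, h2⟩
  rw [h1]
  have h2 : (Ioc 0 ⌊x⌋₊).filter Nat.Prime ⊆
      insert ⌊x⌋₊ ((Ioo 0 ⌈x⌉₊).filter (fun n => n ∈ relSet ⌈x⌉₊)) := by
    intro p hp
    rw [Finset.mem_filter, Finset.mem_Ioc] at hp
    rw [Finset.mem_insert]
    rcases Nat.lt_or_ge p ⌊x⌋₊ with h | h
    · right
      have h3 : ⌊x⌋₊ ≤ ⌈x⌉₊ := Nat.floor_le_ceil x
      rw [Finset.mem_filter, Finset.mem_Ioo, mem_relSet]
      refine ⟨⟨hp.1.1, by omega⟩, ⟨hp.1.1, by omega⟩, ?_⟩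
      rw [f_prime hp.2, F_prime hp.2]
    · left; omega
  exact (Finset.card_le_card h2).trans (Finset.card_insert_le _ _)

lemma N_ge : ∀ᶠ x : ℝ in atTop, x / (2 * log x) ≤ N x := by
  have h1 : ∀ᶠ x : ℝ in atTop, 1000 * (3 + 1 * log x) ^ 1 ≤ x := eventually_log_pow_le 1000 3 1 1
  filter_upwards [h1, eventually_ge_atTop 100] with x hx hx100
  have hx0 : 0 < x := by linarith
  have hlx : 0 < log x := Real.log_pos (by linarith)
  have h2 := Chebyshev.pi_ge' (x := x) (by linarith)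
  have h3 : (Nat.primeCounting ⌊x⌋₊ : ℝ) ≤ N x + 1 := by exact_mod_cast le_N x
  have h4 : log (x + 2) ≤ 1 + log x := by
    have : x + 2 ≤ exp 1 * x := by
      have := Real.exp_one_gt_d9
      nlinarith
    calc log (x + 2) ≤ log (exp 1 * x) := Real.log_le_log (by linarith) this
      _ = 1 + log x := by rw [Real.log_mul (Real.exp_pos 1).ne' hx0.ne', Real.log_exp]
  have hlog2 := Real.log_two_gt_d9
  have h5 : x / (2 * log x) + 1 ≤ ((x - 1) * log 2 - log (x + 2)) / log x := by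
    rw [div_add_one (by positivity), div_le_div_iff₀ (by positivity) hlx]
    have h6 : x + 2 * log x ≤ 2 * ((x - 1) * log 2 - log (x + 2)) := by nlinarith
    nlinarith
  linarith

/-- `N x = x (log x)^(-1 + o(1))`. -/
theorem main_exponent :
    Tendsto (fun x : ℝ => log ((N x : ℝ) / x) / log (log x)) atTop (nhds (-1)) := by
  rw [Metric.tendsto_atTop]
  intro ε hε
  have h1 := relSet_card_le_rpow (ε := ε / 2) (by positivity)
  have h2 := N_ge
  have h3 : ∀ᶠ x : ℝ in atTop, 4 / ε ≤ log (log x) :=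
    (Real.tendsto_log_atTop.comp Real.tendsto_log_atTop).eventually_ge_atTop (4 / ε)
  obtain ⟨x₀, hx₀⟩ := Filter.eventually_atTop.mp
    (h1.and (h2.and (h3.and (eventually_ge_atTop (exp (exp 1))))))
  refine ⟨x₀, fun x hx => ?_⟩
  obtain ⟨a1, a2, a3, a4⟩ := hx₀ x hx
  have hx0 : 0 < x := lt_of_lt_of_le (Real.exp_pos _) a4
  have hlx : exp 1 ≤ log x := by rwa [Real.le_log_iff_exp_le hx0]
  have hlx0 : 0 < log x := lt_of_lt_of_le (Real.exp_pos _) hlx
  have hllx : 1 ≤ log (log x) := by rwa [Real.le_log_iff_exp_le hlx0]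
  have hN : (N x : ℝ) ≤ x / (log x) ^ (1 - ε / 2) := by
    have : (N x : ℝ) ≤ ((relSet ⌊x⌋₊).card : ℝ) := by exact_mod_cast N_le x
    exact this.trans a1
  have hN0 : 0 < (N x : ℝ) := lt_of_lt_of_le (by positivity) a2
  have hup : log ((N x : ℝ) / x) ≤ -(1 - ε / 2) * log (log x) := by
    have h5 : (N x : ℝ) / x ≤ (log x) ^ (-(1 - ε / 2)) := by
      rw [Real.rpow_neg hlx0.le, div_le_iff₀ hx0]
      calc (N x : ℝ) ≤ x / (log x) ^ (1 - ε / 2) := hN
        _ = _ := by rw [div_eq_mul_inv, mul_comm]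
    calc log ((N x : ℝ) / x) ≤ log ((log x) ^ (-(1 - ε / 2))) :=
          Real.log_le_log (by positivity) h5
      _ = -(1 - ε / 2) * log (log x) := Real.log_rpow hlx0 _
  have hlow : -(log 2) - log (log x) ≤ log ((N x : ℝ) / x) := by
    have h5 : 1 / (2 * log x) ≤ (N x : ℝ) / x := by
      rw [le_div_iff₀ hx0]
      calc 1 / (2 * log x) * x = x / (2 * log x) := by ring
        _ ≤ N x := a2
    have h6 := Real.log_le_log (by positivity) h5
    rw [one_div, Real.log_inv, Real.log_mul (by norm_num) hlx0.ne'] at h6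
    linarith
  have hlog2 := Real.log_two_lt_d9
  rw [Real.dist_eq, abs_lt]
  have hε4 : 4 ≤ ε * log (log x) := by
    rw [div_le_iff₀ hε] at a3; linarith
  have hd : 0 < log (log x) := by linarith
  constructor
  · rw [lt_sub_iff_add_lt, lt_div_iff₀ hd]
    nlinarith
  · rw [sub_lt_iff_lt_add, div_lt_iff₀ hd]
    nlinarith

end Pool.Agent.Work.MP_98b61d_nt
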