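import Pool.Agent.Work.MP_98b61d_nt.Asym1
import Pool.Agent.Work.MP_98b61d_nt.Main2

/-!
The asymptotic formula for `N x`.
-/

namespace Pool.Agent.Work.MP_98b61d_nt

open Finset Real Filter MeasureTheory

lemma relSet_le_N (x : ℝ) : (relSet ⌊x⌋₊).card ≤ N x + 1 := by
  rw [N_eq]
  have h2 : relSet ⌊x⌋₊ ⊆
      insert ⌊x⌋₊ ((Ioo 0 ⌈x⌉₊).filter (fun n => n ∈ relSet ⌈x⌉₊)) := by
    intro p hp
    rw [mem_relSet] at hp
    rw [Finset.mem_insert]
    rcases Nat.lt_or_ge p ⌊x⌋₊ with h | h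
    · right
      have h3 : ⌊x⌋₊ ≤ ⌈x⌉₊ := Nat.floor_le_ceil x
      rw [Finset.mem_filter, Finset.mem_Ioo, mem_relSet]
      refine ⟨⟨hp.1.1, by omega⟩, ⟨hp.1.1, by omega⟩, hp.2⟩
    · left; omega
  exact (Finset.card_le_card h2).trans (Finset.card_insert_le _ _)

lemma SS_integral_ge {X0 x : ℝ} {m : ℕ} (hm : 1 ≤ m) (h2m : 2 * (m : ℝ) ≤ uu X0 m)
    (hL : 0 < log x) :
    volume.real (SS X0 x m) / log x ≤ ∫ t in SS X0 x m, 1 / Real.log (t / m) := by
  have hmR : (1 : ℝ) ≤ m := by exact_mod_cast hm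
  have hint : IntegrableOn (fun t => 1 / Real.log (t / m)) (SS X0 x m) :=
    (Pool.Agent.Work.Shared.PNT.integrableOn_inv_log hm h2m).mono_set Set.inter_subset_right
  have h1 : ∫ t in SS X0 x m, (1 / log x) ≤ ∫ t in SS X0 x m, 1 / Real.log (t / m) := by
    apply setIntegral_mono_on _ hint (measurable_SS X0 x m)
    · rintro t ⟨_, ht1, ht2⟩
      have ht0 : 2 * (m : ℝ) < t := lt_of_le_of_lt h2m ht1
      have ht : 0 < t := by linarith
      have htm : 2 < t / m := by rw [lt_div_iff₀ (by linarith)]; linarith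
      have hl1 : 0 < log (t / m) := Real.log_pos (by linarith)
      have hl2 : log (t / m) ≤ log x := by
        apply Real.log_le_log (by linarith)
        refine (div_le_self ht.le hmR).trans ht2
      exact one_div_le_one_div_of_le hl1 hl2
    · exact integrableOn_const (volume_SS_lt X0 x m).ne
  rw [setIntegral_const, smul_eq_mul] at h1
  refine le_trans (le_of_eq ?_) h1
  ring

lemma SS_integral_le {X0 x lam : ℝ} {m : ℕ} (hm : 1 ≤ m) (h2m : 2 * (m : ℝ) ≤ uu X0 m)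
    (hX0 : 0 < X0) (hlam : 0 < lam) (hle : lam ≤ log X0 - log m) :
    ∫ t in SS X0 x m, 1 / Real.log (t / m) ≤ volume.real (SS X0 x m) / lam := by
  have hmR : (0 : ℝ) < m := by exact_mod_cast hm
  have hint : IntegrableOn (fun t => 1 / Real.log (t / m)) (SS X0 x m) :=
    (Pool.Agent.Work.Shared.PNT.integrableOn_inv_log hm h2m).mono_set Set.inter_subset_right
  have h1 : ∫ t in SS X0 x m, 1 / Real.log (t / m) ≤ ∫ t in SS X0 x m, (1 / lam) := by
    apply setIntegral_mono_on hint _ (measurable_SS X0 x m)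
    · rintro t ⟨_, ht1, ht2⟩
      have ht0 : X0 < t := (le_max_right _ _).trans_lt ht1
      have ht : 0 < t := by linarith
      have hl2 : lam ≤ log (t / m) := by
        rw [Real.log_div ht.ne' hmR.ne']
        have := Real.log_le_log hX0 ht0.le
        linarith
      exact one_div_le_one_div_of_le hlam hl2
    · exact integrableOn_const (volume_SS_lt X0 x m).ne
  rw [setIntegral_const, smul_eq_mul] at h1
  refine h1.trans (le_of_eq ?_)
  ring

lemma sum_error_le {C x L : ℝ} {J : ℕ} (hC : 0 < C) (hx : 0 < x) (hL : 1 ≤ L)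
    (hJ : log J ≤ L) : ∑ m ∈ Icc 1 J, C * (x / m) / L ^ 4 ≤ 2 * C * x / L ^ 3 := by
  have h1 : ∑ m ∈ Icc 1 J, C * (x / m) / L ^ 4 = (C * x / L ^ 4) * ∑ m ∈ Icc 1 J, (1 : ℝ) / m := by
    rw [Finset.mul_sum]
    apply Finset.sum_congr rfl
    intro m _
    ring
  have h2 : Icc 1 J = Ioc 0 J := by ext; simp [Finset.mem_Ioc, Finset.mem_Icc]; omega
  have h3 : ∑ m ∈ Icc 1 J, (1 : ℝ) / m ≤ 2 * L := by
    rw [h2]
    have := sum_inv_Ioc_le J
    linarith
  rw [h1]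
  calc (C * x / L ^ 4) * ∑ m ∈ Icc 1 J, (1 : ℝ) / m ≤ (C * x / L ^ 4) * (2 * L) := by gcongr
    _ = 2 * C * x / L ^ 3 := by field_simp

/-- two-sided bounds for the number of `n ≤ x` with `f n = F n`. -/
lemma relSet_bounds' : ∃ C : ℝ, 0 < C ∧ ∀ᶠ D : ℝ in atTop, ∀ x : ℝ, x = exp (D ^ 80) →
    (∫ t in (1 : ℝ)..x, W t) / D ^ 80 - (x / D ^ 160 * (1 + D ^ 80)) / D ^ 80 -
        2 * C * x / (D ^ 80) ^ 3 ≤ ((relSet ⌊x⌋₊).card : ℝ) ∧
    ((relSet ⌊x⌋₊).card : ℝ) ≤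
      (∑ m ∈ Icc 1 ⌊exp (D ^ 20)⌋₊, volume.real (SS (x / D ^ 160) x m) / m) / (D ^ 80 - D ^ 21) +
        x / D ^ 160 + 8 * (x / D ^ 81) + 2 * C * x / (D ^ 80) ^ 3 ∧
    ∑ m ∈ Icc 1 ⌊exp (D ^ 20)⌋₊, volume.real (SS (x / D ^ 160) x m) / m ≤
      ∫ t in (1 : ℝ)..x, W t := by
  obtain ⟨C, hC, hpc⟩ := piece_count
  refine ⟨C, hC, ?_⟩
  have a1 := eventually_log_pow_le 1 1 160 1
  filter_upwards [tail_card_le, a1, eventually_ge_atTop 8] with D htail b1 hD
  intro x hx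
  have htail' := htail x hx
  rw [pow_one, one_mul] at b1
  have hD0 : 0 < D := by linarith
  have hD1 : 1 ≤ D := by linarith
  have hpow : ∀ a b : ℕ, a ≤ b → D ^ a ≤ D ^ b := fun a b hab => pow_le_pow_right₀ hD1 hab
  have hx0 : 0 < x := by rw [hx]; exact Real.exp_pos _
  have hlogx : log x = D ^ 80 := by rw [hx, Real.log_exp]
  have hlogD : 0 ≤ log D := Real.log_nonneg hD1
  have hp160 : 0 < D ^ 160 := by positivity
  have hp80 : 0 < D ^ 80 := by positivity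
  have hL1 : 1 ≤ D ^ 80 := one_le_pow₀ hD1
  have e80 : D ^ 80 = D ^ 78 * D ^ 2 := by rw [← pow_add]
  have h64 : 64 ≤ D ^ 2 := by nlinarith
  have e2178 : D ^ 21 ≤ D ^ 78 := hpow _ _ (by norm_num)
  have e178 : D ≤ D ^ 78 := by
    calc D = D ^ 1 := (pow_one D).symm
      _ ≤ D ^ 78 := hpow _ _ (by norm_num)
  have e78 : 0 < D ^ 78 := by positivity
  have e2021 : D ^ 20 + D ≤ D ^ 21 := by
    have c1 : D ^ 21 = D ^ 20 * D := by rw [← pow_succ]
    have c2 : D ≤ D ^ 20 := by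
      calc D = D ^ 1 := (pow_one D).symm
        _ ≤ D ^ 20 := hpow _ _ (by norm_num)
    have c3 : 0 < D ^ 20 := by positivity
    rw [c1]; nlinarith
  have h21L : 4 * D ^ 21 ≤ D ^ 80 := by rw [e80]; nlinarith
  obtain ⟨X0, hX0⟩ : ∃ X0, X0 = x / D ^ 160 := ⟨_, rfl⟩
  have hX0pos : 0 < X0 := by rw [hX0]; positivity
  have hlogX0 : log X0 = D ^ 80 - 160 * log D := by
    rw [hX0, Real.log_div hx0.ne' hp160.ne', hlogx, Real.log_pow]
    norm_num
  have hM : exp (D ^ 20) ^ 2 ≤ X0 := by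
    rw [← Real.exp_log hX0pos, ← Real.exp_nat_mul]
    apply Real.exp_le_exp.mpr
    rw [hlogX0]
    push_cast
    linarith
  have hX02 : 2 ≤ X0 := by
    refine le_trans ?_ hM
    have h1 : 1 ≤ D ^ 20 := one_le_pow₀ hD1
    have h2 := Real.add_one_le_exp (D ^ 20)
    nlinarith
  have hX01 : 1 ≤ X0 := by linarith
  have hX0x : X0 ≤ x := by
    rw [hX0]; exact div_le_self hx0.le (one_le_pow₀ hD1)
  have hx1 : 1 ≤ x := by linarith
  have h2u : ∀ m : ℕ, 1 ≤ m → 2 * (m : ℝ) ≤ uu X0 m := by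
    intro m hm
    rcases Nat.lt_or_ge m 2 with h | h
    · have : m = 1 := by omega
      rw [this]
      refine le_trans ?_ (le_max_right _ _)
      push_cast; linarith
    · refine le_trans ?_ (le_max_left _ _)
      have : (2 : ℝ) ≤ m := by exact_mod_cast h
      nlinarith
  have hfin : ∀ m : ℕ, m ∈ Icc 1 (Nat.sqrt ⌊x⌋₊) → 1 ≤ m ∧ (m : ℝ) ^ 2 ≤ x := by
    intro m hm
    rw [Finset.mem_Icc] at hm
    refine ⟨hm.1, ?_⟩
    have h1 : m * m ≤ ⌊x⌋₊ := Nat.le_sqrt.mp hm.2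
    calc (m : ℝ) ^ 2 = ((m * m : ℕ) : ℝ) := by push_cast; ring
      _ ≤ ⌊x⌋₊ := by exact_mod_cast h1
      _ ≤ x := Nat.floor_le hx0.le
  have hpc' : ∀ m : ℕ, m ∈ Icc 1 (Nat.sqrt ⌊x⌋₊) →
      |(cc X0 x m : ℝ) - (1 / m) * ∫ t in SS X0 x m, 1 / Real.log (t / m)| ≤
        C * (x / m) / (D ^ 80) ^ 4 := by
    intro m hm
    obtain ⟨hm1, hm2⟩ := hfin m hm
    have := hpc m (uu X0 m) x hm1 (h2u m hm1) (max_le hm2 hX0x) hm2 (by
      rw [hlogx, e80]; nlinarith)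
    rw [hlogx] at this
    exact this
  have hLpos : 0 < log x := by rw [hlogx]; exact hp80
  constructor
  · -- lower bound
    have h1 : (∑ m ∈ Icc 1 (Nat.sqrt ⌊x⌋₊), (cc X0 x m : ℝ)) ≤ ((relSet ⌊x⌋₊).card : ℝ) := by
      exact_mod_cast sum_cc_le X0 x (Nat.sqrt ⌊x⌋₊)
    have h2 : ∑ m ∈ Icc 1 (Nat.sqrt ⌊x⌋₊), (volume.real (SS X0 x m) / m / D ^ 80 -
        C * (x / m) / (D ^ 80) ^ 4) ≤ ∑ m ∈ Icc 1 (Nat.sqrt ⌊x⌋₊), (cc X0 x m : ℝ) := by
      apply Finset.sum_le_sum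
      intro m hm
      obtain ⟨hm1, hm2⟩ := hfin m hm
      have h3 := (abs_le.mp (hpc' m hm)).1
      have h4 := SS_integral_ge (x := x) hm1 (h2u m hm1) hLpos
      rw [hlogx] at h4
      have hmR : (0 : ℝ) < m := by exact_mod_cast hm1
      have h5 : volume.real (SS X0 x m) / m / D ^ 80 ≤
          (1 / m) * ∫ t in SS X0 x m, 1 / Real.log (t / m) := by
        calc volume.real (SS X0 x m) / m / D ^ 80 = (1 / m) * (volume.real (SS X0 x m) / D ^ 80) := by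
              ring
          _ ≤ _ := by gcongr
      linarith
    rw [Finset.sum_sub_distrib, ← Finset.sum_div] at h2
    have h6 := le_sum_SS (X0 := X0) hX01 hx1
    rw [hlogx] at h6
    have h7 : log (Nat.sqrt ⌊x⌋₊ : ℝ) ≤ D ^ 80 := by
      rcases Nat.eq_zero_or_pos (Nat.sqrt ⌊x⌋₊) with h | h
      · rw [h]; simpa using hp80.le
      · rw [← hlogx]
        apply Real.log_le_log (by exact_mod_cast h)
        calc (Nat.sqrt ⌊x⌋₊ : ℝ) ≤ ⌊x⌋₊ := by exact_mod_cast Nat.sqrt_le_self _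
          _ ≤ x := Nat.floor_le (by linarith)
    have h8 := sum_error_le (J := Nat.sqrt ⌊x⌋₊) hC hx0 hL1 h7
    have h9 : (∫ t in (1 : ℝ)..x, W t) / D ^ 80 - (X0 * (1 + D ^ 80)) / D ^ 80 ≤
        (∑ m ∈ Icc 1 (Nat.sqrt ⌊x⌋₊), volume.real (SS X0 x m) / m) / D ^ 80 := by
      rw [← sub_div]
      apply div_le_div_of_nonneg_right _ hp80.le
      linarith
    rw [← hX0]
    linarith
  · -- upper bound
    have h1 := card_relSet_le (D := D) (x := x) hX0pos.le hM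
    have hMsqrt : ⌊exp (D ^ 20)⌋₊ ≤ Nat.sqrt ⌊x⌋₊ := by
      rw [Nat.le_sqrt]
      apply Nat.le_floor
      have h2 : (⌊exp (D ^ 20)⌋₊ : ℝ) ≤ exp (D ^ 20) := Nat.floor_le (Real.exp_pos _).le
      have h3 : (0 : ℝ) ≤ ⌊exp (D ^ 20)⌋₊ := Nat.cast_nonneg _
      push_cast
      nlinarith
    have hlam : 0 < D ^ 80 - D ^ 21 := by nlinarith
    have h2 : ∑ m ∈ Icc 1 ⌊exp (D ^ 20)⌋₊, (cc X0 x m : ℝ) ≤
        ∑ m ∈ Icc 1 ⌊exp (D ^ 20)⌋₊, (volume.real (SS X0 x m) / m / (D ^ 80 - D ^ 21) +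
        C * (x / m) / (D ^ 80) ^ 4) := by
      apply Finset.sum_le_sum
      intro m hm
      have hm' : m ∈ Icc 1 (Nat.sqrt ⌊x⌋₊) := Finset.Icc_subset_Icc_right hMsqrt hm
      obtain ⟨hm1, hm2⟩ := hfin m hm'
      have h3 := (abs_le.mp (hpc' m hm')).2
      have hmR : (0 : ℝ) < m := by exact_mod_cast hm1
      have hlogm : log (m : ℝ) ≤ D ^ 20 := by
        rw [Real.log_le_iff_le_exp hmR]
        rw [Finset.mem_Icc] at hm
        exact le_trans (by exact_mod_cast hm.2) (Nat.floor_le (Real.exp_pos _).le)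
      have h4 := SS_integral_le (x := x) hm1 (h2u m hm1) hX0pos hlam (by rw [hlogX0]; linarith)
      have h5 : (1 / m) * ∫ t in SS X0 x m, 1 / Real.log (t / m) ≤
          volume.real (SS X0 x m) / m / (D ^ 80 - D ^ 21) := by
        calc (1 / m) * ∫ t in SS X0 x m, 1 / Real.log (t / m) ≤
            (1 / m) * (volume.real (SS X0 x m) / (D ^ 80 - D ^ 21)) := by gcongr
          _ = _ := by ring
      linarith
    rw [Finset.sum_add_distrib, ← Finset.sum_div] at h2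
    have h6 := sum_SS_le (X0 := X0) hX01 hx1 (hMsqrt.trans (Nat.sqrt_le_self _))
    have h7 : log (⌊exp (D ^ 20)⌋₊ : ℝ) ≤ D ^ 80 :=
      (log_floor_exp_le (by positivity)).trans (hpow _ _ (by norm_num))
    have h8 := sum_error_le (J := ⌊exp (D ^ 20)⌋₊) hC hx0 hL1 h7
    rw [← hX0]
    exact ⟨by linarith, h6⟩

/-- two-sided bounds for the number of `n ≤ x` with `f n = F n`. -/
lemma relSet_bounds : ∃ C : ℝ, 0 < C ∧ ∀ᶠ D : ℝ in atTop, ∀ x : ℝ, x = exp (D ^ 80) →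
    (∫ t in (1 : ℝ)..x, W t) / D ^ 80 - (x / D ^ 160 * (1 + D ^ 80)) / D ^ 80 -
        2 * C * x / (D ^ 80) ^ 3 ≤ ((relSet ⌊x⌋₊).card : ℝ) ∧
    ((relSet ⌊x⌋₊).card : ℝ) ≤ (∫ t in (1 : ℝ)..x, W t) / (D ^ 80 - D ^ 21) +
        x / D ^ 160 + 8 * (x / D ^ 81) + 2 * C * x / (D ^ 80) ^ 3 := by
  obtain ⟨C, hC, h⟩ := relSet_bounds'
  refine ⟨C, hC, ?_⟩
  filter_upwards [h, eventually_ge_atTop 8] with D hb hD
  intro x hx
  obtain ⟨h1, h2, h3⟩ := hb x hx
  refine ⟨h1, h2.trans ?_⟩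
  have hlam : 0 < D ^ 80 - D ^ 21 := by
    have e1 : D ^ 80 = D ^ 21 * D ^ 59 := by rw [← pow_add]
    have e2 : D ≤ D ^ 59 := by
      calc D = D ^ 1 := (pow_one D).symm
        _ ≤ D ^ 59 := pow_le_pow_right₀ (by linarith) (by norm_num)
    have e3 : 0 < D ^ 21 := by positivity
    rw [e1]; nlinarith
  have h4 := div_le_div_of_nonneg_right h3 hlam.le
  linarith

/-- The asymptotic formula, in terms of the parameter `D = (log x)^(1/80)`. -/
lemma asymptotic_aux {ε : ℝ} (hε : 0 < ε) : ∀ᶠ D : ℝ in atTop, ∀ x : ℝ, x = exp (D ^ 80) →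
    |(N x : ℝ) - (∫ t in (1 : ℝ)..x, W t) / D ^ 80| ≤ ε * ((∫ t in (1 : ℝ)..x, W t) / D ^ 80) := by
  obtain ⟨C, hC, hbd⟩ := relSet_bounds
  filter_upwards [hbd, eventually_ge_atTop 8, eventually_ge_atTop (8 * (10 + 2 * C) / ε)]
    with D hb hD hDε
  intro x hx
  obtain ⟨hlow, hup⟩ := hb x hx
  have hD0 : 0 < D := by linarith
  have hD1 : 1 ≤ D := by linarith
  have hpow : ∀ a b : ℕ, a ≤ b → D ^ a ≤ D ^ b := fun a b hab => pow_le_pow_right₀ hD1 hab
  have hx0 : 0 < x := by rw [hx]; exact Real.exp_pos _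
  have hp80 : 0 < D ^ 80 := by positivity
  have hp160 : 0 < D ^ 160 := by positivity
  rw [div_le_iff₀ hε] at hDε
  -- x is large
  have hxD : D ^ 81 ≤ x := by
    rw [hx]
    have h1 : D ^ 80 ≤ exp (D ^ 80) := by
      have := Real.add_one_le_exp (D ^ 80); linarith
    have h2 : (D ^ 80) ^ 2 / 2 ≤ exp (D ^ 80) := by
      have := Real.quadratic_le_exp_of_nonneg hp80.le
      linarith
    have h3 : 2 * D ^ 81 ≤ (D ^ 80) ^ 2 := by
      have e1 : (D ^ 80) ^ 2 = D ^ 81 * D ^ 79 := by rw [← pow_mul, ← pow_add]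
      have e2 : D ≤ D ^ 79 := by
        calc D = D ^ 1 := (pow_one D).symm
          _ ≤ D ^ 79 := hpow _ _ (by norm_num)
      have e3 : 0 < D ^ 81 := by positivity
      rw [e1]; nlinarith
    linarith
  have hDle : D ≤ D ^ 81 := by
    calc D = D ^ 1 := (pow_one D).symm
      _ ≤ D ^ 81 := hpow _ _ (by norm_num)
  have hx1 : 1 ≤ x := by linarith
  obtain ⟨I, hI⟩ : ∃ I, I = ∫ t in (1 : ℝ)..x, W t := ⟨_, rfl⟩
  rw [← hI] at hlow hup ⊢
  have hIge : x / 2 ≤ I := by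
    have := integral_W_ge hx1
    rw [← hI] at this
    linarith
  have hN1 : (N x : ℝ) ≤ (relSet ⌊x⌋₊).card := by exact_mod_cast N_le x
  have hN2 : ((relSet ⌊x⌋₊).card : ℝ) ≤ N x + 1 := by exact_mod_cast relSet_le_N x
  -- error terms in units of `x / D^80`
  obtain ⟨y, hy⟩ : ∃ y, y = x / D ^ 80 := ⟨_, rfl⟩
  have hy0 : 0 < y := by rw [hy]; positivity
  have hyD : D ≤ y := by
    rw [hy, le_div_iff₀ hp80, ← pow_succ']
    exact hxD
  have t1 : x / D ^ 160 ≤ y / D := by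
    have e1 : D ^ 160 = D ^ 80 * D ^ 80 := by rw [← pow_add]
    rw [e1, ← div_div, ← hy]
    apply div_le_div_of_nonneg_left hy0.le hD0
    calc D = D ^ 1 := (pow_one D).symm
      _ ≤ D ^ 80 := hpow _ _ (by norm_num)
  have t2 : x / D ^ 81 = y / D := by
    have e1 : D ^ 81 = D ^ 80 * D := by rw [← pow_succ]
    rw [e1, ← div_div, ← hy]
  have t3 : 2 * C * x / (D ^ 80) ^ 3 ≤ 2 * C * (y / D) := by
    have e1 : 2 * C * x / (D ^ 80) ^ 3 = 2 * C * (y / (D ^ 80 * D ^ 80)) := by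
      rw [hy]; field_simp
    rw [e1]
    have e2 : D ≤ D ^ 80 * D ^ 80 := by
      calc D = D ^ 1 := (pow_one D).symm
        _ ≤ D ^ 160 := hpow _ _ (by norm_num)
        _ = D ^ 80 * D ^ 80 := by rw [← pow_add]
    gcongr
  have t4 : (x / D ^ 160 * (1 + D ^ 80)) / D ^ 80 ≤ 2 * (y / D) := by
    have e1 : (x / D ^ 160 * (1 + D ^ 80)) / D ^ 80 = x / D ^ 160 * ((1 + D ^ 80) / D ^ 80) := by
      ring
    rw [e1]
    have e2 : (1 + D ^ 80) / D ^ 80 ≤ 2 := by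
      rw [div_le_iff₀ hp80]
      have : 1 ≤ D ^ 80 := one_le_pow₀ hD1
      linarith
    have e3 : 0 ≤ x / D ^ 160 := by positivity
    nlinarith
  have t5 : (1 : ℝ) ≤ y / D := by rw [le_div_iff₀ hD0]; linarith
  have hyI : y / 2 ≤ I / D ^ 80 := by
    rw [hy, div_right_comm]
    exact div_le_div_of_nonneg_right hIge hp80.le
  have hyε : (10 + 2 * C) * (y / D) ≤ ε / 8 * y := by
    rw [← mul_div_assoc, div_le_iff₀ hD0]
    nlinarith
  have hI0 : 0 < I := by linarith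
  have hID : 0 < I / D ^ 80 := by positivity
  rw [abs_le]
  constructor
  · nlinarith
  · have hlam : 0 < D ^ 80 - D ^ 21 := by
      have e1 : D ^ 80 = D ^ 21 * D ^ 59 := by rw [← pow_add]
      have e2 : D ≤ D ^ 59 := by
        calc D = D ^ 1 := (pow_one D).symm
          _ ≤ D ^ 59 := hpow _ _ (by norm_num)
      have e3 : 0 < D ^ 21 := by positivity
      rw [e1]; nlinarith
    have hmain : I / (D ^ 80 - D ^ 21) ≤ (1 + ε / 2) * (I / D ^ 80) := by
      rw [div_le_iff₀ hlam]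
      have e1 : (1 + ε / 2) * (I / D ^ 80) * (D ^ 80 - D ^ 21) =
          I * ((1 + ε / 2) * (1 - D ^ 21 / D ^ 80)) := by
        field_simp
      rw [e1]
      have e2 : D ^ 21 / D ^ 80 ≤ 1 / D := by
        rw [div_le_div_iff₀ hp80 hD0, one_mul, ← pow_succ]
        exact hpow _ _ (by norm_num)
      have e3 : 1 ≤ (1 + ε / 2) * (1 - D ^ 21 / D ^ 80) := by
        have e4 : 1 / D ≤ 1 / 8 := one_div_le_one_div_of_le (by norm_num) hD
        have e5 : 1 / D ≤ ε / 80 := by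
          rw [div_le_div_iff₀ hD0 (by norm_num)]
          nlinarith
        nlinarith
      nlinarith
    nlinarith

/-- **The asymptotic formula**: `N x ~ (1 / log x) ∫_1^x W t dt`. -/
theorem N_isEquivalent : Asymptotics.IsEquivalent atTop (fun x : ℝ => (N x : ℝ))
    (fun x : ℝ => (∫ t in (1 : ℝ)..x, W t) / log x) := by
  rw [Asymptotics.IsEquivalent, Asymptotics.isLittleO_iff]
  intro ε hε
  have htend : Tendsto (fun x : ℝ => (log x) ^ ((1 : ℝ) / 80)) atTop atTop :=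
    (tendsto_rpow_atTop (by positivity)).comp Real.tendsto_log_atTop
  filter_upwards [htend.eventually (asymptotic_aux hε), eventually_gt_atTop (exp 1)]
    with x hx hxe
  have hx0 : 0 < x := lt_trans (Real.exp_pos 1) hxe
  have hlx : 1 < log x := by
    rwa [Real.lt_log_iff_exp_lt hx0]
  have hDr : ((log x) ^ ((1 : ℝ) / 80)) ^ 80 = log x := by
    rw [← Real.rpow_natCast, ← Real.rpow_mul (by linarith)]
    norm_num
  have h1 := hx x (by rw [hDr, Real.exp_log hx0])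
  rw [hDr] at h1
  have h2 : 0 ≤ (∫ t in (1 : ℝ)..x, W t) / log x := by
    have h3 : 1 ≤ x := by
      have := Real.add_one_le_exp (1 : ℝ)
      linarith
    have := integral_W_ge h3
    apply div_nonneg _ (by linarith)
    linarith
  rw [Pi.sub_apply, Real.norm_eq_abs, Real.norm_eq_abs, abs_of_nonneg h2]
  exact h1

end Pool.Agent.Work.MP_98b61d_nt
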