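import Pool.Agent.Work.MP_98b61d_nt.Defs

namespace Pool.Agent.Work.MP_98b61d_nt

open Finset

lemma sum_le_F {n : ℕ} {A : Finset ℕ} (hA : Admissible n A) : ∑ a ∈ A, a ≤ F n := by
  classical
  unfold F
  apply Finset.le_sup (f := fun A : Finset ℕ => ∑ a ∈ A, a)
  rw [Finset.mem_filter, Finset.mem_powerset]
  refine ⟨fun a ha => ?_, hA⟩
  exact Finset.mem_Icc.mpr (hA.1 a ha)

/-- The replacement lemma: if `f n = F n`, `D` is a set of prime factors of `n` and `b ≤ n` is
composed of primes of `D`, then `b` is at most the sum of the top powers of the primes of `D`. -/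
lemma le_sum_of_eq {n : ℕ} (hf : f n = F n) {D : Finset ℕ} (hD : D ⊆ n.primeFactors)
    (hne : D.Nonempty)
    {b : ℕ} (hb0 : b ≠ 0) (hbn : b ≤ n) (hb : b.primeFactors ⊆ D) :
    b ≤ ∑ p ∈ D, p ^ Nat.log p n := by
  classical
  have hn0 : n ≠ 0 := by omega
  rcases Nat.lt_or_ge b 2 with hb2 | hb2
  · -- b = 1
    obtain ⟨p, hp⟩ := hne
    have h1 : 1 ≤ p ^ Nat.log p n := by
      have := (Nat.prime_of_mem_primeFactors (hD hp)).pos
      exact Nat.one_le_pow _ _ this
    have h2 : p ^ Nat.log p n ≤ ∑ p ∈ D, p ^ Nat.log p n :=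
      Finset.single_le_sum (f := fun p => p ^ Nat.log p n) (fun _ _ => Nat.zero_le _) hp
    omega
  · set B : Finset ℕ := (n.primeFactors \ D).image (fun p => p ^ Nat.log p n) with hB
    have hprime : ∀ p ∈ n.primeFactors, p.Prime := fun p hp => Nat.prime_of_mem_primeFactors hp
    have hlog : ∀ p ∈ n.primeFactors, Nat.log p n ≠ 0 := by
      intro p hp
      have h1 := (hprime p hp).one_lt
      have h2 : p ≤ n := Nat.le_of_dvd (Nat.pos_of_ne_zero hn0) (Nat.dvd_of_mem_primeFactors hp)
      have := Nat.log_pos h1 h2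
      omega
    have hinj : Set.InjOn (fun p => p ^ Nat.log p n) (n.primeFactors \ D : Finset ℕ) := by
      intro p hp q hq hpq
      simp only [Finset.coe_sdiff, Set.mem_diff, Finset.mem_coe] at hp hq
      have hpp := hprime p hp.1
      have hqq := hprime q hq.1
      simp only at hpq
      have h1 : p ∣ q ^ Nat.log q n := by
        rw [← hpq]
        exact dvd_pow_self p (hlog p hp.1)
      exact (Nat.prime_dvd_prime_iff_eq hpp hqq).mp (hpp.dvd_of_dvd_pow h1)
    have hbB : b ∉ B := by
      intro hbB
      rw [hB, Finset.mem_image] at hbB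
      obtain ⟨p, hp, hpb⟩ := hbB
      rw [Finset.mem_sdiff] at hp
      apply hp.2
      apply hb
      rw [Nat.mem_primeFactors]
      refine ⟨hprime p hp.1, ?_, hb0⟩
      rw [← hpb]
      exact dvd_pow_self p (hlog p hp.1)
    have hadm : Admissible n (insert b B) := by
      refine ⟨?_, ?_, ?_⟩
      · intro a ha
        rw [Finset.mem_insert] at ha
        rcases ha with rfl | ha
        · exact ⟨hb2, hbn⟩
        · rw [hB, Finset.mem_image] at ha
          obtain ⟨p, hp, rfl⟩ := ha
          rw [Finset.mem_sdiff] at hp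
          have h1 := (hprime p hp.1).two_le
          have h2 : p ^ 1 ≤ p ^ Nat.log p n :=
            Nat.pow_le_pow_right (by omega) (by have := hlog p hp.1; omega)
          refine ⟨by rw [pow_one] at h2; omega, Nat.pow_log_le_self p hn0⟩
      · have key : ∀ p ∈ n.primeFactors \ D, Nat.Coprime b (p ^ Nat.log p n) := by
          intro p hp
          rw [Finset.mem_sdiff] at hp
          apply Nat.Coprime.pow_right
          rw [Nat.coprime_comm, (hprime p hp.1).coprime_iff_not_dvd]
          intro hpb
          apply hp.2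
          apply hb
          rw [Nat.mem_primeFactors]
          exact ⟨hprime p hp.1, hpb, hb0⟩
        intro a ha c hc hac
        rw [Finset.mem_insert] at ha hc
        rcases ha with rfl | ha
        · rcases hc with rfl | hc
          · exact absurd rfl hac
          · rw [hB, Finset.mem_image] at hc
            obtain ⟨p, hp, rfl⟩ := hc
            exact key p hp
        · rcases hc with rfl | hc
          · rw [hB, Finset.mem_image] at ha
            obtain ⟨p, hp, rfl⟩ := ha
            exact (key p hp).symm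
          · rw [hB, Finset.mem_image] at ha hc
            obtain ⟨p, hp, rfl⟩ := ha
            obtain ⟨q, hq, rfl⟩ := hc
            rw [Finset.mem_sdiff] at hp hq
            apply Nat.Coprime.pow
            rw [Nat.coprime_primes (hprime p hp.1) (hprime q hq.1)]
            rintro rfl
            exact hac rfl
      · intro a ha p hpp hpa
        rw [Finset.mem_insert] at ha
        rcases ha with rfl | ha
        · have : p ∈ D := hb (by rw [Nat.mem_primeFactors]; exact ⟨hpp, hpa, hb0⟩)
          exact Nat.dvd_of_mem_primeFactors (hD this)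
        · rw [hB, Finset.mem_image] at ha
          obtain ⟨q, hq, rfl⟩ := ha
          rw [Finset.mem_sdiff] at hq
          have := (Nat.prime_dvd_prime_iff_eq hpp (hprime q hq.1)).mp (hpp.dvd_of_dvd_pow hpa)
          rw [this]
          exact Nat.dvd_of_mem_primeFactors hq.1
    have h1 := sum_le_F hadm
    rw [Finset.sum_insert hbB, hB, Finset.sum_image hinj] at h1
    rw [← hf] at h1
    unfold f at h1
    rw [← Finset.sum_sdiff hD] at h1
    omega

/-- The pair version of the replacement lemma. -/
lemma pair_le {n : ℕ} (hf : f n = F n) {p q : ℕ} (hp : p ∈ n.primeFactors)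
    (hq : q ∈ n.primeFactors) (hpq : p ≠ q) {i j : ℕ} (h : p ^ i * q ^ j ≤ n) :
    p ^ i * q ^ j ≤ p ^ Nat.log p n + q ^ Nat.log q n := by
  classical
  have hpp := Nat.prime_of_mem_primeFactors hp
  have hqq := Nat.prime_of_mem_primeFactors hq
  have := le_sum_of_eq hf (D := {p, q}) (b := p ^ i * q ^ j) ?_ ?_ ?_ h ?_
  · rwa [Finset.sum_pair hpq] at this
  · intro a ha
    rw [Finset.mem_insert, Finset.mem_singleton] at ha
    rcases ha with rfl | rfl <;> assumption
  · exact ⟨p, by simp⟩
  · exact Nat.mul_ne_zero (pow_ne_zero _ hpp.ne_zero) (pow_ne_zero _ hqq.ne_zero)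
  · intro a ha
    rw [Nat.mem_primeFactors] at ha
    obtain ⟨h1, h2, h3⟩ := ha
    rw [Finset.mem_insert, Finset.mem_singleton]
    rcases (Nat.Prime.dvd_mul h1).mp h2 with h4 | h4
    · left; exact (Nat.prime_dvd_prime_iff_eq h1 hpp).mp (h1.dvd_of_dvd_pow h4)
    · right; exact (Nat.prime_dvd_prime_iff_eq h1 hqq).mp (h1.dvd_of_dvd_pow h4)

end Pool.Agent.Work.MP_98b61d_nt
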