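import Mathlib

/-!
Definitions for problem MP_98b61d_nt.
-/

namespace Pool.Agent.Work.MP_98b61d_nt

/-- `f n` is the sum over the primes `p` dividing `n` of the largest power of `p` not exceeding
`n`, that is `p ^ ⌊log_p n⌋`. -/
def f (n : ℕ) : ℕ := ∑ p ∈ n.primeFactors, p ^ Nat.log p n

/-- A finite set `A` of integers in `[2, n]` is admissible for `n` if its elements are pairwise
coprime and every prime factor of every element divides `n`. -/
def Admissible (n : ℕ) (A : Finset ℕ) : Prop :=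
  (∀ a ∈ A, 2 ≤ a ∧ a ≤ n) ∧
  (∀ a ∈ A, ∀ b ∈ A, a ≠ b → Nat.Coprime a b) ∧
  (∀ a ∈ A, ∀ p : ℕ, p.Prime → p ∣ a → p ∣ n)

open Classical in
/-- `F n` is the maximum of `∑ a ∈ A, a` over all sets `A` admissible for `n`. -/
noncomputable def F (n : ℕ) : ℕ :=
  ((Finset.Icc 2 n).powerset.filter (Admissible n)).sup (fun A => ∑ a ∈ A, a)

/-- `N x` is the number of integers `n` with `1 ≤ n < x` and `f n = F n`. -/
noncomputable def N (x : ℝ) : ℕ := Nat.card {n : ℕ // 1 ≤ n ∧ (n : ℝ) < x ∧ f n = F n}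

end Pool.Agent.Work.MP_98b61d_nt
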