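import Mathlib

/-!
Definitions for the main term of the asymptotic formula in problem MP_98b61d_nt.
-/

namespace Pool.Agent.Work.MP_98b61d_nt

/-- `fT t b` is the sum over the primes `p` dividing `b` of the largest power of `p` not
exceeding `t`, that is `p ^ ⌊log_p t⌋`. -/
noncomputable def fT (t : ℝ) (b : ℕ) : ℕ := ∑ p ∈ b.primeFactors, p ^ Nat.log p ⌊t⌋₊

/-- `E t m`: the positive integer `m ≤ √t` is such that every integer `b ≥ 2` all of whose prime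
factors divide `m` satisfies `b ≤ fT t b` if `b ≤ t`, and `(b - 1) t / m ≤ fT t b` if `b ≤ m`. -/
def E (t : ℝ) (m : ℕ) : Prop :=
  1 ≤ m ∧ (m : ℝ) ^ 2 ≤ t ∧
  ∀ b : ℕ, 2 ≤ b → (∀ p : ℕ, p.Prime → p ∣ b → p ∣ m) →
    ((b : ℝ) ≤ t → b ≤ fT t b) ∧ (b ≤ m → ((b : ℝ) - 1) * t / m ≤ fT t b)

open Classical in
/-- `W t` is the sum of `1 / m` over the integers `m` with `E t m`. -/
noncomputable def W (t : ℝ) : ℝ := ∑ m ∈ (Finset.Icc 1 ⌊t⌋₊).filter (E t), 1 / (m : ℝ)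

end Pool.Agent.Work.MP_98b61d_nt
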