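import Pool.Agent.Work.MP_98b61d_nt.Comb
import Pool.Agent.Work.MP_98b61d_nt.DefsW

/-!
For `n = m q` with a prime `q > m`: `f n = F n` if and only if `E n m`.
-/

namespace Pool.Agent.Work.MP_98b61d_nt

open Finset

/-- the integer version of `fT`. -/
def fN (n b : ℕ) : ℕ := ∑ p ∈ b.primeFactors, p ^ Nat.log p n

lemma fT_natCast (n b : ℕ) : fT (n : ℝ) b = fN n b := by
  unfold fT fN; rw [Nat.floor_natCast]

lemma log_ne_zero_of_mem {n p : ℕ} (hn : n ≠ 0) (hp : p ∈ n.primeFactors) : Nat.log p n ≠ 0 := by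
  have h1 := (Nat.prime_of_mem_primeFactors hp).one_lt
  have h2 : p ≤ n := Nat.le_of_dvd (Nat.pos_of_ne_zero hn) (Nat.dvd_of_mem_primeFactors hp)
  have := Nat.log_pos h1 h2
  omega

lemma f_le_F (n : ℕ) : f n ≤ F n := by
  classical
  rcases Nat.eq_zero_or_pos n with rfl | hn0
  · simp [f]
  have hn0' : n ≠ 0 := by omega
  have hprime : ∀ p ∈ n.primeFactors, p.Prime := fun p hp => Nat.prime_of_mem_primeFactors hp
  have hlog := fun p (hp : p ∈ n.primeFactors) => log_ne_zero_of_mem hn0' hp
  have hinj : Set.InjOn (fun p => p ^ Nat.log p n) (n.primeFactors : Finset ℕ) := by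
    intro p hp q hq hpq
    have hpp := hprime p hp
    have hqq := hprime q hq
    simp only at hpq
    have h1 : p ∣ q ^ Nat.log q n := by
      rw [← hpq]
      exact dvd_pow_self p (hlog p hp)
    exact (Nat.prime_dvd_prime_iff_eq hpp hqq).mp (hpp.dvd_of_dvd_pow h1)
  have hadm : Admissible n (n.primeFactors.image (fun p => p ^ Nat.log p n)) := by
    refine ⟨?_, ?_, ?_⟩
    · intro a ha
      rw [Finset.mem_image] at ha
      obtain ⟨p, hp, rfl⟩ := ha
      have h1 := (hprime p hp).two_le
      have h2 : p ^ 1 ≤ p ^ Nat.log p n :=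
        Nat.pow_le_pow_right (by omega) (by have := hlog p hp; omega)
      refine ⟨by rw [pow_one] at h2; omega, Nat.pow_log_le_self p hn0'⟩
    · intro a ha c hc hac
      rw [Finset.mem_image] at ha hc
      obtain ⟨p, hp, rfl⟩ := ha
      obtain ⟨q, hq, rfl⟩ := hc
      apply Nat.Coprime.pow
      rw [Nat.coprime_primes (hprime p hp) (hprime q hq)]
      rintro rfl
      exact hac rfl
    · intro a ha p hpp hpa
      rw [Finset.mem_image] at ha
      obtain ⟨q, hq, rfl⟩ := ha
      have := (Nat.prime_dvd_prime_iff_eq hpp (hprime q hq)).mp (hpp.dvd_of_dvd_pow hpa)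
      rw [this]
      exact Nat.dvd_of_mem_primeFactors hq
  have h1 := sum_le_F hadm
  rw [Finset.sum_image hinj] at h1
  exact h1

lemma F_le_f {n : ℕ} (hn : n ≠ 0)
    (h : ∀ a, 2 ≤ a → a ≤ n → (∀ p : ℕ, p.Prime → p ∣ a → p ∣ n) → a ≤ fN n a) :
    F n ≤ f n := by
  classical
  unfold F
  apply Finset.sup_le
  intro A hA
  rw [Finset.mem_filter, Finset.mem_powerset] at hA
  obtain ⟨h1, h2, h3⟩ := hA.2
  calc ∑ a ∈ A, a ≤ ∑ a ∈ A, fN n a :=
        Finset.sum_le_sum fun a ha => h a (h1 a ha).1 (h1 a ha).2 (h3 a ha)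
    _ = ∑ p ∈ A.biUnion (fun a => a.primeFactors), p ^ Nat.log p n := by
        rw [Finset.sum_biUnion]
        · rfl
        · intro a ha b hb hab
          exact Nat.Coprime.disjoint_primeFactors (h2 a ha b hb hab)
    _ ≤ f n := by
        unfold f
        apply Finset.sum_le_sum_of_subset
        intro p hp
        rw [Finset.mem_biUnion] at hp
        obtain ⟨a, ha, hpa⟩ := hp
        rw [Nat.mem_primeFactors] at hpa ⊢
        exact ⟨hpa.1, h3 a ha p hpa.1 hpa.2.1, hn⟩

lemma le_fN_of_eq {n : ℕ} (hf : f n = F n) {b : ℕ} (hb2 : 2 ≤ b) (hbn : b ≤ n)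
    (hb : ∀ p : ℕ, p.Prime → p ∣ b → p ∣ n) : b ≤ fN n b := by
  have hb0 : b ≠ 0 := by omega
  apply le_sum_of_eq hf (D := b.primeFactors) _ _ hb0 hbn (le_refl _)
  · intro p hp
    rw [Nat.mem_primeFactors] at hp ⊢
    exact ⟨hp.1, hb p hp.1 hp.2.1, by omega⟩
  · exact Nat.nonempty_primeFactors.mpr (by omega)

/-- Step (i): the exact criterion. -/
theorem f_eq_F_iff {m q : ℕ} (hm : 1 ≤ m) (hq : q.Prime) (hmq : m < q) :
    f (m * q) = F (m * q) ↔ E ((m * q : ℕ) : ℝ) m := by
  have hm0 : m ≠ 0 := by omega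
  have hn0 : m * q ≠ 0 := Nat.mul_ne_zero hm0 hq.ne_zero
  have hqn : q ≤ m * q := Nat.le_mul_of_pos_left q hm
  have hlogq : Nat.log q (m * q) = 1 := by
    rw [Nat.log_eq_iff (Or.inl one_ne_zero)]
    constructor
    · rw [pow_one]; exact hqn
    · rw [pow_add, pow_one]; exact Nat.mul_lt_mul_of_pos_right hmq hq.pos
  have hmR : (0 : ℝ) < m := by exact_mod_cast hm
  have hqm : ¬ q ∣ m := fun h => by have := Nat.le_of_dvd hm h; omega
  have hfN : ∀ b, b ≠ 0 → ¬ q ∣ b → fN (m * q) (q * b) = q + fN (m * q) b := by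
    intro b hb0 hqb
    unfold fN
    rw [Nat.primeFactors_mul hq.ne_zero hb0, hq.primeFactors,
      Finset.sum_union, Finset.sum_singleton, hlogq, pow_one]
    rw [Finset.disjoint_singleton_left, Nat.mem_primeFactors]
    exact fun h => hqb h.2.1
  have hdiv : (((m * q : ℕ) : ℝ)) / m = q := by
    push_cast; field_simp
  constructor
  · intro hf
    refine ⟨hm, ?_, ?_⟩
    · have : m ^ 2 ≤ m * q := by rw [pow_two]; exact Nat.mul_le_mul_left m hmq.le
      exact_mod_cast this
    · intro b hb2 hb
      rw [fT_natCast]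
      constructor
      · intro hbn
        have hbn' : b ≤ m * q := by exact_mod_cast hbn
        exact le_fN_of_eq hf hb2 hbn' (fun p hp hpb => Dvd.dvd.mul_right (hb p hp hpb) q)
      · intro hbm
        have hqb : ¬ q ∣ b := fun h => by have := Nat.le_of_dvd (by omega) h; omega
        have h1 : q * b ≤ fN (m * q) (q * b) := by
          apply le_fN_of_eq hf
          · have := hq.two_le
            nlinarith
          · rw [mul_comm m q]; exact Nat.mul_le_mul_left q hbm
          · intro p hp hpb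
            rcases (Nat.Prime.dvd_mul hp).mp hpb with h | h
            · exact Dvd.dvd.mul_left h m
            · exact Dvd.dvd.mul_right (hb p hp h) q
        rw [hfN b (by omega) hqb] at h1
        have h2 : (q : ℝ) * b ≤ q + fN (m * q) b := by exact_mod_cast h1
        rw [mul_div_assoc, hdiv]
        linarith
  · rintro ⟨_, _, hE⟩
    apply le_antisymm (f_le_F _)
    apply F_le_f hn0
    intro a ha2 han ha
    by_cases hqa : q ∣ a
    · obtain ⟨b, rfl⟩ := hqa
      have hb0 : b ≠ 0 := by rintro rfl; simp at ha2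
      have hbm : b ≤ m := by
        rw [mul_comm m q] at han
        exact Nat.le_of_mul_le_mul_left han hq.pos
      have hqb : ¬ q ∣ b := fun h => by have := Nat.le_of_dvd (by omega) h; omega
      rw [hfN b hb0 hqb]
      rcases Nat.lt_or_ge b 2 with hb2 | hb2
      · have : b = 1 := by omega
        subst this
        rw [mul_one]; exact Nat.le_add_right _ _
      · have hb : ∀ p : ℕ, p.Prime → p ∣ b → p ∣ m := by
          intro p hp hpb
          have h1 := ha p hp (Dvd.dvd.mul_left hpb q)
          rcases (Nat.Prime.dvd_mul hp).mp h1 with h | h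
          · exact h
          · have : p = q := (Nat.prime_dvd_prime_iff_eq hp hq).mp h
            rw [this] at hpb
            exact absurd hpb hqb
        have h1 := (hE b hb2 hb).2 hbm
        rw [fT_natCast, mul_div_assoc, hdiv] at h1
        have h2 : (q : ℝ) * b ≤ q + fN (m * q) b := by linarith
        exact_mod_cast h2
    · have hb : ∀ p : ℕ, p.Prime → p ∣ a → p ∣ m := by
        intro p hp hpa
        rcases (Nat.Prime.dvd_mul hp).mp (ha p hp hpa) with h | h
        · exact h
        · have : p = q := (Nat.prime_dvd_prime_iff_eq hp hq).mp h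
          rw [this] at hpa
          exact absurd hpa hqa
      have h1 := (hE a ha2 hb).1 (by exact_mod_cast han)
      rwa [fT_natCast] at h1

end Pool.Agent.Work.MP_98b61d_nt
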