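import Pool.Agent.Work.MP_98b61d_nt.Primes

/-!
An elementary upper bound sieve (Hall-Tenenbaum / Halberstam-Richert type inequality).
-/

namespace Pool.Agent.Work.MP_98b61d_nt

open Finset Real
open ArithmeticFunction hiding log id

/-- `l` has no prime factor exceeding `y`. -/
def Sm (y l : ℕ) : Prop := ∀ p ∈ l.primeFactors, p ≤ y

open Classical in
/-- Sum of reciprocals of `y`-smooth integers up to `N`. -/
noncomputable def smSum (y N : ℕ) : ℝ := ∑ l ∈ (Ioc 0 N).filter (Sm y), (1 : ℝ) / l

lemma sum_inv_Ioc_le (N : ℕ) : ∑ l ∈ Ioc 0 N, (1 : ℝ) / l ≤ 1 + log N := by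
  have h := harmonic_le_one_add_log N
  rw [harmonic_eq_sum_Icc] at h
  push_cast at h
  have : Ioc 0 N = Icc 1 N := by ext; simp [Finset.mem_Ioc, Finset.mem_Icc]; omega
  rw [this]
  simpa [one_div] using h

lemma le_sum_inv_Ioc (N : ℕ) : log N ≤ ∑ l ∈ Ioc 0 N, (1 : ℝ) / l := by
  rcases Nat.eq_zero_or_pos N with rfl | hN
  · simp
  have h := log_add_one_le_harmonic N
  rw [harmonic_eq_sum_Icc] at h
  push_cast at h
  have h2 : Ioc 0 N = Icc 1 N := by ext; simp [Finset.mem_Ioc, Finset.mem_Icc]; omega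
  rw [h2]
  have h3 : log (N : ℝ) ≤ log ((N : ℝ) + 1) := by
    apply Real.log_le_log (by exact_mod_cast hN); linarith
  simp only [one_div]
  linarith

lemma smSum_nonneg (y N : ℕ) : 0 ≤ smSum y N := Finset.sum_nonneg fun _ _ => by positivity

lemma Sm.of_dvd {y l m : ℕ} (h : Sm y l) (hl : l ≠ 0) (hml : m ∣ l) : Sm y m := by
  intro p hp
  exact h p (Nat.primeFactors_mono hml hl hp)

open Classical in
/-- the sum of `v_p(l)/l` over smooth numbers. -/
lemma sum_factorization_div_le (y N p : ℕ) (hp : p.Prime) :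
    ∑ l ∈ (Ioc 0 N).filter (Sm y), (l.factorization p : ℝ) / l ≤ smSum y N / (p - 1) := by
  set V := ∑ l ∈ (Ioc 0 N).filter (Sm y), (l.factorization p : ℝ) / l with hV
  have hp1 : (1 : ℝ) < p := by exact_mod_cast hp.one_lt
  have hp0 : (0 : ℝ) < p := by linarith
  have key : V ≤ (smSum y N + V) / p := by
    have h1 : V = ∑ l ∈ ((Ioc 0 N).filter (Sm y)).filter (p ∣ ·), (l.factorization p : ℝ) / l := by
      rw [hV, Finset.sum_filter (p := (p ∣ ·))]
      apply Finset.sum_congr rfl
      intro l _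
      split_ifs with h
      · rfl
      · rw [Nat.factorization_eq_zero_of_not_dvd h]; simp
    have h2 : ((Ioc 0 N).filter (Sm y)).filter (p ∣ ·) ⊆
        ((Ioc 0 N).filter (Sm y)).image (p * ·) := by
      intro l hl
      simp only [Finset.mem_filter, Finset.mem_Ioc, Finset.mem_image] at hl ⊢
      obtain ⟨⟨⟨hl0, hlN⟩, hsm⟩, k, rfl⟩ := hl
      have hk0 : 0 < k := by
        rcases Nat.eq_zero_or_pos k with rfl | h
        · simp at hl0
        · exact h
      refine ⟨k, ⟨⟨hk0, ?_⟩, hsm.of_dvd (by omega) (dvd_mul_left _ _)⟩, rfl⟩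
      calc k ≤ p * k := Nat.le_mul_of_pos_left k hp.pos
        _ ≤ N := hlN
    have h3 : V ≤ ∑ l ∈ ((Ioc 0 N).filter (Sm y)).image (p * ·), (l.factorization p : ℝ) / l := by
      rw [h1]
      exact Finset.sum_le_sum_of_subset_of_nonneg h2 (fun _ _ _ => by positivity)
    rw [Finset.sum_image (by
      intro a _ b _ hab
      exact Nat.eq_of_mul_eq_mul_left hp.pos hab)] at h3
    refine h3.trans (le_of_eq ?_)
    rw [hV, smSum, ← Finset.sum_add_distrib, Finset.sum_div]
    apply Finset.sum_congr rfl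
    intro l hl
    simp only [Finset.mem_filter, Finset.mem_Ioc] at hl
    have hl0 : l ≠ 0 := by omega
    have hl0' : (l : ℝ) ≠ 0 := by exact_mod_cast hl0
    rw [Nat.factorization_mul hp.ne_zero hl0]
    simp only [Finsupp.add_apply, hp.factorization_self]
    push_cast
    field_simp
  rw [le_div_iff₀ (by linarith)]
  rw [le_div_iff₀ hp0] at key
  linarith

open Classical in
lemma smSum_le {y : ℕ} (hy : 2 ≤ y) (N : ℕ) : smSum y N ≤ 67 * log y := by
  have hlogy : log 2 ≤ log y := Real.log_le_log (by norm_num) (by exact_mod_cast hy)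
  have hlog2 := Real.log_two_gt_d9
  have hS0 := smSum_nonneg y N
  -- the log-weighted sum
  have h1 : ∑ l ∈ (Ioc 0 N).filter (Sm y), log (l : ℝ) / l ≤ 16 * log y * smSum y N := by
    have h2 : ∀ l ∈ (Ioc 0 N).filter (Sm y), log (l : ℝ) / l =
        ∑ p ∈ (Icc 1 y).filter Nat.Prime, log (p : ℝ) * ((l.factorization p : ℝ) / l) := by
      intro l hl
      simp only [Finset.mem_filter, Finset.mem_Ioc] at hl
      rw [Real.log_nat_eq_sum_factorization, Finsupp.sum, Finset.sum_div,
        Nat.support_factorization]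
      have h3 : l.primeFactors ⊆ (Icc 1 y).filter Nat.Prime := by
        intro p hp
        simp only [Finset.mem_filter, Finset.mem_Icc]
        exact ⟨⟨(Nat.prime_of_mem_primeFactors hp).one_le, hl.2 p hp⟩,
          Nat.prime_of_mem_primeFactors hp⟩
      rw [← Finset.sum_subset h3]
      · apply Finset.sum_congr rfl
        intro p _
        ring
      · intro p _ hp
        have : l.factorization p = 0 := by
          rw [← Nat.support_factorization, Finsupp.notMem_support_iff] at hp
          exact hp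
        rw [this]; simp
    rw [Finset.sum_congr rfl h2, Finset.sum_comm]
    have h4 : ∀ p ∈ (Icc 1 y).filter Nat.Prime,
        ∑ l ∈ (Ioc 0 N).filter (Sm y), log (p : ℝ) * ((l.factorization p : ℝ) / l) ≤
        (2 * smSum y N) * (log p / p) := by
      intro p hp
      simp only [Finset.mem_filter, Finset.mem_Icc] at hp
      rw [← Finset.mul_sum]
      have h5 := sum_factorization_div_le y N p hp.2
      have hp2 : (2 : ℝ) ≤ p := by exact_mod_cast hp.2.two_le
      have hlogp : 0 ≤ log (p : ℝ) := Real.log_natCast_nonneg p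
      calc _ ≤ log (p : ℝ) * (smSum y N / (p - 1)) := by gcongr
        _ ≤ log (p : ℝ) * (smSum y N * (2 / p)) := by
            have h6 : (1 : ℝ) / (p - 1) ≤ 2 / p := by
              rw [div_le_div_iff₀ (by linarith) (by linarith)]
              linarith
            have h7 : smSum y N / (p - 1) ≤ smSum y N * (2 / p) := by
              rw [div_eq_mul_one_div]
              exact mul_le_mul_of_nonneg_left h6 hS0
            exact mul_le_mul_of_nonneg_left h7 hlogp
        _ = _ := by ring
    refine (Finset.sum_le_sum h4).trans ?_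
    rw [← Finset.mul_sum]
    have := sum_log_div_le hy
    nlinarith
  -- Markov
  set W : ℝ := 32 * log y with hW
  have hW0 : 0 < W := by rw [hW]; nlinarith
  have hsplit : smSum y N ≤ (1 + W) + (∑ l ∈ (Ioc 0 N).filter (Sm y), log (l : ℝ) / l) / W := by
    have h6 : ∀ l ∈ (Ioc 0 N).filter (Sm y), (1 : ℝ) / l ≤
        (if (l : ℝ) ≤ exp W then (1 : ℝ) / l else 0) + (log (l : ℝ) / l) / W := by
      intro l hl
      simp only [Finset.mem_filter, Finset.mem_Ioc] at hl
      have hl0 : (0 : ℝ) < l := by exact_mod_cast hl.1.1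
      have hl1 : (1 : ℝ) ≤ l := by exact_mod_cast hl.1.1
      have hlogl : 0 ≤ log (l : ℝ) := Real.log_nonneg hl1
      split_ifs with h
      · have : 0 ≤ (log (l : ℝ) / l) / W := by positivity
        linarith
      · push Not at h
        have : W ≤ log l := by
          rw [Real.le_log_iff_exp_le hl0]; exact h.le
        rw [zero_add, div_div, div_le_div_iff₀ hl0 (by positivity)]
        nlinarith
    unfold smSum
    refine (Finset.sum_le_sum h6).trans ?_
    rw [Finset.sum_add_distrib, ← Finset.sum_div]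
    gcongr
    rw [← Finset.sum_filter]
    have h7 : (((Ioc 0 N).filter (Sm y)).filter (fun l : ℕ => (l : ℝ) ≤ exp W)) ⊆
        Ioc 0 ⌊exp W⌋₊ := by
      intro l hl
      simp only [Finset.mem_filter, Finset.mem_Ioc] at hl ⊢
      exact ⟨hl.1.1.1, Nat.le_floor hl.2⟩
    have h8 : 1 ≤ ⌊exp W⌋₊ := by
      rw [Nat.one_le_floor_iff]
      exact Real.one_le_exp hW0.le
    calc _ ≤ ∑ l ∈ Ioc 0 ⌊exp W⌋₊, (1 : ℝ) / l :=
          Finset.sum_le_sum_of_subset_of_nonneg h7 (fun _ _ _ => by positivity)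
      _ ≤ 1 + log (⌊exp W⌋₊ : ℝ) := sum_inv_Ioc_le _
      _ ≤ 1 + W := by
          gcongr
          rw [Real.log_le_iff_le_exp (by exact_mod_cast h8)]
          exact Nat.floor_le (Real.exp_pos W).le
  have h9 : (∑ l ∈ (Ioc 0 N).filter (Sm y), log (l : ℝ) / l) / W ≤ smSum y N / 2 := by
    rw [div_le_iff₀ hW0, hW]
    linarith
  have h10 : smSum y N ≤ 2 * (1 + W) := by linarith
  rw [hW] at h10
  nlinarith

/-- Hall-Tenenbaum inequality for functions decreasing along divisibility. -/
lemma hall_tenenbaum (g : ℕ → ℝ) (hg0 : ∀ n, 0 ≤ g n)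
    (hg : ∀ m n, n ≠ 0 → m ∣ n → g n ≤ g m) (X : ℕ) :
    log X * ∑ n ∈ Ioc 0 X, g n ≤ (log 4 + 5) * X * ∑ n ∈ Ioc 0 X, g n / n := by
  have h1 : ∑ n ∈ Ioc 0 X, g n * log n ≤ (log 4 + 4) * X * ∑ n ∈ Ioc 0 X, g n / n := by
    let G : ArithmeticFunction ℝ := ⟨fun n => if n = 0 then 0 else g n, by simp⟩
    have hG : ∀ n, n ≠ 0 → G n = g n := by
      intro n hn
      simp [G, hn]
    have h2 : ∑ n ∈ Ioc 0 X, g n * log n ≤ ∑ n ∈ Ioc 0 X, (G * Λ) n := by
      apply Finset.sum_le_sum
      intro n hn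
      rw [Finset.mem_Ioc] at hn
      have hn0 : n ≠ 0 := by omega
      rw [← vonMangoldt_sum, Finset.mul_sum, ArithmeticFunction.mul_apply,
        ← Nat.sum_divisorsAntidiagonal' (f := fun _ j => g n * Λ j)]
      apply Finset.sum_le_sum
      intro x hx
      rw [Nat.mem_divisorsAntidiagonal] at hx
      have hx1 : x.1 ≠ 0 := by
        intro h; rw [h] at hx; simp at hx; omega
      rw [hG _ hx1]
      have := hg x.1 n hn0 (by rw [← hx.1]; exact dvd_mul_right _ _)
      have h3 : (0 : ℝ) ≤ Λ x.2 := vonMangoldt_nonneg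
      gcongr
    refine h2.trans ?_
    rw [sum_Ioc_mul_eq_sum_sum, Finset.mul_sum]
    apply Finset.sum_le_sum
    intro n hn
    rw [Finset.mem_Ioc] at hn
    have hn0 : n ≠ 0 := by omega
    have hn0' : (0 : ℝ) < n := by exact_mod_cast hn.1
    rw [hG n hn0]
    have h4 : ∑ m ∈ Ioc 0 (X / n), Λ m ≤ (log 4 + 4) * (X / n) := by
      have h5 := Chebyshev.psi_le_const_mul_self (x := ((X / n : ℕ) : ℝ)) (Nat.cast_nonneg _)
      unfold Chebyshev.psi at h5
      rw [Nat.floor_natCast] at h5
      refine h5.trans ?_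
      have h6 : ((X / n : ℕ) : ℝ) ≤ X / n := Nat.cast_div_le
      have : 0 ≤ log 4 := Real.log_nonneg (by norm_num)
      gcongr
    calc g n * ∑ m ∈ Ioc 0 (X / n), Λ m ≤ g n * ((log 4 + 4) * (X / n)) := by
          have := hg0 n
          gcongr
      _ = (log 4 + 4) * X * (g n / n) := by ring
  have h2 : ∑ n ∈ Ioc 0 X, g n * (log X - log n) ≤ X * ∑ n ∈ Ioc 0 X, g n / n := by
    rw [Finset.mul_sum]
    apply Finset.sum_le_sum
    intro n hn
    rw [Finset.mem_Ioc] at hn
    have hn0' : (0 : ℝ) < n := by exact_mod_cast hn.1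
    have hX0' : (0 : ℝ) < X := by exact_mod_cast (by omega : 0 < X)
    rw [← Real.log_div hX0'.ne' hn0'.ne']
    have h3 : log ((X : ℝ) / n) ≤ X / n := by
      have := Real.log_le_sub_one_of_pos (x := (X : ℝ) / n) (by positivity)
      linarith
    calc g n * log (X / n) ≤ g n * (X / n) := by
          have := hg0 n
          gcongr
      _ = X * (g n / n) := by ring
  have h3 : log X * ∑ n ∈ Ioc 0 X, g n =
      ∑ n ∈ Ioc 0 X, g n * (log X - log n) + ∑ n ∈ Ioc 0 X, g n * log n := by
    rw [← Finset.sum_add_distrib, Finset.mul_sum]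
    apply Finset.sum_congr rfl
    intro n _
    ring
  rw [h3]
  linarith

end Pool.Agent.Work.MP_98b61d_nt
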