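import Pool.Agent.Work.MP_98b61d_nt.Primes
import Pool.Agent.Work.MP_98b61d_nt.Sieve

/-!
Primes with a power close to `x = exp L`, and pairs of primes whose products approximate well.
-/

namespace Pool.Agent.Work.MP_98b61d_nt

open Finset Real

/-- `p` is a prime having a power in `[exp (L-T), exp L]`. -/
def Near (L T : ℝ) (p : ℕ) : Prop := ∃ k : ℕ, 1 ≤ k ∧ L - T ≤ k * log p ∧ k * log p ≤ L

/-- every `u ∈ [L/2, L]` is approximated from below within `T` by `i log p + j log q`. -/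
def Good (L T : ℝ) (p q : ℕ) : Prop :=
  ∀ u : ℝ, L / 2 ≤ u → u ≤ L → ∃ i j : ℕ, u - T ≤ i * log p + j * log q ∧
    i * log p + j * log q ≤ u

lemma Good.symm {L T : ℝ} {p q : ℕ} (h : Good L T p q) : Good L T q p := by
  intro u hu1 hu2
  obtain ⟨i, j, h1, h2⟩ := h u hu1 hu2
  exact ⟨j, i, by linarith, by linarith⟩

lemma one_le_mul_exp_aux {L c h : ℝ} (hL : 1 ≤ L) (hh : 1 / L ≤ h) (hc : log L ≤ c) :
    1 ≤ h * exp c := by
  have hL0 : 0 < L := by linarith
  have h1 : L ≤ exp c := by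
    rw [← Real.exp_log hL0]; exact Real.exp_le_exp.mpr hc
  have h0 : 0 ≤ h := le_trans (by positivity) hh
  calc (1 : ℝ) = 1 / L * L := by field_simp
    _ ≤ h * exp c := by gcongr

lemma exp_neg_le_aux {L h : ℝ} (hL : 1 ≤ L) (hh : 1 / L ≤ h) :
    exp (-(log L + 2)) ≤ h := by
  have hL0 : 0 < L := by linarith
  refine le_trans ?_ hh
  rw [one_div, ← Real.exp_log (inv_pos.mpr hL0), Real.log_inv]
  exact Real.exp_le_exp.mpr (by linarith)

lemma mem_Ioc_floor_exp {c d : ℝ} {p : ℕ} (hp : 0 < p) (h1 : c < log p) (h2 : log p ≤ d) :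
    p ∈ Ioc ⌊exp c⌋₊ ⌊exp d⌋₊ := by
  have hp' : (0 : ℝ) < p := by exact_mod_cast hp
  rw [Finset.mem_Ioc]
  constructor
  · rw [Nat.floor_lt (Real.exp_pos c).le]
    rwa [Real.lt_log_iff_exp_lt hp'] at h1
  · apply Nat.le_floor
    rwa [Real.log_le_iff_le_exp hp'] at h2

open Classical in
/-- Sum over the primes in `(y, z]` which have a power in `[exp (L-T), exp L]`. -/
lemma near_sum_le {L T : ℝ} {y z : ℕ} (hL : 1 ≤ L) (hT : 1 ≤ T) (hTL : T ≤ L / 4)
    (hy4 : 4 ≤ log y) (hyL : 2 * log L ≤ log y) :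
    ∑ p ∈ ((Ioc y z).filter Nat.Prime).filter (Near L T), (1 : ℝ) / p ≤
      24 * T * (3 + log L) / log y := by
  have hL0 : 0 < L := by linarith
  have hlogL : 0 ≤ log L := Real.log_nonneg hL
  have hly : 0 < log (y : ℝ) := by linarith
  set K := ⌊L / log y⌋₊ with hK
  have hKle : (K : ℝ) ≤ L / log y := Nat.floor_le (by positivity)
  set c : ℕ → ℝ := fun k => (L - 2 * T) / k with hc
  set h : ℕ → ℝ := fun k => 2 * T / k with hh
  have hsub : ((Ioc y z).filter Nat.Prime).filter (Near L T) ⊆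
      (Icc 1 K).biUnion (fun k => (Ioc ⌊exp (c k)⌋₊ ⌊exp (c k + h k)⌋₊).filter Nat.Prime) := by
    intro p hp
    rw [Finset.mem_filter, Finset.mem_filter, Finset.mem_Ioc] at hp
    obtain ⟨⟨⟨hyp, hpz⟩, hpp⟩, k, hk1, hk2, hk3⟩ := hp
    have hk0 : (0 : ℝ) < k := by exact_mod_cast hk1
    have hlogp : log (y : ℝ) ≤ log p := by
      apply Real.log_le_log
      · have : y ≠ 0 := by rintro rfl; simp at hly
        exact_mod_cast Nat.pos_of_ne_zero this
      · exact_mod_cast hyp.le
    rw [Finset.mem_biUnion]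
    refine ⟨k, ?_, ?_⟩
    · rw [Finset.mem_Icc]
      refine ⟨hk1, Nat.le_floor ?_⟩
      rw [le_div_iff₀ hly]
      nlinarith
    · rw [Finset.mem_filter]
      refine ⟨mem_Ioc_floor_exp hpp.pos ?_ ?_, hpp⟩
      · simp only [hc]
        rw [div_lt_iff₀ hk0]
        nlinarith
      · simp only [hc, hh]
        rw [← add_div, le_div_iff₀ hk0]
        nlinarith
  calc ∑ p ∈ ((Ioc y z).filter Nat.Prime).filter (Near L T), (1 : ℝ) / p
      ≤ ∑ p ∈ (Icc 1 K).biUnion
        (fun k => (Ioc ⌊exp (c k)⌋₊ ⌊exp (c k + h k)⌋₊).filter Nat.Prime), (1 : ℝ) / p :=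
        Finset.sum_le_sum_of_subset_of_nonneg hsub (fun _ _ _ => by positivity)
    _ ≤ ∑ k ∈ Icc 1 K, recip ⌊exp (c k)⌋₊ ⌊exp (c k + h k)⌋₊ :=
        sum_biUnion_le_of_nonneg _ _ _ (fun _ => by positivity)
    _ ≤ ∑ k ∈ Icc 1 K, 24 * T * (3 + log L) / L := by
        apply Finset.sum_le_sum
        intro k hk
        rw [Finset.mem_Icc] at hk
        have hk0 : (0 : ℝ) < k := by exact_mod_cast hk.1
        have hkK : (k : ℝ) ≤ L / log y := le_trans (by exact_mod_cast hk.2) hKle
        have hkl : (k : ℝ) * log y ≤ L := by rwa [le_div_iff₀ hly] at hkK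
        have hcge : log y / 2 ≤ c k := by
          simp only [hc]
          rw [le_div_iff₀ hk0]
          nlinarith
        have hhge : 1 / L ≤ h k := by
          simp only [hh]
          rw [div_le_div_iff₀ hL0 hk0]
          nlinarith
        have h1 := recip_exp_le (c := c k) (h := h k) (B := log L + 2) (by linarith)
          (lt_of_lt_of_le (by positivity) hhge)
          (one_le_mul_exp_aux hL hhge (by linarith)) (by linarith) (exp_neg_le_aux hL hhge)
        refine h1.trans ?_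
        simp only [hc, hh]
        have h2 : 0 < L - 2 * T := by linarith
        have e1 : 6 * (2 * T / k) * (1 + (log L + 2)) / ((L - 2 * T) / k) =
            12 * T * (3 + log L) / (L - 2 * T) := by
          field_simp
          ring
        rw [e1, div_le_div_iff₀ h2 hL0]
        have : 0 ≤ T * (3 + log L) := by positivity
        nlinarith
    _ = K * (24 * T * (3 + log L) / L) := by
        rw [Finset.sum_const, nsmul_eq_mul, Nat.card_Icc]; simp
    _ ≤ (L / log y) * (24 * T * (3 + log L) / L) := by gcongr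
    _ = 24 * T * (3 + log L) / log y := by field_simp

/-- Density lemma from a Diophantine approximation. -/
lemma density {a₁ a₂ : ℝ} (h1 : 0 < a₁) (h2 : 0 < a₂) {Q q : ℕ} (hq1 : 1 ≤ q) (hqQ : q ≤ Q)
    {a : ℤ} (hcop : IsCoprime a (q : ℤ)) (happ : |q * a₁ - a * a₂| ≤ a₂ / (Q + 1))
    {u : ℝ} (hu : Q * a₁ + 3 * a₂ ≤ u) :
    ∃ i j : ℕ, u - 3 * a₂ / q ≤ i * a₂ + j * a₁ ∧ i * a₂ + j * a₁ ≤ u := by
  set ε := a₂ / (Q + 1) with hε
  have hQ0 : (0 : ℝ) < (Q : ℝ) + 1 := by positivity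
  have hq0 : (0 : ℝ) < q := by exact_mod_cast hq1
  have hqQ' : (q : ℝ) ≤ Q := by exact_mod_cast hqQ
  have hεpos : 0 < ε := by positivity
  have hεq : ε ≤ a₂ / q := by
    rw [hε]
    apply div_le_div_of_nonneg_left h2.le hq0
    linarith
  set b : ℤ := ⌊q * (u - ε) / a₂⌋ with hb
  have hb1 : (b : ℝ) ≤ q * (u - ε) / a₂ := Int.floor_le _
  have hb2 : q * (u - ε) / a₂ < b + 1 := Int.lt_floor_add_one _
  obtain ⟨s, t, hst⟩ := hcop
  set j : ℤ := (b * s) % q with hj
  have hqz : (0 : ℤ) < q := by exact_mod_cast hq1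
  have hj0 : 0 ≤ j := Int.emod_nonneg _ hqz.ne'
  have hjq : j < q := Int.emod_lt_of_pos _ hqz
  have hdvd : (q : ℤ) ∣ b - j * a := by
    have h3 : (q : ℤ) ∣ b * s - j := by
      rw [hj]; exact Int.dvd_self_sub_emod
    have h4 : b - j * a = (b * s - j) * a + b * t * q := by
      have : b = b * (s * a + t * q) := by rw [hst]; ring
      nlinarith [this]
    rw [h4]
    exact dvd_add (Dvd.dvd.mul_right h3 _) (dvd_mul_left _ _)
  obtain ⟨i, hi⟩ := hdvd
  -- compute
  have hj0' : (0 : ℝ) ≤ j := by exact_mod_cast hj0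
  have hjq' : (j : ℝ) ≤ q := by exact_mod_cast hjq.le
  have hjq1 : (j : ℝ) ≤ q - 1 := by
    have : j ≤ q - 1 := by omega
    exact_mod_cast this
  have hir : (q : ℝ) * i = b - j * a := by
    have : ((b - j * a : ℤ) : ℝ) = ((q * i : ℤ) : ℝ) := by rw [hi]
    push_cast at this
    linarith
  have hval : (i : ℝ) * a₂ + j * a₁ = b * a₂ / q + (j / q) * (q * a₁ - a * a₂) := by
    field_simp
    have : (q : ℝ) * i * a₂ = (b - j * a) * a₂ := by rw [hir]
    linarith
  have hA1 : b * a₂ / q ≤ u - ε := by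
    rw [div_le_iff₀ hq0]
    rw [le_div_iff₀ h2] at hb1
    linarith
  have hA2 : u - ε - a₂ / q ≤ b * a₂ / q := by
    rw [div_lt_iff₀ h2] at hb2
    have : u - ε < (b + 1) * a₂ / q := by
      rw [lt_div_iff₀ hq0]; linarith
    have e : (b + 1) * a₂ / q = b * a₂ / q + a₂ / q := by ring
    linarith
  have hB : |(j / q : ℝ) * (q * a₁ - a * a₂)| ≤ ε := by
    rw [abs_mul]
    have h5 : |(j / q : ℝ)| ≤ 1 := by
      rw [abs_of_nonneg (by positivity), div_le_one hq0]; exact hjq'
    calc |(j / q : ℝ)| * |q * a₁ - a * a₂| ≤ 1 * ε := by gcongr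
      _ = ε := one_mul _
  rw [abs_le] at hB
  have hup : (i : ℝ) * a₂ + j * a₁ ≤ u := by rw [hval]; linarith
  have e3 : 3 * a₂ / q = 3 * (a₂ / q) := by ring
  have hlow : u - 3 * a₂ / q ≤ (i : ℝ) * a₂ + j * a₁ := by
    rw [hval, e3]; linarith
  have hi0 : 0 ≤ i := by
    by_contra hneg
    push Not at hneg
    have h6 : (i : ℝ) ≤ -1 := by
      have : i ≤ -1 := by omega
      exact_mod_cast this
    have h7 : (a₂ / q : ℝ) ≤ a₂ := div_le_self h2.le (by exact_mod_cast hq1)
    have h8 : (j : ℝ) * a₁ ≤ Q * a₁ := by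
      apply mul_le_mul_of_nonneg_right _ h1.le
      linarith
    rw [e3] at hlow
    nlinarith
  obtain ⟨i', rfl⟩ := Int.eq_ofNat_of_zero_le hi0
  obtain ⟨j', hj'⟩ := Int.eq_ofNat_of_zero_le hj0
  refine ⟨i', j', ?_, ?_⟩
  · rw [hj'] at hlow; exact_mod_cast hlow
  · rw [hj'] at hup; exact_mod_cast hup

/-- If the pair is not good there is a rational approximation with a small denominator. -/
lemma exists_approx_of_not_good {L T : ℝ} {p q : ℕ} {Q : ℕ} (hp : 2 ≤ p) (hpq : p < q)
    (hQ : 1 ≤ Q) (hu : Q * log q + 3 * log p ≤ L / 2) (hbad : ¬ Good L T p q) :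
    ∃ r a : ℕ, 1 ≤ r ∧ r * T ≤ 3 * log p ∧ r ≤ a ∧
      |r * log q - a * log p| ≤ log p / (Q + 1) := by
  have hlp : 0 < log (p : ℝ) := Real.log_pos (by exact_mod_cast hp)
  have hlq : log (p : ℝ) ≤ log q :=
    Real.log_le_log (by exact_mod_cast (by omega)) (by exact_mod_cast hpq.le)
  have hlq0 : 0 < log (q : ℝ) := by linarith
  obtain ⟨r, hr1, hr2⟩ := Real.exists_rat_abs_sub_le_and_den_le (log q / log p) (n := Q) (by omega)
  have hden : (0 : ℝ) < r.den := by exact_mod_cast r.den_pos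
  have hQ0 : (0 : ℝ) < (Q : ℝ) + 1 := by positivity
  have happ : |(r.den : ℝ) * log q - r.num * log p| ≤ log p / (Q + 1) := by
    have e : (r.den : ℝ) * log q - r.num * log p =
        (r.den * log p) * (log q / log p - (r : ℝ)) := by
      rw [Rat.cast_def]
      field_simp
    rw [e, abs_mul, abs_of_pos (by positivity)]
    calc (r.den * log p) * |log q / log p - (r : ℝ)| ≤
        (r.den * log p) * (1 / ((Q + 1) * r.den)) := by gcongr
      _ = log p / (Q + 1) := by field_simp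
  have hcop : IsCoprime r.num (r.den : ℤ) := by
    rw [Int.isCoprime_iff_gcd_eq_one]
    have := r.reduced
    rw [Int.gcd_eq_natAbs]
    simpa using this
  have hnum : (r.den : ℤ) ≤ r.num := by
    by_contra hcon
    push Not at hcon
    have h3 : (r.num : ℝ) ≤ r.den - 1 := by
      have : r.num ≤ r.den - 1 := by omega
      exact_mod_cast this
    rw [abs_le] at happ
    have h4 : log p / (Q + 1) < log (p : ℝ) := by
      rw [div_lt_iff₀ hQ0]
      have : (1 : ℝ) ≤ Q := by exact_mod_cast hQ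
      nlinarith
    nlinarith
  have hnum0 : 0 ≤ r.num := le_trans (by positivity) hnum
  obtain ⟨a, ha⟩ := Int.eq_ofNat_of_zero_le hnum0
  refine ⟨r.den, a, r.den_pos, ?_, ?_, ?_⟩
  · by_contra hcon
    push Not at hcon
    apply hbad
    intro u hu1 hu2
    obtain ⟨i, j, h5, h6⟩ := density (a₁ := log q) (a₂ := log p) hlq0 hlp (Q := Q) (q := r.den)
      r.den_pos hr2 hcop happ (u := u) (by linarith)
    refine ⟨i, j, ?_, h6⟩
    have h7 : 3 * log p / r.den ≤ T := by
      rw [div_le_iff₀ hden]; linarith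
    linarith
  · have : (r.den : ℤ) ≤ (a : ℤ) := by rw [← Int.ofNat_eq_natCast, ← ha]; exact hnum
    exact_mod_cast this
  · rw [ha] at happ
    exact_mod_cast happ

open Classical in
/-- Sum of `1/(p q)` over bad pairs `p < q` of primes in `(y, z]`. -/
noncomputable def badSum (L T : ℝ) (y z : ℕ) : ℝ :=
  ∑ x ∈ ((((Ioc y z).filter Nat.Prime) ×ˢ ((Ioc y z).filter Nat.Prime)).filter
    (fun x : ℕ × ℕ => x.1 < x.2 ∧ ¬ Good L T x.1 x.2)), (1 : ℝ) / (x.1 * x.2)

lemma piece_bound {L lp Q r a : ℝ} (hL : 1 ≤ L) (hlp : 4 ≤ lp) (hlpL : 2 * log L ≤ lp)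
    (hQ : 6 ≤ Q) (hQL : Q + 1 ≤ L) (hr : 0 < r) (hr3 : r ≤ 3 * lp) (ha : 1 ≤ a) (hra : r ≤ a) :
    recip ⌊exp (a / r * lp - 2 * (lp / (r * (Q + 1))))⌋₊
      ⌊exp (a / r * lp - 2 * (lp / (r * (Q + 1))) + 4 * (lp / (r * (Q + 1))))⌋₊ ≤
      (48 * (3 + log L) / (Q + 1)) * (1 / a) := by
  have hL0 : 0 < L := by linarith
  have hlogL : 0 ≤ log L := Real.log_nonneg hL
  have hQ1 : 0 < Q + 1 := by linarith
  have ha0 : 0 < a := by linarith
  have hlp0 : 0 < lp := by linarith
  obtain ⟨c, hc⟩ : ∃ c, c = a / r * lp - 2 * (lp / (r * (Q + 1))) := ⟨_, rfl⟩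
  obtain ⟨h, hh⟩ : ∃ h, h = lp / (r * (Q + 1)) := ⟨_, rfl⟩
  rw [← hc, ← hh]
  have hh0 : 0 < h := by rw [hh]; positivity
  have hcge : a * lp / (2 * r) ≤ c := by
    rw [hc]
    have e : a / r * lp - 2 * (lp / (r * (Q + 1))) = (a - 2 / (Q + 1)) * lp / r := by
      field_simp
    rw [e, div_le_div_iff₀ (by positivity) hr]
    have h3 : 2 / (Q + 1) ≤ a / 2 := by
      rw [div_le_div_iff₀ hQ1 (by norm_num)]; nlinarith
    have h4 : a * lp ≤ 2 * ((a - 2 / (Q + 1)) * lp) := by nlinarith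
    nlinarith
  have hcge2 : lp / 2 ≤ c := by
    refine le_trans ?_ hcge
    rw [div_le_div_iff₀ (by norm_num) (by positivity)]
    nlinarith
  have hhge : 1 / L ≤ 4 * h := by
    rw [hh, ← mul_div_assoc, div_le_div_iff₀ hL0 (by positivity)]
    have : r * (Q + 1) ≤ (3 * lp) * L := by gcongr
    nlinarith
  have h1 := recip_exp_le (c := c) (h := 4 * h) (B := log L + 2) (by linarith)
    (by positivity) (one_le_mul_exp_aux hL hhge (by linarith)) (by linarith)
    (exp_neg_le_aux hL hhge)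
  refine h1.trans ?_
  have hcpos : 0 < a * lp / (2 * r) := by positivity
  calc 6 * (4 * h) * (1 + (log L + 2)) / c
      ≤ 6 * (4 * h) * (1 + (log L + 2)) / (a * lp / (2 * r)) := by
        apply div_le_div_of_nonneg_left _ hcpos hcge
        positivity
    _ = (48 * (3 + log L) / (Q + 1)) * (1 / a) := by
        rw [hh]
        field_simp
        ring

open Classical in
lemma bad_inner {L T : ℝ} {y z p : ℕ} (hL : 1 ≤ L) (hT : 1 ≤ T)
    (hy4 : 4 ≤ log y) (hyL : 2 * log L ≤ log y) (hyp : y < p) (hpz : p ≤ z)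
    (hz : 24 * log z ≤ L) :
    ∑ q ∈ ((Ioc y z).filter Nat.Prime).filter (fun q => p < q ∧ ¬ Good L T p q), (1 : ℝ) / q ≤
      576 * (3 + log L) ^ 2 * log z * log p / (T * L) := by
  have hL0 : 0 < L := by linarith
  have hlogL : 0 ≤ log L := Real.log_nonneg hL
  have hly : 0 < log (y : ℝ) := by linarith
  have hy0 : 0 < y := by
    rcases Nat.eq_zero_or_pos y with rfl | h
    · simp at hly
    · exact h
  have hp2 : 2 ≤ p := by omega
  have hp0 : (0 : ℝ) < p := by exact_mod_cast (by omega : 0 < p)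
  have hlyp : log (y : ℝ) ≤ log p :=
    Real.log_le_log (by exact_mod_cast hy0) (by exact_mod_cast hyp.le)
  have hlpz : log (p : ℝ) ≤ log z :=
    Real.log_le_log (by exact_mod_cast (by omega)) (by exact_mod_cast hpz)
  set lp := log (p : ℝ) with hlp
  set lz := log (z : ℝ) with hlz
  have hlp0 : 0 < lp := by linarith
  have hlz0 : 0 < lz := by linarith
  set Q := ⌊L / (4 * lz)⌋₊ with hQ
  have hQle : (Q : ℝ) ≤ L / (4 * lz) := Nat.floor_le (by positivity)
  have hQge : L / (4 * lz) < Q + 1 := Nat.lt_floor_add_one _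
  have hQlz : (Q : ℝ) * (4 * lz) ≤ L := by rwa [le_div_iff₀ (by positivity)] at hQle
  have hQ6 : 6 ≤ Q := by
    apply Nat.le_floor
    rw [le_div_iff₀ (by positivity)]
    push_cast
    linarith
  have hQ6' : (6 : ℝ) ≤ Q := by exact_mod_cast hQ6
  have hQ1 : (0 : ℝ) < (Q : ℝ) + 1 := by linarith
  have hQL : (Q : ℝ) + 1 ≤ L := by nlinarith
  set R := ⌊3 * lp / T⌋₊ with hR
  have hRle : (R : ℝ) ≤ 3 * lp / T := Nat.floor_le (by positivity)
  set A := ⌊4 * lz⌋₊ with hA
  have hAle : (A : ℝ) ≤ 4 * lz := Nat.floor_le (by positivity)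
  set h : ℕ → ℝ := fun r => lp / (r * (Q + 1)) with hh
  set c : ℕ × ℕ → ℝ := fun x => x.2 / x.1 * lp - 2 * h x.1 with hc
  set I := ((Icc 1 R) ×ˢ (Icc 1 A)).filter (fun x : ℕ × ℕ => x.1 ≤ x.2) with hI
  have hsub : ((Ioc y z).filter Nat.Prime).filter (fun q => p < q ∧ ¬ Good L T p q) ⊆
      I.biUnion (fun x => (Ioc ⌊exp (c x)⌋₊ ⌊exp (c x + 4 * h x.1)⌋₊).filter Nat.Prime) := by
    intro q hq
    simp only [Finset.mem_filter, Finset.mem_Ioc] at hq
    obtain ⟨⟨⟨hyq, hqz⟩, hqp⟩, hpq, hbad⟩ := hq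
    have hlqz : log (q : ℝ) ≤ lz :=
      Real.log_le_log (by exact_mod_cast hqp.pos) (by exact_mod_cast hqz)
    obtain ⟨r, a, hr1, hrT, hra, happ⟩ := exists_approx_of_not_good (L := L) (T := T) (Q := Q)
      hp2 hpq (by omega) (by nlinarith) hbad
    have hr0 : (0 : ℝ) < r := by exact_mod_cast hr1
    rw [Finset.mem_biUnion]
    refine ⟨(r, a), ?_, ?_⟩
    · rw [hI, Finset.mem_filter, Finset.mem_product, Finset.mem_Icc, Finset.mem_Icc]
      refine ⟨⟨⟨hr1, ?_⟩, ⟨le_trans hr1 hra, ?_⟩⟩, hra⟩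
      · apply Nat.le_floor
        rw [le_div_iff₀ (by linarith)]
        exact hrT
      · apply Nat.le_floor
        rw [abs_le] at happ
        have h1 : lp / (Q + 1) ≤ lp := div_le_self hlp0.le (by linarith)
        have h2 : (a : ℝ) * lp ≤ r * log q + lp := by linarith
        have h3 : (r : ℝ) ≤ 3 * lp := by nlinarith
        have h4 : (r : ℝ) * log q ≤ 3 * lp * lz := by
          have : 0 ≤ log (q : ℝ) := Real.log_natCast_nonneg q
          gcongr
        have h5 : (a : ℝ) * lp ≤ (4 * lz) * lp := by nlinarith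
        exact le_of_mul_le_mul_right h5 hlp0
    · rw [Finset.mem_filter]
      have e1 : |log (q : ℝ) - a / r * lp| ≤ h r := by
        have e2 : log (q : ℝ) - a / r * lp = (r * log q - a * lp) / r := by field_simp
        rw [e2, abs_div, abs_of_pos hr0]
        simp only [hh]
        rw [div_le_iff₀ hr0]
        refine happ.trans (le_of_eq ?_)
        rw [← hlp]
        field_simp
      have hhpos : 0 < h r := by simp only [hh]; positivity
      rw [abs_le] at e1
      refine ⟨mem_Ioc_floor_exp hqp.pos ?_ ?_, hqp⟩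
      · simp only [hc]; linarith
      · simp only [hc]; linarith
  calc ∑ q ∈ ((Ioc y z).filter Nat.Prime).filter (fun q => p < q ∧ ¬ Good L T p q), (1 : ℝ) / q
      ≤ ∑ q ∈ I.biUnion (fun x => (Ioc ⌊exp (c x)⌋₊ ⌊exp (c x + 4 * h x.1)⌋₊).filter Nat.Prime),
        (1 : ℝ) / q :=
        Finset.sum_le_sum_of_subset_of_nonneg hsub (fun _ _ _ => by positivity)
    _ ≤ ∑ x ∈ I, recip ⌊exp (c x)⌋₊ ⌊exp (c x + 4 * h x.1)⌋₊ :=
        sum_biUnion_le_of_nonneg _ _ _ (fun _ => by positivity)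
    _ ≤ ∑ x ∈ I, (48 * (3 + log L) / (Q + 1)) * (1 / x.2) := by
        apply Finset.sum_le_sum
        rintro ⟨r, a⟩ hx
        rw [hI, Finset.mem_filter, Finset.mem_product, Finset.mem_Icc, Finset.mem_Icc] at hx
        obtain ⟨⟨⟨hr1, hrR⟩, ⟨ha1, haA⟩⟩, hra⟩ := hx
        simp only at hr1 hrR ha1 haA hra
        have hr0 : (0 : ℝ) < r := by exact_mod_cast hr1
        have ha0 : (0 : ℝ) < a := by exact_mod_cast ha1
        have ha1' : (1 : ℝ) ≤ a := by exact_mod_cast ha1
        have hra' : (r : ℝ) ≤ a := by exact_mod_cast hra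
        have hr3 : (r : ℝ) ≤ 3 * lp := by
          have h1 : (r : ℝ) ≤ 3 * lp / T := le_trans (by exact_mod_cast hrR) hRle
          have h2 : 3 * lp / T ≤ 3 * lp := div_le_self (by positivity) hT
          linarith
        exact piece_bound hL (by linarith) (by linarith) hQ6' hQL hr0 hr3 ha1' hra'
    _ ≤ ∑ x ∈ (Icc 1 R) ×ˢ (Icc 1 A), (48 * (3 + log L) / (Q + 1)) * (1 / x.2) := by
        apply Finset.sum_le_sum_of_subset_of_nonneg (Finset.filter_subset _ _)
        intro _ _ _; positivity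
    _ = R * (48 * (3 + log L) / (Q + 1)) * ∑ a ∈ Icc 1 A, (1 : ℝ) / a := by
        rw [Finset.sum_product]
        simp only
        rw [Finset.sum_const, ← Finset.mul_sum, nsmul_eq_mul, Nat.card_Icc]
        simp only [Nat.add_sub_cancel]
        ring
    _ ≤ (3 * lp / T) * (48 * (3 + log L) * (4 * lz / L)) * (3 + log L) := by
        have h1 : ∑ a ∈ Icc 1 A, (1 : ℝ) / a ≤ 3 + log L := by
          have h2 := sum_inv_Ioc_le A
          have h3 : Ioc 0 A = Icc 1 A := by ext; simp [Finset.mem_Ioc, Finset.mem_Icc]; omega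
          rw [h3] at h2
          have h4 : log (A : ℝ) ≤ log L := by
            rcases Nat.eq_zero_or_pos A with h5 | h5
            · rw [h5]; simp [hlogL]
            · apply Real.log_le_log (by exact_mod_cast h5)
              linarith
          linarith
        have h2 : 48 * (3 + log L) / (Q + 1) ≤ 48 * (3 + log L) * (4 * lz / L) := by
          rw [div_eq_mul_one_div]
          apply mul_le_mul_of_nonneg_left _ (by positivity)
          rw [div_le_div_iff₀ hQ1 hL0]
          rw [div_lt_iff₀ (by positivity)] at hQge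
          linarith
        have h3 : 0 ≤ 48 * (3 + log L) / (Q + 1) := by positivity
        have h4 : 0 ≤ ∑ a ∈ Icc 1 A, (1 : ℝ) / a := Finset.sum_nonneg fun _ _ => by positivity
        gcongr
    _ = 576 * (3 + log L) ^ 2 * lz * lp / (T * L) := by
        field_simp
        ring

open Classical in
lemma badSum_le {L T : ℝ} {y z : ℕ} (hL : 1 ≤ L) (hT : 1 ≤ T)
    (hy4 : 4 ≤ log y) (hyL : 2 * log L ≤ log y) (hz : 24 * log z ≤ L) :
    badSum L T y z ≤ 4608 * (3 + log L) ^ 2 * (log z) ^ 2 / (T * L) := by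
  rcases Nat.lt_or_ge z 2 with hz2 | hz2
  · have : badSum L T y z = 0 := by
      unfold badSum
      apply Finset.sum_eq_zero
      intro x hx
      simp only [Finset.mem_filter, Finset.mem_product, Finset.mem_Ioc] at hx
      have := hx.1.1.2.two_le
      omega
    rw [this]
    positivity
  have hlogL : 0 ≤ log L := Real.log_nonneg hL
  have hlz : 0 ≤ log (z : ℝ) := Real.log_natCast_nonneg z
  have h1 : badSum L T y z = ∑ p ∈ (Ioc y z).filter Nat.Prime, (1 : ℝ) / p *
      ∑ q ∈ ((Ioc y z).filter Nat.Prime).filter (fun q => p < q ∧ ¬ Good L T p q),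
        (1 : ℝ) / q := by
    unfold badSum
    rw [Finset.sum_filter, Finset.sum_product]
    apply Finset.sum_congr rfl
    intro p _
    simp only
    rw [Finset.mul_sum, ← Finset.sum_filter]
    apply Finset.sum_congr rfl
    intro q _
    rw [one_div_mul_one_div]
  rw [h1]
  calc _ ≤ ∑ p ∈ (Ioc y z).filter Nat.Prime, (1 : ℝ) / p *
        (576 * (3 + log L) ^ 2 * log z * log p / (T * L)) := by
        apply Finset.sum_le_sum
        intro p hp
        rw [Finset.mem_filter, Finset.mem_Ioc] at hp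
        have := bad_inner hL hT hy4 hyL hp.1.1 hp.1.2 hz
        gcongr
    _ = (576 * (3 + log L) ^ 2 * log z / (T * L)) *
        ∑ p ∈ (Ioc y z).filter Nat.Prime, log p / p := by
        rw [Finset.mul_sum]
        apply Finset.sum_congr rfl
        intro p _
        ring
    _ ≤ (576 * (3 + log L) ^ 2 * log z / (T * L)) * (8 * log z) := by
        have h2 : ∑ p ∈ (Ioc y z).filter Nat.Prime, log (p : ℝ) / p ≤ 8 * log z := by
          refine le_trans ?_ (sum_log_div_le hz2)
          apply Finset.sum_le_sum_of_subset_of_nonneg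
          · intro p hp
            rw [Finset.mem_filter, Finset.mem_Ioc] at hp
            rw [Finset.mem_filter, Finset.mem_Icc]
            exact ⟨⟨hp.2.one_le, hp.1.2⟩, hp.2⟩
          · intro p _ _
            have := Real.log_natCast_nonneg p
            positivity
        gcongr
    _ = 4608 * (3 + log L) ^ 2 * (log z) ^ 2 / (T * L) := by ring

end Pool.Agent.Work.MP_98b61d_nt
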