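import Pool.Agent.Work.MP_98b61d_nt.Pairs

/-!
The upper bound `N x ≤ x / (log x)^(1-ε)`.
-/

namespace Pool.Agent.Work.MP_98b61d_nt

open Finset Real Filter

lemma eventually_log_pow_le (C c s : ℝ) (k : ℕ) :
    ∀ᶠ D : ℝ in atTop, C * (c + s * log D) ^ k ≤ D := by
  have h1 : (fun D : ℝ => c + s * log D) =O[atTop] log := by
    apply Asymptotics.IsBigO.add
    · exact (Real.isLittleO_const_log_atTop (c := c)).isBigO
    · exact Asymptotics.isBigO_const_mul_self s _ _
  have h2 : (fun D : ℝ => C * (c + s * log D) ^ k) =o[atTop] (id : ℝ → ℝ) :=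
    ((h1.pow k).const_mul_left C).trans_isLittleO Real.isLittleO_pow_log_id_atTop
  have h3 := h2.bound (c := 1) one_pos
  filter_upwards [h3, eventually_ge_atTop 0] with D hD hD0
  have : ‖C * (c + s * log D) ^ k‖ ≤ D := by
    simpa [abs_of_nonneg hD0] using hD
  exact (le_abs_self _).trans this

lemma half_le_log_floor_exp {c : ℝ} (hc : 2 ≤ c) : c / 2 ≤ log (⌊exp c⌋₊ : ℝ) := by
  have hX : exp c < (⌊exp c⌋₊ : ℝ) + 1 := Nat.lt_floor_add_one _
  have h8 : exp (c / 2) * exp (c / 2) = exp c := by rw [← Real.exp_add]; ring_nf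
  have h9 : (2 : ℝ) ≤ exp (c / 2) := by
    have := Real.add_one_le_exp (c / 2)
    linarith
  have h10 : (0 : ℝ) < ⌊exp c⌋₊ := by nlinarith
  rw [Real.le_log_iff_exp_le h10]
  nlinarith

lemma log_floor_exp_le {c : ℝ} (hc : 0 ≤ c) : log (⌊exp c⌋₊ : ℝ) ≤ c := by
  have h1 : (⌊exp c⌋₊ : ℝ) ≤ exp c := Nat.floor_le (Real.exp_pos c).le
  have h2 : 1 ≤ ⌊exp c⌋₊ := by
    rw [Nat.one_le_floor_iff]; exact Real.one_le_exp hc
  rw [Real.log_le_iff_le_exp (by exact_mod_cast h2)]
  exact h1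

lemma card_PI_add_le (a b c n : ℕ) : (PI a c n).card ≤ (PI a b n).card + (PI b c n).card := by
  refine le_trans (Finset.card_le_card ?_) (Finset.card_union_le _ _)
  intro p hp
  rw [Finset.mem_union]
  rw [mem_PI] at hp
  rcases Nat.lt_or_ge b p with h | h
  · right; rw [mem_PI]; exact ⟨hp.1, h, hp.2.2⟩
  · left; rw [mem_PI]; exact ⟨hp.1, hp.2.1, h⟩

lemma card_PI_chain (y : ℕ → ℕ) (n M a : ℕ) (k : ℕ)
    (h : ∀ j, a ≤ j → j < a + k → (PI (y j) (y (j + 1)) n).card ≤ M) :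
    (PI (y a) (y (a + k)) n).card ≤ M * k := by
  induction k with
  | zero =>
    have : PI (y a) (y (a + 0)) n = ∅ := by
      ext p; rw [mem_PI]; simp
    rw [this]; simp
  | succ k ih =>
    have h1 := ih (fun j hj1 hj2 => h j hj1 (by omega))
    have h2 := h (a + k) (by omega) (by omega)
    have h3 := card_PI_add_le (y a) (y (a + k)) (y (a + k + 1)) n
    have e : a + (k + 1) = a + k + 1 := by ring
    rw [e, Nat.mul_succ]
    omega

/-- the cut points. -/
noncomputable def yc (D : ℝ) (j : ℕ) : ℕ := ⌊exp (D ^ j)⌋₊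

open Classical in
lemma wt_interval_le {D : ℝ} {r j : ℕ} (hj2 : 2 ≤ j) (hjr : j + 4 ≤ r) (hD : 8 ≤ D)
    (h1 : r * log D + 1 ≤ D) :
    wt (Hb (D ^ r) (D ^ (j - 1))) (yc D j) (yc D (j + 1)) ≤
      11000 * (3 + r * log D) ^ 2 / D := by
  have hD0 : 0 < D := by linarith
  have hD1 : 1 ≤ D := by linarith
  set L := D ^ r with hL
  set T := D ^ (j - 1) with hT
  have hlogL : log L = r * log D := by rw [hL, Real.log_pow]
  have hlogD : 0 ≤ log D := Real.log_nonneg hD1
  have hlam : 0 ≤ (r : ℝ) * log D := by positivity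
  have hpow : ∀ a b : ℕ, a ≤ b → D ^ a ≤ D ^ b := fun a b hab => pow_le_pow_right₀ hD1 hab
  have hL1 : 1 ≤ L := one_le_pow₀ hD1
  have hL0 : 0 < L := by linarith
  have hT1 : 1 ≤ T := one_le_pow₀ hD1
  have hT0 : 0 < T := by linarith
  have hjT : D ^ j = T * D := by
    rw [hT, ← pow_succ]; congr 1; omega
  have hTL4 : T * D ^ 5 ≤ L := by
    rw [hT, hL, ← pow_add]; exact hpow _ _ (by omega)
  have hD5 : (8 : ℝ) ≤ D ^ 5 := by
    calc (8 : ℝ) ≤ D := hD
      _ = D ^ 1 := (pow_one D).symm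
      _ ≤ D ^ 5 := hpow _ _ (by norm_num)
  have hD2 : D ^ 2 ≤ D ^ j := hpow _ _ hj2
  have hD28 : 64 ≤ D ^ 2 := by nlinarith
  have hly : D ^ j / 2 ≤ log (yc D j) := half_le_log_floor_exp (by linarith)
  have hlz : log (yc D (j + 1)) ≤ D ^ (j + 1) := log_floor_exp_le (by positivity)
  have hlz0 : 0 ≤ log (yc D (j + 1) : ℝ) := Real.log_natCast_nonneg _
  have hzL : D ^ (j + 1) * D ^ 3 ≤ L := by
    rw [hL, ← pow_add]; exact hpow _ _ (by omega)
  have hD3 : (24 : ℝ) ≤ D ^ 3 := by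
    have : D ^ 3 = D ^ 2 * D := by ring
    rw [this]; nlinarith
  have hz24 : 24 * log (yc D (j + 1)) ≤ L := by
    have : 0 ≤ D ^ (j + 1) := by positivity
    nlinarith
  have hy4 : 4 ≤ log (yc D j : ℝ) := by linarith
  have hyL : 2 * log L ≤ log (yc D j : ℝ) := by
    rw [hlogL]; nlinarith
  have hy8 : 8 ≤ yc D j := by
    have h3 : exp 4 ≤ (yc D j : ℝ) := by
      have h4 : (0 : ℝ) < yc D j := by
        rcases Nat.eq_zero_or_pos (yc D j) with h5 | h5
        · rw [h5] at hy4; simp at hy4; linarith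
        · exact_mod_cast h5
      rwa [Real.le_log_iff_exp_le h4] at hy4
    have h6 : (8 : ℝ) ≤ exp 4 := by
      have h7 := Real.add_one_le_exp (2 : ℝ)
      have h8 : exp 4 = exp 2 * exp 2 := by rw [← Real.exp_add]; norm_num
      rw [h8]; nlinarith
    exact_mod_cast h6.trans h3
  have hb := badSum_le (L := L) (T := T) (y := yc D j) (z := yc D (j + 1)) hL1 hT1 hy4 hyL hz24
  have hn := near_sum_le (L := L) (T := 2 * T) (y := yc D j) (z := yc D (j + 1)) hL1
    (by linarith) (by nlinarith) hy4 hyL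
  have hr := recip_le_log (y := yc D j) (z := yc D (j + 1)) (L := L) (by nlinarith) hy8
    (by nlinarith)
  have hw := wt_or_le L T (yc D j) (yc D (j + 1))
  rw [hlogL] at hb hn hr
  set lam := (r : ℝ) * log D with hlamdef
  have hb' : badSum L T (yc D j) (yc D (j + 1)) ≤ 4608 * (3 + lam) ^ 2 / D := by
    refine hb.trans ?_
    rw [div_le_div_iff₀ (by positivity) hD0]
    have h3 : (log (yc D (j + 1) : ℝ)) ^ 2 ≤ (D ^ (j + 1)) ^ 2 := by gcongr
    have h4 : (D ^ (j + 1)) ^ 2 * D ≤ T * L := by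
      have e1 : (D ^ (j + 1)) ^ 2 * D = D ^ (2 * (j + 1) + 1) := by
        rw [← pow_mul, ← pow_succ]; congr 1; ring
      rw [e1, hT, hL, ← pow_add]
      exact hpow _ _ (by omega)
    calc 4608 * (3 + lam) ^ 2 * (log (yc D (j + 1) : ℝ)) ^ 2 * D
        ≤ 4608 * (3 + lam) ^ 2 * (D ^ (j + 1)) ^ 2 * D := by gcongr
      _ = 4608 * (3 + lam) ^ 2 * ((D ^ (j + 1)) ^ 2 * D) := by ring
      _ ≤ 4608 * (3 + lam) ^ 2 * (T * L) := by gcongr
  have hn' : ∑ p ∈ ((Ioc (yc D j) (yc D (j + 1))).filter Nat.Prime).filter (Near L (2 * T)),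
      (1 : ℝ) / p ≤ 96 * (3 + lam) / D := by
    refine hn.trans ?_
    have h3 : 0 < log (yc D j : ℝ) := by linarith
    rw [div_le_div_iff₀ h3 hD0]
    have h4 : T * D ≤ 2 * log (yc D j : ℝ) := by rw [← hjT]; linarith
    have h5 : 0 ≤ 3 + lam := by linarith
    calc 24 * (2 * T) * (3 + lam) * D = 48 * (3 + lam) * (T * D) := by ring
      _ ≤ 48 * (3 + lam) * (2 * log (yc D j : ℝ)) := by gcongr
      _ = 96 * (3 + lam) * log (yc D j : ℝ) := by ring
  have hn0 : 0 ≤ ∑ p ∈ ((Ioc (yc D j) (yc D (j + 1))).filter Nat.Prime).filter (Near L (2 * T)),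
      (1 : ℝ) / p := Finset.sum_nonneg fun _ _ => by positivity
  have hr' : recip (yc D j) (yc D (j + 1)) ≤ 30 * (3 + lam) := by linarith
  refine hw.trans ?_
  calc badSum L T (yc D j) (yc D (j + 1)) + 2 * (recip (yc D j) (yc D (j + 1)) *
      ∑ p ∈ ((Ioc (yc D j) (yc D (j + 1))).filter Nat.Prime).filter (Near L (2 * T)), (1 : ℝ) / p)
      ≤ 4608 * (3 + lam) ^ 2 / D + 2 * ((30 * (3 + lam)) * (96 * (3 + lam) / D)) := by
        gcongr
    _ = 10368 * (3 + lam) ^ 2 / D := by ring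
    _ ≤ 11000 * (3 + lam) ^ 2 / D := by
        apply div_le_div_of_nonneg_right _ hD0.le
        nlinarith [sq_nonneg (3 + lam)]

/-- integers `n ≤ X` with `f n = F n`. -/
noncomputable def relSet (X : ℕ) : Finset ℕ :=
  haveI : DecidablePred (fun n => f n = F n) := Classical.decPred _
  (Ioc 0 X).filter (fun n => f n = F n)

lemma mem_relSet {X n : ℕ} : n ∈ relSet X ↔ (0 < n ∧ n ≤ X) ∧ f n = F n := by
  unfold relSet
  simp [Finset.mem_filter, Finset.mem_Ioc]

open Classical in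
lemma relSet_subset {D : ℝ} {r K : ℕ} (hr : 8 ≤ r) (hD : 8 ≤ D)
    (h1 : r * log D + 1 ≤ D) {x : ℝ} (hx : x = exp (D ^ r)) :
    relSet ⌊x⌋₊ ⊆ Ioc 0 ⌊x / D ^ r⌋₊ ∪
      ((Ico 2 (r - 3)).biUnion (fun j => HS (Hb (D ^ r) (D ^ (j - 1))) (yc D j) (yc D (j + 1)) ⌊x⌋₊ K) ∪
      (Ioc 0 ⌊x⌋₊).filter (fun n => (PI (yc D 2) (yc D (r - 3)) n).card ≤ 2 * K * r)) := by
  have hD0 : 0 < D := by linarith
  have hD1 : 1 ≤ D := by linarith
  have hx0 : 0 < x := by rw [hx]; exact Real.exp_pos _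
  have hpow : ∀ a b : ℕ, a ≤ b → D ^ a ≤ D ^ b := fun a b hab => pow_le_pow_right₀ hD1 hab
  have hlogx : log x = D ^ r := by rw [hx, Real.log_exp]
  set L := D ^ r with hL
  have hlogL : log L = r * log D := by rw [hL, Real.log_pow]
  have hL0 : 0 < L := by positivity
  intro n hn
  rw [mem_relSet] at hn
  obtain ⟨⟨hn0, hnX⟩, hf⟩ := hn
  rw [Finset.mem_union, Finset.mem_union]
  by_cases hsmall : n ≤ ⌊x / L⌋₊
  · left; rw [Finset.mem_Ioc]; exact ⟨hn0, hsmall⟩
  right
  push Not at hsmall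
  have hn0' : (0 : ℝ) < n := by exact_mod_cast hn0
  have hnlow : x / L < n := by
    have := Nat.lt_of_floor_lt hsmall
    exact this
  have hnup : (n : ℝ) ≤ x := le_trans (by exact_mod_cast hnX) (Nat.floor_le hx0.le)
  have hlogn1 : L - log L ≤ log n := by
    have := Real.log_le_log (by positivity) hnlow.le
    rwa [Real.log_div hx0.ne' hL0.ne', hlogx] at this
  have hlogn2 : log n ≤ L := by
    have := Real.log_le_log hn0' hnup
    rwa [hlogx] at this
  have hDL : D * D ≤ L := by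
    have : D ^ 2 ≤ D ^ r := hpow _ _ (by omega)
    rw [hL]; nlinarith
  have hL2 : L / 2 ≤ L - log L := by
    rw [hlogL]; nlinarith
  by_cases hex : ∃ j, 2 ≤ j ∧ j < r - 3 ∧ 2 * K ≤ (PI (yc D j) (yc D (j + 1)) n).card
  · left
    obtain ⟨j, hj2, hjr, hcard⟩ := hex
    rw [Finset.mem_biUnion]
    refine ⟨j, by rw [Finset.mem_Ico]; exact ⟨hj2, hjr⟩, ?_⟩
    rw [mem_HS]
    refine ⟨⟨hn0, hnX⟩, ?_⟩
    obtain ⟨S, hS, hScard⟩ := Finset.exists_subset_card_eq hcard
    refine ⟨S, hS, hScard, ?_⟩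
    intro p hp q hq hpq
    by_cases hgood : Good L (D ^ (j - 1)) p q
    · right
      have hp' := mem_PI.mp (hS hp)
      have hq' := mem_PI.mp (hS hq)
      apply near_of_good hf hn0.ne' hlogn1 hlogn2 hL2 ?_ ?_ ?_ (by omega) hgood
      · rw [hlogL]
        calc r * log D + 1 ≤ D := h1
          _ = D ^ 1 := (pow_one D).symm
          _ ≤ D ^ (j - 1) := hpow _ _ (by omega)
      · rw [Nat.mem_primeFactors]; exact hp'.1
      · rw [Nat.mem_primeFactors]; exact hq'.1
    · left; exact hgood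
  · right
    push Not at hex
    rw [Finset.mem_filter, Finset.mem_Ioc]
    refine ⟨⟨hn0, hnX⟩, ?_⟩
    have := card_PI_chain (yc D) n (2 * K) 2 (r - 5) (fun j hj1 hj2 =>
      (hex j hj1 (by omega)).le)
    have e : 2 + (r - 5) = r - 3 := by omega
    rw [e] at this
    refine this.trans (Nat.mul_le_mul_left _ (by omega))

lemma relSet_card_le {D : ℝ} {r : ℕ} (hr : 8 ≤ r) (hD : 8 ≤ D)
    (h1 : r * log D + 1 ≤ D) (h2 : 11000 ^ 2 * (3 + r * log D) ^ 4 ≤ D)
    (h3 : 2 * (r + 1) ≤ D)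
    (h4 : 13760 * (61 + 60 * (r * log D)) ^ (4 * r * r) ≤ D)
    {x : ℝ} (hx : x = exp (D ^ r)) :
    ((relSet ⌊x⌋₊).card : ℝ) ≤ x / D ^ (r - 6) := by
  classical
  have hD0 : 0 < D := by linarith
  have hD1 : 1 ≤ D := by linarith
  have hx0 : 0 < x := by rw [hx]; exact Real.exp_pos _
  have hpow : ∀ a b : ℕ, a ≤ b → D ^ a ≤ D ^ b := fun a b hab => pow_le_pow_right₀ hD1 hab
  have hlogD : 0 ≤ log D := Real.log_nonneg hD1
  set X := ⌊x⌋₊ with hX
  have hXx : (X : ℝ) ≤ x := Nat.floor_le hx0.le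
  set K := 2 * r with hK
  have hsub := relSet_subset (K := K) hr hD h1 hx
  set A := Ioc 0 ⌊x / D ^ r⌋₊ with hA
  set B := (Ico 2 (r - 3)).biUnion (fun j => HS (Hb (D ^ r) (D ^ (j - 1))) (yc D j) (yc D (j + 1)) X K) with hB
  set C := (Ioc 0 X).filter (fun n => (PI (yc D 2) (yc D (r - 3)) n).card ≤ 2 * K * r) with hC
  have hcardle : (relSet X).card ≤ A.card + (B.card + C.card) := by
    refine (Finset.card_le_card hsub).trans ((Finset.card_union_le _ _).trans ?_)
    exact Nat.add_le_add_left (Finset.card_union_le _ _) _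
  have hAle : (A.card : ℝ) ≤ x / D ^ r := by
    rw [hA, Nat.card_Ioc, Nat.sub_zero]
    exact Nat.floor_le (by positivity)
  have hBle : (B.card : ℝ) ≤ r * (x / D ^ r) := by
    have h5 : B.card ≤ ∑ j ∈ Ico 2 (r - 3), (HS (Hb (D ^ r) (D ^ (j - 1))) (yc D j) (yc D (j + 1)) X K).card := Finset.card_biUnion_le
    have h6 : (B.card : ℝ) ≤ ∑ j ∈ Ico 2 (r - 3),
        ((HS (Hb (D ^ r) (D ^ (j - 1))) (yc D j) (yc D (j + 1)) X K).card : ℝ) := by exact_mod_cast h5
    refine h6.trans ?_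
    have h7 : ∀ j ∈ Ico 2 (r - 3), ((HS (Hb (D ^ r) (D ^ (j - 1))) (yc D j) (yc D (j + 1)) X K).card : ℝ) ≤ x / D ^ r := by
      intro j hj
      rw [Finset.mem_Ico] at hj
      refine (card_HS_le _ _ _ _ _).trans ?_
      have h8 := wt_interval_le (D := D) (r := r) (j := j) hj.1 (by omega) hD h1
      set w := wt (Hb (D ^ r) (D ^ (j - 1))) (yc D j) (yc D (j + 1)) with hw
      have hw0 : 0 ≤ w := wt_nonneg _ _ _
      have h9 : w ^ 2 ≤ 1 / D := by
        calc w ^ 2 ≤ (11000 * (3 + r * log D) ^ 2 / D) ^ 2 := by gcongr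
          _ = (11000 ^ 2 * (3 + r * log D) ^ 4) / D ^ 2 := by ring
          _ ≤ D / D ^ 2 := by gcongr
          _ = 1 / D := by field_simp
      have h10 : w ^ K ≤ 1 / D ^ r := by
        rw [hK, pow_mul]
        calc (w ^ 2) ^ r ≤ (1 / D) ^ r := by gcongr
          _ = 1 / D ^ r := by rw [one_div_pow]
      calc (X : ℝ) * w ^ K ≤ x * (1 / D ^ r) := by gcongr
        _ = x / D ^ r := by ring
    calc _ ≤ ∑ j ∈ Ico 2 (r - 3), x / D ^ r := Finset.sum_le_sum h7
      _ = ((r - 3 - 2 : ℕ) : ℝ) * (x / D ^ r) := by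
          rw [Finset.sum_const, nsmul_eq_mul, Nat.card_Ico]
      _ ≤ r * (x / D ^ r) := by
          have : ((r - 3 - 2 : ℕ) : ℝ) ≤ r := by exact_mod_cast (by omega)
          gcongr
  have hCle : (C.card : ℝ) ≤ x * (3440 * (61 + 60 * (r * log D)) ^ (4 * r * r)) /
      D ^ (r - 5) := by
    have hD28 : 64 ≤ D ^ 2 := by nlinarith
    have e1 : D ^ 2 / 2 ≤ log (yc D 2) := half_le_log_floor_exp (by linarith)
    have e2 : D ^ (r - 3) / 2 ≤ log (yc D (r - 3)) := half_le_log_floor_exp (by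
      have : D ^ 2 ≤ D ^ (r - 3) := hpow _ _ (by omega)
      linarith)
    have e3 : log (yc D 2) ≤ D ^ 2 := log_floor_exp_le (by positivity)
    have e4 : log (yc D (r - 3)) ≤ D ^ (r - 3) := log_floor_exp_le (by positivity)
    have hy8 : 8 ≤ yc D 2 := by
      unfold yc
      apply Nat.le_floor
      have := Real.add_one_le_exp (D ^ 2)
      push_cast
      linarith
    have hlt : yc D 2 < yc D (r - 3) := by
      unfold yc
      rw [Nat.floor_lt (Real.exp_pos _).le]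
      have h5 : exp (D ^ 2) + 1 ≤ exp (D ^ (r - 3)) := by
        have h6 : D ^ 3 ≤ D ^ (r - 3) := hpow _ _ (by omega)
        have h7 : D ^ 2 + 1 ≤ D ^ 3 := by nlinarith
        have h8 : exp (D ^ 2 + 1) ≤ exp (D ^ (r - 3)) := Real.exp_le_exp.mpr (by linarith)
        rw [Real.exp_add] at h8
        have h9 := Real.add_one_le_exp (1 : ℝ)
        have h10 := Real.add_one_le_exp (D ^ 2)
        nlinarith
      have h6 := Nat.lt_floor_add_one (exp (D ^ (r - 3)))
      linarith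
    have hzX : yc D (r - 3) ≤ X := by
      rw [hX, hx]
      exact Nat.floor_le_floor (Real.exp_le_exp.mpr (hpow _ _ (by omega)))
    have hcf := card_few_le (y := yc D 2) (z := yc D (r - 3)) (X := X) (R := 2 * K * r)
      (by omega) hlt hzX
    have hrec : recip (yc D 2) (yc D (r - 3)) ≤ 30 * (1 + r * log D) := by
      have := recip_le_log (y := yc D 2) (z := yc D (r - 3)) (L := D ^ r) ?_ hy8 ?_
      · rwa [Real.log_pow] at this
      · have : D ^ 1 ≤ D ^ r := hpow _ _ (by omega)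
        linarith [pow_one D]
      · exact e4.trans (hpow _ _ (by omega))
    have hrec0 := recip_nonneg (yc D 2) (yc D (r - 3))
    have hlq : 0 < log (yc D (r - 3) : ℝ) := lt_of_lt_of_le (by positivity) e2
    have hq : log (yc D 2) / log (yc D (r - 3)) ≤ 2 / D ^ (r - 5) := by
      rw [div_le_div_iff₀ hlq (by positivity)]
      have e5 : D ^ 2 * D ^ (r - 5) = D ^ (r - 3) := by
        rw [← pow_add]; congr 1; omega
      calc log (yc D 2) * D ^ (r - 5) ≤ D ^ 2 * D ^ (r - 5) := by gcongr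
        _ = D ^ (r - 3) := e5
        _ ≤ 2 * log (yc D (r - 3)) := by linarith
    have hq0 : 0 ≤ log (yc D 2 : ℝ) / log (yc D (r - 3)) := by
      have := Real.log_natCast_nonneg (yc D 2)
      positivity
    calc (C.card : ℝ) ≤ 1720 * X * (log (yc D 2) / log (yc D (r - 3))) *
          (1 + 2 * recip (yc D 2) (yc D (r - 3))) ^ (2 * K * r) := hcf
      _ ≤ 1720 * x * (2 / D ^ (r - 5)) *
          (1 + 2 * (30 * (1 + r * log D))) ^ (2 * K * r) := by gcongr
      _ = x * (3440 * (61 + 60 * (r * log D)) ^ (4 * r * r)) / D ^ (r - 5) := by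
          have e6 : 2 * K * r = 4 * r * r := by rw [hK]; ring
          rw [e6]
          have e7 : 1 + 2 * (30 * (1 + (r : ℝ) * log D)) = 61 + 60 * (r * log D) := by ring
          rw [e7]
          ring
  have htot : ((relSet X).card : ℝ) ≤ x / D ^ r + (r * (x / D ^ r) +
      x * (3440 * (61 + 60 * (r * log D)) ^ (4 * r * r)) / D ^ (r - 5)) := by
    have : ((relSet X).card : ℝ) ≤ (A.card : ℝ) + (B.card + C.card) := by exact_mod_cast hcardle
    linarith
  refine htot.trans ?_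
  have e8 : D ^ r = D ^ (r - 6) * D ^ 6 := by rw [← pow_add]; congr 1; omega
  have e9 : D ^ (r - 5) = D ^ (r - 6) * D := by rw [← pow_succ]; congr 1; omega
  have hp6 : 0 < D ^ (r - 6) := by positivity
  have hA' : x / D ^ r + r * (x / D ^ r) ≤ (x / D ^ (r - 6)) * (1 / 2) := by
    have : x / D ^ r + r * (x / D ^ r) = (x / D ^ (r - 6)) * ((r + 1) / D ^ 6) := by
      rw [e8]; field_simp; ring
    rw [this]
    apply mul_le_mul_of_nonneg_left _ (by positivity)
    rw [div_le_div_iff₀ (by positivity) (by norm_num)]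
    have : D ≤ D ^ 6 := by
      calc D = D ^ 1 := (pow_one D).symm
        _ ≤ D ^ 6 := hpow _ _ (by norm_num)
    linarith
  have hC' : x * (3440 * (61 + 60 * (r * log D)) ^ (4 * r * r)) / D ^ (r - 5) ≤
      (x / D ^ (r - 6)) * (1 / 2) := by
    have : x * (3440 * (61 + 60 * (r * log D)) ^ (4 * r * r)) / D ^ (r - 5) =
        (x / D ^ (r - 6)) * ((3440 * (61 + 60 * (r * log D)) ^ (4 * r * r)) / D) := by
      rw [e9]; field_simp
    rw [this]
    apply mul_le_mul_of_nonneg_left _ (by positivity)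
    rw [div_le_div_iff₀ hD0 (by norm_num)]
    linarith
  linarith

/-- Upper bound: `#{n ≤ x : f n = F n} ≤ x / (log x)^(1-ε)` for large `x`. -/
theorem relSet_card_le_rpow {ε : ℝ} (hε : 0 < ε) :
    ∀ᶠ x : ℝ in atTop, ((relSet ⌊x⌋₊).card : ℝ) ≤ x / (log x) ^ (1 - ε) := by
  obtain ⟨r, hr⟩ := exists_nat_ge (max 8 (6 / ε))
  have hr8 : 8 ≤ r := by
    have := (le_max_left _ _).trans hr
    exact_mod_cast this
  have hr0 : (0 : ℝ) < r := by exact_mod_cast (by omega)
  have hrε : 6 / r ≤ ε := by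
    have := (le_max_right _ _).trans hr
    rw [div_le_iff₀ hε] at this
    rw [div_le_iff₀ hr0]
    linarith
  have hev : ∀ᶠ D : ℝ in atTop, 8 ≤ D ∧ r * log D + 1 ≤ D ∧
      11000 ^ 2 * (3 + r * log D) ^ 4 ≤ D ∧ 2 * ((r : ℝ) + 1) ≤ D ∧
      13760 * (61 + 60 * (r * log D)) ^ (4 * r * r) ≤ D := by
    have a1 := eventually_log_pow_le 1 1 r 1
    have a2 := eventually_log_pow_le (11000 ^ 2) 3 r 4
    have a3 := eventually_log_pow_le 13760 61 (60 * r) (4 * r * r)
    filter_upwards [a1, a2, a3, eventually_ge_atTop 8, eventually_ge_atTop (2 * ((r : ℝ) + 1))]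
      with D b1 b2 b3 b4 b5
    refine ⟨b4, ?_, b2, b5, ?_⟩
    · rw [pow_one] at b1; linarith
    · rwa [mul_assoc 60] at b3
  have htend : Tendsto (fun x : ℝ => (log x) ^ ((1 : ℝ) / r)) atTop atTop :=
    (tendsto_rpow_atTop (by positivity)).comp Real.tendsto_log_atTop
  filter_upwards [htend.eventually hev, eventually_gt_atTop (exp 1)] with x hx hxe
  obtain ⟨b1, b2, b3, b4, b5⟩ := hx
  set D := (log x) ^ ((1 : ℝ) / r) with hD
  have hx0 : 0 < x := lt_trans (Real.exp_pos 1) hxe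
  have hlx : 1 < log x := by
    rwa [Real.lt_log_iff_exp_lt hx0]
  have hDr : D ^ r = log x := by
    rw [hD, ← Real.rpow_natCast, ← Real.rpow_mul (by linarith)]
    rw [one_div_mul_cancel hr0.ne', Real.rpow_one]
  have hxe' : x = exp (D ^ r) := by rw [hDr, Real.exp_log hx0]
  refine (relSet_card_le hr8 b1 b2 b3 b4 b5 hxe').trans ?_
  have hD0 : 0 < D := by linarith
  have hp : (log x) ^ (1 - ε) ≤ D ^ (r - 6) := by
    have : D ^ (r - 6) = (log x) ^ (1 - 6 / (r : ℝ)) := by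
      rw [hD, ← Real.rpow_natCast, ← Real.rpow_mul (by linarith)]
      congr 1
      rw [Nat.cast_sub (by omega)]
      field_simp
      norm_num
    rw [this]
    exact Real.rpow_le_rpow_of_exponent_le hlx.le (by linarith)
  have : 0 < (log x) ^ (1 - ε) := by
    apply Real.rpow_pos_of_pos; linarith
  exact div_le_div_of_nonneg_left hx0.le this hp

end Pool.Agent.Work.MP_98b61d_nt
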