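import Pool.Agent.Work.MP_98b61d_nt.Asym2

/-!
Simultaneous approximation: a real number just above a power of each prime up to `Y`.
-/

namespace Pool.Agent.Work.MP_98b61d_nt

open Finset Real Filter

/-- Dirichlet's theorem for the numbers `h / log i`, `i ≤ Y`. -/
lemma simul_dirichlet (Y Q : ℕ) (hQ : 1 ≤ Q) (h : ℝ) :
    ∃ n : ℕ, 1 ≤ n ∧ n ≤ Q ^ (Y + 1) ∧ ∀ i : ℕ, i ≤ Y →
      ∃ K : ℤ, |(n : ℝ) * (h / log i) - K| ≤ 1 / Q := by
  classical
  have hQ0 : (0 : ℝ) < Q := by exact_mod_cast hQ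
  let v : ℕ → Fin (Y + 1) → Fin Q := fun n i =>
    ⟨⌊Int.fract ((n : ℝ) * (h / log (i : ℕ))) * Q⌋₊, by
      rw [Nat.floor_lt (mul_nonneg (Int.fract_nonneg _) hQ0.le)]
      have := Int.fract_lt_one ((n : ℝ) * (h / log (i : ℕ)))
      nlinarith⟩
  have hcard : (Finset.univ : Finset (Fin (Y + 1) → Fin Q)).card <
      (Finset.range (Q ^ (Y + 1) + 1)).card := by
    rw [Finset.card_univ, Fintype.card_fun, Fintype.card_fin, Fintype.card_fin,
      Finset.card_range]
    omega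
  obtain ⟨a, ha, b, hb, hab, hv⟩ := Finset.exists_ne_map_eq_of_card_lt_of_maps_to hcard
    (f := v) (fun _ _ => Finset.mem_univ _)
  wlog hlt : a < b generalizing a b
  · exact this b hb a ha hab.symm hv.symm (by omega)
  rw [Finset.mem_range] at ha hb
  refine ⟨b - a, by omega, by omega, ?_⟩
  intro i hi
  have hvi : (v a ⟨i, by omega⟩ : ℕ) = (v b ⟨i, by omega⟩ : ℕ) := by rw [hv]
  simp only [v] at hvi
  set x := (a : ℝ) * (h / log i) with hx
  set y := (b : ℝ) * (h / log i) with hy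
  refine ⟨⌊y⌋ - ⌊x⌋, ?_⟩
  have h1 : ((b - a : ℕ) : ℝ) * (h / log i) - ((⌊y⌋ - ⌊x⌋ : ℤ) : ℝ) =
      Int.fract y - Int.fract x := by
    rw [Nat.cast_sub hlt.le]
    push_cast
    rw [← Int.self_sub_floor, ← Int.self_sub_floor, hx, hy]
    ring
  rw [h1]
  have fx0 : 0 ≤ Int.fract x * Q := mul_nonneg (Int.fract_nonneg _) hQ0.le
  have fy0 : 0 ≤ Int.fract y * Q := mul_nonneg (Int.fract_nonneg _) hQ0.le
  have a1 := Nat.floor_le fx0
  have a2 := Nat.lt_floor_add_one (Int.fract x * Q)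
  have b1 := Nat.floor_le fy0
  have b2 := Nat.lt_floor_add_one (Int.fract y * Q)
  rw [hvi] at a1 a2
  rw [abs_le]
  constructor
  · rw [neg_le_sub_iff_le_add, ← sub_le_iff_le_add', le_div_iff₀ hQ0]
    nlinarith
  · rw [le_div_iff₀ hQ0]
    nlinarith

/-- A real number just above a power of each prime up to `Y`. -/
lemma exists_above {Y Q : ℕ} {h δ : ℝ} (hQ : 1 ≤ Q) (hh : 1 ≤ h)
    (hδ : 0 < δ) (hδ1 : δ ≤ 1) (hQδ : 4 * log Y ≤ δ * Q) :
    ∃ u : ℝ, h ≤ u ∧ u ≤ h * Q ^ (Y + 1) + 1 ∧ ∀ p : ℕ, p.Prime → p ≤ Y →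
      ∃ k : ℕ, u - δ / 2 ≤ k * log p ∧ k * log p ≤ u := by
  obtain ⟨n, hn1, hn2, hK⟩ := simul_dirichlet Y Q hQ h
  have hQ0 : (0 : ℝ) < Q := by exact_mod_cast hQ
  have hn1' : (1 : ℝ) ≤ n := by exact_mod_cast hn1
  have hn2' : (n : ℝ) ≤ (Q : ℝ) ^ (Y + 1) := by exact_mod_cast hn2
  refine ⟨n * h + δ / 4, by nlinarith, by nlinarith, ?_⟩
  intro p hp hpY
  obtain ⟨K, hKp⟩ := hK p hpY
  have hlp : 0 < log (p : ℝ) := Real.log_pos (by exact_mod_cast hp.one_lt)
  have hlpY : log (p : ℝ) ≤ log Y :=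
    Real.log_le_log (by exact_mod_cast hp.pos) (by exact_mod_cast hpY)
  have h1 : |(n : ℝ) * h - K * log p| ≤ δ / 4 := by
    have e : (n : ℝ) * h - K * log p = ((n : ℝ) * (h / log p) - K) * log p := by
      field_simp
    rw [e, abs_mul, abs_of_pos hlp]
    calc |(n : ℝ) * (h / log p) - K| * log p ≤ (1 / Q) * log p := by gcongr
      _ ≤ δ / 4 := by
          rw [one_div_mul_eq_div, div_le_div_iff₀ hQ0 (by norm_num)]
          nlinarith
  rw [abs_le] at h1
  have hK0 : 0 ≤ K := by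
    by_contra hneg
    push Not at hneg
    have : (K : ℝ) ≤ -1 := by
      have : K ≤ -1 := by omega
      exact_mod_cast this
    nlinarith
  obtain ⟨k, rfl⟩ := Int.eq_ofNat_of_zero_le hK0
  refine ⟨k, ?_, ?_⟩
  · have : ((Int.ofNat k : ℤ) : ℝ) = (k : ℝ) := by simp
    have h2 : (((k : ℕ) : ℤ) : ℝ) = (k : ℝ) := by simp
    rw [h2] at h1
    linarith [h1.2]
  · have h2 : (((k : ℕ) : ℤ) : ℝ) = (k : ℝ) := by simp
    rw [h2] at h1
    linarith [h1.1]

/-- If all primes up to `Y` have a power just below `t`, the integers `m ≤ Y` which do not lie just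
above a power of one of their prime factors satisfy `E t m`. -/
lemma E_of_above {t δ : ℝ} {Y m : ℕ} (hδ : δ ≤ 1 / 2) (hm1 : 1 ≤ m) (hmY : m ≤ Y)
    (ht : (Y : ℝ) ^ 2 ≤ t)
    (htop : ∀ p : ℕ, p.Prime → p ≤ Y → (1 - δ) * t ≤ (p : ℝ) ^ Nat.log p ⌊t⌋₊)
    (hgood : ∀ p i : ℕ, p.Prime → p ∣ m → p ^ i ≤ m → (p : ℝ) ^ i ≤ (1 - δ) * m + 1) :
    E t m := by
  have hY1 : 1 ≤ Y := hm1.trans hmY
  have hY1' : (1 : ℝ) ≤ Y := by exact_mod_cast hY1
  have hmR : (1 : ℝ) ≤ m := by exact_mod_cast hm1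
  have hmY' : (m : ℝ) ≤ Y := by exact_mod_cast hmY
  have ht1 : 1 ≤ t := by nlinarith
  have ht0 : 0 < t := by linarith
  have hfl : ⌊t⌋₊ ≠ 0 := by
    have : 1 ≤ ⌊t⌋₊ := by rw [Nat.one_le_floor_iff]; exact ht1
    omega
  refine ⟨hm1, by nlinarith, ?_⟩
  intro b hb2 hb
  have hb0 : b ≠ 0 := by omega
  have hpm : ∀ p ∈ b.primeFactors, p.Prime ∧ p ∣ m ∧ p ≤ Y := by
    intro p hp
    rw [Nat.mem_primeFactors] at hp
    have h1 := hb p hp.1 hp.2.1
    exact ⟨hp.1, h1, (Nat.le_of_dvd (by omega) h1).trans hmY⟩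
  by_cases hone : b.primeFactors.card = 1
  · -- prime power
    obtain ⟨p, hp⟩ := Finset.card_eq_one.mp hone
    have hpp : p ∈ b.primeFactors := by rw [hp]; exact Finset.mem_singleton_self p
    obtain ⟨hpr, hpdvd, hpY⟩ := hpm p hpp
    have hbp : b = p ^ b.factorization p := by
      conv_lhs => rw [← Nat.prod_factorization_pow_eq_self hb0]
      rw [Finsupp.prod, Nat.support_factorization, hp, Finset.prod_singleton]
    have hfT : fT t b = p ^ Nat.log p ⌊t⌋₊ := by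
      unfold fT; rw [hp, Finset.sum_singleton]
    rw [hfT]
    constructor
    · intro hbt
      have h1 : b ≤ ⌊t⌋₊ := Nat.le_floor hbt
      rw [hbp] at h1 ⊢
      exact Nat.pow_le_pow_right hpr.pos (Nat.le_log_of_pow_le hpr.one_lt h1)
    · intro hbm
      have h1 := hgood p (b.factorization p) hpr hpdvd (by rw [← hbp]; exact hbm)
      have h2 : (b : ℝ) ≤ (1 - δ) * m + 1 := by
        calc (b : ℝ) = (p : ℝ) ^ b.factorization p := by exact_mod_cast hbp
          _ ≤ _ := h1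
      have h3 := htop p hpr hpY
      push_cast
      refine le_trans ?_ h3
      rw [div_le_iff₀ (by linarith)]
      nlinarith
  · -- at least two primes
    have hcard : 2 ≤ b.primeFactors.card := by
      have h1 : b.primeFactors.card ≠ 0 := by
        rw [Finset.card_ne_zero]
        exact Nat.nonempty_primeFactors.mpr (by omega)
      omega
    have hfT : t ≤ fT t b := by
      unfold fT
      push_cast
      calc t ≤ 2 * ((1 - δ) * t) := by nlinarith
        _ ≤ b.primeFactors.card * ((1 - δ) * t) := by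
            have h1 : (2 : ℝ) ≤ b.primeFactors.card := by exact_mod_cast hcard
            have h2 : 0 ≤ (1 - δ) * t := mul_nonneg (by linarith) ht0.le
            nlinarith
        _ = ∑ p ∈ b.primeFactors, ((1 - δ) * t) := by
            rw [Finset.sum_const, nsmul_eq_mul]
        _ ≤ ∑ p ∈ b.primeFactors, (p : ℝ) ^ Nat.log p ⌊t⌋₊ := by
            apply Finset.sum_le_sum
            intro p hp
            exact htop p (hpm p hp).1 (hpm p hp).2.2
    constructor
    · intro hbt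
      have : (b : ℝ) ≤ (fT t b : ℝ) := hbt.trans hfT
      exact_mod_cast this
    · intro hbm
      refine le_trans ?_ hfT
      rw [div_le_iff₀ (by linarith)]
      have : (b : ℝ) ≤ m := by exact_mod_cast hbm
      nlinarith

end Pool.Agent.Work.MP_98b61d_nt
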