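import Pool.Agent.Work.MP_98b61d_nt.Osc1

/-!
The sum of `1/m` over the integers `m ≤ Y` which do not lie just above a power of one of their
prime factors.
-/

namespace Pool.Agent.Work.MP_98b61d_nt

open Finset Real Filter

open Classical in
/-- integers `m ≤ Y` just above a given prime power. -/
noncomputable def nearPow (δ : ℝ) (Y p i : ℕ) : Finset ℕ :=
  (Ioc 0 Y).filter (fun m => p ∣ m ∧ p ^ i ≤ m ∧ (1 - δ) * m + 1 < (p : ℝ) ^ i)

lemma mem_nearPow {δ : ℝ} {Y p i m : ℕ} : m ∈ nearPow δ Y p i ↔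
    (0 < m ∧ m ≤ Y) ∧ p ∣ m ∧ p ^ i ≤ m ∧ (1 - δ) * m + 1 < (p : ℝ) ^ i := by
  unfold nearPow
  rw [Finset.mem_filter, Finset.mem_Ioc]

lemma nearPow_sum_le {δ : ℝ} {Y p i : ℕ} (hδ0 : 0 ≤ δ) (hδ : δ ≤ 1 / 2) (hp : p.Prime)
    (hi : 1 ≤ i) : ∑ m ∈ nearPow δ Y p i, (1 : ℝ) / m ≤ 2 * δ / p + 1 / (p : ℝ) ^ i := by
  have hp0 : (0 : ℝ) < p := by exact_mod_cast hp.pos
  obtain ⟨j, rfl⟩ : ∃ j, i = j + 1 := ⟨i - 1, by omega⟩
  set a := p ^ j with ha
  have ha0 : 0 < a := pow_pos hp.pos j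
  have haR : (0 : ℝ) < a := by exact_mod_cast ha0
  have hpi : (p : ℝ) ^ (j + 1) = p * a := by rw [ha, pow_succ]; push_cast; ring
  have hcard : ((nearPow δ Y p (j + 1)).card : ℝ) ≤ 2 * δ * a + 1 := by
    have h1 : (nearPow δ Y p (j + 1)).card ≤ (Ico a ⌈a / (1 - δ)⌉₊).card := by
      apply Finset.card_le_card_of_injOn (fun m => m / p)
      · intro m hm
        rw [Finset.mem_coe, mem_nearPow] at hm
        obtain ⟨⟨hm0, hmY⟩, ⟨l, rfl⟩, h2, h3⟩ := hm
        have hdiv : p * l / p = l := Nat.mul_div_cancel_left l hp.pos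
        simp only [hdiv, Finset.mem_coe, Finset.mem_Ico]
        constructor
        · rw [pow_succ, mul_comm] at h2
          exact Nat.le_of_mul_le_mul_left h2 hp.pos
        · rw [Nat.lt_ceil, lt_div_iff₀ (by linarith)]
          rw [hpi] at h3
          push_cast at h3
          have h4 : (l : ℝ) * (1 - δ) * p < a * p := by nlinarith
          exact lt_of_mul_lt_mul_right h4 hp0.le
      · intro m hm m' hm' heq
        rw [Finset.mem_coe, mem_nearPow] at hm hm'
        obtain ⟨_, ⟨l, rfl⟩, _⟩ := hm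
        obtain ⟨_, ⟨l', rfl⟩, _⟩ := hm'
        simp only [Nat.mul_div_cancel_left _ hp.pos] at heq
        rw [heq]
    rw [Nat.card_Ico] at h1
    have hle : a ≤ ⌈a / (1 - δ)⌉₊ := by
      have : (a : ℝ) ≤ ⌈a / (1 - δ)⌉₊ := by
        refine le_trans ?_ (Nat.le_ceil _)
        rw [le_div_iff₀ (by linarith)]
        nlinarith
      exact_mod_cast this
    have h2 : ((nearPow δ Y p (j + 1)).card : ℝ) ≤ (⌈a / (1 - δ)⌉₊ : ℝ) - a := by
      have : ((nearPow δ Y p (j + 1)).card : ℝ) ≤ ((⌈a / (1 - δ)⌉₊ - a : ℕ) : ℝ) := by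
        exact_mod_cast h1
      rwa [Nat.cast_sub hle] at this
    have h3 : (⌈a / (1 - δ)⌉₊ : ℝ) < a / (1 - δ) + 1 :=
      Nat.ceil_lt_add_one (div_nonneg haR.le (by linarith))
    have h4 : (a : ℝ) / (1 - δ) ≤ a + 2 * δ * a := by
      rw [div_le_iff₀ (by linarith)]
      nlinarith [mul_nonneg hδ0 haR.le]
    linarith
  calc ∑ m ∈ nearPow δ Y p (j + 1), (1 : ℝ) / m
      ≤ ∑ m ∈ nearPow δ Y p (j + 1), 1 / (p : ℝ) ^ (j + 1) := by
        apply Finset.sum_le_sum
        intro m hm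
        rw [mem_nearPow] at hm
        apply one_div_le_one_div_of_le (by positivity)
        exact_mod_cast hm.2.2.1
    _ = ((nearPow δ Y p (j + 1)).card : ℝ) * (1 / (p : ℝ) ^ (j + 1)) := by
        rw [Finset.sum_const, nsmul_eq_mul]
    _ ≤ (2 * δ * a + 1) * (1 / (p : ℝ) ^ (j + 1)) := by gcongr
    _ = 2 * δ / p + 1 / (p : ℝ) ^ (j + 1) := by
        rw [hpi]; field_simp

/-- `∑ 1/(p log p)` over all primes is finite. -/
lemma sum_inv_mul_log_le_pow (k : ℕ) :
    ∑ p ∈ (Ioc 0 ⌊exp (2 ^ k * 2)⌋₊).filter Nat.Prime, 1 / ((p : ℝ) * log p) ≤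
      30 - 18 / 2 ^ k := by
  have hlog2 := Real.log_two_gt_d9
  induction k with
  | zero =>
    rw [pow_zero, one_mul]
    have h8 : ⌊exp 2⌋₊ ≤ 8 := by
      have h3 : exp 2 < 8 := by
        have := Real.exp_one_lt_d9
        have h3 : exp 2 = exp 1 * exp 1 := by rw [← Real.exp_add]; norm_num
        have := Real.exp_pos 1
        rw [h3]; nlinarith
      have : ⌊exp 2⌋₊ < 8 := by
        rw [Nat.floor_lt (Real.exp_pos 2).le]; exact_mod_cast h3
      omega
    calc ∑ p ∈ (Ioc 0 ⌊exp 2⌋₊).filter Nat.Prime, 1 / ((p : ℝ) * log p)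
        ≤ ∑ p ∈ (Ioc 0 ⌊exp 2⌋₊).filter Nat.Prime, (1 : ℝ) := by
          apply Finset.sum_le_sum
          intro p hp
          rw [Finset.mem_filter] at hp
          have h1 : (2 : ℝ) ≤ p := by exact_mod_cast hp.2.two_le
          have h2 : log 2 ≤ log p := Real.log_le_log (by norm_num) h1
          have h3 : 0 < log (p : ℝ) := by linarith
          rw [div_le_one (by positivity)]
          nlinarith
      _ = (((Ioc 0 ⌊exp 2⌋₊).filter Nat.Prime).card : ℝ) := by
          rw [Finset.sum_const, nsmul_eq_mul, mul_one]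
      _ ≤ 8 := by
          have : ((Ioc 0 ⌊exp 2⌋₊).filter Nat.Prime).card ≤ 8 := by
            refine (Finset.card_filter_le _ _).trans ?_
            simpa using h8
          exact_mod_cast this
      _ ≤ 30 - 18 / 1 := by norm_num
  | succ k ih =>
    have hk : (1 : ℝ) ≤ 2 ^ k := one_le_pow₀ (by norm_num)
    have e1 : ⌊exp (2 ^ k * 2)⌋₊ ≤ ⌊exp (2 ^ (k + 1) * 2)⌋₊ :=
      Nat.floor_le_floor (Real.exp_le_exp.mpr (by rw [pow_succ]; nlinarith))
    have hsplit : ∑ p ∈ (Ioc 0 ⌊exp (2 ^ (k + 1) * 2)⌋₊).filter Nat.Prime,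
        1 / ((p : ℝ) * log p) =
        ∑ p ∈ (Ioc 0 ⌊exp (2 ^ k * 2)⌋₊).filter Nat.Prime, 1 / ((p : ℝ) * log p) +
        ∑ p ∈ (Ioc ⌊exp (2 ^ k * 2)⌋₊ ⌊exp (2 ^ (k + 1) * 2)⌋₊).filter Nat.Prime,
          1 / ((p : ℝ) * log p) := by
      rw [← Finset.sum_union]
      · congr 1
        rw [← Finset.filter_union, Finset.Ioc_union_Ioc_eq_Ioc (Nat.zero_le _) e1]
      · apply Finset.disjoint_filter_filter
        rw [Finset.disjoint_left]
        intro a ha hb
        rw [Finset.mem_Ioc] at ha hb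
        omega
    rw [hsplit]
    have hd : (2 : ℝ) ≤ 2 ^ k * 2 := by nlinarith
    have hd1 : (1 : ℝ) ≤ exp (2 ^ k * 2) := Real.one_le_exp (by linarith)
    have h1 := recip_exp_le (c := 2 ^ k * 2) (h := 2 ^ k * 2) (B := 2) hd (by linarith)
      (by nlinarith) (le_refl _) (le_trans (Real.exp_le_one_iff.mpr (by norm_num)) (by linarith))
    have e3 : (2 : ℝ) ^ k * 2 + 2 ^ k * 2 = 2 ^ (k + 1) * 2 := by ring
    rw [e3] at h1
    have e4 : 6 * ((2 : ℝ) ^ k * 2) * (1 + 2) / (2 ^ k * 2) = 18 := by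
      field_simp
      norm_num
    rw [e4] at h1
    have h2 : ∑ p ∈ (Ioc ⌊exp (2 ^ k * 2)⌋₊ ⌊exp (2 ^ (k + 1) * 2)⌋₊).filter Nat.Prime,
          1 / ((p : ℝ) * log p) ≤ 9 / 2 ^ k := by
      calc _ ≤ ∑ p ∈ (Ioc ⌊exp (2 ^ k * 2)⌋₊ ⌊exp (2 ^ (k + 1) * 2)⌋₊).filter Nat.Prime,
            (1 / (2 ^ k * 2)) * (1 / (p : ℝ)) := by
            apply Finset.sum_le_sum
            intro p hp
            rw [Finset.mem_filter, Finset.mem_Ioc] at hp
            have hp0 : (0 : ℝ) < p := by exact_mod_cast hp.2.pos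
            have h3 : exp (2 ^ k * 2) < p := by
              have := hp.1.1
              rwa [Nat.floor_lt (Real.exp_pos _).le] at this
            have h4 : 2 ^ k * 2 ≤ log (p : ℝ) := by
              rw [Real.le_log_iff_exp_le hp0]; exact h3.le
            rw [one_div_mul_one_div]
            apply one_div_le_one_div_of_le (by positivity)
            nlinarith
        _ = (1 / (2 ^ k * 2)) * recip ⌊exp (2 ^ k * 2)⌋₊ ⌊exp (2 ^ (k + 1) * 2)⌋₊ := by
            rw [recip, Finset.mul_sum]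
        _ ≤ (1 / (2 ^ k * 2)) * 18 := by gcongr
        _ = 9 / 2 ^ k := by ring
    have e5 : (18 : ℝ) / 2 ^ (k + 1) = 9 / 2 ^ k := by rw [pow_succ]; ring
    rw [e5]
    have e6 : (18 : ℝ) / 2 ^ k = 9 / 2 ^ k + 9 / 2 ^ k := by ring
    linarith

lemma sum_inv_mul_log_le (Y : ℕ) :
    ∑ p ∈ (Ioc 0 Y).filter Nat.Prime, 1 / ((p : ℝ) * log p) ≤ 30 := by
  obtain ⟨k, hk⟩ : ∃ k : ℕ, (Y : ℝ) ≤ exp (2 ^ k * 2) := by
    refine ⟨Y, ?_⟩
    have h1 : (Y : ℝ) ≤ 2 ^ Y := by exact_mod_cast Nat.lt_two_pow_self.le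
    have h2 := Real.add_one_le_exp ((2 : ℝ) ^ Y * 2)
    linarith [show (0 : ℝ) < 2 ^ Y by positivity]
  refine le_trans ?_ ((sum_inv_mul_log_le_pow k).trans ?_)
  · apply Finset.sum_le_sum_of_subset_of_nonneg
    · apply Finset.filter_subset_filter
      exact Finset.Ioc_subset_Ioc_right (Nat.le_floor hk)
    · intro p _ _
      have := Real.log_natCast_nonneg p
      positivity
  · have : (0 : ℝ) < 18 / 2 ^ k := by positivity
    linarith

lemma geom_tail_le {p : ℕ} (K : ℕ) (hp : 2 ≤ p) :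
    ∑ i ∈ Icc 1 K, 1 / (p : ℝ) ^ i ≤ 2 / p := by
  have hp' : (2 : ℝ) ≤ p := by exact_mod_cast hp
  have hp0 : (0 : ℝ) < p := by linarith
  have key : ∀ K : ℕ, ((p : ℝ) - 1) * ∑ i ∈ Icc 1 K, 1 / (p : ℝ) ^ i = 1 - 1 / (p : ℝ) ^ K := by
    intro K
    induction K with
    | zero => simp
    | succ K ih =>
      rw [Finset.sum_Icc_succ_top (by omega), mul_add, ih]
      have h1 : 1 / (p : ℝ) ^ K = p * (1 / (p : ℝ) ^ (K + 1)) := by
        rw [pow_succ]; field_simp
      rw [h1]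
      ring
  have h1 := key K
  have h2 : 0 < 1 / (p : ℝ) ^ K := by positivity
  have h3 : ((p : ℝ) - 1) * ∑ i ∈ Icc 1 K, 1 / (p : ℝ) ^ i ≤ 1 := by linarith
  rw [le_div_iff₀ hp0]
  have h4 : 0 ≤ ∑ i ∈ Icc 1 K, 1 / (p : ℝ) ^ i := Finset.sum_nonneg fun _ _ => by positivity
  nlinarith

/-- The sum of `1/m` over the `m ≤ Y` lying just above a power of one of their prime factors. -/
lemma bad_sum_le {δ : ℝ} {Y : ℕ} (hδ0 : 0 ≤ δ) (hδ : δ ≤ 1 / 2) (hY : 8 ≤ Y)
    (hlY : 2 ≤ log Y) (B : Finset ℕ)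
    (hB : ∀ m ∈ B, (0 < m ∧ m ≤ Y) ∧ ∃ p i : ℕ, p.Prime ∧ p ∣ m ∧ p ^ i ≤ m ∧
      (1 - δ) * m + 1 < (p : ℝ) ^ i) :
    ∑ m ∈ B, (1 : ℝ) / m ≤ 60 * δ * log Y + 2 * (8 + 30 * (1 + log (log Y))) := by
  classical
  have hY0 : (0 : ℝ) < Y := by exact_mod_cast (by omega : 0 < Y)
  have hsub : B ⊆ ((Ioc 0 Y).filter Nat.Prime).biUnion (fun p =>
      (Icc 1 (Nat.log p Y)).biUnion (fun i => nearPow δ Y p i)) := by
    intro m hm
    obtain ⟨⟨hm0, hmY⟩, p, i, hp, hpm, hpi, hlt⟩ := hB m hm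
    have hm0' : (0 : ℝ) < m := by exact_mod_cast hm0
    have hi : 1 ≤ i := by
      by_contra hcon
      have : i = 0 := by omega
      rw [this, pow_zero] at hlt
      nlinarith
    rw [Finset.mem_biUnion]
    refine ⟨p, ?_, ?_⟩
    · rw [Finset.mem_filter, Finset.mem_Ioc]
      exact ⟨⟨hp.pos, (Nat.le_of_dvd hm0 hpm).trans hmY⟩, hp⟩
    · rw [Finset.mem_biUnion]
      refine ⟨i, ?_, ?_⟩
      · rw [Finset.mem_Icc]
        exact ⟨hi, Nat.le_log_of_pow_le hp.one_lt (hpi.trans hmY)⟩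
      · rw [mem_nearPow]; exact ⟨⟨hm0, hmY⟩, hpm, hpi, hlt⟩
  calc ∑ m ∈ B, (1 : ℝ) / m ≤ ∑ m ∈ ((Ioc 0 Y).filter Nat.Prime).biUnion (fun p =>
      (Icc 1 (Nat.log p Y)).biUnion (fun i => nearPow δ Y p i)), (1 : ℝ) / m :=
        Finset.sum_le_sum_of_subset_of_nonneg hsub (fun _ _ _ => by positivity)
    _ ≤ ∑ p ∈ (Ioc 0 Y).filter Nat.Prime, ∑ m ∈ (Icc 1 (Nat.log p Y)).biUnion
        (fun i => nearPow δ Y p i), (1 : ℝ) / m :=
        sum_biUnion_le_of_nonneg _ _ _ (fun _ => by positivity)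
    _ ≤ ∑ p ∈ (Ioc 0 Y).filter Nat.Prime, ∑ i ∈ Icc 1 (Nat.log p Y),
        ∑ m ∈ nearPow δ Y p i, (1 : ℝ) / m := by
        apply Finset.sum_le_sum
        intro p _
        exact sum_biUnion_le_of_nonneg _ _ _ (fun _ => by positivity)
    _ ≤ ∑ p ∈ (Ioc 0 Y).filter Nat.Prime,
        (2 * δ * log Y * (1 / ((p : ℝ) * log p)) + 2 * (1 / (p : ℝ))) := by
        apply Finset.sum_le_sum
        intro p hp
        rw [Finset.mem_filter, Finset.mem_Ioc] at hp
        have hpp := hp.2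
        have hp0 : (0 : ℝ) < p := by exact_mod_cast hpp.pos
        have hlp : 0 < log (p : ℝ) := Real.log_pos (by exact_mod_cast hpp.one_lt)
        calc ∑ i ∈ Icc 1 (Nat.log p Y), ∑ m ∈ nearPow δ Y p i, (1 : ℝ) / m
            ≤ ∑ i ∈ Icc 1 (Nat.log p Y), (2 * δ / p + 1 / (p : ℝ) ^ i) := by
              apply Finset.sum_le_sum
              intro i hi
              rw [Finset.mem_Icc] at hi
              exact nearPow_sum_le hδ0 hδ hpp hi.1
          _ = Nat.log p Y * (2 * δ / p) + ∑ i ∈ Icc 1 (Nat.log p Y), 1 / (p : ℝ) ^ i := by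
              rw [Finset.sum_add_distrib, Finset.sum_const, nsmul_eq_mul, Nat.card_Icc]
              simp
          _ ≤ (log Y / log p) * (2 * δ / p) + 2 / p := by
              have h1 : (Nat.log p Y : ℝ) ≤ log Y / log p := by
                rw [le_div_iff₀ hlp, ← Real.log_pow]
                apply Real.log_le_log (by positivity)
                exact_mod_cast Nat.pow_log_le_self p (by omega)
              have h2 := geom_tail_le (Nat.log p Y) hpp.two_le
              gcongr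
          _ = _ := by field_simp
    _ = 2 * δ * log Y * ∑ p ∈ (Ioc 0 Y).filter Nat.Prime, 1 / ((p : ℝ) * log p) +
        2 * ∑ p ∈ (Ioc 0 Y).filter Nat.Prime, 1 / (p : ℝ) := by
        rw [Finset.sum_add_distrib, Finset.mul_sum, Finset.mul_sum]
    _ ≤ 2 * δ * log Y * 30 + 2 * (8 + 30 * (1 + log (log Y))) := by
        have h1 := sum_inv_mul_log_le Y
        have h2 : ∑ p ∈ (Ioc 0 Y).filter Nat.Prime, 1 / (p : ℝ) ≤
            8 + 30 * (1 + log (log Y)) := by
          have e1 : ∑ p ∈ (Ioc 0 Y).filter Nat.Prime, 1 / (p : ℝ) = recip 0 Y := rfl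
          rw [e1, recip_add (Nat.zero_le 8) hY]
          have h3 : recip 0 8 ≤ 8 := by
            unfold recip
            calc ∑ p ∈ (Ioc 0 8).filter Nat.Prime, (1 : ℝ) / p ≤
                ∑ p ∈ (Ioc 0 8).filter Nat.Prime, (1 : ℝ) := by
                  apply Finset.sum_le_sum
                  intro p hp
                  rw [Finset.mem_filter] at hp
                  have : (1 : ℝ) ≤ p := by exact_mod_cast hp.2.one_le
                  rw [div_le_one (by linarith)]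
                  exact this
              _ = (((Ioc 0 8).filter Nat.Prime).card : ℝ) := by
                  rw [Finset.sum_const, nsmul_eq_mul, mul_one]
              _ ≤ 8 := by
                  have : ((Ioc 0 8).filter Nat.Prime).card ≤ 8 := by
                    refine (Finset.card_filter_le _ _).trans ?_
                    simp
                  exact_mod_cast this
          have h4 := recip_le_log (y := 8) (z := Y) (L := log Y) hlY (le_refl 8) (le_refl _)
          linarith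
        have h5 : 0 ≤ 2 * δ * log Y := by positivity
        nlinarith
    _ = _ := by ring

end Pool.Agent.Work.MP_98b61d_nt
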