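import Pool.Agent.Work.MP_98b61d_nt.Osc2

/-!
`N x` is infinitely often at least a constant times `x log log log x / log x`.
-/

namespace Pool.Agent.Work.MP_98b61d_nt

open Finset Real Filter MeasureTheory

lemma log_log_aux {Y : ℕ} {x : ℝ} (hY : 8 ≤ Y) (hx : (Y : ℝ) ≤ log x)
    (hux : log x ≤ Y * (Y : ℝ) ^ (Y + 1) + 2) : log (log (log x)) ≤ 2 * log Y := by
  have hY8 : (8 : ℝ) ≤ Y := by exact_mod_cast hY
  have hY0 : (0 : ℝ) < Y := by linarith
  have hlY : 0 < log (Y : ℝ) := Real.log_pos (by linarith)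
  have h1 : log x ≤ (Y : ℝ) ^ (Y + 3) := by
    have e1 : (Y : ℝ) ^ (Y + 3) = Y * (Y : ℝ) ^ (Y + 1) * Y := by ring
    have e2 : 1 ≤ Y * (Y : ℝ) ^ (Y + 1) := by
      have : (1 : ℝ) ≤ (Y : ℝ) ^ (Y + 1) := one_le_pow₀ (by linarith)
      nlinarith
    rw [e1]; nlinarith
  have hlx : 1 < log x := by linarith
  have h2 : log (log x) ≤ (Y + 3) * log Y := by
    have := Real.log_le_log (by linarith) h1
    rw [Real.log_pow] at this
    push_cast at this
    exact this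
  have hexp : exp 1 < 3 := by
    have := Real.exp_one_lt_d9; linarith
  have hllx : 1 < log (log x) := by
    rw [Real.lt_log_iff_exp_lt (by linarith)]
    linarith
  have h3 : (Y + 3) * log Y ≤ (Y : ℝ) ^ 2 := by
    have h4 : log (Y : ℝ) ≤ Y / 2 := by
      have h5 := Real.log_le_sub_one_of_pos (show (0 : ℝ) < Y / 2 / 2 by positivity)
      have h6 : log ((Y : ℝ) / 2 / 2) = log Y - 2 * log 2 := by
        rw [Real.log_div (by positivity) (by norm_num), Real.log_div hY0.ne' (by norm_num)]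
        ring
      have := Real.log_two_lt_d9
      rw [h6] at h5
      linarith
    nlinarith
  have h4 : log (log x) ≤ (Y : ℝ) ^ 2 := h2.trans h3
  have h5 := Real.log_le_log (by linarith) h4
  rw [Real.log_pow] at h5
  push_cast at h5
  exact h5

/-- many `m` with `E t m` for `t` just above powers of all small primes. -/
lemma exists_good_set : ∃ Y₀ : ℕ, ∀ Y : ℕ, Y₀ ≤ Y → ∃ G : Finset ℕ,
    (∀ m ∈ G, 1 ≤ m ∧ m ≤ Y ∧ ∀ p i : ℕ, p.Prime → p ∣ m → p ^ i ≤ m →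
      (p : ℝ) ^ i ≤ (1 - 1 / 240) * m + 1) ∧ log Y / 2 ≤ ∑ m ∈ G, (1 : ℝ) / m := by
  classical
  have h1 : ∀ᶠ l : ℝ in atTop, 304 * (1 + 1 * log l) ^ 1 ≤ l := eventually_log_pow_le 304 1 1 1
  have h2 : Tendsto (fun n : ℕ => log (n : ℝ)) atTop atTop :=
    Real.tendsto_log_atTop.comp tendsto_natCast_atTop_atTop
  obtain ⟨Y₀, hY₀⟩ := Filter.eventually_atTop.mp ((h2.eventually h1).and
    ((h2.eventually (eventually_ge_atTop 2)).and (eventually_ge_atTop 8)))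
  refine ⟨Y₀, fun Y hY => ?_⟩
  obtain ⟨a1, a2, a3⟩ := hY₀ Y hY
  rw [pow_one, one_mul] at a1
  set G := (Ioc 0 Y).filter (fun m => ∀ p i : ℕ, p.Prime → p ∣ m → p ^ i ≤ m →
      (p : ℝ) ^ i ≤ (1 - 1 / 240) * m + 1) with hG
  set B := (Ioc 0 Y).filter (fun m => ¬ ∀ p i : ℕ, p.Prime → p ∣ m → p ^ i ≤ m →
      (p : ℝ) ^ i ≤ (1 - 1 / 240) * m + 1) with hB
  refine ⟨G, ?_, ?_⟩
  · intro m hm
    rw [hG, Finset.mem_filter, Finset.mem_Ioc] at hm
    exact ⟨hm.1.1, hm.1.2, hm.2⟩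
  · have hsum : ∑ m ∈ G, (1 : ℝ) / m + ∑ m ∈ B, (1 : ℝ) / m = ∑ m ∈ Ioc 0 Y, (1 : ℝ) / m :=
      Finset.sum_filter_add_sum_filter_not _ _ _
    have hlow := le_sum_inv_Ioc Y
    have hbad := bad_sum_le (δ := 1 / 240) (Y := Y) (by norm_num) (by norm_num) a3 a2 B (by
      intro m hm
      rw [hB, Finset.mem_filter, Finset.mem_Ioc] at hm
      refine ⟨hm.1, ?_⟩
      have := hm.2
      push Not at this
      obtain ⟨p, i, b1, b2, b3, b4⟩ := this
      exact ⟨p, i, b1, b2, b3, b4⟩)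
    have hll : 0 ≤ log (log (Y : ℝ)) := Real.log_nonneg (by linarith)
    linarith

lemma EI_ge {x x1 : ℝ} {m : ℕ} (hx1 : 1 ≤ x1) (hx : x1 ≤ x)
    (hE : ∀ t : ℝ, x1 < t → t ≤ x → E t m) :
    x - x1 ≤ volume.real ({t | E t m} ∩ Set.Ioc 1 x) := by
  have h1 : volume.real (Set.Ioc x1 x) = x - x1 := by
    rw [Measure.real, Real.volume_Ioc, ENNReal.toReal_ofReal (by linarith)]
  rw [← h1]
  apply measureReal_mono _ (volume_EI_lt x m).ne
  rintro t ⟨h2, h3⟩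
  exact ⟨hE t h2 h3, by linarith, h3⟩

/-- `N x ≥ c x log log log x / log x` for arbitrarily large `x`. -/
theorem N_omega : ∃ c : ℝ, 0 < c ∧ ∃ᶠ x : ℝ in atTop,
    c * (x * log (log (log x)) / log x) ≤ N x := by
  obtain ⟨δ, hδ⟩ : ∃ δ : ℝ, δ = 1 / 240 := ⟨_, rfl⟩
  obtain ⟨c1, hc1⟩ : ∃ c1 : ℝ, c1 = 1 - exp (-(δ / 2)) := ⟨_, rfl⟩
  have hδ0 : 0 < δ := by rw [hδ]; norm_num
  have hc10 : 0 < c1 := by
    rw [hc1]
    have : exp (-(δ / 2)) < 1 := by rw [Real.exp_lt_one_iff]; linarith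
    linarith
  refine ⟨c1 / 8, by positivity, ?_⟩
  rw [Filter.frequently_atTop]
  intro x0
  -- the asymptotic formula gives `N x ≥ g x / 2`
  have hlow : ∀ᶠ x : ℝ in atTop, (∫ t in (1 : ℝ)..x, W t) / log x / 2 ≤ N x := by
    have h := N_isEquivalent
    rw [Asymptotics.IsEquivalent, Asymptotics.isLittleO_iff] at h
    have h2 := h (show (0 : ℝ) < 1 / 2 by norm_num)
    filter_upwards [h2, eventually_gt_atTop (exp 1)] with x hx hxe
    have hx0 : 0 < x := lt_trans (Real.exp_pos 1) hxe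
    have hlx : 1 < log x := by rwa [Real.lt_log_iff_exp_lt hx0]
    have h3 : 0 ≤ (∫ t in (1 : ℝ)..x, W t) / log x := by
      have h3 : 1 ≤ x := by
        have := Real.add_one_le_exp (1 : ℝ)
        linarith
      have := integral_W_ge h3
      apply div_nonneg _ (by linarith)
      linarith
    rw [Pi.sub_apply, Real.norm_eq_abs, Real.norm_eq_abs, abs_of_nonneg h3, abs_le] at hx
    linarith [hx.1]
  obtain ⟨x2, hx2⟩ := Filter.eventually_atTop.mp hlow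
  obtain ⟨Y₀, hY₀⟩ := exists_good_set
  -- choice of Y
  have hev : ∀ᶠ Y : ℕ in atTop, Y₀ ≤ Y ∧ 8 ≤ Y ∧ x0 ≤ Y ∧ x2 ≤ Y ∧ 4 * log Y ≤ δ * Y := by
    have h1 : ∀ᶠ l : ℝ in atTop, (4 / δ) * (0 + 1 * log l) ^ 1 ≤ l :=
      eventually_log_pow_le (4 / δ) 0 1 1
    have h2 : ∀ᶠ Y : ℕ in atTop, (4 / δ) * (0 + 1 * log (Y : ℝ)) ^ 1 ≤ Y :=
      (tendsto_natCast_atTop_atTop (R := ℝ)).eventually h1
    filter_upwards [h2, eventually_ge_atTop Y₀, eventually_ge_atTop 8,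
      eventually_ge_atTop ⌈x0⌉₊, eventually_ge_atTop ⌈x2⌉₊] with Y b1 b2 b3 b4 b5
    refine ⟨b2, b3, (Nat.le_ceil x0).trans (by exact_mod_cast b4),
      (Nat.le_ceil x2).trans (by exact_mod_cast b5), ?_⟩
    rw [pow_one, zero_add, one_mul, div_mul_eq_mul_div, div_le_iff₀ hδ0] at b1
    linarith
  obtain ⟨Y, hYY, hY8, hYx0, hYx2, hYδ⟩ := hev.exists
  obtain ⟨G, hG, hGsum⟩ := hY₀ Y hYY
  have hY8' : (8 : ℝ) ≤ Y := by exact_mod_cast hY8
  obtain ⟨u, hu1, hu2, hu3⟩ := exists_above (Y := Y) (Q := Y) (h := Y) (δ := δ) (by omega)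
    (by linarith) hδ0 (by rw [hδ]; norm_num) hYδ
  obtain ⟨x1, hx1⟩ : ∃ x1, x1 = exp u := ⟨_, rfl⟩
  obtain ⟨x, hx⟩ : ∃ x, x = exp (u + δ / 2) := ⟨_, rfl⟩
  have hlogx : log x = u + δ / 2 := by rw [hx, Real.log_exp]
  have hx1x : x1 ≤ x := by rw [hx1, hx]; exact Real.exp_le_exp.mpr (by linarith)
  have hYx1 : (Y : ℝ) ^ 2 ≤ x1 := by
    rw [hx1]
    have h1 : exp Y ≤ exp u := Real.exp_le_exp.mpr hu1
    have h2 : (Y : ℝ) ^ 2 ≤ exp Y := by
      have e1 : exp (Y : ℝ) = exp (Y / 4) ^ 4 := by rw [← Real.exp_nat_mul]; congr 1; push_cast; ring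
      have e2 := Real.add_one_le_exp ((Y : ℝ) / 4)
      have e3 : ((Y : ℝ) / 4 + 1) ^ 4 ≤ exp (Y / 4) ^ 4 := by gcongr
      have e4 : (Y : ℝ) ≤ ((Y : ℝ) / 4 + 1) ^ 2 := by nlinarith [sq_nonneg ((Y : ℝ) / 4 - 1)]
      rw [e1]
      refine le_trans ?_ e3
      calc (Y : ℝ) ^ 2 ≤ (((Y : ℝ) / 4 + 1) ^ 2) ^ 2 := by gcongr
        _ = ((Y : ℝ) / 4 + 1) ^ 4 := by ring
    linarith
  have hx1one : 1 ≤ x1 := by nlinarith
  have hx0 : 0 < x := by linarith
  have hYx : (Y : ℝ) ≤ x := by nlinarith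
  refine ⟨x, by linarith, ?_⟩
  have hN := hx2 x (by linarith)
  -- E t m for m in G and t in (x1, x]
  have hE : ∀ m ∈ G, ∀ t : ℝ, x1 < t → t ≤ x → E t m := by
    intro m hm t ht1 ht2
    obtain ⟨b1, b2, b3⟩ := hG m hm
    have ht0 : 0 < t := by linarith
    apply E_of_above (δ := δ) (Y := Y) (by rw [hδ]; norm_num) b1 b2 (by linarith)
    · intro p hp hpY
      obtain ⟨k, hk1, hk2⟩ := hu3 p hp hpY
      have hp0 : (0 : ℝ) < p := by exact_mod_cast hp.pos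
      have hpk : (p : ℝ) ^ k = exp (k * log p) := by
        rw [Real.exp_nat_mul, Real.exp_log hp0]
      have h1 : (p : ℝ) ^ k ≤ t := by
        rw [hpk]
        refine le_trans ?_ ht1.le
        rw [hx1]; exact Real.exp_le_exp.mpr hk2
      have h2 : p ^ k ≤ ⌊t⌋₊ := Nat.le_floor (by exact_mod_cast h1)
      have h3 : k ≤ Nat.log p ⌊t⌋₊ := Nat.le_log_of_pow_le hp.one_lt h2
      have h4 : (p : ℝ) ^ k ≤ (p : ℝ) ^ Nat.log p ⌊t⌋₊ :=
        pow_le_pow_right₀ (by exact_mod_cast hp.one_le) h3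
      refine le_trans ?_ h4
      rw [hpk]
      have h5 : t ≤ exp (u + δ / 2) := by rw [← hx]; exact ht2
      have h6 : exp (u - δ / 2) ≤ exp (k * log p) := Real.exp_le_exp.mpr hk1
      refine le_trans ?_ h6
      have h7 : exp (u - δ / 2) = exp (-δ) * exp (u + δ / 2) := by
        rw [← Real.exp_add]; congr 1; ring
      rw [h7]
      have h8 : 1 - δ ≤ exp (-δ) := by
        have := Real.add_one_le_exp (-δ); linarith
      have h9 : 0 ≤ 1 - δ := by rw [hδ]; norm_num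
      exact mul_le_mul h8 h5 ht0.le (Real.exp_pos _).le
    · rw [hδ]; exact b3
  -- the integral
  have hint : c1 * x * (log Y / 2) ≤ ∫ t in (1 : ℝ)..x, W t := by
    rw [integral_W (hx1one.trans hx1x)]
    have hsub : G ⊆ Icc 1 ⌊x⌋₊ := by
      intro m hm
      obtain ⟨b1, b2, _⟩ := hG m hm
      rw [Finset.mem_Icc]
      refine ⟨b1, Nat.le_floor ?_⟩
      have : (m : ℝ) ≤ Y := by exact_mod_cast b2
      linarith
    have hxx1 : c1 * x = x - x1 := by
      rw [hc1, hx, hx1]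
      have : exp (-(δ / 2)) * exp (u + δ / 2) = exp u := by
        rw [← Real.exp_add]; congr 1; ring
      linarith
    rw [hxx1]
    have hnn : 0 ≤ x - x1 := by linarith
    calc (x - x1) * (log Y / 2) ≤ (x - x1) * ∑ m ∈ G, (1 : ℝ) / m := by gcongr
      _ = ∑ m ∈ G, (x - x1) / (m : ℝ) := by
          rw [Finset.mul_sum]
          apply Finset.sum_congr rfl
          intro m _
          ring
      _ ≤ ∑ m ∈ G, volume.real ({t | E t m} ∩ Set.Ioc 1 x) / m := by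
          apply Finset.sum_le_sum
          intro m hm
          exact div_le_div_of_nonneg_right (EI_ge hx1one hx1x (hE m hm)) (Nat.cast_nonneg m)
      _ ≤ _ := Finset.sum_le_sum_of_subset_of_nonneg hsub (fun _ _ _ => by positivity)
  have hlx0 : 0 < log x := by rw [hlogx]; linarith
  have hlll : log (log (log x)) ≤ 2 * log Y := by
    apply log_log_aux hY8
    · rw [hlogx]; linarith
    · rw [hlogx]
      have : δ / 2 ≤ 1 := by rw [hδ]; norm_num
      linarith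
  refine le_trans ?_ hN
  have h10 : c1 * x * (log Y / 2) / log x / 2 ≤ (∫ t in (1 : ℝ)..x, W t) / log x / 2 := by
    apply div_le_div_of_nonneg_right _ (by norm_num)
    exact div_le_div_of_nonneg_right hint hlx0.le
  refine le_trans ?_ h10
  have e1 : c1 * x * (log Y / 2) / log x / 2 = c1 / 8 * (x * (2 * log Y) / log x) := by ring
  rw [e1]
  gcongr

end Pool.Agent.Work.MP_98b61d_nt
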