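import Pool.Agent.Work.MP_98b61d_nt.Sieve

/-!
Counting integers with few prime factors in `(y, z]`.
-/

namespace Pool.Agent.Work.MP_98b61d_nt

open Finset Real

/-- The prime factors of `n` lying in `(y, z]`. -/
def PI (y z n : ℕ) : Finset ℕ := n.primeFactors.filter (fun p => y < p ∧ p ≤ z)

lemma mem_PI {y z n p : ℕ} : p ∈ PI y z n ↔ (p.Prime ∧ p ∣ n ∧ n ≠ 0) ∧ y < p ∧ p ≤ z := by
  unfold PI
  rw [Finset.mem_filter, Nat.mem_primeFactors]

lemma PI_mono {y z m n : ℕ} (hn : n ≠ 0) (h : m ∣ n) : PI y z m ⊆ PI y z n := by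
  intro p hp
  rw [mem_PI] at hp ⊢
  exact ⟨⟨hp.1.1, hp.1.2.1.trans h, hn⟩, hp.2⟩

/-- Sum of `1/n` over `n ≤ X` with at most `R` prime factors in `(y, z]`. -/
noncomputable def TR (y z X R : ℕ) : ℝ :=
  ∑ n ∈ (Ioc 0 X).filter (fun n => (PI y z n).card ≤ R), (1 : ℝ) / n

lemma TR_nonneg (y z X R : ℕ) : 0 ≤ TR y z X R := Finset.sum_nonneg fun _ _ => by positivity

/-- Sum of `1/m` over `m ≤ z` all of whose prime factors exceed `y`. -/
noncomputable def RB (y z : ℕ) : ℝ :=
  ∑ m ∈ (Ioc 0 z).filter (fun m => ∀ p ∈ m.primeFactors, y < p), (1 : ℝ) / m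

lemma exists_smooth_rough (y : ℕ) (k : ℕ) (hk : k ≠ 0) :
    ∃ m l : ℕ, k = m * l ∧ (∀ p ∈ m.primeFactors, y < p) ∧ Sm y l := by
  induction k using induction_on_primes with
  | zero => exact absurd rfl hk
  | one => exact ⟨1, 1, by simp, by simp, by simp [Sm]⟩
  | prime_mul p a hp ih =>
    have ha : a ≠ 0 := by
      rintro rfl
      simp at hk
    obtain ⟨m, l, h1, h2, h3⟩ := ih ha
    have hm0 : m ≠ 0 := by rintro rfl; simp at h1; exact ha h1
    have hl0 : l ≠ 0 := by rintro rfl; simp at h1; exact ha h1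
    rcases Nat.lt_or_ge y p with h | h
    · refine ⟨p * m, l, by rw [h1]; ring, ?_, h3⟩
      intro q hq
      rw [Nat.primeFactors_mul hp.ne_zero hm0, Finset.mem_union, hp.primeFactors,
        Finset.mem_singleton] at hq
      rcases hq with rfl | hq
      · exact h
      · exact h2 q hq
    · refine ⟨m, p * l, by rw [h1]; ring, h2, ?_⟩
      intro q hq
      rw [Nat.primeFactors_mul hp.ne_zero hl0, Finset.mem_union, hp.primeFactors,
        Finset.mem_singleton] at hq
      rcases hq with rfl | hq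
      · exact h
      · exact h3 q hq

open Classical in
lemma log_le_RB_mul (y z : ℕ) : log z ≤ RB y z * smSum y z := by
  refine (le_sum_inv_Ioc z).trans ?_
  unfold RB smSum
  rw [Finset.sum_mul_sum, ← Finset.sum_product']
  have h1 : Ioc 0 z ⊆ (((Ioc 0 z).filter (fun m => ∀ p ∈ m.primeFactors, y < p)) ×ˢ
      ((Ioc 0 z).filter (Sm y))).image (fun x : ℕ × ℕ => x.1 * x.2) := by
    intro k hk
    rw [Finset.mem_Ioc] at hk
    obtain ⟨m, l, h1, h2, h3⟩ := exists_smooth_rough y k (by omega)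
    have hm0 : 0 < m := by
      rcases Nat.eq_zero_or_pos m with rfl | h
      · simp at h1; omega
      · exact h
    have hl0 : 0 < l := by
      rcases Nat.eq_zero_or_pos l with rfl | h
      · simp at h1; omega
      · exact h
    rw [Finset.mem_image]
    refine ⟨(m, l), ?_, h1.symm⟩
    simp only [Finset.mem_product, Finset.mem_filter, Finset.mem_Ioc]
    have hmk : m ≤ k := by rw [h1]; exact Nat.le_mul_of_pos_right m hl0
    have hlk : l ≤ k := by rw [h1]; exact Nat.le_mul_of_pos_left l hm0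
    exact ⟨⟨⟨hm0, by omega⟩, h2⟩, ⟨⟨hl0, by omega⟩, h3⟩⟩
  calc ∑ l ∈ Ioc 0 z, (1 : ℝ) / l ≤ _ :=
        Finset.sum_le_sum_of_subset_of_nonneg h1 (fun _ _ _ => by positivity)
    _ ≤ ∑ x ∈ (((Ioc 0 z).filter (fun m => ∀ p ∈ m.primeFactors, y < p)) ×ˢ
      ((Ioc 0 z).filter (Sm y))), (1 : ℝ) / ((x.1 * x.2 : ℕ) : ℝ) :=
        Finset.sum_image_le_of_nonneg (fun _ _ => by positivity)
    _ = _ := by
        apply Finset.sum_congr rfl
        intro x _
        push_cast
        rw [one_div_mul_one_div]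

open Classical in
lemma T0_mul_RB_le (y z X : ℕ) : TR y z X 0 * RB y z ≤ 1 + log ((X * z : ℕ) : ℝ) := by
  refine le_trans ?_ (sum_inv_Ioc_le (X * z))
  unfold TR RB
  rw [Finset.sum_mul_sum, ← Finset.sum_product']
  set s := ((Ioc 0 X).filter (fun n => (PI y z n).card ≤ 0)) ×ˢ
    ((Ioc 0 z).filter (fun m => ∀ p ∈ m.primeFactors, y < p)) with hs
  have hmem : ∀ x ∈ s, (0 < x.1 ∧ x.1 ≤ X ∧ PI y z x.1 = ∅) ∧
      (0 < x.2 ∧ x.2 ≤ z ∧ ∀ p ∈ x.2.primeFactors, y < p) := by
    intro x hx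
    rw [hs] at hx
    simp only [Finset.mem_product, Finset.mem_filter, Finset.mem_Ioc, Nat.le_zero,
      Finset.card_eq_zero] at hx
    tauto
  have hcop : ∀ x ∈ s, ∀ x' ∈ s, Nat.Coprime x.2 x'.1 := by
    intro x hx x' hx'
    obtain ⟨_, hx2⟩ := hmem x hx
    obtain ⟨hx1', _⟩ := hmem x' hx'
    rw [Nat.coprime_iff_gcd_eq_one]
    by_contra hne
    obtain ⟨p, hp, hpd⟩ := Nat.exists_prime_and_dvd hne
    have hp2 : p ∣ x.2 := hpd.trans (Nat.gcd_dvd_left _ _)
    have hp1 : p ∣ x'.1 := hpd.trans (Nat.gcd_dvd_right _ _)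
    have h1 : p ∈ PI y z x'.1 := by
      rw [mem_PI]
      refine ⟨⟨hp, hp1, by omega⟩, hx2.2.2 p ?_, ?_⟩
      · rw [Nat.mem_primeFactors]; exact ⟨hp, hp2, by omega⟩
      · exact (Nat.le_of_dvd hx2.1 hp2).trans hx2.2.1
    rw [hx1'.2.2] at h1
    simp at h1
  have hinj : Set.InjOn (fun x : ℕ × ℕ => x.1 * x.2) (s : Set (ℕ × ℕ)) := by
    intro x hx x' hx' hxx
    simp only at hxx
    have hx := Finset.mem_coe.mp hx
    have hx' := Finset.mem_coe.mp hx'
    have h1 : x.2 ∣ x'.2 := by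
      apply (hcop x hx x' hx').dvd_of_dvd_mul_left
      rw [← hxx]; exact dvd_mul_left _ _
    have h2 : x'.2 ∣ x.2 := by
      apply (hcop x' hx' x hx).dvd_of_dvd_mul_left
      rw [hxx]; exact dvd_mul_left _ _
    have h3 : x.2 = x'.2 := Nat.dvd_antisymm h1 h2
    have h4 : x.1 = x'.1 := by
      rw [h3] at hxx
      exact Nat.eq_of_mul_eq_mul_right ((hmem x' hx').2.1) hxx
    exact Prod.ext h4 h3
  have h5 : ∑ x ∈ s, (1 : ℝ) / (x.1 : ℝ) * (1 / (x.2 : ℝ)) =
      ∑ k ∈ s.image (fun x : ℕ × ℕ => x.1 * x.2), (1 : ℝ) / (k : ℝ) := by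
    rw [Finset.sum_image hinj]
    apply Finset.sum_congr rfl
    intro x _
    push_cast
    rw [one_div_mul_one_div]
  rw [h5]
  apply Finset.sum_le_sum_of_subset_of_nonneg
  · intro k hk
    rw [Finset.mem_image] at hk
    obtain ⟨x, hx, rfl⟩ := hk
    obtain ⟨h1, h2⟩ := hmem x hx
    rw [Finset.mem_Ioc]
    exact ⟨Nat.mul_pos h1.1 h2.1, Nat.mul_le_mul h1.2.1 h2.2.1⟩
  · intro _ _ _; positivity

lemma TR_succ_le (y z X R : ℕ) :
    TR y z X (R + 1) ≤ TR y z X 0 + (2 * recip y z) * TR y z X R := by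
  classical
  set S : ℕ → Finset ℕ := fun r => (Ioc 0 X).filter (fun n => (PI y z n).card ≤ r) with hS
  have hTR : ∀ r, TR y z X r = ∑ n ∈ S r, (1 : ℝ) / n := fun r => rfl
  set V : ℕ → ℝ := fun p => ∑ n ∈ (S (R + 1)).filter (p ∣ ·), (1 : ℝ) / n with hV
  have hVp : ∀ p ∈ (Ioc y z).filter Nat.Prime, V p ≤ 2 * (1 / p) * TR y z X R := by
    intro p hp
    rw [Finset.mem_filter, Finset.mem_Ioc] at hp
    have hpp := hp.2
    have hp2 : (2 : ℝ) ≤ p := by exact_mod_cast hpp.two_le
    have key : V p ≤ (TR y z X R + V p) / p := by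
      have h1 : (S (R + 1)).filter (p ∣ ·) ⊆
          (S R ∪ (S (R + 1)).filter (p ∣ ·)).image (p * ·) := by
        intro n hn
        simp only [hS, Finset.mem_filter, Finset.mem_Ioc, Finset.mem_image, Finset.mem_union]
          at hn ⊢
        obtain ⟨⟨⟨hn0, hnX⟩, hcard⟩, k, rfl⟩ := hn
        have hk0 : 0 < k := by
          rcases Nat.eq_zero_or_pos k with rfl | h
          · simp at hn0
          · exact h
        have hkX : k ≤ X := le_trans (Nat.le_mul_of_pos_left k hpp.pos) hnX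
        have hsub : PI y z k ⊆ PI y z (p * k) := PI_mono (by omega) (dvd_mul_left _ _)
        refine ⟨k, ?_, rfl⟩
        by_cases hpk : p ∣ k
        · right
          exact ⟨⟨⟨hk0, hkX⟩, (Finset.card_le_card hsub).trans hcard⟩, hpk⟩
        · left
          refine ⟨⟨hk0, hkX⟩, ?_⟩
          have hpm : p ∈ PI y z (p * k) := by
            rw [mem_PI]; exact ⟨⟨hpp, dvd_mul_right _ _, by omega⟩, hp.1⟩
          have hpn : p ∉ PI y z k := by
            rw [mem_PI]; tauto
          have : (PI y z k).card < (PI y z (p * k)).card :=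
            Finset.card_lt_card ⟨hsub, fun h => hpn (h hpm)⟩
          omega
      have h2 : V p ≤ ∑ n ∈ (S R ∪ (S (R + 1)).filter (p ∣ ·)).image (p * ·), (1 : ℝ) / n :=
        Finset.sum_le_sum_of_subset_of_nonneg h1 (fun _ _ _ => by positivity)
      rw [Finset.sum_image (by
        intro a _ b _ hab
        exact Nat.eq_of_mul_eq_mul_left hpp.pos hab)] at h2
      refine h2.trans ?_
      have h3 : ∑ n ∈ S R ∪ (S (R + 1)).filter (p ∣ ·), (1 : ℝ) / ((p * n : ℕ) : ℝ) =
          (∑ n ∈ S R ∪ (S (R + 1)).filter (p ∣ ·), (1 : ℝ) / n) / p := by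
        rw [Finset.sum_div]
        apply Finset.sum_congr rfl
        intro n _
        push_cast
        rw [div_div, mul_comm]
      rw [h3]
      apply div_le_div_of_nonneg_right _ (by linarith)
      rw [hTR R]
      have := Finset.sum_union_inter (s₁ := S R) (s₂ := (S (R + 1)).filter (p ∣ ·))
        (f := fun n : ℕ => (1 : ℝ) / n)
      have h4 : 0 ≤ ∑ n ∈ S R ∩ (S (R + 1)).filter (p ∣ ·), (1 : ℝ) / (n : ℝ) :=
        Finset.sum_nonneg fun _ _ => by positivity
      simp only [hV]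
      linarith
    have hT := TR_nonneg y z X R
    rw [le_div_iff₀ (by linarith)] at key
    have h5 : V p * (p - 1) ≤ TR y z X R := by linarith
    have h6 : V p ≤ TR y z X R / (p - 1) := by rwa [le_div_iff₀ (by linarith)]
    refine h6.trans ?_
    rw [div_le_iff₀ (by linarith)]
    have : 1 ≤ 2 * (1 / (p : ℝ)) * (p - 1) := by
      have : 2 * (1 / (p : ℝ)) * (p - 1) = 2 - 2 / p := by field_simp
      rw [this]
      have : 2 / (p : ℝ) ≤ 1 := by rw [div_le_one (by linarith)]; exact hp2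
      linarith
    nlinarith
  have hsub : S (R + 1) ⊆ S 0 ∪ ((Ioc y z).filter Nat.Prime).biUnion
      (fun p => (S (R + 1)).filter (p ∣ ·)) := by
    intro n hn
    rw [Finset.mem_union]
    by_cases h : PI y z n = ∅
    · left
      simp only [hS, Finset.mem_filter] at hn ⊢
      exact ⟨hn.1, by rw [h]; simp⟩
    · right
      obtain ⟨p, hp⟩ := Finset.nonempty_iff_ne_empty.mpr h
      have hp' := mem_PI.mp hp
      rw [Finset.mem_biUnion]
      refine ⟨p, ?_, ?_⟩
      · rw [Finset.mem_filter, Finset.mem_Ioc]; exact ⟨hp'.2, hp'.1.1⟩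
      · rw [Finset.mem_filter]; exact ⟨hn, hp'.1.2.1⟩
  calc TR y z X (R + 1) = ∑ n ∈ S (R + 1), (1 : ℝ) / n := hTR _
    _ ≤ ∑ n ∈ S 0 ∪ ((Ioc y z).filter Nat.Prime).biUnion
      (fun p => (S (R + 1)).filter (p ∣ ·)), (1 : ℝ) / n :=
        Finset.sum_le_sum_of_subset_of_nonneg hsub (fun _ _ _ => by positivity)
    _ ≤ ∑ n ∈ S 0, (1 : ℝ) / n + ∑ n ∈ ((Ioc y z).filter Nat.Prime).biUnion
      (fun p => (S (R + 1)).filter (p ∣ ·)), (1 : ℝ) / n := by
        have := Finset.sum_union_inter (s₁ := S 0) (s₂ := ((Ioc y z).filter Nat.Prime).biUnion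
          (fun p => (S (R + 1)).filter (p ∣ ·))) (f := fun n : ℕ => (1 : ℝ) / n)
        have h4 : 0 ≤ ∑ n ∈ S 0 ∩ ((Ioc y z).filter Nat.Prime).biUnion
          (fun p => (S (R + 1)).filter (p ∣ ·)), (1 : ℝ) / (n : ℝ) :=
          Finset.sum_nonneg fun _ _ => by positivity
        linarith
    _ ≤ TR y z X 0 + ∑ p ∈ (Ioc y z).filter Nat.Prime, V p := by
        rw [hTR 0]
        gcongr
        exact sum_biUnion_le_of_nonneg _ _ _ (fun _ => by positivity)
    _ ≤ TR y z X 0 + ∑ p ∈ (Ioc y z).filter Nat.Prime, 2 * (1 / p) * TR y z X R := by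
        gcongr with p hp
        exact hVp p hp
    _ = TR y z X 0 + (2 * recip y z) * TR y z X R := by
        rw [← Finset.sum_mul, ← Finset.mul_sum, recip]

lemma TR_le (y z X R : ℕ) : TR y z X R ≤ TR y z X 0 * (1 + 2 * recip y z) ^ R := by
  have hr := recip_nonneg y z
  have h0 := TR_nonneg y z X 0
  induction R with
  | zero => simp
  | succ R ih =>
    have h1 : (1 : ℝ) ≤ (1 + 2 * recip y z) ^ R := one_le_pow₀ (by linarith)
    calc TR y z X (R + 1) ≤ TR y z X 0 + (2 * recip y z) * TR y z X R := TR_succ_le y z X R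
      _ ≤ TR y z X 0 * (1 + 2 * recip y z) ^ R +
          (2 * recip y z) * (TR y z X 0 * (1 + 2 * recip y z) ^ R) := by
          gcongr
          nlinarith
      _ = TR y z X 0 * (1 + 2 * recip y z) ^ (R + 1) := by ring

/-- The number of `n ≤ X` with at most `R` prime factors in `(y, z]`. -/
lemma card_few_le {y z X R : ℕ} (hy : 2 ≤ y) (hyz : y < z) (hzX : z ≤ X) :
    (((Ioc 0 X).filter (fun n => (PI y z n).card ≤ R)).card : ℝ) ≤
      1720 * X * (log y / log z) * (1 + 2 * recip y z) ^ R := by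
  classical
  have hr := recip_nonneg y z
  set g : ℕ → ℝ := fun n => if (PI y z n).card ≤ R then 1 else 0 with hg
  have hg0 : ∀ n, 0 ≤ g n := by intro n; simp only [hg]; split_ifs <;> norm_num
  have hgm : ∀ m n, n ≠ 0 → m ∣ n → g n ≤ g m := by
    intro m n hn hmn
    have := Finset.card_le_card (PI_mono (y := y) (z := z) hn hmn)
    simp only [hg]
    split_ifs with h1 h2
    · exact le_refl _
    · omega
    · norm_num
    · exact le_refl _
  have h1 := hall_tenenbaum g hg0 hgm X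
  have h2 : ∑ n ∈ Ioc 0 X, g n = (((Ioc 0 X).filter (fun n => (PI y z n).card ≤ R)).card : ℝ) := by
    rw [← Finset.sum_boole]
  have h3 : ∑ n ∈ Ioc 0 X, g n / n = TR y z X R := by
    unfold TR
    rw [Finset.sum_filter]
    apply Finset.sum_congr rfl
    intro n _
    simp only [hg]
    split_ifs <;> simp
  rw [h2, h3] at h1
  have hlog2 := Real.log_two_gt_d9
  have hlog2' := Real.log_two_lt_d9
  have hlog4 : log 4 ≤ 1.4 := by
    have : log 4 = 2 * log 2 := by
      rw [show (4 : ℝ) = 2 ^ 2 by norm_num, Real.log_pow]; norm_num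
    rw [this]; linarith
  have hlogy : log 2 ≤ log y := Real.log_le_log (by norm_num) (by exact_mod_cast hy)
  have hlogz : log 2 ≤ log z := Real.log_le_log (by norm_num) (by exact_mod_cast (by omega))
  have hlogX : log 2 ≤ log X := Real.log_le_log (by norm_num) (by exact_mod_cast (by omega))
  have hlogzX : log z ≤ log X :=
    Real.log_le_log (by exact_mod_cast (by omega)) (by exact_mod_cast hzX)
  have hXpos : (0 : ℝ) < X := by exact_mod_cast (by omega)
  have hzpos : (0 : ℝ) < z := by exact_mod_cast (by omega)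
  have hlogmul : log ((X * z : ℕ) : ℝ) = log X + log z := by
    push_cast; rw [Real.log_mul hXpos.ne' hzpos.ne']
  have hTR0 : TR y z X 0 * log z ≤ 4 * log X * (67 * log y) := by
    have h4 := log_le_RB_mul y z
    have h5 := T0_mul_RB_le y z X
    have h6 := smSum_le hy z
    have h7 := smSum_nonneg y z
    have hT0 := TR_nonneg y z X 0
    calc TR y z X 0 * log z ≤ TR y z X 0 * (RB y z * smSum y z) := by gcongr
      _ = (TR y z X 0 * RB y z) * smSum y z := by ring
      _ ≤ (1 + (log X + log z)) * smSum y z := by rw [← hlogmul]; gcongr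
      _ ≤ (4 * log X) * smSum y z := by
          gcongr
          nlinarith
      _ ≤ 4 * log X * (67 * log y) := by
          have : 0 ≤ log (X : ℝ) := by linarith
          gcongr
  have hlz : 0 < log (z : ℝ) := by linarith
  have hlX : 0 < log (X : ℝ) := by linarith
  have hly : 0 < log (y : ℝ) := by linarith
  set Q := (1 + 2 * recip y z) ^ R with hQ
  have hQ0 : 0 ≤ Q := by positivity
  have h8 : TR y z X R ≤ (4 * log X * (67 * log y) / log z) * Q := by
    refine (TR_le y z X R).trans ?_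
    gcongr
    rwa [le_div_iff₀ hlz]
  set c := (((Ioc 0 X).filter (fun n => (PI y z n).card ≤ R)).card : ℝ) with hc
  have h9 : log X * c ≤ (log 4 + 5) * X * ((4 * log X * (67 * log y) / log z) * Q) := by
    refine h1.trans ?_
    have : 0 ≤ log 4 := Real.log_nonneg (by norm_num)
    gcongr
  have h10 : log X * c ≤ log X * (1720 * X * (log y / log z) * Q) := by
    refine h9.trans ?_
    have e : (log 4 + 5) * X * ((4 * log X * (67 * log y) / log z) * Q) =
      log X * ((log 4 + 5) * 268 * X * (log y / log z) * Q) := by ring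
    rw [e]
    gcongr
    nlinarith
  exact le_of_mul_le_mul_left h10 hlX

end Pool.Agent.Work.MP_98b61d_nt
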