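import Pool.Agent.Work.MP_98b61d_nt.Comb
import Pool.Agent.Work.MP_98b61d_nt.Sieve2
import Pool.Agent.Work.MP_98b61d_nt.Good

/-!
The pair lemma for integers with `f n = F n`, and the union bound over pairs.
-/

namespace Pool.Agent.Work.MP_98b61d_nt

open Finset Real

lemma near_of_good {n p q : ℕ} {L T : ℝ} (hf : f n = F n) (hn : n ≠ 0)
    (hL : L - log L ≤ log n) (hnL : log n ≤ L) (hL2 : L / 2 ≤ L - log L)
    (hT : log L + 1 ≤ T) (hp : p ∈ n.primeFactors) (hq : q ∈ n.primeFactors) (hpq : p ≠ q)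
    (hgood : Good L T p q) : Near L (2 * T) p ∨ Near L (2 * T) q := by
  have hpp := Nat.prime_of_mem_primeFactors hp
  have hqq := Nat.prime_of_mem_primeFactors hq
  obtain ⟨i, j, h1, h2⟩ := hgood (log n) (by linarith) hnL
  have hn0 : (0 : ℝ) < n := by exact_mod_cast Nat.pos_of_ne_zero hn
  have hp0 : (0 : ℝ) < p := by exact_mod_cast hpp.pos
  have hq0 : (0 : ℝ) < q := by exact_mod_cast hqq.pos
  have hb : log (((p ^ i * q ^ j : ℕ) : ℝ)) = i * log p + j * log q := by
    push_cast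
    rw [Real.log_mul (by positivity) (by positivity), Real.log_pow, Real.log_pow]
  have hb0 : (0 : ℝ) < ((p ^ i * q ^ j : ℕ) : ℝ) := by push_cast; positivity
  have hbn : p ^ i * q ^ j ≤ n := by
    rw [← hb] at h2
    have := (Real.log_le_log_iff hb0 hn0).mp h2
    exact_mod_cast this
  have h3 := pair_le hf hp hq hpq hbn
  have hmemlog : ∀ r ∈ n.primeFactors, 1 ≤ Nat.log r n ∧
      (Nat.log r n : ℝ) * log r ≤ log n := by
    intro r hr
    have hrr := Nat.prime_of_mem_primeFactors hr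
    refine ⟨Nat.log_pos hrr.one_lt (Nat.le_of_dvd (Nat.pos_of_ne_zero hn)
      (Nat.dvd_of_mem_primeFactors hr)), ?_⟩
    rw [← Real.log_pow]
    apply Real.log_le_log
    · have : (0 : ℝ) < r := by exact_mod_cast hrr.pos
      positivity
    · exact_mod_cast Nat.pow_log_le_self r hn
  have key : ∀ r ∈ n.primeFactors, p ^ i * q ^ j ≤ 2 * r ^ Nat.log r n → Near L (2 * T) r := by
    intro r hr hle
    have hrr := Nat.prime_of_mem_primeFactors hr
    have hr0 : (0 : ℝ) < r := by exact_mod_cast hrr.pos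
    obtain ⟨h4, h5⟩ := hmemlog r hr
    refine ⟨Nat.log r n, h4, ?_, by linarith⟩
    have h6 : ((p ^ i * q ^ j : ℕ) : ℝ) ≤ 2 * (r : ℝ) ^ Nat.log r n := by exact_mod_cast hle
    have h7 := Real.log_le_log hb0 h6
    rw [hb, Real.log_mul (by norm_num) (by positivity), Real.log_pow] at h7
    have := Real.log_two_lt_d9
    linarith
  rcases Nat.le_total (p ^ Nat.log p n) (q ^ Nat.log q n) with h | h
  · right; exact key q hq (by omega)
  · left; exact key p hp (by omega)

open Classical in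
/-- integers up to `X` having `2K` prime factors in `(y, z]`, all pairs of which lie in `H`. -/
noncomputable def HS (H : ℕ → ℕ → Prop) (y z X K : ℕ) : Finset ℕ :=
  (Ioc 0 X).filter (fun n => ∃ S ⊆ PI y z n, S.card = 2 * K ∧
    ∀ p ∈ S, ∀ q ∈ S, p < q → H p q)

lemma mem_HS {H : ℕ → ℕ → Prop} {y z X K n : ℕ} : n ∈ HS H y z X K ↔
    (0 < n ∧ n ≤ X) ∧ ∃ S ⊆ PI y z n, S.card = 2 * K ∧
    ∀ p ∈ S, ∀ q ∈ S, p < q → H p q := by
  classical
  unfold HS
  simp only [Finset.mem_filter, Finset.mem_Ioc]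

open Classical in
/-- weight of the pairs in `H`. -/
noncomputable def wt (H : ℕ → ℕ → Prop) (y z : ℕ) : ℝ :=
  ∑ x ∈ ((((Ioc y z).filter Nat.Prime) ×ˢ ((Ioc y z).filter Nat.Prime)).filter
    (fun x : ℕ × ℕ => x.1 < x.2 ∧ H x.1 x.2)), (1 : ℝ) / (x.1 * x.2)

open Classical in
lemma wt_nonneg (H : ℕ → ℕ → Prop) (y z : ℕ) : 0 ≤ wt H y z :=
  Finset.sum_nonneg fun _ _ => by positivity

open Classical in
lemma card_HS_le (H : ℕ → ℕ → Prop) (y z K : ℕ) :
    ∀ X : ℕ, ((HS H y z X K).card : ℝ) ≤ X * wt H y z ^ K := by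
  induction K with
  | zero =>
    intro X
    rw [pow_zero, mul_one]
    have : (HS H y z X 0).card ≤ (Ioc 0 X).card := Finset.card_filter_le _ _
    rw [Nat.card_Ioc] at this
    exact_mod_cast this
  | succ K ih =>
    intro X
    set P := ((((Ioc y z).filter Nat.Prime) ×ˢ ((Ioc y z).filter Nat.Prime)).filter
      (fun x : ℕ × ℕ => x.1 < x.2 ∧ H x.1 x.2)) with hP
    have hsub : HS H y z X (K + 1) ⊆ P.biUnion (fun x =>
        (HS H y z (X / (x.1 * x.2)) K).image (fun m => x.1 * x.2 * m)) := by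
      intro n hn
      unfold HS at hn
      rw [Finset.mem_filter, Finset.mem_Ioc] at hn
      obtain ⟨⟨hn0, hnX⟩, S, hS, hcard, hH⟩ := hn
      have h2 : 1 < S.card := by omega
      obtain ⟨p', hp', q', hq', hne'⟩ := Finset.one_lt_card.mp h2
      obtain ⟨p, hp, q, hq, hlt⟩ : ∃ p ∈ S, ∃ q ∈ S, p < q := by
        rcases lt_or_gt_of_ne hne' with h | h
        · exact ⟨p', hp', q', hq', h⟩
        · exact ⟨q', hq', p', hp', h⟩
      have hpI := mem_PI.mp (hS hp)
      have hqI := mem_PI.mp (hS hq)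
      have hcop : Nat.Coprime p q := (Nat.coprime_primes hpI.1.1 hqI.1.1).mpr (by omega)
      have hdvd : p * q ∣ n := hcop.mul_dvd_of_dvd_of_dvd hpI.1.2.1 hqI.1.2.1
      obtain ⟨m, rfl⟩ := hdvd
      have hpq0 : 0 < p * q := Nat.mul_pos hpI.1.1.pos hqI.1.1.pos
      have hm0 : 0 < m := Nat.pos_of_mul_pos_left hn0
      rw [Finset.mem_biUnion]
      refine ⟨(p, q), ?_, ?_⟩
      · rw [hP, Finset.mem_filter, Finset.mem_product, Finset.mem_filter, Finset.mem_filter,
          Finset.mem_Ioc, Finset.mem_Ioc]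
        exact ⟨⟨⟨hpI.2, hpI.1.1⟩, ⟨hqI.2, hqI.1.1⟩⟩, hlt, hH p hp q hq hlt⟩
      · rw [Finset.mem_image]
        refine ⟨m, ?_, rfl⟩
        unfold HS
        rw [Finset.mem_filter, Finset.mem_Ioc]
        refine ⟨⟨hm0, ?_⟩, (S.erase p).erase q, ?_, ?_, ?_⟩
        · simp only
          rw [Nat.le_div_iff_mul_le hpq0]
          rwa [mul_comm] at hnX
        · intro r hr
          rw [Finset.mem_erase, Finset.mem_erase] at hr
          have hrI := mem_PI.mp (hS hr.2.2)
          rw [mem_PI]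
          refine ⟨⟨hrI.1.1, ?_, hm0.ne'⟩, hrI.2⟩
          have h3 := hrI.1.2.1
          rcases (Nat.Prime.dvd_mul hrI.1.1).mp h3 with h4 | h4
          · rcases (Nat.Prime.dvd_mul hrI.1.1).mp h4 with h5 | h5
            · exact absurd ((Nat.prime_dvd_prime_iff_eq hrI.1.1 hpI.1.1).mp h5) hr.2.1
            · exact absurd ((Nat.prime_dvd_prime_iff_eq hrI.1.1 hqI.1.1).mp h5) hr.1
          · exact h4
        · rw [Finset.card_erase_of_mem, Finset.card_erase_of_mem hp]
          · omega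
          · rw [Finset.mem_erase]; exact ⟨by omega, hq⟩
        · intro a ha b hb hab
          rw [Finset.mem_erase, Finset.mem_erase] at ha hb
          exact hH a ha.2.2 b hb.2.2 hab
    have h1 : (HS H y z X (K + 1)).card ≤
        ∑ x ∈ P, (HS H y z (X / (x.1 * x.2)) K).card := by
      refine (Finset.card_le_card hsub).trans (Finset.card_biUnion_le.trans ?_)
      exact Finset.sum_le_sum fun x _ => Finset.card_image_le
    have h2 : ((HS H y z X (K + 1)).card : ℝ) ≤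
        ∑ x ∈ P, ((HS H y z (X / (x.1 * x.2)) K).card : ℝ) := by exact_mod_cast h1
    refine h2.trans ?_
    calc ∑ x ∈ P, ((HS H y z (X / (x.1 * x.2)) K).card : ℝ)
        ≤ ∑ x ∈ P, (X * wt H y z ^ K) * ((1 : ℝ) / (x.1 * x.2)) := by
          apply Finset.sum_le_sum
          intro x _
          refine (ih _).trans ?_
          have h3 : ((X / (x.1 * x.2) : ℕ) : ℝ) ≤ X / ((x.1 * x.2 : ℕ) : ℝ) := Nat.cast_div_le
          have h4 := wt_nonneg H y z
          calc ((X / (x.1 * x.2) : ℕ) : ℝ) * wt H y z ^ K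
              ≤ (X / ((x.1 * x.2 : ℕ) : ℝ)) * wt H y z ^ K := by gcongr
            _ = (X * wt H y z ^ K) * ((1 : ℝ) / (x.1 * x.2)) := by push_cast; ring
      _ = X * wt H y z ^ (K + 1) := by
          rw [← Finset.mul_sum]
          have h5 : ∑ x ∈ P, (1 : ℝ) / (x.1 * x.2) = wt H y z := rfl
          rw [h5, pow_succ]
          ring

/-- the pair is bad, or contains a near prime. -/
def Hb (L T : ℝ) (p q : ℕ) : Prop := ¬ Good L T p q ∨ Near L (2 * T) p ∨ Near L (2 * T) q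

open Classical in
/-- weight of the pairs that are bad or contain a near prime. -/
lemma wt_or_le (L T : ℝ) (y z : ℕ) :
    wt (Hb L T) y z ≤
      badSum L T y z + 2 * (recip y z *
        ∑ p ∈ ((Ioc y z).filter Nat.Prime).filter (Near L (2 * T)), (1 : ℝ) / p) := by
  set P := (Ioc y z).filter Nat.Prime with hP
  set W := ∑ p ∈ P.filter (Near L (2 * T)), (1 : ℝ) / p with hW
  have hWe : recip y z * W = ∑ x ∈ (P ×ˢ P).filter (fun x : ℕ × ℕ => Near L (2 * T) x.2),
      (1 : ℝ) / (x.1 * x.2) := by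
    rw [Finset.sum_filter, Finset.sum_product]
    unfold recip
    rw [← hP, Finset.sum_mul]
    apply Finset.sum_congr rfl
    intro p _
    rw [hW, Finset.mul_sum, ← Finset.sum_filter]
    apply Finset.sum_congr rfl
    intro q _
    rw [one_div_mul_one_div]
  have hWe' : recip y z * W = ∑ x ∈ (P ×ˢ P).filter (fun x : ℕ × ℕ => Near L (2 * T) x.1),
      (1 : ℝ) / (x.1 * x.2) := by
    rw [Finset.sum_filter, Finset.sum_product_right]
    unfold recip
    rw [← hP, Finset.sum_mul]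
    apply Finset.sum_congr rfl
    intro p _
    rw [hW, Finset.mul_sum, ← Finset.sum_filter]
    apply Finset.sum_congr rfl
    intro q _
    simp only
    rw [one_div_mul_one_div, mul_comm]
  have hsub : (P ×ˢ P).filter (fun x : ℕ × ℕ => x.1 < x.2 ∧
      (¬ Good L T x.1 x.2 ∨ Near L (2 * T) x.1 ∨ Near L (2 * T) x.2)) ⊆
      (P ×ˢ P).filter (fun x : ℕ × ℕ => x.1 < x.2 ∧ ¬ Good L T x.1 x.2) ∪
      ((P ×ˢ P).filter (fun x : ℕ × ℕ => Near L (2 * T) x.1) ∪
       (P ×ˢ P).filter (fun x : ℕ × ℕ => Near L (2 * T) x.2)) := by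
    intro x hx
    simp only [Finset.mem_filter, Finset.mem_union] at hx ⊢
    tauto
  have hunion : ∀ (A B : Finset (ℕ × ℕ)), ∑ x ∈ A ∪ B, (1 : ℝ) / (x.1 * x.2) ≤
      ∑ x ∈ A, (1 : ℝ) / (x.1 * x.2) + ∑ x ∈ B, (1 : ℝ) / (x.1 * x.2) := by
    intro A B
    have h1 := Finset.sum_union_inter (s₁ := A) (s₂ := B)
      (f := fun x : ℕ × ℕ => (1 : ℝ) / (x.1 * x.2))
    have h2 : 0 ≤ ∑ x ∈ A ∩ B, (1 : ℝ) / ((x.1 : ℝ) * x.2) :=
      Finset.sum_nonneg fun _ _ => by positivity
    linarith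
  have hwt : wt (Hb L T) y z =
      ∑ x ∈ (P ×ˢ P).filter (fun x : ℕ × ℕ => x.1 < x.2 ∧
      (¬ Good L T x.1 x.2 ∨ Near L (2 * T) x.1 ∨ Near L (2 * T) x.2)),
      (1 : ℝ) / (x.1 * x.2) := by
    unfold wt
    apply Finset.sum_congr _ (fun _ _ => rfl)
    ext x
    simp only [Finset.mem_filter, hP, Hb]
  rw [hwt]
  calc _ ≤ ∑ x ∈ (P ×ˢ P).filter (fun x : ℕ × ℕ => x.1 < x.2 ∧ ¬ Good L T x.1 x.2) ∪
      ((P ×ˢ P).filter (fun x : ℕ × ℕ => Near L (2 * T) x.1) ∪
       (P ×ˢ P).filter (fun x : ℕ × ℕ => Near L (2 * T) x.2)), (1 : ℝ) / (x.1 * x.2) :=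
        Finset.sum_le_sum_of_subset_of_nonneg hsub (fun _ _ _ => by positivity)
    _ ≤ _ := hunion _ _
    _ ≤ badSum L T y z + (recip y z * W + recip y z * W) := by
        apply add_le_add (le_refl _)
        refine (hunion _ _).trans ?_
        rw [← hWe, ← hWe']
    _ = badSum L T y z + 2 * (recip y z * W) := by ring

lemma recip_double {c : ℝ} (hc : 2 ≤ c) (k : ℕ) :
    recip ⌊exp c⌋₊ ⌊exp (2 ^ k * c)⌋₊ ≤ 18 * k := by
  induction k with
  | zero => simp [recip]
  | succ k ih =>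
    have hk : (1 : ℝ) ≤ 2 ^ k := one_le_pow₀ (by norm_num)
    have e1 : ⌊exp c⌋₊ ≤ ⌊exp (2 ^ k * c)⌋₊ :=
      Nat.floor_le_floor (Real.exp_le_exp.mpr (by nlinarith))
    have e2 : ⌊exp (2 ^ k * c)⌋₊ ≤ ⌊exp (2 ^ (k + 1) * c)⌋₊ :=
      Nat.floor_le_floor (Real.exp_le_exp.mpr (by rw [pow_succ]; nlinarith))
    rw [recip_add e1 e2]
    have hd : (2 : ℝ) ≤ 2 ^ k * c := by nlinarith
    have hd1 : (1 : ℝ) ≤ exp (2 ^ k * c) := Real.one_le_exp (by linarith)
    have h1 := recip_exp_le (c := 2 ^ k * c) (h := 2 ^ k * c) (B := 2) hd (by linarith)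
      (by nlinarith) (le_refl _) (le_trans (Real.exp_le_one_iff.mpr (by norm_num)) (by linarith))
    have e3 : 2 ^ k * c + 2 ^ k * c = 2 ^ (k + 1) * c := by ring
    rw [e3] at h1
    have e4 : 6 * (2 ^ k * c) * (1 + 2) / (2 ^ k * c) = 18 := by
      field_simp
      norm_num
    rw [e4] at h1
    push_cast
    linarith

lemma recip_mono {a b c d : ℕ} (h1 : a ≤ b) (h2 : c ≤ d) : recip b c ≤ recip a d := by
  unfold recip
  apply Finset.sum_le_sum_of_subset_of_nonneg
  · apply Finset.filter_subset_filter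
    exact Finset.Ioc_subset_Ioc h1 h2
  · intro _ _ _; positivity

lemma recip_le_log {y z : ℕ} {L : ℝ} (hL : 2 ≤ L) (hy : 8 ≤ y) (hz : log z ≤ L) :
    recip y z ≤ 30 * (1 + log L) := by
  have hL0 : 0 < L := by linarith
  have hlog2 := Real.log_two_gt_d9
  have hlogL : 0 ≤ log L := Real.log_nonneg (by linarith)
  set k := ⌈log L / log 2⌉₊ with hk
  have hk1 : log L / log 2 ≤ k := Nat.le_ceil _
  have hk2 : (k : ℝ) < log L / log 2 + 1 := Nat.ceil_lt_add_one (by positivity)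
  have h2k : L ≤ 2 ^ k := by
    rw [div_le_iff₀ (by linarith)] at hk1
    rw [← Real.log_le_log_iff hL0 (by positivity), Real.log_pow]
    exact hk1
  have he2 : ⌊exp 2⌋₊ ≤ y := by
    have h3 : exp 2 < 8 := by
      have := Real.exp_one_lt_d9
      have h3 : exp 2 = exp 1 * exp 1 := by rw [← Real.exp_add]; norm_num
      have := Real.exp_pos 1
      rw [h3]; nlinarith
    have h4 : ⌊exp 2⌋₊ < 8 := by
      rw [Nat.floor_lt (Real.exp_pos 2).le]; exact_mod_cast h3
    omega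
  have hz2 : z ≤ ⌊exp (2 ^ k * 2)⌋₊ := by
    apply Nat.le_floor
    rcases Nat.eq_zero_or_pos z with rfl | hz0
    · simp [Real.exp_pos _ |>.le]
    · rw [← Real.log_le_iff_le_exp (by exact_mod_cast hz0)]
      nlinarith
  refine (recip_mono he2 hz2).trans ((recip_double (le_refl 2) k).trans ?_)
  have : log L / log 2 ≤ 1.5 * log L := by
    rw [div_le_iff₀ (by linarith)]
    nlinarith
  linarith

end Pool.Agent.Work.MP_98b61d_nt
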