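import Pool.Agent.Work.MP_98b61d_nt.Exact
import Pool.Agent.Work.MP_98b61d_nt.Main1

/-!
Tools for the tail bound.
-/

namespace Pool.Agent.Work.MP_98b61d_nt

open Finset Real

/-- If `n₂ ∣ n` has at least two prime factors then one of them, at most `√n`, has a large top
power. -/
lemma exists_prime_of_two {n n2 : ℕ} (hf : f n = F n) (hn : n ≠ 0) (hdvd : n2 ∣ n)
    (h2 : 2 ≤ n2.primeFactors.card) :
    ∃ p ∈ n2.primeFactors, p * p ≤ n ∧ n2 ≤ 2 * n.primeFactors.card * p ^ Nat.log p n := by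
  classical
  have hn2 : n2 ≠ 0 := by rintro rfl; exact hn (by simpa using hdvd)
  have hsub : n2.primeFactors ⊆ n.primeFactors := Nat.primeFactors_mono hdvd hn
  have hn22 : 2 ≤ n2 := by
    by_contra hcon
    have : n2 = 1 := by omega
    rw [this] at h2; simp at h2
  have hle : n2 ≤ fN n n2 := le_fN_of_eq hf hn22 (Nat.le_of_dvd (Nat.pos_of_ne_zero hn) hdvd)
    (fun p _ hp2 => hp2.trans hdvd)
  have hne : n2.primeFactors.Nonempty := Finset.card_pos.mp (by omega)
  obtain ⟨q, hq, hqmax⟩ := Finset.exists_max_image n2.primeFactors (fun p => p) hne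
  have hqp := Nat.prime_of_mem_primeFactors hq
  have hbound : ∀ S : Finset ℕ, S ⊆ n2.primeFactors → S.Nonempty →
      ∃ p ∈ S, ∑ r ∈ S, r ^ Nat.log r n ≤ n.primeFactors.card * p ^ Nat.log p n := by
    intro S hS hSne
    obtain ⟨p, hp, hpmax⟩ := Finset.exists_max_image S (fun r => r ^ Nat.log r n) hSne
    refine ⟨p, hp, ?_⟩
    calc ∑ r ∈ S, r ^ Nat.log r n ≤ S.card • (p ^ Nat.log p n) :=
          Finset.sum_le_card_nsmul _ _ _ hpmax
      _ = S.card * p ^ Nat.log p n := smul_eq_mul _ _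
      _ ≤ n.primeFactors.card * p ^ Nat.log p n :=
          Nat.mul_le_mul_right _ (Finset.card_le_card (hS.trans hsub))
  by_cases hqq : q * q ≤ n
  · obtain ⟨p, hp, hpb⟩ := hbound n2.primeFactors (le_refl _) hne
    refine ⟨p, hp, ?_, ?_⟩
    · exact (Nat.mul_le_mul (hqmax p hp) (hqmax p hp)).trans hqq
    · unfold fN at hle
      rw [mul_assoc]
      omega
  · push Not at hqq
    obtain ⟨m2, hm2⟩ := Nat.dvd_of_mem_primeFactors hq
    have hm0 : m2 ≠ 0 := by rintro rfl; simp at hm2; exact hn2 hm2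
    have hqm : ¬ q ∣ m2 := by
      intro h
      have h3 : q * q ∣ n := by
        refine Dvd.dvd.trans ?_ hdvd
        rw [hm2]; exact Nat.mul_dvd_mul_left q h
      have := Nat.le_of_dvd (Nat.pos_of_ne_zero hn) h3
      omega
    have hpf : n2.primeFactors = insert q m2.primeFactors := by
      rw [hm2, Nat.primeFactors_mul hqp.ne_zero hm0, hqp.primeFactors]
      rfl
    have hqm' : q ∉ m2.primeFactors := by
      rw [Nat.mem_primeFactors]; exact fun h => hqm h.2.1
    have hne2 : m2.primeFactors.Nonempty := by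
      rw [← Finset.card_pos]
      rw [hpf, Finset.card_insert_of_notMem hqm'] at h2
      omega
    have hm22 : 2 ≤ m2 := by
      by_contra hcon
      have : m2 = 1 := by omega
      rw [this] at hne2; simp at hne2
    have hsub2 : m2.primeFactors ⊆ n2.primeFactors := by
      rw [hpf]; exact Finset.subset_insert _ _
    have hlogq : Nat.log q n = 1 := by
      rw [Nat.log_eq_iff (Or.inl one_ne_zero)]
      constructor
      · rw [pow_one]
        exact Nat.le_of_dvd (Nat.pos_of_ne_zero hn) ((Nat.dvd_of_mem_primeFactors hq).trans hdvd)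
      · rw [pow_add, pow_one]; exact hqq
    obtain ⟨p, hp, hpb⟩ := hbound m2.primeFactors hsub2 hne2
    have hp2 : p ∈ n2.primeFactors := hsub2 hp
    have hple : p ≤ q := hqmax p hp2
    have hpne : p ≠ q := by rintro rfl; exact hqm' hp
    refine ⟨p, hp2, ?_, ?_⟩
    · have hpp := Nat.prime_of_mem_primeFactors hp
      have h4 : p * q ∣ n2 := by
        apply Nat.Coprime.mul_dvd_of_dvd_of_dvd ((Nat.coprime_primes hpp hqp).mpr hpne)
        · exact Nat.dvd_of_mem_primeFactors hp2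
        · exact Nat.dvd_of_mem_primeFactors hq
      have h5 : p * q ≤ n := Nat.le_of_dvd (Nat.pos_of_ne_zero hn) (h4.trans hdvd)
      exact (Nat.mul_le_mul_left p hple).trans h5
    · unfold fN at hle
      rw [hpf, Finset.sum_insert hqm', hlogq, pow_one] at hle
      have h6 : 2 * q ≤ n2 := by rw [hm2, mul_comm 2 q]; exact Nat.mul_le_mul_left q hm22
      rw [mul_assoc]
      omega

lemma near_of_two {n n1 n2 : ℕ} {L T : ℝ} (hf : f n = F n) (hn0 : n ≠ 0) (hn : n = n2 * n1)
    (h2 : 2 ≤ n2.primeFactors.card) (hnL : log n ≤ L)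
    (hbig : L - T + (log (2 * n.primeFactors.card) + log n1) ≤ log n) :
    ∃ p ∈ n2.primeFactors, p * p ≤ n ∧ Near L T p := by
  obtain ⟨p, hp, hpp, hle⟩ := exists_prime_of_two hf hn0 ⟨n1, hn⟩ h2
  have hn10 : n1 ≠ 0 := by rintro rfl; simp at hn; exact hn0 hn
  have hprime := Nat.prime_of_mem_primeFactors hp
  have hpn : p ∣ n := (Nat.dvd_of_mem_primeFactors hp).trans ⟨n1, hn⟩
  have hk1 : 1 ≤ Nat.log p n := Nat.log_pos hprime.one_lt
    (Nat.le_of_dvd (Nat.pos_of_ne_zero hn0) hpn)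
  have hp0 : (0 : ℝ) < p := by exact_mod_cast hprime.pos
  have hn0' : (0 : ℝ) < n := by exact_mod_cast Nat.pos_of_ne_zero hn0
  have hn1' : (0 : ℝ) < n1 := by exact_mod_cast Nat.pos_of_ne_zero hn10
  refine ⟨p, hp, hpp, Nat.log p n, hk1, ?_, ?_⟩
  · have hw : 0 < n.primeFactors.card := Finset.card_pos.mpr
      ⟨p, Nat.mem_primeFactors.mpr ⟨hprime, hpn, hn0⟩⟩
    have hw' : (0 : ℝ) < n.primeFactors.card := by exact_mod_cast hw
    have h3 : n ≤ 2 * n.primeFactors.card * p ^ Nat.log p n * n1 := by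
      calc n = n2 * n1 := hn
        _ ≤ _ := Nat.mul_le_mul_right _ hle
    have h4 : (n : ℝ) ≤ 2 * n.primeFactors.card * (p : ℝ) ^ Nat.log p n * n1 := by
      exact_mod_cast h3
    have h5 := Real.log_le_log hn0' h4
    rw [Real.log_mul (by positivity) (by positivity), Real.log_mul (by positivity) (by positivity),
      Real.log_pow] at h5
    linarith
  · rw [← Real.log_pow]
    refine le_trans (Real.log_le_log (by positivity) ?_) hnL
    exact_mod_cast Nat.pow_log_le_self p hn0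

/-- version of `near_of_good` for integers slightly further from `exp L`. -/
lemma near_of_good' {n p q : ℕ} {L T : ℝ} (hf : f n = F n) (hn : n ≠ 0)
    (hL2 : L / 2 ≤ log n) (hnL : log n ≤ L) (hT : L - log n + 1 ≤ T)
    (hp : p ∈ n.primeFactors) (hq : q ∈ n.primeFactors) (hpq : p ≠ q)
    (hgood : Good L T p q) : Near L (2 * T) p ∨ Near L (2 * T) q := by
  have hpp := Nat.prime_of_mem_primeFactors hp
  have hqq := Nat.prime_of_mem_primeFactors hq
  obtain ⟨i, j, h1, h2⟩ := hgood (log n) hL2 hnL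
  have hn0 : (0 : ℝ) < n := by exact_mod_cast Nat.pos_of_ne_zero hn
  have hp0 : (0 : ℝ) < p := by exact_mod_cast hpp.pos
  have hq0 : (0 : ℝ) < q := by exact_mod_cast hqq.pos
  have hb : log (((p ^ i * q ^ j : ℕ) : ℝ)) = i * log p + j * log q := by
    push_cast
    rw [Real.log_mul (by positivity) (by positivity), Real.log_pow, Real.log_pow]
  have hb0 : (0 : ℝ) < ((p ^ i * q ^ j : ℕ) : ℝ) := by push_cast; positivity
  have hbn : p ^ i * q ^ j ≤ n := by
    rw [← hb] at h2
    have := (Real.log_le_log_iff hb0 hn0).mp h2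
    exact_mod_cast this
  have h3 := pair_le hf hp hq hpq hbn
  have key : ∀ r ∈ n.primeFactors, p ^ i * q ^ j ≤ 2 * r ^ Nat.log r n → Near L (2 * T) r := by
    intro r hr hle
    have hrr := Nat.prime_of_mem_primeFactors hr
    have hr0 : (0 : ℝ) < r := by exact_mod_cast hrr.pos
    refine ⟨Nat.log r n, Nat.log_pos hrr.one_lt (Nat.le_of_dvd (Nat.pos_of_ne_zero hn)
      (Nat.dvd_of_mem_primeFactors hr)), ?_, ?_⟩
    · have h6 : ((p ^ i * q ^ j : ℕ) : ℝ) ≤ 2 * (r : ℝ) ^ Nat.log r n := by exact_mod_cast hle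
      have h7 := Real.log_le_log hb0 h6
      rw [hb, Real.log_mul (by norm_num) (by positivity), Real.log_pow] at h7
      have := Real.log_two_lt_d9
      linarith
    · rw [← Real.log_pow]
      refine le_trans (Real.log_le_log (by positivity) ?_) hnL
      exact_mod_cast Nat.pow_log_le_self r hn
  rcases Nat.le_total (p ^ Nat.log p n) (q ^ Nat.log q n) with h | h
  · right; exact key q hq (by omega)
  · left; exact key p hp (by omega)

/-- Bound for a divisor all of whose primes are at most `Y`. -/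
lemma smooth_le {n n1 Y : ℕ} (hn : n ≠ 0) (hd : n1 ∣ n) (hY1 : 1 ≤ Y)
    (h1 : ∀ p ∈ n1.primeFactors, p ≤ Y)
    (hv : ∀ p ∈ n.primeFactors, p ≤ Y → p ^ n.factorization p ≤ Y ^ 2) :
    n1 ≤ (Y ^ 2) ^ n.primeFactors.card := by
  have hn1 : n1 ≠ 0 := by rintro rfl; exact hn (by simpa using hd)
  have hsub : n1.primeFactors ⊆ n.primeFactors := Nat.primeFactors_mono hd hn
  calc n1 = ∏ p ∈ n1.primeFactors, p ^ n1.factorization p := by
        conv_lhs => rw [← Nat.prod_factorization_pow_eq_self hn1]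
        rw [Finsupp.prod, Nat.support_factorization]
    _ ≤ ∏ p ∈ n1.primeFactors, Y ^ 2 := by
        apply Finset.prod_le_prod' 
        intro p hp
        refine le_trans ?_ (hv p (hsub hp) (h1 p hp))
        apply Nat.pow_le_pow_right (Nat.prime_of_mem_primeFactors hp).pos
        exact (Nat.factorization_le_iff_dvd hn1 hn).mpr hd p
    _ = (Y ^ 2) ^ n1.primeFactors.card := by rw [Finset.prod_const]
    _ ≤ (Y ^ 2) ^ n.primeFactors.card :=
        Nat.pow_le_pow_right (by positivity) (Finset.card_le_card hsub)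

lemma two_pow_le_card_divisors {n : ℕ} (hn : n ≠ 0) :
    2 ^ n.primeFactors.card ≤ n.divisors.card := by
  rw [Nat.card_divisors hn, ← Finset.prod_const]
  apply Finset.prod_le_prod'
  intro p hp
  have := (Nat.prime_of_mem_primeFactors hp).factorization_pos_of_dvd hn
    (Nat.dvd_of_mem_primeFactors hp)
  omega

lemma sum_card_divisors_le (X : ℕ) :
    (∑ n ∈ Ioc 0 X, (n.divisors.card : ℝ)) ≤ X * (1 + log X) := by
  have h1 := ArithmeticFunction.sum_Ioc_sigma0_eq_sum_div X
  simp only [ArithmeticFunction.sigma_zero_apply] at h1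
  have h2 : (∑ n ∈ Ioc 0 X, (n.divisors.card : ℝ)) = ∑ n ∈ Ioc 0 X, ((X / n : ℕ) : ℝ) := by
    exact_mod_cast h1
  rw [h2]
  calc ∑ n ∈ Ioc 0 X, ((X / n : ℕ) : ℝ) ≤ ∑ n ∈ Ioc 0 X, (X : ℝ) * (1 / n) := by
        apply Finset.sum_le_sum
        intro n _
        refine Nat.cast_div_le.trans (le_of_eq ?_)
        ring
    _ = X * ∑ n ∈ Ioc 0 X, (1 : ℝ) / n := by rw [Finset.mul_sum]
    _ ≤ X * (1 + log X) := by
        have := sum_inv_Ioc_le X
        gcongr

/-- Few integers have many prime factors. -/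
lemma card_many_le (X K : ℕ) :
    (((Ioc 0 X).filter (fun n => K ≤ n.primeFactors.card)).card : ℝ) ≤
      X * (1 + log X) / 2 ^ K := by
  rw [le_div_iff₀ (by positivity)]
  calc (((Ioc 0 X).filter (fun n => K ≤ n.primeFactors.card)).card : ℝ) * 2 ^ K
      = ∑ n ∈ (Ioc 0 X).filter (fun n => K ≤ n.primeFactors.card), (2 : ℝ) ^ K := by
        rw [Finset.sum_const, nsmul_eq_mul]
    _ ≤ ∑ n ∈ (Ioc 0 X).filter (fun n => K ≤ n.primeFactors.card), (n.divisors.card : ℝ) := by
        apply Finset.sum_le_sum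
        intro n hn
        rw [Finset.mem_filter, Finset.mem_Ioc] at hn
        have h1 := two_pow_le_card_divisors (n := n) (by omega)
        have h2 : (2 : ℝ) ^ K ≤ 2 ^ n.primeFactors.card :=
          pow_le_pow_right₀ (by norm_num) hn.2
        refine h2.trans ?_
        exact_mod_cast h1
    _ ≤ ∑ n ∈ Ioc 0 X, (n.divisors.card : ℝ) :=
        Finset.sum_le_sum_of_subset_of_nonneg (Finset.filter_subset _ _) (fun _ _ _ => by positivity)
    _ ≤ X * (1 + log X) := sum_card_divisors_le X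

/-- number of multiples. -/
lemma card_multiples_le (X d : ℕ) (hd : 0 < d) :
    (((Ioc 0 X).filter (fun n => d ∣ n)).card : ℝ) ≤ X / d := by
  rw [Nat.Ioc_filter_dvd_card_eq_div]
  exact Nat.cast_div_le

open Classical in
/-- integers divisible by a high power of a prime up to `Y`. -/
lemma card_highpow_le (X Y : ℕ) (hY : 1 ≤ Y) :
    (((Ioc 0 X).filter (fun n => ∃ p ∈ n.primeFactors, p ≤ Y ∧
      Y ^ 2 < p ^ n.factorization p)).card : ℝ) ≤ X / Y := by
  have hsub : (Ioc 0 X).filter (fun n => ∃ p ∈ n.primeFactors, p ≤ Y ∧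
      Y ^ 2 < p ^ n.factorization p) ⊆ ((Ioc 0 Y).filter Nat.Prime).biUnion
      (fun p => (Ioc 0 X).filter (fun n => p ^ (Nat.log p (Y ^ 2) + 1) ∣ n)) := by
    intro n hn
    rw [Finset.mem_filter] at hn
    obtain ⟨hnX, p, hp, hpY, hlt⟩ := hn
    have hpp := Nat.prime_of_mem_primeFactors hp
    rw [Finset.mem_biUnion]
    refine ⟨p, ?_, ?_⟩
    · rw [Finset.mem_filter, Finset.mem_Ioc]; exact ⟨⟨hpp.pos, hpY⟩, hpp⟩
    · rw [Finset.mem_filter]
      refine ⟨hnX, ?_⟩
      have h1 : Nat.log p (Y ^ 2) + 1 ≤ n.factorization p := by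
        by_contra hcon
        push Not at hcon
        have h2 : n.factorization p ≤ Nat.log p (Y ^ 2) := by omega
        have h3 : p ^ n.factorization p ≤ Y ^ 2 := 
          (Nat.pow_le_pow_right hpp.pos h2).trans (Nat.pow_log_le_self p (by positivity))
        omega
      exact (pow_dvd_pow p h1).trans (Nat.ordProj_dvd n p)
  have h1 : (((Ioc 0 X).filter (fun n => ∃ p ∈ n.primeFactors, p ≤ Y ∧
      Y ^ 2 < p ^ n.factorization p)).card : ℝ) ≤ ∑ p ∈ (Ioc 0 Y).filter Nat.Prime,
      (((Ioc 0 X).filter (fun n => p ^ (Nat.log p (Y ^ 2) + 1) ∣ n)).card : ℝ) := by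
    exact_mod_cast (Finset.card_le_card hsub).trans Finset.card_biUnion_le
  refine h1.trans ?_
  have hY0 : (0 : ℝ) < Y := by exact_mod_cast hY
  calc _ ≤ ∑ p ∈ (Ioc 0 Y).filter Nat.Prime, (X : ℝ) / (Y : ℝ) ^ 2 := by
        apply Finset.sum_le_sum
        intro p hp
        rw [Finset.mem_filter] at hp
        have hpp := hp.2
        refine (card_multiples_le X _ (pow_pos hpp.pos _)).trans ?_
        apply div_le_div_of_nonneg_left (by positivity) (by positivity)
        have := (Nat.lt_pow_succ_log_self hpp.one_lt (Y ^ 2)).le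
        exact_mod_cast this
    _ = (((Ioc 0 Y).filter Nat.Prime).card : ℝ) * (X / (Y : ℝ) ^ 2) := by
        rw [Finset.sum_const, nsmul_eq_mul]
    _ ≤ Y * (X / (Y : ℝ) ^ 2) := by
        have : ((Ioc 0 Y).filter Nat.Prime).card ≤ Y := by
          refine (Finset.card_filter_le _ _).trans ?_
          simp
        gcongr
    _ = X / Y := by field_simp

open Classical in
/-- integers divisible by the square of a prime exceeding `Y`. -/
lemma card_square_le (X Y : ℕ) (hY : 1 ≤ Y) :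
    (((Ioc 0 X).filter (fun n => ∃ p : ℕ, p.Prime ∧ Y < p ∧ p ^ 2 ∣ n)).card : ℝ) ≤ X / Y := by
  have hsub : (Ioc 0 X).filter (fun n => ∃ p : ℕ, p.Prime ∧ Y < p ∧ p ^ 2 ∣ n) ⊆
      (Ioc Y (Y + X)).biUnion (fun p => (Ioc 0 X).filter (fun n => p ^ 2 ∣ n)) := by
    intro n hn
    rw [Finset.mem_filter] at hn
    obtain ⟨hnX, p, hpp, hYp, hdvd⟩ := hn
    rw [Finset.mem_Ioc] at hnX
    rw [Finset.mem_biUnion]
    refine ⟨p, ?_, ?_⟩
    · rw [Finset.mem_Ioc]
      refine ⟨hYp, ?_⟩
      have h1 : p ^ 2 ≤ n := Nat.le_of_dvd hnX.1 hdvd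
      have h2 : p ≤ p ^ 2 := Nat.le_self_pow (by norm_num) p
      omega
    · rw [Finset.mem_filter, Finset.mem_Ioc]
      exact ⟨hnX, hdvd⟩
  have h1 : (((Ioc 0 X).filter (fun n => ∃ p : ℕ, p.Prime ∧ Y < p ∧ p ^ 2 ∣ n)).card : ℝ) ≤
      ∑ p ∈ Ioc Y (Y + X), (((Ioc 0 X).filter (fun n => p ^ 2 ∣ n)).card : ℝ) := by
    exact_mod_cast (Finset.card_le_card hsub).trans Finset.card_biUnion_le
  refine h1.trans ?_
  have hY0 : (0 : ℝ) < Y := by exact_mod_cast hY
  have h2 : ∀ k : ℕ, ∑ p ∈ Ioc Y (Y + k), (1 : ℝ) / (p : ℝ) ^ 2 ≤ 1 / Y - 1 / ((Y + k : ℕ) : ℝ) := by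
    intro k
    induction k with
    | zero => simp
    | succ k ih =>
      rw [← Nat.add_assoc, Finset.sum_Ioc_succ_top (by omega)]
      have hk0 : (0 : ℝ) < ((Y + k : ℕ) : ℝ) := by
        have : 0 < Y + k := by omega
        exact_mod_cast this
      have h3 : (1 : ℝ) / (((Y + k + 1 : ℕ) : ℝ)) ^ 2 ≤
          1 / ((Y + k : ℕ) : ℝ) - 1 / ((Y + k + 1 : ℕ) : ℝ) := by
        push_cast at hk0 ⊢
        rw [div_sub_div _ _ hk0.ne' (by positivity), div_le_div_iff₀ (by positivity) (by positivity)]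
        nlinarith
      linarith
  calc _ ≤ ∑ p ∈ Ioc Y (Y + X), (X : ℝ) * (1 / (p : ℝ) ^ 2) := by
        apply Finset.sum_le_sum
        intro p hp
        rw [Finset.mem_Ioc] at hp
        refine (card_multiples_le X _ (pow_pos (by omega) _)).trans (le_of_eq ?_)
        push_cast
        ring
    _ = X * ∑ p ∈ Ioc Y (Y + X), (1 : ℝ) / (p : ℝ) ^ 2 := by rw [Finset.mul_sum]
    _ ≤ X * (1 / Y) := by
        have := h2 X
        have h3 : (0 : ℝ) ≤ 1 / ((Y + X : ℕ) : ℝ) := by positivity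
        gcongr
        linarith
    _ = X / Y := by ring

end Pool.Agent.Work.MP_98b61d_nt
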