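import Pool.Agent.Work.MP_98b61d_nt.Exact
import Pool.Agent.Work.MP_98b61d_nt.Tail1
import Pool.Agent.Work.Shared.PNT.Count

/-!
The primes `q` with `E (m q) m` for fixed `m`.
-/

namespace Pool.Agent.Work.MP_98b61d_nt

open Finset Real Filter MeasureTheory

/-- The third condition in `E`. -/
def EE (t : ℝ) (m : ℕ) : Prop :=
  ∀ b : ℕ, 2 ≤ b → (∀ p : ℕ, p.Prime → p ∣ b → p ∣ m) →
    ((b : ℝ) ≤ t → b ≤ fT t b) ∧ (b ≤ m → ((b : ℝ) - 1) * t / m ≤ fT t b)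

lemma E_iff {t : ℝ} {m : ℕ} : E t m ↔ 1 ≤ m ∧ (m : ℝ) ^ 2 ≤ t ∧ EE t m := Iff.rfl

lemma measurable_fT (b : ℕ) : Measurable (fun t : ℝ => fT t b) := by
  unfold fT
  exact (measurable_from_nat (f := fun n : ℕ => ∑ p ∈ b.primeFactors, p ^ Nat.log p n)).comp
    Nat.measurable_floor

lemma measurable_EE (m : ℕ) : MeasurableSet {t : ℝ | EE t m} := by
  rw [measurableSet_setOfPred]
  unfold EE
  apply Measurable.forall
  intro b
  apply Measurable.imp measurable_const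
  apply Measurable.imp measurable_const
  apply Measurable.and
  · apply Measurable.imp
    · exact measurableSet_setOfPred.mp measurableSet_Ici
    · exact measurableSet_setOfPred.mp ((measurable_fT b) measurableSet_Ici)
  · apply Measurable.imp measurable_const
    apply measurableSet_setOfPred.mp
    apply measurableSet_le
    · fun_prop
    · exact (measurable_from_nat (f := fun n : ℕ => (n : ℝ))).comp (measurable_fT b)

lemma measurable_E (m : ℕ) : MeasurableSet {t : ℝ | E t m} := by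
  have : {t : ℝ | E t m} = {t : ℝ | 1 ≤ m} ∩ (Set.Ici ((m : ℝ) ^ 2) ∩ {t : ℝ | EE t m}) := by
    ext t; rfl
  rw [this]
  exact (MeasurableSet.const _).inter (measurableSet_Ici.inter (measurable_EE m))

/-- The break points. -/
noncomputable def brk (m K : ℕ) : Finset ℝ :=
  (m.primeFactors ×ˢ Icc 1 K).image (fun y : ℕ × ℕ => ((y.1 ^ y.2 : ℕ) : ℝ))

lemma brk_card_le (m K : ℕ) : (brk m K).card ≤ m.primeFactors.card * K := by
  refine Finset.card_image_le.trans ?_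
  rw [Finset.card_product, Nat.card_Icc]
  simp

lemma fT_congr {m K b : ℕ} {r s x : ℝ} (hm : m ≠ 0) (hr : 0 ≤ r) (hrs : r ≤ s) (hsx : s ≤ x)
    (hK : Nat.log 2 ⌊x⌋₊ ≤ K) (hT : ∀ τ ∈ brk m K, ¬ (r < τ ∧ τ ≤ s))
    (hb : ∀ p : ℕ, p.Prime → p ∣ b → p ∣ m) : fT r b = fT s b := by
  unfold fT
  apply Finset.sum_congr rfl
  intro p hp
  rw [Nat.mem_primeFactors] at hp
  obtain ⟨hpp, hpb, _⟩ := hp
  congr 1
  apply le_antisymm (Nat.log_mono_right (Nat.floor_le_floor hrs))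
  by_contra hcon
  push Not at hcon
  have hs0 : 0 ≤ s := hr.trans hrs
  have hk0 : Nat.log p ⌊s⌋₊ ≠ 0 := by omega
  have hs1 : ⌊s⌋₊ ≠ 0 := by
    intro h; rw [h] at hk0; simp at hk0
  have h1 : p ^ Nat.log p ⌊s⌋₊ ≤ ⌊s⌋₊ := Nat.pow_log_le_self p hs1
  have h2 : ((p ^ Nat.log p ⌊s⌋₊ : ℕ) : ℝ) ≤ s :=
    le_trans (by exact_mod_cast h1) (Nat.floor_le hs0)
  have h3 : ⌊r⌋₊ < p ^ Nat.log p ⌊s⌋₊ := Nat.lt_pow_of_log_lt hpp.one_lt hcon
  have h4 : r < ((p ^ Nat.log p ⌊s⌋₊ : ℕ) : ℝ) := (Nat.floor_lt hr).mp h3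
  apply hT ((p ^ Nat.log p ⌊s⌋₊ : ℕ) : ℝ) _ ⟨h4, h2⟩
  unfold brk
  rw [Finset.mem_image]
  refine ⟨(p, Nat.log p ⌊s⌋₊), ?_, rfl⟩
  rw [Finset.mem_product, Nat.mem_primeFactors, Finset.mem_Icc]
  refine ⟨⟨hpp, hb p hpp hpb, hm⟩, by omega, ?_⟩
  calc Nat.log p ⌊s⌋₊ ≤ Nat.log 2 ⌊s⌋₊ := Nat.log_anti_left (by norm_num) hpp.two_le
    _ ≤ Nat.log 2 ⌊x⌋₊ := Nat.log_mono_right (Nat.floor_le_floor hsx)
    _ ≤ K := hK

lemma EE_down {m K : ℕ} {r s x : ℝ} (hm : m ≠ 0) (hr : 0 ≤ r) (hrs : r ≤ s) (hsx : s ≤ x)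
    (hK : Nat.log 2 ⌊x⌋₊ ≤ K) (hT : ∀ τ ∈ brk m K, ¬ (r < τ ∧ τ ≤ s)) (h : EE s m) : EE r m := by
  intro b hb2 hb
  have he := fT_congr hm hr hrs hsx hK hT hb
  obtain ⟨h1, h2⟩ := h b hb2 hb
  rw [he]
  refine ⟨fun hbr => h1 (hbr.trans hrs), fun hbm => le_trans ?_ (h2 hbm)⟩
  have hb1 : (0 : ℝ) ≤ (b : ℝ) - 1 := by
    have : (2 : ℝ) ≤ b := by exact_mod_cast hb2
    linarith
  gcongr

lemma card_primeFactors_mul_log_le {m : ℕ} (hm : m ≠ 0) :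
    (m.primeFactors.card : ℝ) * log 2 ≤ log m := by
  have h1 : 2 ^ m.primeFactors.card ≤ m :=
    (two_pow_le_card_divisors hm).trans (Nat.card_divisors_le_self m)
  have h2 : ((2 : ℝ) ^ m.primeFactors.card) ≤ m := by exact_mod_cast h1
  have h3 := Real.log_le_log (by positivity) h2
  rwa [Real.log_pow] at h3

/-- The number of primes `q` with `u < m q ≤ x` and `EE (m q) m`, compared with an integral. -/
theorem piece_count : ∃ C : ℝ, 0 < C ∧ ∀ (m : ℕ) (u x : ℝ), 1 ≤ m → 2 * m ≤ u → u ≤ x →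
    (m : ℝ) ^ 2 ≤ x → 2 ≤ log x →
    |(Nat.card {q : ℕ // q.Prime ∧ u < (m * q : ℝ) ∧ (m * q : ℝ) ≤ x ∧ EE (m * q) m} : ℝ) -
      (1 / m) * ∫ t in ({t | EE t m} ∩ Set.Ioc u x), 1 / Real.log (t / m)| ≤
      C * (x / m) / (log x) ^ 4 := by
  obtain ⟨C, hC, hmain⟩ := Pool.Agent.Work.Shared.PNT.count_pieces 6
  refine ⟨128 * C, by positivity, fun m u x hm hu hux hmx hL => ?_⟩
  have hm0 : m ≠ 0 := by omega
  have hmR : (1 : ℝ) ≤ m := by exact_mod_cast hm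
  have hmR0 : (0 : ℝ) < m := by linarith
  have hx0 : 0 < x := by nlinarith
  have hu0 : 0 < u := by linarith
  set L := log x with hLdef
  have hlogm : 2 * log m ≤ L := by
    have := Real.log_le_log (by positivity) hmx
    rwa [Real.log_pow] at this
  have hlogm0 : 0 ≤ log (m : ℝ) := Real.log_natCast_nonneg m
  have hlxm : L / 2 ≤ log (x / m) := by
    rw [Real.log_div hx0.ne' hmR0.ne']
    linarith
  have hlog2 := Real.log_two_gt_d9
  have h1 := hmain m u x (fun t => EE t m) (brk m (Nat.log 2 ⌊x⌋₊)) hm hu hux (measurable_EE m)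
    (fun r s hur hrs hsx hT hEE => EE_down hm0 (by linarith) hrs hsx (le_refl _) hT hEE)
  refine h1.trans ?_
  have hx1 : 1 ≤ x := by nlinarith
  have hfl : ⌊x⌋₊ ≠ 0 := by
    have : 1 ≤ ⌊x⌋₊ := by rw [Nat.one_le_floor_iff]; exact hx1
    omega
  have hK : (Nat.log 2 ⌊x⌋₊ : ℝ) * log 2 ≤ L := by
    have h2 : 2 ^ Nat.log 2 ⌊x⌋₊ ≤ ⌊x⌋₊ := Nat.pow_log_le_self 2 hfl
    have h3 : ((2 : ℝ) ^ Nat.log 2 ⌊x⌋₊) ≤ x := by
      calc ((2 : ℝ) ^ Nat.log 2 ⌊x⌋₊) ≤ ⌊x⌋₊ := by exact_mod_cast h2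
        _ ≤ x := Nat.floor_le hx0.le
    have h4 := Real.log_le_log (by positivity) h3
    rwa [Real.log_pow] at h4
  have hom := card_primeFactors_mul_log_le hm0
  have hcard : ((brk m (Nat.log 2 ⌊x⌋₊)).card : ℝ) + 1 ≤ 2 * L ^ 2 := by
    have h2 : ((brk m (Nat.log 2 ⌊x⌋₊)).card : ℝ) ≤ m.primeFactors.card * Nat.log 2 ⌊x⌋₊ := by
      exact_mod_cast brk_card_le m _
    have h3 : (m.primeFactors.card : ℝ) ≤ 0.75 * L := by
      have : 0 ≤ (m.primeFactors.card : ℝ) := Nat.cast_nonneg _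
      nlinarith
    have h4 : (Nat.log 2 ⌊x⌋₊ : ℝ) ≤ 1.5 * L := by
      have : 0 ≤ (Nat.log 2 ⌊x⌋₊ : ℝ) := Nat.cast_nonneg _
      nlinarith
    have h5 : (m.primeFactors.card : ℝ) * Nat.log 2 ⌊x⌋₊ ≤ (0.75 * L) * (1.5 * L) := by
      gcongr
    nlinarith
  have hpow : (L / 2) ^ 6 ≤ (log (x / m)) ^ (6 : ℝ) := by
    rw [show (6 : ℝ) = ((6 : ℕ) : ℝ) by norm_num, Real.rpow_natCast]
    gcongr
  have hL0 : 0 < L := by linarith
  have h6 : C * (x / m) / (log (x / m)) ^ (6 : ℝ) ≤ C * (x / m) / (L / 2) ^ 6 :=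
    div_le_div_of_nonneg_left (by positivity) (by positivity) hpow
  calc _ ≤ (2 * L ^ 2) * (C * (x / m) / (L / 2) ^ 6) := by
        apply mul_le_mul hcard h6 _ (by positivity)
        apply div_nonneg (by positivity)
        exact le_trans (by positivity) hpow
    _ = 128 * C * (x / m) / L ^ 4 := by
        field_simp
        norm_num

end Pool.Agent.Work.MP_98b61d_nt
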