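import Mathlib

/-!
Elementary upper bounds for sums over primes, in particular in short intervals.
-/

namespace Pool.Agent.Work.MP_98b61d_nt

open Finset Real

lemma sum_biUnion_le_of_nonneg {ι α : Type*} [DecidableEq ι] [DecidableEq α] (s : Finset ι)
    (t : ι → Finset α) (f : α → ℝ) (hf : ∀ a, 0 ≤ f a) :
    ∑ a ∈ s.biUnion t, f a ≤ ∑ i ∈ s, ∑ a ∈ t i, f a := by
  induction s using Finset.induction_on with
  | empty => simp
  | insert i s hi ih =>
    rw [Finset.biUnion_insert, Finset.sum_insert hi]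
    have h1 := Finset.sum_union_inter (s₁ := t i) (s₂ := s.biUnion t) (f := f)
    have h2 : 0 ≤ ∑ a ∈ t i ∩ s.biUnion t, f a := Finset.sum_nonneg fun a _ => hf a
    linarith

/-- Sum of reciprocals of the primes in `(a, b]`. -/
noncomputable def recip (a b : ℕ) : ℝ := ∑ p ∈ (Ioc a b).filter Nat.Prime, (1 : ℝ) / p

lemma recip_nonneg (a b : ℕ) : 0 ≤ recip a b :=
  Finset.sum_nonneg fun _ _ => by positivity

lemma recip_add {a b c : ℕ} (hab : a ≤ b) (hbc : b ≤ c) :
    recip a c = recip a b + recip b c := by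
  unfold recip
  rw [← Finset.sum_union]
  · congr 1
    rw [← Finset.filter_union, Finset.Ioc_union_Ioc_eq_Ioc hab hbc]
  · rw [Finset.disjoint_left]
    intro p hp hq
    simp only [Finset.mem_filter, Finset.mem_Ioc] at hp hq
    omega

lemma prod_primes_dvd_choose {X Y : ℕ} (hYX : Y ≤ X) :
    (∏ p ∈ (Ioc X (X + Y)).filter Nat.Prime, p) ∣ (X + Y).choose Y := by
  apply Finset.prod_primes_dvd
  · intro p hp
    exact (Finset.mem_filter.mp hp).2.prime
  · intro p hp
    rw [Finset.mem_filter, Finset.mem_Ioc] at hp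
    rw [← Nat.choose_symm_add]
    exact hp.2.dvd_choose_add (by omega) (by omega) hp.1.2

lemma card_primes_mul_log_le {X Y : ℕ} (hX : 1 ≤ X) (hYX : Y ≤ X) {R B : ℝ}
    (hR : (Y : ℝ) ≤ R) (hB : 0 ≤ B) (hn : ((X + Y : ℕ) : ℝ) ≤ R * exp B) :
    (((Ioc X (X + Y)).filter Nat.Prime).card : ℝ) * log X ≤ R * (1 + B) := by
  have hR0 : 0 ≤ R := le_trans (Nat.cast_nonneg _) hR
  have hX0 : (0 : ℝ) < X := by exact_mod_cast hX
  have h1 : X ^ ((Ioc X (X + Y)).filter Nat.Prime).card ≤
      ∏ p ∈ (Ioc X (X + Y)).filter Nat.Prime, p := by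
    apply Finset.pow_card_le_prod
    intro p hp
    rw [Finset.mem_filter, Finset.mem_Ioc] at hp
    omega
  have h2 : (∏ p ∈ (Ioc X (X + Y)).filter Nat.Prime, p) ≤ (X + Y).choose Y :=
    Nat.le_of_dvd (Nat.choose_pos (by omega)) (prod_primes_dvd_choose hYX)
  have h3 : ((X : ℝ)) ^ ((Ioc X (X + Y)).filter Nat.Prime).card ≤ ((X + Y).choose Y : ℝ) := by
    exact_mod_cast h1.trans h2
  have h4 : (((X + Y).choose Y : ℕ) : ℝ) ≤ ((X + Y : ℕ) : ℝ) ^ Y / (Y.factorial : ℝ) :=
    Nat.choose_le_pow_div Y (X + Y)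
  have h5 : ((X + Y : ℕ) : ℝ) ^ Y / (Y.factorial : ℝ) ≤ exp (R * (1 + B)) := by
    calc ((X + Y : ℕ) : ℝ) ^ Y / (Y.factorial : ℝ)
        ≤ (R * exp B) ^ Y / (Y.factorial : ℝ) := by gcongr
      _ = (R ^ Y / (Y.factorial : ℝ)) * exp (Y * B) := by
          rw [mul_pow, ← Real.exp_nat_mul]; ring
      _ ≤ exp R * exp (R * B) := by
          gcongr
          exact pow_div_factorial_le_exp R hR0 Y
      _ = exp (R * (1 + B)) := by rw [← Real.exp_add]; ring_nf
  have h6 := h3.trans (h4.trans h5)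
  have h7 := Real.log_le_log (by positivity) h6
  rwa [Real.log_pow, Real.log_exp] at h7

/-- short interval bound, `h ≤ 1/2`. -/
lemma recip_exp_le_aux {c h B : ℝ} (hc : 2 ≤ c) (hh : 0 < h) (hh2 : h ≤ 1 / 2)
    (h1 : 1 ≤ h * exp c) (hB : 0 ≤ B) (hhB : exp (-B) ≤ h) :
    recip ⌊exp c⌋₊ ⌊exp (c + h)⌋₊ ≤ 6 * h * (1 + B) / c := by
  set X := ⌊exp c⌋₊ with hX
  set Z := ⌊exp (c + h)⌋₊ with hZ
  have hXZ : X ≤ Z := Nat.floor_le_floor (Real.exp_le_exp.mpr (by linarith))
  obtain ⟨Y, hY⟩ := Nat.exists_eq_add_of_le hXZ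
  have hec : (7 : ℝ) ≤ exp c := by
    have : exp 2 ≤ exp c := Real.exp_le_exp.mpr hc
    have h2 : (7 : ℝ) ≤ exp 2 := by
      have := Real.exp_one_gt_d9
      have h3 : exp 2 = exp 1 * exp 1 := by rw [← Real.exp_add]; norm_num
      rw [h3]; nlinarith
    linarith
  have hehalf : exp (1 / 2 : ℝ) ≤ 1.65 := by
    have h3 : exp (1 / 2 : ℝ) * exp (1 / 2 : ℝ) = exp 1 := by rw [← Real.exp_add]; norm_num
    have := Real.exp_one_lt_d9
    have h4 := Real.exp_pos (1 / 2 : ℝ)
    nlinarith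
  have heh : exp h ≤ 1.65 := le_trans (Real.exp_le_exp.mpr hh2) hehalf
  have hsub : exp h - 1 ≤ h * exp h := by
    have := Real.add_one_le_exp (-h)
    have h3 : exp h * exp (-h) = 1 := by rw [← Real.exp_add]; simp
    have h4 := Real.exp_pos h
    nlinarith
  have hXle : (X : ℝ) ≤ exp c := Nat.floor_le (Real.exp_pos _).le
  have hXge : exp c < X + 1 := Nat.lt_floor_add_one _
  have hZle : (Z : ℝ) ≤ exp (c + h) := Nat.floor_le (Real.exp_pos _).le
  have hYr : (Y : ℝ) = Z - X := by rw [hY]; push_cast; ring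
  have hech : exp (c + h) = exp c * exp h := Real.exp_add _ _
  have hY1 : (Y : ℝ) ≤ 3 * h * exp c := by
    rw [hYr]
    have : exp (c + h) - exp c ≤ exp c * (h * exp h) := by
      rw [hech]; nlinarith [Real.exp_pos c]
    have h5 : exp c * (h * exp h) ≤ exp c * (h * 1.65) := by gcongr
    nlinarith
  have hYX : Y ≤ X := by
    have : (Y : ℝ) ≤ X := by
      rw [hYr]
      have h5 : exp c * exp h ≤ exp c * 1.65 := by gcongr
      rw [hech] at hZle
      nlinarith
    exact_mod_cast this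
  have hX1 : 1 ≤ X := by
    have : (1 : ℝ) ≤ X := by linarith
    exact_mod_cast this
  have hn : ((X + Y : ℕ) : ℝ) ≤ (3 * h * exp c) * exp B := by
    rw [← hY]
    have h6 : 1 ≤ h * exp B := by
      have : exp (-B) * exp B = 1 := by rw [← Real.exp_add]; simp
      nlinarith [Real.exp_pos B]
    have h7 : exp c * exp h ≤ exp c * 1.65 := by gcongr
    rw [hech] at hZle
    nlinarith [Real.exp_pos c, mul_le_mul_of_nonneg_left h6 (Real.exp_pos c).le]
  have hmain := card_primes_mul_log_le hX1 hYX hY1 hB hn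
  rw [← hY] at hmain
  -- log X ≥ c / 2
  have hlogX : c / 2 ≤ log X := by
    rw [Real.le_log_iff_exp_le (by exact_mod_cast hX1)]
    have h8 : exp (c / 2) * exp (c / 2) = exp c := by rw [← Real.exp_add]; ring_nf
    have h9 : (2 : ℝ) ≤ exp (c / 2) := by
      have := Real.add_one_le_exp (c / 2)
      linarith
    nlinarith
  have hc0 : 0 < c := by linarith
  have hcard : (((Ioc X Z).filter Nat.Prime).card : ℝ) ≤ (3 * h * exp c) * (1 + B) * 2 / c := by
    rw [le_div_iff₀ hc0]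
    have h10 : (((Ioc X Z).filter Nat.Prime).card : ℝ) * (c / 2) ≤
      (((Ioc X Z).filter Nat.Prime).card : ℝ) * log X := by gcongr
    linarith
  have hsum : recip X Z ≤ (((Ioc X Z).filter Nat.Prime).card : ℝ) * (1 / exp c) := by
    unfold recip
    rw [← nsmul_eq_mul]
    apply Finset.sum_le_card_nsmul
    intro p hp
    rw [Finset.mem_filter, Finset.mem_Ioc] at hp
    apply one_div_le_one_div_of_le (Real.exp_pos c)
    have h11 : ((X + 1 : ℕ) : ℝ) ≤ p := by exact_mod_cast hp.1.1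
    push_cast at h11
    linarith
  calc recip X Z ≤ (((Ioc X Z).filter Nat.Prime).card : ℝ) * (1 / exp c) := hsum
    _ ≤ ((3 * h * exp c) * (1 + B) * 2 / c) * (1 / exp c) := by gcongr
    _ = 6 * h * (1 + B) / c := by
        field_simp
        ring

/-- short interval bound, iterated. -/
lemma recip_exp_le_iter {c h B : ℝ} (hc : 2 ≤ c) (hh : 0 < h) (hh2 : h ≤ 1 / 2)
    (h1 : 1 ≤ h * exp c) (hB : 0 ≤ B) (hhB : exp (-B) ≤ h) (k : ℕ) :
    recip ⌊exp c⌋₊ ⌊exp (c + k * h)⌋₊ ≤ k * (6 * h * (1 + B) / c) := by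
  induction k with
  | zero => simp [recip]
  | succ k ih =>
    have hk : (0 : ℝ) ≤ k := Nat.cast_nonneg _
    have e1 : ⌊exp c⌋₊ ≤ ⌊exp (c + k * h)⌋₊ :=
      Nat.floor_le_floor (Real.exp_le_exp.mpr (by nlinarith))
    have e2 : ⌊exp (c + k * h)⌋₊ ≤ ⌊exp (c + (k + 1 : ℕ) * h)⌋₊ :=
      Nat.floor_le_floor (Real.exp_le_exp.mpr (by push_cast; nlinarith))
    rw [recip_add e1 e2]
    have h3 : recip ⌊exp (c + k * h)⌋₊ ⌊exp (c + (k + 1 : ℕ) * h)⌋₊ ≤
        6 * h * (1 + B) / (c + k * h) := by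
      have := recip_exp_le_aux (c := c + k * h) (h := h) (B := B) (by nlinarith) hh hh2 ?_ hB hhB
      · have e3 : c + k * h + h = c + (k + 1 : ℕ) * h := by push_cast; ring
        rwa [e3] at this
      · have : exp c ≤ exp (c + k * h) := Real.exp_le_exp.mpr (by nlinarith)
        nlinarith
    have h4 : 6 * h * (1 + B) / (c + k * h) ≤ 6 * h * (1 + B) / c := by
      apply div_le_div_of_nonneg_left (by positivity) (by linarith)
      nlinarith
    push_cast at h3 ⊢
    linarith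

/-- short interval bound. -/
lemma recip_exp_le {c h B : ℝ} (hc : 2 ≤ c) (hh : 0 < h)
    (h1 : 1 ≤ h * exp c) (hB : 2 ≤ B) (hhB : exp (-B) ≤ h) :
    recip ⌊exp c⌋₊ ⌊exp (c + h)⌋₊ ≤ 6 * h * (1 + B) / c := by
  rcases le_or_gt h (1 / 2) with hh2 | hh2
  · exact recip_exp_le_aux hc hh hh2 h1 (by linarith) hhB
  · set k := ⌈2 * h⌉₊ with hk
    have hk1 : 2 * h ≤ k := Nat.le_ceil _
    have hk2 : (k : ℝ) < 2 * h + 1 := Nat.ceil_lt_add_one (by positivity)
    have hk0 : (0 : ℝ) < k := by linarith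
    have hh' : h / k ≤ 1 / 2 := by rw [div_le_iff₀ hk0]; linarith
    have hh'' : 1 / 4 ≤ h / k := by rw [le_div_iff₀ hk0]; linarith
    have he4 : exp (-B) ≤ 1 / 4 := by
      have : exp (-B) ≤ exp (-2) := Real.exp_le_exp.mpr (by linarith)
      have h2 : (7 : ℝ) ≤ exp 2 := by
        have := Real.exp_one_gt_d9
        have h3 : exp 2 = exp 1 * exp 1 := by rw [← Real.exp_add]; norm_num
        rw [h3]; nlinarith
      have h3 : exp (-2) * exp 2 = 1 := by rw [← Real.exp_add]; simp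
      have h4 := Real.exp_pos (-2)
      nlinarith
    have hec : (7 : ℝ) ≤ exp c := by
      have : exp 2 ≤ exp c := Real.exp_le_exp.mpr hc
      have h2 : (7 : ℝ) ≤ exp 2 := by
        have := Real.exp_one_gt_d9
        have h3 : exp 2 = exp 1 * exp 1 := by rw [← Real.exp_add]; norm_num
        rw [h3]; nlinarith
      linarith
    have := recip_exp_le_iter (c := c) (h := h / k) (B := B) hc (by positivity) hh'
      (by nlinarith) (by linarith) (by linarith) k
    have e1 : c + k * (h / k) = c + h := by field_simp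
    rw [e1] at this
    have e2 : (k : ℝ) * (6 * (h / k) * (1 + B) / c) = 6 * h * (1 + B) / c := by field_simp
    rwa [e2] at this

/-- weak Mertens: `∑_{p ≤ 2^K} log p / p ≤ 2 log 4 K`. -/
lemma sum_log_div_le_pow (K : ℕ) :
    ∑ p ∈ (Icc 1 (2 ^ K)).filter Nat.Prime, log p / p ≤ 2 * log 4 * K := by
  induction K with
  | zero =>
    have : (Icc 1 (2 ^ 0)).filter Nat.Prime = ∅ := by
      rw [Finset.filter_eq_empty_iff]
      intro p hp
      simp at hp
      rw [hp]; exact Nat.not_prime_one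
    rw [this]; simp
  | succ K ih =>
    have hsplit : (Icc 1 (2 ^ (K + 1))).filter Nat.Prime =
        (Icc 1 (2 ^ K)).filter Nat.Prime ∪ (Ioc (2 ^ K) (2 ^ (K + 1))).filter Nat.Prime := by
      ext p
      simp only [Finset.mem_filter, Finset.mem_union, Finset.mem_Icc, Finset.mem_Ioc]
      have : 2 ^ (K + 1) = 2 * 2 ^ K := by ring
      have h0 : 0 < 2 ^ K := by positivity
      constructor
      · rintro ⟨⟨h1, h2⟩, h3⟩
        rcases Nat.lt_or_ge (2 ^ K) p with h | h
        · right; exact ⟨⟨h, h2⟩, h3⟩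
        · left; exact ⟨⟨h1, h⟩, h3⟩
      · rintro (⟨⟨h1, h2⟩, h3⟩ | ⟨⟨h1, h2⟩, h3⟩)
        · exact ⟨⟨h1, by omega⟩, h3⟩
        · exact ⟨⟨by omega, h2⟩, h3⟩
    rw [hsplit, Finset.sum_union]
    · have h2 : ∑ p ∈ (Ioc (2 ^ K) (2 ^ (K + 1))).filter Nat.Prime, log p / p ≤ 2 * log 4 := by
        have h3 : ∑ p ∈ (Ioc (2 ^ K) (2 ^ (K + 1))).filter Nat.Prime, log p / p ≤
            ∑ p ∈ (Ioc (2 ^ K) (2 ^ (K + 1))).filter Nat.Prime, log p * (1 / 2 ^ K) := by
          apply Finset.sum_le_sum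
          intro p hp
          rw [Finset.mem_filter, Finset.mem_Ioc] at hp
          rw [div_eq_mul_one_div]
          have hlog : 0 ≤ log (p : ℝ) := Real.log_natCast_nonneg p
          gcongr
          exact_mod_cast hp.1.1.le
        have h4 : ∑ p ∈ (Ioc (2 ^ K) (2 ^ (K + 1))).filter Nat.Prime, log (p : ℝ) ≤
            Chebyshev.theta ((2 ^ (K + 1) : ℕ) : ℝ) := by
          unfold Chebyshev.theta
          rw [Nat.floor_natCast]
          apply Finset.sum_le_sum_of_subset_of_nonneg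
          · intro p hp
            rw [Finset.mem_filter, Finset.mem_Ioc] at *
            exact ⟨⟨hp.2.pos, hp.1.2⟩, hp.2⟩
          · intro p _ _
            exact Real.log_natCast_nonneg p
        have h5 := Chebyshev.theta_le_log4_mul_x (x := ((2 ^ (K + 1) : ℕ) : ℝ)) (by positivity)
        rw [← Finset.sum_mul] at h3
        calc _ ≤ _ := h3
          _ ≤ (log 4 * ((2 ^ (K + 1) : ℕ) : ℝ)) * (1 / 2 ^ K) := by gcongr; linarith
          _ = 2 * log 4 := by push_cast; field_simp; ring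
      push_cast
      linarith
    · rw [Finset.disjoint_left]
      intro p hp hq
      simp only [Finset.mem_filter, Finset.mem_Ioc, Finset.mem_Icc] at hp hq
      omega

/-- weak Mertens: `∑_{p ≤ y} log p / p ≤ 8 log y`. -/
lemma sum_log_div_le {y : ℕ} (hy : 2 ≤ y) :
    ∑ p ∈ (Icc 1 y).filter Nat.Prime, log p / p ≤ 8 * log y := by
  set K := Nat.clog 2 y with hK
  have h1 : y ≤ 2 ^ K := Nat.le_pow_clog (by norm_num) y
  have hK1 : 1 ≤ K := Nat.clog_pos (by norm_num) hy
  have h2 : 2 ^ (K - 1) < y := by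
    have := Nat.pow_pred_clog_lt_self (b := 2) (by norm_num) (x := y) (by omega)
    simpa [Nat.pred_eq_sub_one] using this
  have h3 : ∑ p ∈ (Icc 1 y).filter Nat.Prime, log p / p ≤
      ∑ p ∈ (Icc 1 (2 ^ K)).filter Nat.Prime, log (p : ℝ) / p := by
    apply Finset.sum_le_sum_of_subset_of_nonneg
    · apply Finset.filter_subset_filter
      exact Finset.Icc_subset_Icc_right h1
    · intro p _ _
      have := Real.log_natCast_nonneg p
      positivity
  have h4 := sum_log_div_le_pow K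
  have hlog2 : 0 < log 2 := Real.log_pos (by norm_num)
  have hlog4 : log 4 = 2 * log 2 := by
    rw [show (4 : ℝ) = 2 ^ 2 by norm_num, Real.log_pow]; norm_num
  have hy2 : log 2 ≤ log y := Real.log_le_log (by norm_num) (by exact_mod_cast hy)
  have h5 : ((K : ℝ) - 1) * log 2 ≤ log y := by
    have h6 : ((2 : ℝ) ^ (K - 1)) ≤ y := by exact_mod_cast h2.le
    have h7 := Real.log_le_log (by positivity) h6
    rw [Real.log_pow] at h7
    have : ((K - 1 : ℕ) : ℝ) = (K : ℝ) - 1 := by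
      rw [Nat.cast_sub hK1]; norm_num
    rwa [this] at h7
  rw [hlog4] at h4
  nlinarith

end Pool.Agent.Work.MP_98b61d_nt
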