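import Pool.Agent.Work.MP_98b61d_nt.Tail1

/-!
Deterministic part of the tail bound.
-/

namespace Pool.Agent.Work.MP_98b61d_nt

open Finset Real

lemma one_le_yc {D : ℝ} (hD : 0 ≤ D) (j : ℕ) : 1 ≤ yc D j := by
  unfold yc
  rw [Nat.one_le_floor_iff]
  exact Real.one_le_exp (pow_nonneg hD j)

lemma yc_mono {D : ℝ} (hD : 1 ≤ D) {i j : ℕ} (hij : i ≤ j) : yc D i ≤ yc D j := by
  unfold yc
  exact Nat.floor_le_floor (Real.exp_le_exp.mpr (pow_le_pow_right₀ hD hij))

/-- integers with a bounded number of prime factors and no large smooth part. -/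
structure Regular (D : ℝ) (n : ℕ) : Prop where
  ne : n ≠ 0
  om : 2 * (n.primeFactors.card : ℝ) ≤ D
  pw : ∀ p ∈ n.primeFactors, p ≤ yc D 10 → p ^ n.factorization p ≤ yc D 10 ^ 2
  sq : ∀ p : ℕ, p.Prime → yc D 10 < p → ¬ p ^ 2 ∣ n

lemma Regular.smooth {D : ℝ} {n n1 j i : ℕ} (h : Regular D n) (hD : 1 ≤ D) (hd : n1 ∣ n)
    (hj : 10 ≤ j) (hi : i = j + 1)
    (h1 : ∀ p ∈ n1.primeFactors, p ≤ yc D j) : log n1 ≤ D ^ i := by
  subst hi
  have hD0 : 0 ≤ D := by linarith
  have hy10 : yc D 10 ≤ yc D j := yc_mono hD hj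
  have hyj : 1 ≤ yc D j := one_le_yc hD0 j
  have hle := smooth_le h.ne hd hyj h1 (by
    intro p hp hpY
    rcases Nat.lt_or_ge (yc D 10) p with hlt | hge
    · have hpp := Nat.prime_of_mem_primeFactors hp
      have hv : n.factorization p ≤ 1 := by
        by_contra hcon
        push Not at hcon
        exact h.sq p hpp hlt ((hpp.pow_dvd_iff_le_factorization h.ne).mpr hcon)
      calc p ^ n.factorization p ≤ p ^ 1 := Nat.pow_le_pow_right hpp.pos hv
        _ = p := pow_one p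
        _ ≤ yc D j := hpY
        _ ≤ yc D j ^ 2 := Nat.le_self_pow (by norm_num) _
    · exact (h.pw p hp hge).trans (Nat.pow_le_pow_left hy10 2))
  have hn1 : n1 ≠ 0 := by rintro rfl; exact h.ne (by simpa using hd)
  have hn1' : (0 : ℝ) < n1 := by exact_mod_cast Nat.pos_of_ne_zero hn1
  have hle' : (n1 : ℝ) ≤ ((yc D j : ℝ) ^ 2) ^ n.primeFactors.card := by exact_mod_cast hle
  have h2 := Real.log_le_log hn1' hle'
  rw [Real.log_pow, Real.log_pow] at h2
  have h3 : log (yc D j : ℝ) ≤ D ^ j := log_floor_exp_le (by positivity)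
  have h4 : 0 ≤ log (yc D j : ℝ) := Real.log_natCast_nonneg _
  push_cast at h2
  calc log (n1 : ℝ) ≤ n.primeFactors.card * (2 * log (yc D j)) := h2
    _ = (2 * n.primeFactors.card) * log (yc D j) := by ring
    _ ≤ D * D ^ j := by gcongr; exact h.om
    _ = D ^ (j + 1) := by ring

lemma two_le_card_of_ne {S : Finset ℕ} {p q : ℕ} (hp : p ∈ S) (hq : q ∈ S) (hne : p ≠ q) :
    2 ≤ S.card := Finset.one_lt_card.mpr ⟨p, hp, q, hq, hne⟩

lemma mem_primeFactors_of_rough {Y n n1 n2 p : ℕ} (hn : n ≠ 0) (h : n = n2 * n1) (hsm : Sm Y n1)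
    (hp : p ∈ n.primeFactors) (hY : Y < p) : p ∈ n2.primeFactors := by
  rw [Nat.mem_primeFactors] at hp ⊢
  obtain ⟨h1, h2, _⟩ := hp
  have hn2 : n2 ≠ 0 := by rintro rfl; simp at h; exact hn h
  have hn1 : n1 ≠ 0 := by rintro rfl; simp at h; exact hn h
  refine ⟨h1, ?_, hn2⟩
  rw [h] at h2
  rcases (Nat.Prime.dvd_mul h1).mp h2 with h3 | h3
  · exact h3
  · have := hsm p (Nat.mem_primeFactors.mpr ⟨h1, h3, hn1⟩)
    omega

/-- The case analysis for regular integers with `f n = F n` whose cofactor is large. -/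
lemma tail_cases {D : ℝ} (hD : 8 ≤ D) (h1 : 160 * log D + 1 ≤ D) {n : ℕ} (hf : f n = F n)
    (hreg : Regular D n) (hlow : D ^ 80 - 160 * log D ≤ log n) (hup : log n ≤ D ^ 80)
    (htail : ∀ q ∈ n.primeFactors, D ^ 20 < log ((n / q : ℕ) : ℝ)) :
    (∃ p ∈ n.primeFactors, ∃ q ∈ n.primeFactors, (yc D 10 < p ∧ p ≤ yc D 30) ∧
      (yc D 10 < q ∧ q ≤ yc D 30) ∧ p < q ∧ Hb (D ^ 80) D p q) ∨
    (∃ p ∈ n.primeFactors, yc D 19 < p ∧ p * p ≤ n ∧ Near (D ^ 80) (2 * D ^ 11) p) ∨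
    (∃ p ∈ n.primeFactors, yc D 30 < p ∧ p * p ≤ n ∧ Near (D ^ 80) (2 * D ^ 20) p) := by
  have hD0 : 0 < D := by linarith
  have hD1 : 1 ≤ D := by linarith
  have hn0 : n ≠ 0 := hreg.ne
  have hpow : ∀ a b : ℕ, a ≤ b → D ^ a ≤ D ^ b := fun a b hab => pow_le_pow_right₀ hD1 hab
  have hlogD : 0 ≤ log D := Real.log_nonneg hD1
  have hD1' : D = D ^ 1 := (pow_one D).symm
  -- size comparisons
  have e11 : 2 * D ≤ D ^ 11 := by
    have a1 : D ^ 2 ≤ D ^ 11 := hpow _ _ (by norm_num)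
    nlinarith
  have e20 : 2 * D ≤ D ^ 20 := by
    have a1 : D ^ 2 ≤ D ^ 20 := hpow _ _ (by norm_num)
    nlinarith
  have e1120 : D ^ 11 ≤ D ^ 20 := hpow _ _ (by norm_num)
  have e80 : D ^ 80 = D ^ 78 * D ^ 2 := by rw [← pow_add]
  have e3180 : D ^ 31 + D < D ^ 80 := by
    have a1 : D ^ 31 ≤ D ^ 78 := hpow _ _ (by norm_num)
    have a2 : D ^ 1 ≤ D ^ 78 := hpow _ _ (by norm_num)
    have a3 : 64 ≤ D ^ 2 := by nlinarith
    have a4 : 0 < D ^ 78 := by positivity
    rw [e80]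
    nlinarith
  -- a large prime factor
  obtain ⟨q, hq, hqbig⟩ : ∃ q ∈ n.primeFactors, yc D 30 < q := by
    by_contra hcon
    push Not at hcon
    have := hreg.smooth (i := 31) hD1 (dvd_refl n) (by norm_num : 10 ≤ 30) rfl hcon
    linarith
  have hqp := Nat.prime_of_mem_primeFactors hq
  have hqn : q ∣ n := Nat.dvd_of_mem_primeFactors hq
  have hy1030 : yc D 10 ≤ yc D 30 := yc_mono hD1 (by norm_num)
  have hy1019 : yc D 10 ≤ yc D 19 := yc_mono hD1 (by norm_num)
  have hy1930 : yc D 19 ≤ yc D 30 := yc_mono hD1 (by norm_num)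
  set m := n / q with hm
  have hmq : n = m * q := by rw [hm, Nat.div_mul_cancel hqn]
  have hm0 : m ≠ 0 := by intro h; rw [h] at hmq; simp at hmq; exact hn0 hmq
  have hmn : m ∣ n := ⟨q, hmq⟩
  have hqm : ¬ q ∣ m := by
    intro h
    apply hreg.sq q hqp (by omega)
    rw [hmq, pow_two]
    exact Nat.mul_dvd_mul_right h q
  have hmbig : D ^ 20 < log (m : ℝ) := htail q hq
  have hmsub : m.primeFactors ⊆ n.primeFactors := Nat.primeFactors_mono hmn hn0
  have hqm' : ∀ p ∈ m.primeFactors, p ≠ q := by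
    intro p hp hpq
    rw [hpq] at hp
    exact hqm (Nat.dvd_of_mem_primeFactors hp)
  by_cases hpair : ∃ p ∈ n.primeFactors, ∃ q ∈ n.primeFactors, (yc D 10 < p ∧ p ≤ yc D 30) ∧
      (yc D 10 < q ∧ q ≤ yc D 30) ∧ p < q
  · left
    obtain ⟨p, hp, q', hq', h2, h3, h4⟩ := hpair
    refine ⟨p, hp, q', hq', h2, h3, h4, ?_⟩
    by_cases hgood : Good (D ^ 80) D p q'
    · right
      apply near_of_good' hf hn0 ?_ hup ?_ hp hq' (by omega) hgood
      · have : D ≤ D ^ 80 / 2 := by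
          have a2 : D ^ 1 ≤ D ^ 78 := hpow _ _ (by norm_num)
          have a3 : 64 ≤ D ^ 2 := by nlinarith
          rw [e80]
          nlinarith
        linarith
      · linarith
    · left; exact hgood
  right
  push Not at hpair
  have hom : log (2 * (n.primeFactors.card : ℝ)) ≤ D := by
    have h0 : (0 : ℝ) < n.primeFactors.card := by
      exact_mod_cast Finset.card_pos.mpr ⟨q, hq⟩
    calc log (2 * (n.primeFactors.card : ℝ)) ≤ log D :=
          Real.log_le_log (mul_pos two_pos h0) hreg.om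
      _ ≤ D - 1 := Real.log_le_sub_one_of_pos hD0
      _ ≤ D := by linarith
  by_cases hp1 : ∃ p ∈ n.primeFactors, yc D 10 < p ∧ p ≤ yc D 19
  · -- a prime in (y_10, y_19], so none in (y_19, y_30]
    right
    obtain ⟨p1, hp1, h2, h3⟩ := hp1
    have hnone : ∀ p ∈ n.primeFactors, p ≤ yc D 30 → p ≤ yc D 19 := by
      intro p hp hp30
      by_contra hcon
      push Not at hcon
      have := hpair p1 hp1 p hp ⟨h2, by omega⟩ ⟨by omega, hp30⟩
      omega
    obtain ⟨p, hp, hpbig⟩ : ∃ p ∈ m.primeFactors, yc D 19 < p := by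
      by_contra hcon
      push Not at hcon
      have := hreg.smooth (i := 20) hD1 hmn (by norm_num : 10 ≤ 19) rfl hcon
      linarith
    have hpbig' : yc D 30 < p := by
      by_contra hcon
      push Not at hcon
      have := hnone p (hmsub hp) hcon
      omega
    obtain ⟨n2, n1, hn21, hrough, hsm⟩ := exists_smooth_rough (yc D 30) n hn0
    have hn1d : n1 ∣ n := ⟨n2, by rw [hn21]; ring⟩
    have hn1sub : n1.primeFactors ⊆ n.primeFactors := Nat.primeFactors_mono hn1d hn0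
    have hcard : 2 ≤ n2.primeFactors.card := two_le_card_of_ne
      (mem_primeFactors_of_rough hn0 hn21 hsm (hmsub hp) hpbig')
      (mem_primeFactors_of_rough hn0 hn21 hsm hq hqbig) (hqm' p hp)
    have hs := hreg.smooth (i := 20) hD1 hn1d (by norm_num : 10 ≤ 19) rfl
      (fun r hr => hnone r (hn1sub hr) (hsm r hr))
    obtain ⟨r, hr, hrr, hnear⟩ := near_of_two (L := D ^ 80) (T := 2 * D ^ 20) hf hn0 hn21 hcard hup
      (by linarith)
    have hn2d : n2 ∣ n := ⟨n1, hn21⟩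
    exact ⟨r, Nat.primeFactors_mono hn2d hn0 hr, hrough r hr, hrr, hnear⟩
  · left
    push Not at hp1
    have hnone : ∀ p ∈ n.primeFactors, p ≤ yc D 19 → p ≤ yc D 10 := by
      intro p hp hp19
      by_contra hcon
      push Not at hcon
      have := hp1 p hp hcon
      omega
    obtain ⟨p, hp, hpbig⟩ : ∃ p ∈ m.primeFactors, yc D 10 < p := by
      by_contra hcon
      push Not at hcon
      have := hreg.smooth (i := 11) hD1 hmn (le_refl 10) rfl hcon
      linarith
    have hpbig' : yc D 19 < p := hp1 p (hmsub hp) hpbig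
    obtain ⟨n2, n1, hn21, hrough, hsm⟩ := exists_smooth_rough (yc D 19) n hn0
    have hn1d : n1 ∣ n := ⟨n2, by rw [hn21]; ring⟩
    have hn1sub : n1.primeFactors ⊆ n.primeFactors := Nat.primeFactors_mono hn1d hn0
    have hcard : 2 ≤ n2.primeFactors.card := two_le_card_of_ne
      (mem_primeFactors_of_rough hn0 hn21 hsm (hmsub hp) hpbig')
      (mem_primeFactors_of_rough hn0 hn21 hsm hq (by omega)) (hqm' p hp)
    have hs := hreg.smooth (i := 11) hD1 hn1d (le_refl 10) rfl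
      (fun r hr => hnone r (hn1sub hr) (hsm r hr))
    obtain ⟨r, hr, hrr, hnear⟩ := near_of_two (L := D ^ 80) (T := 2 * D ^ 11) hf hn0 hn21 hcard hup
      (by linarith)
    have hn2d : n2 ∣ n := ⟨n1, hn21⟩
    exact ⟨r, Nat.primeFactors_mono hn2d hn0 hr, hrough r hr, hrr, hnear⟩

end Pool.Agent.Work.MP_98b61d_nt
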