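import Pool.Agent.Work.MP_98b61d_nt.Tail2

/-!
Counting part of the tail bound.
-/

namespace Pool.Agent.Work.MP_98b61d_nt

open Finset Real Filter

/-- integers with few primes in `(y, z]` divisible by one of the `d i`. -/
noncomputable def fewDvd {ι : Type*} (y z X R : ℕ) (I : Finset ι) (d : ι → ℕ) : Finset ℕ :=
  haveI : DecidablePred (fun n => (PI y z n).card ≤ R ∧ ∃ i ∈ I, d i ∣ n) := Classical.decPred _
  (Ioc 0 X).filter (fun n => (PI y z n).card ≤ R ∧ ∃ i ∈ I, d i ∣ n)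

lemma mem_fewDvd {ι : Type*} {y z X R : ℕ} {I : Finset ι} {d : ι → ℕ} {n : ℕ} :
    n ∈ fewDvd y z X R I d ↔ (0 < n ∧ n ≤ X) ∧ (PI y z n).card ≤ R ∧ ∃ i ∈ I, d i ∣ n := by
  unfold fewDvd
  simp only [Finset.mem_filter, Finset.mem_Ioc]

lemma card_few_union {ι : Type*} (I : Finset ι) (d : ι → ℕ) {y z X R : ℕ} (hy : 2 ≤ y)
    (hyz : y < z) (hd : ∀ i ∈ I, 0 < d i ∧ z ≤ X / d i) :
    ((fewDvd y z X R I d).card : ℝ) ≤
      (1720 * X * (log y / log z) * (1 + 2 * recip y z) ^ R) * ∑ i ∈ I, (1 : ℝ) / d i := by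
  classical
  have hsub : fewDvd y z X R I d ⊆
      I.biUnion (fun i => ((Ioc 0 (X / d i)).filter (fun n => (PI y z n).card ≤ R)).image
        (fun n => d i * n)) := by
    intro n hn
    rw [mem_fewDvd] at hn
    obtain ⟨⟨hn0, hnX⟩, hfew, i, hi, hdvd⟩ := hn
    obtain ⟨m, rfl⟩ := hdvd
    have hdi := (hd i hi).1
    have hm0 : 0 < m := Nat.pos_of_mul_pos_left hn0
    rw [Finset.mem_biUnion]
    refine ⟨i, hi, ?_⟩
    rw [Finset.mem_image]
    refine ⟨m, ?_, rfl⟩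
    rw [Finset.mem_filter, Finset.mem_Ioc]
    refine ⟨⟨hm0, ?_⟩, ?_⟩
    · rw [Nat.le_div_iff_mul_le hdi, mul_comm]; exact hnX
    · refine (Finset.card_le_card (PI_mono (m := m) (by omega) (dvd_mul_left m (d i)))).trans hfew
  have h1 : ((fewDvd y z X R I d).card : ℝ) ≤
      ∑ i ∈ I, (((Ioc 0 (X / d i)).filter (fun n => (PI y z n).card ≤ R)).card : ℝ) := by
    have : (fewDvd y z X R I d).card ≤
        ∑ i ∈ I, ((Ioc 0 (X / d i)).filter (fun n => (PI y z n).card ≤ R)).card :=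
      (Finset.card_le_card hsub).trans (Finset.card_biUnion_le.trans
        (Finset.sum_le_sum fun i _ => Finset.card_image_le))
    exact_mod_cast this
  refine h1.trans ?_
  rw [Finset.mul_sum]
  apply Finset.sum_le_sum
  intro i hi
  obtain ⟨hdi, hzi⟩ := hd i hi
  refine (card_few_le (R := R) hy hyz hzi).trans ?_
  have hr := recip_nonneg y z
  have hly : 0 ≤ log (y : ℝ) := Real.log_natCast_nonneg y
  have hlz : 0 ≤ log (z : ℝ) := Real.log_natCast_nonneg z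
  have h2 : ((X / d i : ℕ) : ℝ) ≤ X / d i := Nat.cast_div_le
  calc 1720 * ((X / d i : ℕ) : ℝ) * (log y / log z) * (1 + 2 * recip y z) ^ R
      ≤ 1720 * (X / d i) * (log y / log z) * (1 + 2 * recip y z) ^ R := by gcongr
    _ = 1720 * X * (log y / log z) * (1 + 2 * recip y z) ^ R * (1 / d i) := by ring

/-- facts about the cut points. -/
lemma yc_facts {D : ℝ} (hD : 8 ≤ D) {j : ℕ} (hj : 2 ≤ j) :
    8 ≤ yc D j ∧ D ^ j / 2 ≤ log (yc D j) ∧ log (yc D j) ≤ D ^ j := by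
  have hD0 : 0 < D := by linarith
  have hD1 : 1 ≤ D := by linarith
  have h2 : D ^ 2 ≤ D ^ j := pow_le_pow_right₀ hD1 hj
  have h64 : 64 ≤ D ^ 2 := by nlinarith
  refine ⟨?_, half_le_log_floor_exp (by linarith), log_floor_exp_le (by positivity)⟩
  unfold yc
  apply Nat.le_floor
  have := Real.add_one_le_exp (D ^ j)
  push_cast
  linarith

lemma yc_lt {D : ℝ} (hD : 8 ≤ D) {i j : ℕ} (hij : i < j) : yc D i < yc D j := by
  have hD0 : 0 < D := by linarith
  have hD1 : 1 ≤ D := by linarith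
  unfold yc
  rw [Nat.floor_lt (Real.exp_pos _).le]
  have h1 : (1 : ℝ) ≤ D ^ i := one_le_pow₀ hD1
  have h6 : D ^ (i + 1) ≤ D ^ j := pow_le_pow_right₀ hD1 hij
  have h7 : D ^ i + 1 ≤ D ^ (i + 1) := by rw [pow_succ]; nlinarith
  have h8 : exp (D ^ i + 1) ≤ exp (D ^ j) := Real.exp_le_exp.mpr (by linarith)
  rw [Real.exp_add] at h8
  have h9 := Real.add_one_le_exp (1 : ℝ)
  have h10 := Real.add_one_le_exp (D ^ i)
  have h11 := Nat.lt_floor_add_one (exp (D ^ j))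
  nlinarith

lemma few_const_le {D : ℝ} (hD : 8 ≤ D) (R : ℕ) {X : ℕ} {x : ℝ} (hX : (X : ℝ) ≤ x) :
    1720 * X * (log (yc D 2) / log (yc D 77)) * (1 + 2 * recip (yc D 2) (yc D 77)) ^ R ≤
      x * (3440 * (61 + 60 * (80 * log D)) ^ R) / D ^ 75 := by
  have hD0 : 0 < D := by linarith
  have hD1 : 1 ≤ D := by linarith
  have hX0 : (0 : ℝ) ≤ X := Nat.cast_nonneg X
  have hx0 : 0 ≤ x := hX0.trans hX
  have hlogD : 0 ≤ log D := Real.log_nonneg hD1
  obtain ⟨a1, a2, a3⟩ := yc_facts hD (le_refl 2)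
  obtain ⟨b1, b2, b3⟩ := yc_facts hD (by norm_num : 2 ≤ 77)
  have hrec : recip (yc D 2) (yc D 77) ≤ 30 * (1 + 80 * log D) := by
    have := recip_le_log (y := yc D 2) (z := yc D 77) (L := D ^ 80) ?_ a1 ?_
    · rw [Real.log_pow] at this
      exact_mod_cast this
    · have h1 : D ^ 1 ≤ D ^ 80 := pow_le_pow_right₀ hD1 (by norm_num)
      linarith [pow_one D]
    · exact b3.trans (pow_le_pow_right₀ hD1 (by norm_num))
  have hrec0 := recip_nonneg (yc D 2) (yc D 77)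
  have hp77 : 0 < D ^ 77 := by positivity
  have hlq : 0 < log (yc D 77 : ℝ) := lt_of_lt_of_le (by linarith) b2
  have hp75 : 0 < D ^ 75 := by positivity
  have hq : log (yc D 2) / log (yc D 77) ≤ 2 / D ^ 75 := by
    rw [div_le_div_iff₀ hlq hp75]
    have e5 : D ^ 2 * D ^ 75 = D ^ 77 := by rw [← pow_add]
    calc log (yc D 2) * D ^ 75 ≤ D ^ 2 * D ^ 75 := by gcongr
      _ = D ^ 77 := e5
      _ ≤ 2 * log (yc D 77) := by linarith
  have hq0 : 0 ≤ log (yc D 2 : ℝ) / log (yc D 77) := by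
    have := Real.log_natCast_nonneg (yc D 2)
    positivity
  calc 1720 * X * (log (yc D 2) / log (yc D 77)) * (1 + 2 * recip (yc D 2) (yc D 77)) ^ R
      ≤ 1720 * x * (2 / D ^ 75) * (1 + 2 * (30 * (1 + 80 * log D))) ^ R := by
        gcongr
    _ = x * (3440 * (61 + 60 * (80 * log D)) ^ R) / D ^ 75 := by
        have e7 : 1 + 2 * (30 * (1 + 80 * log D)) = 61 + 60 * (80 * log D) := by ring
        rw [e7]
        ring

/-- the pairs in `H` of primes of `(y, z]`. -/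
noncomputable def pairSet (H : ℕ → ℕ → Prop) (y z : ℕ) : Finset (ℕ × ℕ) :=
  haveI : DecidablePred (fun x : ℕ × ℕ => x.1 < x.2 ∧ H x.1 x.2) := Classical.decPred _
  (((Ioc y z).filter Nat.Prime) ×ˢ ((Ioc y z).filter Nat.Prime)).filter
    (fun x : ℕ × ℕ => x.1 < x.2 ∧ H x.1 x.2)

lemma mem_pairSet {H : ℕ → ℕ → Prop} {y z : ℕ} {x : ℕ × ℕ} : x ∈ pairSet H y z ↔
    (((y < x.1 ∧ x.1 ≤ z) ∧ x.1.Prime) ∧ ((y < x.2 ∧ x.2 ≤ z) ∧ x.2.Prime)) ∧
      x.1 < x.2 ∧ H x.1 x.2 := by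
  unfold pairSet
  simp only [Finset.mem_filter, Finset.mem_product, Finset.mem_Ioc]

lemma sum_pairSet (H : ℕ → ℕ → Prop) (y z : ℕ) :
    ∑ i ∈ pairSet H y z, (1 : ℝ) / ((i.1 * i.2 : ℕ) : ℝ) = wt H y z := by
  classical
  unfold wt
  apply Finset.sum_congr
  · ext x
    rw [mem_pairSet]
    simp only [Finset.mem_filter, Finset.mem_product, Finset.mem_Ioc]
  · intro i _
    push_cast
    rfl

/-- the primes of `(y, z]` having a power in `[exp (L - T), exp L]`. -/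
noncomputable def nearSet (L T : ℝ) (y z : ℕ) : Finset ℕ :=
  haveI : DecidablePred (Near L T) := Classical.decPred _
  ((Ioc y z).filter Nat.Prime).filter (Near L T)

lemma mem_nearSet {L T : ℝ} {y z p : ℕ} : p ∈ nearSet L T y z ↔
    ((y < p ∧ p ≤ z) ∧ p.Prime) ∧ Near L T p := by
  unfold nearSet
  simp only [Finset.mem_filter, Finset.mem_Ioc]

lemma nearSet_eq (L T : ℝ) (y z : ℕ) [DecidablePred (Near L T)] :
    nearSet L T y z = ((Ioc y z).filter Nat.Prime).filter (Near L T) := by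
  ext p
  rw [mem_nearSet, Finset.mem_filter, Finset.mem_filter, Finset.mem_Ioc]

/-- weight of the near primes above a cut point. -/
lemma near_weight_le {D T : ℝ} (hD : 8 ≤ D) (h1 : 160 * log D + 1 ≤ D) {j z : ℕ} (hj : 2 ≤ j)
    (hT : 1 ≤ T) (hTL : T ≤ D ^ 80 / 4) :
    ∑ p ∈ nearSet (D ^ 80) T (yc D j) z, (1 : ℝ) / p ≤ 48 * T * (3 + 80 * log D) / D ^ j := by
  classical
  rw [nearSet_eq]
  have hD0 : 0 < D := by linarith
  have hD1 : 1 ≤ D := by linarith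
  have hlogD : 0 ≤ log D := Real.log_nonneg hD1
  obtain ⟨a1, a2, a3⟩ := yc_facts hD hj
  have h2 : D ^ 2 ≤ D ^ j := pow_le_pow_right₀ hD1 hj
  have hlogL : log (D ^ 80) = 80 * log D := by rw [Real.log_pow]; norm_num
  have hL1 : 1 ≤ D ^ 80 := one_le_pow₀ hD1
  have hpj : 0 < D ^ j := by positivity
  have hn := near_sum_le (L := D ^ 80) (T := T) (y := yc D j) (z := z) hL1 hT hTL
    (by nlinarith) (by rw [hlogL]; nlinarith)
  rw [hlogL] at hn
  refine hn.trans ?_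
  have h3 : 0 < log (yc D j : ℝ) := by linarith
  rw [div_le_div_iff₀ h3 hpj]
  have h4 : 0 ≤ 24 * T * (3 + 80 * log D) := by positivity
  nlinarith

lemma pair_weight_le {D : ℝ} (hD : 8 ≤ D) (h1 : 160 * log D + 1 ≤ D) :
    wt (Hb (D ^ 80) D) (yc D 10) (yc D 30) ≤ 11000 * (3 + 80 * log D) ^ 2 / D ^ 9 := by
  classical
  have hD0 : 0 < D := by linarith
  have hD1 : 1 ≤ D := by linarith
  have hlogD : 0 ≤ log D := Real.log_nonneg hD1
  obtain ⟨a1, a2, a3⟩ := yc_facts hD (by norm_num : 2 ≤ 10)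
  obtain ⟨b1, b2, b3⟩ := yc_facts hD (by norm_num : 2 ≤ 30)
  have hpow : ∀ a b : ℕ, a ≤ b → D ^ a ≤ D ^ b := fun a b hab => pow_le_pow_right₀ hD1 hab
  have hlogL : log (D ^ 80) = 80 * log D := by rw [Real.log_pow]; norm_num
  have hL1 : 1 ≤ D ^ 80 := one_le_pow₀ hD1
  have hL0 : 0 < D ^ 80 := by positivity
  have h2 : D ^ 2 ≤ D ^ 10 := hpow _ _ (by norm_num)
  have h64 : 64 ≤ D ^ 2 := by nlinarith
  have hz24 : 24 * log (yc D 30 : ℝ) ≤ D ^ 80 := by
    have c1 : D ^ 80 = D ^ 30 * D ^ 50 := by rw [← pow_add]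
    have c2 : D ^ 2 ≤ D ^ 50 := hpow _ _ (by norm_num)
    have c3 : 0 < D ^ 30 := by positivity
    rw [c1]; nlinarith
  have hb := badSum_le (L := D ^ 80) (T := D) (y := yc D 10) (z := yc D 30) hL1 hD1
    (by linarith) (by rw [hlogL]; nlinarith) hz24
  have hn := near_weight_le (T := 2 * D) (j := 10) (z := yc D 30) hD h1 (by norm_num) (by linarith)
    (by
      have c1 : D ^ 80 = D ^ 1 * D ^ 79 := by rw [← pow_add]
      have c2 : D ^ 2 ≤ D ^ 79 := hpow _ _ (by norm_num)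
      rw [c1, pow_one]; nlinarith)
  have hr := recip_le_log (y := yc D 10) (z := yc D 30) (L := D ^ 80) (by
    have := hpow 1 80 (by norm_num)
    linarith [pow_one D]) a1 (b3.trans (hpow _ _ (by norm_num)))
  have hw := wt_or_le (D ^ 80) D (yc D 10) (yc D 30)
  rw [hlogL] at hb hr
  set lam := 80 * log D with hlamdef
  have hlam : 0 ≤ lam := by positivity
  have hp9 : 0 < D ^ 9 := by positivity
  have hb' : badSum (D ^ 80) D (yc D 10) (yc D 30) ≤ 4608 * (3 + lam) ^ 2 / D ^ 9 := by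
    refine hb.trans ?_
    rw [div_le_div_iff₀ (by positivity) hp9]
    have h0 := Real.log_natCast_nonneg (yc D 30)
    have h3 : (log (yc D 30 : ℝ)) ^ 2 ≤ (D ^ 30) ^ 2 := by gcongr
    have h4 : (D ^ 30) ^ 2 * D ^ 9 ≤ D * D ^ 80 := by
      have e1 : (D ^ 30) ^ 2 * D ^ 9 = D ^ 69 := by rw [← pow_mul, ← pow_add]
      have e2 : D * D ^ 80 = D ^ 81 := by rw [← pow_succ']
      rw [e1, e2]
      exact hpow _ _ (by norm_num)
    calc 4608 * (3 + lam) ^ 2 * (log (yc D 30 : ℝ)) ^ 2 * D ^ 9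
        ≤ 4608 * (3 + lam) ^ 2 * (D ^ 30) ^ 2 * D ^ 9 := by gcongr
      _ = 4608 * (3 + lam) ^ 2 * ((D ^ 30) ^ 2 * D ^ 9) := by ring
      _ ≤ 4608 * (3 + lam) ^ 2 * (D * D ^ 80) := by gcongr
  rw [nearSet_eq] at hn
  set Nn := ∑ p ∈ ((Ioc (yc D 10) (yc D 30)).filter Nat.Prime).filter (Near (D ^ 80) (2 * D)),
      (1 : ℝ) / p with hNn
  have hn0 : 0 ≤ Nn := Finset.sum_nonneg fun _ _ => by positivity
  have hn' : Nn ≤ 96 * (3 + lam) / D ^ 9 := by
    refine hn.trans (le_of_eq ?_)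
    have : D ^ 10 = D ^ 9 * D := by rw [← pow_succ]
    rw [this]
    field_simp
    norm_num
  have hr' : recip (yc D 10) (yc D 30) ≤ 30 * (3 + lam) := by linarith
  refine hw.trans ?_
  calc badSum (D ^ 80) D (yc D 10) (yc D 30) + 2 * (recip (yc D 10) (yc D 30) * Nn)
      ≤ 4608 * (3 + lam) ^ 2 / D ^ 9 + 2 * ((30 * (3 + lam)) * (96 * (3 + lam) / D ^ 9)) := by
        gcongr
    _ = 10368 * (3 + lam) ^ 2 / D ^ 9 := by ring
    _ ≤ 11000 * (3 + lam) ^ 2 / D ^ 9 := by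
        apply div_le_div_of_nonneg_right _ hp9.le
        nlinarith [sq_nonneg (3 + lam)]

/-- most integers with `f n = F n` have few primes in `(y_2, y_77]`. -/
lemma few_of_rel {D : ℝ} (K : ℕ) (hD : 8 ≤ D) (h1 : 160 * log D + 1 ≤ D) {X n : ℕ} (hn0 : 0 < n)
    (hnX : n ≤ X) (hf : f n = F n) (hlow : D ^ 80 - 160 * log D ≤ log n)
    (hup : log n ≤ D ^ 80) :
    (∃ j ∈ Ico 2 77, n ∈ HS (Hb (D ^ 80) (D ^ (j - 1))) (yc D j) (yc D (j + 1)) X K) ∨
      (PI (yc D 2) (yc D 77) n).card ≤ 2 * K * 75 := by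
  have hD0 : 0 < D := by linarith
  have hD1 : 1 ≤ D := by linarith
  have hpow : ∀ a b : ℕ, a ≤ b → D ^ a ≤ D ^ b := fun a b hab => pow_le_pow_right₀ hD1 hab
  by_cases hex : ∃ j, 2 ≤ j ∧ j < 77 ∧ 2 * K ≤ (PI (yc D j) (yc D (j + 1)) n).card
  · left
    obtain ⟨j, hj2, hjr, hcard⟩ := hex
    refine ⟨j, by rw [Finset.mem_Ico]; exact ⟨hj2, hjr⟩, ?_⟩
    rw [mem_HS]
    refine ⟨⟨hn0, hnX⟩, ?_⟩
    obtain ⟨S, hS, hScard⟩ := Finset.exists_subset_card_eq hcard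
    refine ⟨S, hS, hScard, ?_⟩
    intro p hp q hq hpq
    by_cases hgood : Good (D ^ 80) (D ^ (j - 1)) p q
    · right
      have hp' := mem_PI.mp (hS hp)
      have hq' := mem_PI.mp (hS hq)
      have hDj : D ^ 1 ≤ D ^ (j - 1) := hpow _ _ (by omega)
      rw [pow_one] at hDj
      apply near_of_good' hf hn0.ne' ?_ hup ?_ ?_ ?_ (by omega) hgood
      · have e80 : D ^ 80 = D ^ 79 * D ^ 1 := by rw [← pow_add]
        have a2 : D ^ 1 ≤ D ^ 79 := hpow _ _ (by norm_num)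
        have : D ≤ D ^ 80 / 2 := by
          rw [e80, pow_one]
          rw [pow_one] at a2
          nlinarith
        linarith
      · linarith
      · rw [Nat.mem_primeFactors]; exact hp'.1
      · rw [Nat.mem_primeFactors]; exact hq'.1
    · left; exact hgood
  · right
    push Not at hex
    have := card_PI_chain (yc D) n (2 * K) 2 75 (fun j hj1 hj2 => (hex j hj1 (by omega)).le)
    exact this

end Pool.Agent.Work.MP_98b61d_nt
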