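import Pool.Agent.Work.MP_98b61d_nt.Tail3

/-!
The tail bound.
-/

namespace Pool.Agent.Work.MP_98b61d_nt

open Finset Real Filter

open Classical in
/-- integers `n ≤ X` with `f n = F n` all of whose cofactors `n / q` exceed `exp (D ^ 20)`. -/
noncomputable def tailSet (D : ℝ) (X : ℕ) : Finset ℕ :=
  (relSet X).filter (fun n => ∀ q ∈ n.primeFactors, D ^ 20 < log ((n / q : ℕ) : ℝ))

lemma mem_tailSet {D : ℝ} {X n : ℕ} : n ∈ tailSet D X ↔ ((0 < n ∧ n ≤ X) ∧ f n = F n) ∧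
    ∀ q ∈ n.primeFactors, D ^ 20 < log ((n / q : ℕ) : ℝ) := by
  unfold tailSet
  rw [Finset.mem_filter, mem_relSet]

lemma G1_le {D : ℝ} (R : ℕ) (hD : 8 ≤ D) (h1 : 160 * log D + 1 ≤ D) {X : ℕ} {x : ℝ}
    (hx : x = exp (D ^ 80)) (hX : X = ⌊x⌋₊) :
    ((fewDvd (yc D 2) (yc D 77) X R (pairSet (Hb (D ^ 80) D) (yc D 10) (yc D 30))
      (fun i => i.1 * i.2)).card : ℝ) ≤
      (x * (3440 * (61 + 60 * (80 * log D)) ^ R) / D ^ 75) *
        (11000 * (3 + 80 * log D) ^ 2 / D ^ 9) := by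
  have hD0 : 0 < D := by linarith
  have hD1 : 1 ≤ D := by linarith
  have hx0 : 0 < x := by rw [hx]; exact Real.exp_pos _
  have hXx : (X : ℝ) ≤ x := by rw [hX]; exact Nat.floor_le hx0.le
  have hlogD : 0 ≤ log D := Real.log_nonneg hD1
  have hpow : ∀ a b : ℕ, a ≤ b → D ^ a ≤ D ^ b := fun a b hab => pow_le_pow_right₀ hD1 hab
  have hcf := card_few_union (R := R) (X := X) (pairSet (Hb (D ^ 80) D) (yc D 10) (yc D 30))
    (fun i : ℕ × ℕ => i.1 * i.2)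
    (le_trans (by norm_num) (yc_facts hD (le_refl 2)).1) (yc_lt hD (by norm_num : 2 < 77)) (by
    intro i hi
    rw [mem_pairSet] at hi
    obtain ⟨⟨⟨⟨_, hi1⟩, hp1⟩, ⟨⟨_, hi2⟩, hp2⟩⟩, _⟩ := hi
    have hpos : 0 < i.1 * i.2 := Nat.mul_pos hp1.pos hp2.pos
    refine ⟨hpos, ?_⟩
    rw [Nat.le_div_iff_mul_le hpos, hX]
    apply Nat.le_floor
    have b1 : (yc D 77 : ℝ) ≤ exp (D ^ 77) := Nat.floor_le (Real.exp_pos _).le
    have b2 : (yc D 30 : ℝ) ≤ exp (D ^ 30) := Nat.floor_le (Real.exp_pos _).le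
    have b3 : (i.1 : ℝ) ≤ exp (D ^ 30) := le_trans (by exact_mod_cast hi1) b2
    have b4 : (i.2 : ℝ) ≤ exp (D ^ 30) := le_trans (by exact_mod_cast hi2) b2
    push_cast
    calc (yc D 77 : ℝ) * (i.1 * i.2) ≤ exp (D ^ 77) * (exp (D ^ 30) * exp (D ^ 30)) := by gcongr
      _ = exp (D ^ 77 + (D ^ 30 + D ^ 30)) := by rw [← Real.exp_add, ← Real.exp_add]
      _ ≤ x := by
          rw [hx]
          apply Real.exp_le_exp.mpr
          have c1 : D ^ 80 = D ^ 77 * D ^ 3 := by rw [← pow_add]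
          have c2 : D ^ 30 ≤ D ^ 77 := hpow _ _ (by norm_num)
          have c3 : D ^ 1 ≤ D ^ 3 := hpow _ _ (by norm_num)
          have c4 : 0 < D ^ 77 := by positivity
          rw [pow_one] at c3
          rw [c1]; nlinarith)
  rw [sum_pairSet] at hcf
  refine hcf.trans ?_
  have h2 := few_const_le hD R hXx
  have h3 := pair_weight_le hD h1
  have h5 := wt_nonneg (Hb (D ^ 80) D) (yc D 10) (yc D 30)
  have h6 : 0 ≤ x * (3440 * (61 + 60 * (80 * log D)) ^ R) / D ^ 75 := by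
    have : 0 ≤ 61 + 60 * (80 * log D) := by positivity
    positivity
  exact mul_le_mul h2 h3 h5 h6

lemma G2_le {D T : ℝ} (R j : ℕ) (hD : 8 ≤ D) (h1 : 160 * log D + 1 ≤ D) {X : ℕ} {x : ℝ}
    (hx : x = exp (D ^ 80)) (hX : X = ⌊x⌋₊) (hj : 2 ≤ j) (hT : 1 ≤ T) (hTL : T ≤ D ^ 80 / 4) :
    ((fewDvd (yc D 2) (yc D 77) X R (nearSet (D ^ 80) T (yc D j) (Nat.sqrt X))
      (fun p => p)).card : ℝ) ≤
      (x * (3440 * (61 + 60 * (80 * log D)) ^ R) / D ^ 75) *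
        (48 * T * (3 + 80 * log D) / D ^ j) := by
  have hD0 : 0 < D := by linarith
  have hD1 : 1 ≤ D := by linarith
  have hx0 : 0 < x := by rw [hx]; exact Real.exp_pos _
  have hXx : (X : ℝ) ≤ x := by rw [hX]; exact Nat.floor_le hx0.le
  have hlogD : 0 ≤ log D := Real.log_nonneg hD1
  have hpow : ∀ a b : ℕ, a ≤ b → D ^ a ≤ D ^ b := fun a b hab => pow_le_pow_right₀ hD1 hab
  have hcf := card_few_union (R := R) (X := X) (nearSet (D ^ 80) T (yc D j) (Nat.sqrt X))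
    (fun p : ℕ => p)
    (le_trans (by norm_num) (yc_facts hD (le_refl 2)).1) (yc_lt hD (by norm_num : 2 < 77)) (by
    intro p hp
    rw [mem_nearSet] at hp
    obtain ⟨⟨⟨_, hps⟩, hpp⟩, _⟩ := hp
    refine ⟨hpp.pos, ?_⟩
    rw [Nat.le_div_iff_mul_le hpp.pos]
    have h77 : yc D 77 ≤ Nat.sqrt X := by
      rw [Nat.le_sqrt, hX]
      apply Nat.le_floor
      have b1 : (yc D 77 : ℝ) ≤ exp (D ^ 77) := Nat.floor_le (Real.exp_pos _).le
      push_cast
      calc (yc D 77 : ℝ) * yc D 77 ≤ exp (D ^ 77) * exp (D ^ 77) := by gcongr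
        _ = exp (D ^ 77 + D ^ 77) := by rw [← Real.exp_add]
        _ ≤ x := by
            rw [hx]
            apply Real.exp_le_exp.mpr
            have c1 : D ^ 80 = D ^ 77 * D ^ 3 := by rw [← pow_add]
            have c3 : D ^ 1 ≤ D ^ 3 := hpow _ _ (by norm_num)
            have c4 : 0 < D ^ 77 := by positivity
            rw [pow_one] at c3
            rw [c1]; nlinarith
    calc yc D 77 * p ≤ Nat.sqrt X * Nat.sqrt X := Nat.mul_le_mul h77 hps
      _ ≤ X := Nat.sqrt_le X)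
  refine hcf.trans ?_
  have h2 := few_const_le hD R hXx
  have h3 := near_weight_le (z := Nat.sqrt X) hD h1 hj hT hTL
  have h5 : 0 ≤ ∑ p ∈ nearSet (D ^ 80) T (yc D j) (Nat.sqrt X), (1 : ℝ) / p :=
    Finset.sum_nonneg fun _ _ => by positivity
  have h6 : 0 ≤ x * (3440 * (61 + 60 * (80 * log D)) ^ R) / D ^ 75 := by
    have : 0 ≤ 61 + 60 * (80 * log D) := by positivity
    positivity
  exact mul_le_mul h2 h3 h5 h6

/-- integers up to `X` with at least `K` prime factors. -/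
def manySet (X K : ℕ) : Finset ℕ := (Ioc 0 X).filter (fun n => K ≤ n.primeFactors.card)

open Classical in
/-- integers up to `X` divisible by a high power of a prime up to `Y`. -/
noncomputable def powSet (X Y : ℕ) : Finset ℕ :=
  (Ioc 0 X).filter (fun n => ∃ p ∈ n.primeFactors, p ≤ Y ∧ Y ^ 2 < p ^ n.factorization p)

open Classical in
/-- integers up to `X` divisible by the square of a prime exceeding `Y`. -/
noncomputable def sqSet (X Y : ℕ) : Finset ℕ :=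
  (Ioc 0 X).filter (fun n => ∃ p : ℕ, p.Prime ∧ Y < p ∧ p ^ 2 ∣ n)

/-- integers in some `HS`. -/
noncomputable def hsSet (D : ℝ) (X K : ℕ) : Finset ℕ :=
  (Ico 2 77).biUnion (fun j => HS (Hb (D ^ 80) (D ^ (j - 1))) (yc D j) (yc D (j + 1)) X K)

/-- The covering of the tail set. -/
lemma tail_mem {D : ℝ} (K : ℕ) (hD : 8 ≤ D) (h1 : 160 * log D + 1 ≤ D) {X : ℕ} {x : ℝ}
    (hx : x = exp (D ^ 80)) (hX : X = ⌊x⌋₊) {n : ℕ} (hn : n ∈ tailSet D X) :
    n ∈ Ioc 0 ⌊x / D ^ 160⌋₊ ∨ n ∈ hsSet D X K ∨ n ∈ manySet X ⌊D / 2⌋₊ ∨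
      n ∈ powSet X (yc D 10) ∨ n ∈ sqSet X (yc D 10) ∨
      n ∈ fewDvd (yc D 2) (yc D 77) X (2 * K * 75)
        (pairSet (Hb (D ^ 80) D) (yc D 10) (yc D 30)) (fun i => i.1 * i.2) ∨
      n ∈ fewDvd (yc D 2) (yc D 77) X (2 * K * 75)
        (nearSet (D ^ 80) (2 * D ^ 11) (yc D 19) (Nat.sqrt X)) (fun p => p) ∨
      n ∈ fewDvd (yc D 2) (yc D 77) X (2 * K * 75)
        (nearSet (D ^ 80) (2 * D ^ 20) (yc D 30) (Nat.sqrt X)) (fun p => p) := by
  classical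
  have hD0 : 0 < D := by linarith
  have hD1 : 1 ≤ D := by linarith
  have hx0 : 0 < x := by rw [hx]; exact Real.exp_pos _
  have hlogx : log x = D ^ 80 := by rw [hx, Real.log_exp]
  have hn' := mem_tailSet.mp hn
  have hn0 : 0 < n := hn'.1.1.1
  have hnX : n ≤ X := hn'.1.1.2
  have hf : f n = F n := hn'.1.2
  have htail := hn'.2
  have hnI : n ∈ Ioc 0 X := Finset.mem_Ioc.mpr ⟨hn0, hnX⟩
  by_cases hsmall : n ≤ ⌊x / D ^ 160⌋₊
  · left; rw [Finset.mem_Ioc]; exact ⟨hn0, hsmall⟩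
  right
  push Not at hsmall
  have hn0' : (0 : ℝ) < n := by exact_mod_cast hn0
  have hnlow : x / D ^ 160 < n := Nat.lt_of_floor_lt hsmall
  have hp160 : 0 < D ^ 160 := by positivity
  have hnup : (n : ℝ) ≤ x := by
    rw [hX] at hnX
    exact le_trans (by exact_mod_cast hnX) (Nat.floor_le hx0.le)
  have hlow : D ^ 80 - 160 * log D ≤ log n := by
    have h2 := Real.log_le_log (div_pos hx0 hp160) hnlow.le
    rw [Real.log_div hx0.ne' hp160.ne', hlogx, Real.log_pow] at h2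
    exact_mod_cast h2
  have hup : log n ≤ D ^ 80 := by
    have := Real.log_le_log hn0' hnup
    rwa [hlogx] at this
  rcases few_of_rel K hD h1 hn0 hnX hf hlow hup with ⟨j, hj, hHS⟩ | hfew
  · left
    unfold hsSet
    rw [Finset.mem_biUnion]
    exact ⟨j, hj, hHS⟩
  right
  by_cases hom : ⌊D / 2⌋₊ ≤ n.primeFactors.card
  · left; unfold manySet; rw [Finset.mem_filter]; exact ⟨hnI, hom⟩
  right
  by_cases hpw : ∃ p ∈ n.primeFactors, p ≤ yc D 10 ∧ yc D 10 ^ 2 < p ^ n.factorization p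
  · left; unfold powSet; rw [Finset.mem_filter]; exact ⟨hnI, hpw⟩
  right
  by_cases hsq : ∃ p : ℕ, p.Prime ∧ yc D 10 < p ∧ p ^ 2 ∣ n
  · left; unfold sqSet; rw [Finset.mem_filter]; exact ⟨hnI, hsq⟩
  right
  push Not at hom hpw hsq
  have hreg : Regular D n := by
    refine ⟨hn0.ne', ?_, hpw, fun p hp hlt => hsq p hp hlt⟩
    have h2 : (n.primeFactors.card : ℝ) ≤ D / 2 := by
      calc (n.primeFactors.card : ℝ) ≤ ⌊D / 2⌋₊ := by exact_mod_cast hom.le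
        _ ≤ D / 2 := Nat.floor_le (by linarith)
    linarith
  have hsq' : ∀ p, p * p ≤ n → p ≤ Nat.sqrt X := by
    intro p hp
    rw [Nat.le_sqrt]; omega
  rcases tail_cases hD h1 hf hreg hlow hup htail with h | h | h
  · obtain ⟨p, hp, q, hq, h2, h3, h4, h5⟩ := h
    left
    rw [mem_fewDvd]
    refine ⟨⟨hn0, hnX⟩, hfew, (p, q), ?_, ?_⟩
    · rw [mem_pairSet]
      exact ⟨⟨⟨h2, Nat.prime_of_mem_primeFactors hp⟩, ⟨h3, Nat.prime_of_mem_primeFactors hq⟩⟩,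
        h4, h5⟩
    · exact Nat.Coprime.mul_dvd_of_dvd_of_dvd ((Nat.coprime_primes
        (Nat.prime_of_mem_primeFactors hp) (Nat.prime_of_mem_primeFactors hq)).mpr (by omega))
        (Nat.dvd_of_mem_primeFactors hp) (Nat.dvd_of_mem_primeFactors hq)
  · obtain ⟨p, hp, h2, h3, h4⟩ := h
    right; left
    rw [mem_fewDvd]
    refine ⟨⟨hn0, hnX⟩, hfew, p, ?_, Nat.dvd_of_mem_primeFactors hp⟩
    rw [mem_nearSet]
    exact ⟨⟨⟨h2, hsq' p h3⟩, Nat.prime_of_mem_primeFactors hp⟩, h4⟩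
  · obtain ⟨p, hp, h2, h3, h4⟩ := h
    right; right
    rw [mem_fewDvd]
    refine ⟨⟨hn0, hnX⟩, hfew, p, ?_, Nat.dvd_of_mem_primeFactors hp⟩
    rw [mem_nearSet]
    exact ⟨⟨⟨h2, hsq' p h3⟩, Nat.prime_of_mem_primeFactors hp⟩, h4⟩

end Pool.Agent.Work.MP_98b61d_nt
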