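import Pool.Agent.Work.MP_98b61d_nt.Asym2
import Pool.Agent.Work.MP_98b61d_nt.Osc2

/-!
Upper bound for the sum of `1/m` over the `m ≤ M` with `E t m`.
-/

namespace Pool.Agent.Work.MP_98b61d_nt

open Finset Real Filter MeasureTheory

/-- sum of reciprocals over products. -/
lemma sum_inv_le_mul (A B C : Finset ℕ) (h : ∀ m ∈ A, ∃ a ∈ B, ∃ b ∈ C, m = a * b) :
    ∑ m ∈ A, (1 : ℝ) / m ≤ (∑ a ∈ B, (1 : ℝ) / a) * ∑ b ∈ C, (1 : ℝ) / b := by
  classical
  have hsub : A ⊆ B.biUnion (fun a => C.image (fun b => a * b)) := by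
    intro m hm
    obtain ⟨a, ha, b, hb, rfl⟩ := h m hm
    rw [Finset.mem_biUnion]
    exact ⟨a, ha, Finset.mem_image.mpr ⟨b, hb, rfl⟩⟩
  calc ∑ m ∈ A, (1 : ℝ) / m
      ≤ ∑ m ∈ B.biUnion (fun a => C.image (fun b => a * b)), (1 : ℝ) / m :=
        Finset.sum_le_sum_of_subset_of_nonneg hsub (fun _ _ _ => by positivity)
    _ ≤ ∑ a ∈ B, ∑ m ∈ C.image (fun b => a * b), (1 : ℝ) / m :=
        sum_biUnion_le_of_nonneg _ _ _ (fun _ => by positivity)
    _ ≤ ∑ a ∈ B, ∑ b ∈ C, (1 : ℝ) / ((a * b : ℕ) : ℝ) := by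
        apply Finset.sum_le_sum
        intro a _
        exact Finset.sum_image_le_of_nonneg (fun _ _ => by positivity)
    _ = _ := by
        rw [Finset.sum_mul_sum]
        apply Finset.sum_congr rfl
        intro a _
        apply Finset.sum_congr rfl
        intro b _
        push_cast
        rw [one_div_mul_one_div]

open Classical in
/-- integers up to `M` all of whose primes satisfy `Q`. -/
noncomputable def gen (Q : ℕ → Prop) (M : ℕ) : Finset ℕ :=
  (Ioc 0 M).filter (fun m => ∀ p ∈ m.primeFactors, Q p)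

lemma mem_gen {Q : ℕ → Prop} {M m : ℕ} : m ∈ gen Q M ↔
    (0 < m ∧ m ≤ M) ∧ ∀ p ∈ m.primeFactors, Q p := by
  classical
  unfold gen
  simp only [Finset.mem_filter, Finset.mem_Ioc]

lemma gen_sum_le {Q : ℕ → Prop} [DecidablePred Q] {M : ℕ}
    (hs : ∑ p ∈ ((Ioc 0 M).filter Nat.Prime).filter Q, (1 : ℝ) / p ≤ 1 / 2) :
    ∑ m ∈ gen Q M, (1 : ℝ) / m ≤ 2 := by
  set S := ∑ m ∈ gen Q M, (1 : ℝ) / m with hS
  have hS0 : 0 ≤ S := Finset.sum_nonneg fun _ _ => by positivity
  have h1 : ∑ m ∈ (gen Q M).erase 1, (1 : ℝ) / m ≤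
      (∑ p ∈ ((Ioc 0 M).filter Nat.Prime).filter Q, (1 : ℝ) / p) * S := by
    apply sum_inv_le_mul
    intro m hm
    rw [Finset.mem_erase, mem_gen] at hm
    obtain ⟨hm1, ⟨hm0, hmM⟩, hQ⟩ := hm
    obtain ⟨p, hp, hpm⟩ := Nat.exists_prime_and_dvd hm1
    obtain ⟨l, rfl⟩ := hpm
    have hl0 : 0 < l := Nat.pos_of_mul_pos_left hm0
    have hpf : p ∈ (p * l).primeFactors := by
      rw [Nat.mem_primeFactors]; exact ⟨hp, dvd_mul_right p l, hm0.ne'⟩
    refine ⟨p, ?_, l, ?_, rfl⟩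
    · rw [Finset.mem_filter, Finset.mem_filter, Finset.mem_Ioc]
      exact ⟨⟨⟨hp.pos, (Nat.le_mul_of_pos_right p hl0).trans hmM⟩, hp⟩, hQ p hpf⟩
    · rw [mem_gen]
      refine ⟨⟨hl0, (Nat.le_mul_of_pos_left l hp.pos).trans hmM⟩, ?_⟩
      intro r hr
      exact hQ r (Nat.primeFactors_mono (dvd_mul_left l p) hm0.ne' hr)
  have h2 : S ≤ 1 + ∑ m ∈ (gen Q M).erase 1, (1 : ℝ) / m := by
    by_cases h : 1 ∈ gen Q M
    · rw [hS, ← Finset.add_sum_erase _ _ h]; simp
    · rw [Finset.erase_eq_of_notMem h]; linarith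
  nlinarith

/-- the pair condition for `E`. -/
lemma near_of_EE {t T : ℝ} {m p q : ℕ} (ht : 0 < t) (hEE : EE t m) (hT : 0 ≤ T)
    (hTt : T + 1 < log t) (hp : p.Prime)
    (hq : q.Prime) (hpm : p ∣ m) (hqm : q ∣ m) (hpq : p ≠ q) (hgood : Good (log t) T p q) :
    Near (log t) (T + 1) p ∨ Near (log t) (T + 1) q := by
  obtain ⟨i, j, h1, h2⟩ := hgood (log t) (by linarith) (le_refl _)
  have hp0 : (0 : ℝ) < p := by exact_mod_cast hp.pos
  have hq0 : (0 : ℝ) < q := by exact_mod_cast hq.pos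
  have hb : log (((p ^ i * q ^ j : ℕ) : ℝ)) = i * log p + j * log q := by
    push_cast
    rw [Real.log_mul (by positivity) (by positivity), Real.log_pow, Real.log_pow]
  have hb0 : (0 : ℝ) < ((p ^ i * q ^ j : ℕ) : ℝ) := by push_cast; positivity
  have hbt : ((p ^ i * q ^ j : ℕ) : ℝ) ≤ t := by
    rw [← hb] at h2
    exact (Real.log_le_log_iff hb0 ht).mp h2
  have hb2 : 2 ≤ p ^ i * q ^ j := by
    by_contra hcon
    have h3 : p ^ i * q ^ j = 1 := by
      have : 0 < p ^ i * q ^ j := by exact_mod_cast hb0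
      omega
    rw [← hb, h3] at h1
    simp at h1
    linarith
  have hbne : p ^ i * q ^ j ≠ 0 := by omega
  have hbpr : ∀ r : ℕ, r.Prime → r ∣ p ^ i * q ^ j → r = p ∨ r = q := by
    intro r hr hrb
    rcases (Nat.Prime.dvd_mul hr).mp hrb with h4 | h4
    · left; exact (Nat.prime_dvd_prime_iff_eq hr hp).mp (hr.dvd_of_dvd_pow h4)
    · right; exact (Nat.prime_dvd_prime_iff_eq hr hq).mp (hr.dvd_of_dvd_pow h4)
  have hle := (hEE (p ^ i * q ^ j) hb2 (by
    intro r hr hrb
    rcases hbpr r hr hrb with h | h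
    · rw [h]; exact hpm
    · rw [h]; exact hqm)).1 hbt
  have hfT : fT t (p ^ i * q ^ j) ≤ p ^ Nat.log p ⌊t⌋₊ + q ^ Nat.log q ⌊t⌋₊ := by
    unfold fT
    rw [← Finset.sum_pair hpq (f := fun r => r ^ Nat.log r ⌊t⌋₊)]
    apply Finset.sum_le_sum_of_subset
    intro r hr
    rw [Nat.mem_primeFactors] at hr
    rw [Finset.mem_insert, Finset.mem_singleton]
    exact hbpr r hr.1 hr.2.1
  have hfl : ⌊t⌋₊ ≠ 0 := by
    have h5 : ((1 : ℕ) : ℝ) ≤ t := by
      refine le_trans ?_ hbt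
      exact_mod_cast (by omega : 1 ≤ p ^ i * q ^ j)
    have : 1 ≤ ⌊t⌋₊ := Nat.le_floor h5
    omega
  have key : ∀ r : ℕ, r.Prime → p ^ i * q ^ j ≤ 2 * r ^ Nat.log r ⌊t⌋₊ →
      Near (log t) (T + 1) r := by
    intro r hr hler
    have hr0 : (0 : ℝ) < r := by exact_mod_cast hr.pos
    have h6 : ((p ^ i * q ^ j : ℕ) : ℝ) ≤ 2 * (r : ℝ) ^ Nat.log r ⌊t⌋₊ := by exact_mod_cast hler
    have h7 := Real.log_le_log hb0 h6
    rw [hb, Real.log_mul (by norm_num) (by positivity), Real.log_pow] at h7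
    have h8 := Real.log_two_lt_d9
    have h9 : log t - (T + 1) ≤ (Nat.log r ⌊t⌋₊ : ℝ) * log r := by linarith
    have h10 : (Nat.log r ⌊t⌋₊ : ℝ) * log r ≤ log t := by
      rw [← Real.log_pow]
      apply Real.log_le_log (by positivity)
      calc (r : ℝ) ^ Nat.log r ⌊t⌋₊ ≤ ⌊t⌋₊ := by exact_mod_cast Nat.pow_log_le_self r hfl
        _ ≤ t := Nat.floor_le ht.le
    refine ⟨Nat.log r ⌊t⌋₊, ?_, h9, h10⟩
    by_contra hcon
    have h11 : Nat.log r ⌊t⌋₊ = 0 := by omega
    rw [h11] at h9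
    simp only [CharP.cast_eq_zero, zero_mul] at h9
    linarith
  rcases Nat.le_total (p ^ Nat.log p ⌊t⌋₊) (q ^ Nat.log q ⌊t⌋₊) with h | h
  · right; exact key q hq (by omega)
  · left; exact key p hp (by omega)

open Classical in
/-- integers up to `M` divisible by a bad pair of primes in `(y, M]`. -/
noncomputable def badPair (U T : ℝ) (y M : ℕ) : Finset ℕ :=
  (Ioc 0 M).filter (fun m => ∃ p ∈ m.primeFactors, ∃ q ∈ m.primeFactors, y < p ∧ p < q ∧
    ¬ Good U T p q)

open Classical in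
lemma badPair_sum_le {U T : ℝ} {y M : ℕ} :
    ∑ m ∈ badPair U T y M, (1 : ℝ) / m ≤ badSum U T y M * (1 + log M) := by
  set P := (((Ioc y M).filter Nat.Prime) ×ˢ ((Ioc y M).filter Nat.Prime)).filter
    (fun x : ℕ × ℕ => x.1 < x.2 ∧ ¬ Good U T x.1 x.2) with hP
  have hsub : badPair U T y M ⊆ P.biUnion (fun x => (Ioc 0 M).image (fun l => x.1 * x.2 * l)) := by
    intro m hm
    unfold badPair at hm
    rw [Finset.mem_filter, Finset.mem_Ioc] at hm
    obtain ⟨⟨hm0, hmM⟩, p, hp, q, hq, hyp, hpq, hbad⟩ := hm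
    have hpp := Nat.prime_of_mem_primeFactors hp
    have hqq := Nat.prime_of_mem_primeFactors hq
    have hpm := Nat.dvd_of_mem_primeFactors hp
    have hqm := Nat.dvd_of_mem_primeFactors hq
    have hcop : Nat.Coprime p q := (Nat.coprime_primes hpp hqq).mpr (by omega)
    obtain ⟨l, hl⟩ := hcop.mul_dvd_of_dvd_of_dvd hpm hqm
    have hl0 : 0 < l := by
      rcases Nat.eq_zero_or_pos l with h | h
      · rw [h, mul_zero] at hl; omega
      · exact h
    have hpM : p ≤ M := (Nat.le_of_dvd hm0 hpm).trans hmM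
    have hqM : q ≤ M := (Nat.le_of_dvd hm0 hqm).trans hmM
    rw [Finset.mem_biUnion]
    refine ⟨(p, q), ?_, ?_⟩
    · rw [hP]
      simp only [Finset.mem_filter, Finset.mem_product, Finset.mem_Ioc]
      exact ⟨⟨⟨⟨hyp, hpM⟩, hpp⟩, ⟨⟨by omega, hqM⟩, hqq⟩⟩, hpq, hbad⟩
    · rw [Finset.mem_image]
      refine ⟨l, ?_, hl.symm⟩
      rw [Finset.mem_Ioc]
      refine ⟨hl0, ?_⟩
      calc l ≤ p * q * l := Nat.le_mul_of_pos_left l (Nat.mul_pos hpp.pos hqq.pos)
        _ = m := hl.symm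
        _ ≤ M := hmM
  calc ∑ m ∈ badPair U T y M, (1 : ℝ) / m
      ≤ ∑ m ∈ P.biUnion (fun x => (Ioc 0 M).image (fun l => x.1 * x.2 * l)), (1 : ℝ) / m :=
        Finset.sum_le_sum_of_subset_of_nonneg hsub (fun _ _ _ => by positivity)
    _ ≤ ∑ x ∈ P, ∑ m ∈ (Ioc 0 M).image (fun l => x.1 * x.2 * l), (1 : ℝ) / m :=
        sum_biUnion_le_of_nonneg _ _ _ (fun _ => by positivity)
    _ ≤ ∑ x ∈ P, (1 : ℝ) / (x.1 * x.2) * (1 + log M) := by
        apply Finset.sum_le_sum
        intro x _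
        calc ∑ m ∈ (Ioc 0 M).image (fun l => x.1 * x.2 * l), (1 : ℝ) / m
            ≤ ∑ l ∈ Ioc 0 M, (1 : ℝ) / ((x.1 * x.2 * l : ℕ) : ℝ) :=
              Finset.sum_image_le_of_nonneg (fun _ _ => by positivity)
          _ = (1 : ℝ) / (x.1 * x.2) * ∑ l ∈ Ioc 0 M, (1 : ℝ) / l := by
              rw [Finset.mul_sum]
              apply Finset.sum_congr rfl
              intro l _
              push_cast
              rw [one_div_mul_one_div]
          _ ≤ _ := by
              have := sum_inv_Ioc_le M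
              gcongr
    _ = badSum U T y M * (1 + log M) := by
        rw [← Finset.sum_mul]
        rfl

open Classical in
/-- the prime powers with exponent at least `0` of the primes in `(y, M]`. -/
lemma primePow_sum_le (y M : ℕ) :
    ∑ a ∈ insert 1 (((Ioc y M).filter Nat.Prime).biUnion (fun p =>
      (Icc 1 (Nat.log 2 M)).image (fun v => p ^ v))), (1 : ℝ) / a ≤ 1 + 2 * recip y M := by
  have h1 : ∑ a ∈ ((Ioc y M).filter Nat.Prime).biUnion (fun p =>
      (Icc 1 (Nat.log 2 M)).image (fun v => p ^ v)), (1 : ℝ) / a ≤ 2 * recip y M := by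
    calc _ ≤ ∑ p ∈ (Ioc y M).filter Nat.Prime,
          ∑ a ∈ (Icc 1 (Nat.log 2 M)).image (fun v => p ^ v), (1 : ℝ) / a :=
          sum_biUnion_le_of_nonneg _ _ _ (fun _ => by positivity)
      _ ≤ ∑ p ∈ (Ioc y M).filter Nat.Prime, 2 * (1 / (p : ℝ)) := by
          apply Finset.sum_le_sum
          intro p hp
          rw [Finset.mem_filter] at hp
          calc ∑ a ∈ (Icc 1 (Nat.log 2 M)).image (fun v => p ^ v), (1 : ℝ) / a
              ≤ ∑ v ∈ Icc 1 (Nat.log 2 M), (1 : ℝ) / ((p ^ v : ℕ) : ℝ) :=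
                Finset.sum_image_le_of_nonneg (fun _ _ => by positivity)
            _ = ∑ v ∈ Icc 1 (Nat.log 2 M), (1 : ℝ) / (p : ℝ) ^ v := by push_cast; rfl
            _ ≤ 2 / p := geom_tail_le _ hp.2.two_le
            _ = 2 * (1 / (p : ℝ)) := by ring
      _ = 2 * recip y M := by rw [recip, Finset.mul_sum]
  by_cases h : 1 ∈ ((Ioc y M).filter Nat.Prime).biUnion (fun p =>
      (Icc 1 (Nat.log 2 M)).image (fun v => p ^ v))
  · rw [Finset.insert_eq_of_mem h]; linarith
  · rw [Finset.sum_insert h]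
    push_cast
    linarith

open Classical in
/-- main decomposition. -/
lemma E_sum_le {t T : ℝ} {y M : ℕ} (ht : 0 < t) (hT : 0 ≤ T) (hTt : T + 1 < log t)
    (hy : 2 ≤ y)
    (hs : ∑ p ∈ ((Ioc 0 M).filter Nat.Prime).filter (fun p => y < p ∧ Near (log t) (T + 1) p),
      (1 : ℝ) / p ≤ 1 / 2) :
    ∑ m ∈ (Icc 1 M).filter (fun m => EE t m), (1 : ℝ) / m ≤
      badSum (log t) T y M * (1 + log M) + (1 + 2 * recip y M) * (67 * log y * 2) := by
  set A := (Icc 1 M).filter (fun m => EE t m) with hA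
  have hsplit : ∑ m ∈ A, (1 : ℝ) / m ≤ ∑ m ∈ badPair (log t) T y M, (1 : ℝ) / m +
      ∑ m ∈ A \ badPair (log t) T y M, (1 : ℝ) / m := by
    rw [← Finset.sum_sdiff (Finset.inter_subset_left (s₁ := A) (s₂ := badPair (log t) T y M)),
      add_comm]
    apply add_le_add
    · exact Finset.sum_le_sum_of_subset_of_nonneg Finset.inter_subset_right
        (fun _ _ _ => by positivity)
    · rw [Finset.sdiff_inter_self_left]
  have hB : ∑ m ∈ A \ badPair (log t) T y M, (1 : ℝ) / m ≤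
      (∑ a ∈ insert 1 (((Ioc y M).filter Nat.Prime).biUnion (fun p =>
      (Icc 1 (Nat.log 2 M)).image (fun v => p ^ v))), (1 : ℝ) / a) *
      ∑ l ∈ gen (fun p => p ≤ y ∨ (y < p ∧ Near (log t) (T + 1) p)) M, (1 : ℝ) / l := by
    apply sum_inv_le_mul
    intro m hm
    rw [Finset.mem_sdiff, hA, Finset.mem_filter, Finset.mem_Icc] at hm
    obtain ⟨⟨⟨hm1, hmM⟩, hEE⟩, hnb⟩ := hm
    have hm0 : m ≠ 0 := by omega
    have hgood : ∀ p ∈ m.primeFactors, ∀ q ∈ m.primeFactors, y < p → p < q →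
        Good (log t) T p q := by
      intro p hp q hq hyp hpq
      by_contra hcon
      apply hnb
      unfold badPair
      rw [Finset.mem_filter, Finset.mem_Ioc]
      exact ⟨⟨hm1, hmM⟩, p, hp, q, hq, hyp, hpq, hcon⟩
    have hpair : ∀ p ∈ m.primeFactors, ∀ q ∈ m.primeFactors, y < p → y < q → p ≠ q →
        Near (log t) (T + 1) p ∨ Near (log t) (T + 1) q := by
      intro p hp q hq hyp hyq hpq
      rcases lt_or_gt_of_ne hpq with h | h
      · exact near_of_EE ht hEE hT hTt (Nat.prime_of_mem_primeFactors hp)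
          (Nat.prime_of_mem_primeFactors hq) (Nat.dvd_of_mem_primeFactors hp)
          (Nat.dvd_of_mem_primeFactors hq) hpq (hgood p hp q hq hyp h)
      · exact near_of_EE ht hEE hT hTt (Nat.prime_of_mem_primeFactors hp)
          (Nat.prime_of_mem_primeFactors hq) (Nat.dvd_of_mem_primeFactors hp)
          (Nat.dvd_of_mem_primeFactors hq) hpq (hgood q hq p hp hyq h).symm
    by_cases hR : ∃ p ∈ m.primeFactors, y < p ∧ ¬ Near (log t) (T + 1) p
    · obtain ⟨p, hp, hyp, hnn⟩ := hR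
      have hpp := Nat.prime_of_mem_primeFactors hp
      have hpm := Nat.dvd_of_mem_primeFactors hp
      have hv : 1 ≤ m.factorization p := hpp.factorization_pos_of_dvd hm0 hpm
      have hl0 : 0 < m / p ^ m.factorization p :=
        Nat.div_pos (Nat.ordProj_le p hm0) (pow_pos hpp.pos _)
      refine ⟨p ^ m.factorization p, ?_, m / p ^ m.factorization p, ?_,
        (Nat.ordProj_mul_ordCompl_eq_self m p).symm⟩
      · rw [Finset.mem_insert]; right
        rw [Finset.mem_biUnion]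
        refine ⟨p, ?_, ?_⟩
        · rw [Finset.mem_filter, Finset.mem_Ioc]
          exact ⟨⟨hyp, (Nat.le_of_dvd hm1 hpm).trans hmM⟩, hpp⟩
        · rw [Finset.mem_image]
          refine ⟨m.factorization p, ?_, rfl⟩
          rw [Finset.mem_Icc]
          refine ⟨hv, ?_⟩
          apply Nat.le_log_of_pow_le (by norm_num)
          calc 2 ^ m.factorization p ≤ p ^ m.factorization p := Nat.pow_le_pow_left hpp.two_le _
            _ ≤ m := Nat.ordProj_le p hm0
            _ ≤ M := hmM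
      · rw [mem_gen]
        refine ⟨⟨hl0, (Nat.div_le_self _ _).trans hmM⟩, ?_⟩
        intro r hr
        have hdvd : m / p ^ m.factorization p ∣ m := Nat.ordCompl_dvd m p
        have hrm : r ∈ m.primeFactors := Nat.primeFactors_mono hdvd hm0 hr
        have hrp : r ≠ p := by
          rintro rfl
          exact Nat.not_dvd_ordCompl hpp hm0 (Nat.dvd_of_mem_primeFactors hr)
        rcases Nat.lt_or_ge y r with h | h
        · right
          refine ⟨h, ?_⟩
          rcases hpair p hp r hrm hyp h hrp.symm with h2 | h2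
          · exact absurd h2 hnn
          · exact h2
        · left; exact h
    · push Not at hR
      refine ⟨1, Finset.mem_insert_self _ _, m, ?_, (one_mul m).symm⟩
      rw [mem_gen]
      refine ⟨⟨hm1, hmM⟩, ?_⟩
      intro r hr
      rcases Nat.lt_or_ge y r with h | h
      · right; exact ⟨h, hR r hr h⟩
      · left; exact h
  have hC : ∑ l ∈ gen (fun p => p ≤ y ∨ (y < p ∧ Near (log t) (T + 1) p)) M, (1 : ℝ) / l ≤
      smSum y M * ∑ l ∈ gen (fun p => y < p ∧ Near (log t) (T + 1) p) M, (1 : ℝ) / l := by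
    unfold smSum
    apply sum_inv_le_mul
    intro m hm
    rw [mem_gen] at hm
    obtain ⟨⟨hm0, hmM⟩, hQ⟩ := hm
    obtain ⟨a, l, h1, h2, h3⟩ := exists_smooth_rough y m hm0.ne'
    have ha0 : 0 < a := by
      rcases Nat.eq_zero_or_pos a with h | h
      · rw [h, zero_mul] at h1; omega
      · exact h
    have hl0 : 0 < l := by
      rcases Nat.eq_zero_or_pos l with h | h
      · rw [h, mul_zero] at h1; omega
      · exact h
    refine ⟨l, ?_, a, ?_, by rw [h1]; ring⟩
    · rw [Finset.mem_filter, Finset.mem_Ioc]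
      refine ⟨⟨hl0, ?_⟩, h3⟩
      calc l ≤ a * l := Nat.le_mul_of_pos_left l ha0
        _ = m := h1.symm
        _ ≤ M := hmM
    · rw [mem_gen]
      refine ⟨⟨ha0, ?_⟩, ?_⟩
      · calc a ≤ a * l := Nat.le_mul_of_pos_right a hl0
          _ = m := h1.symm
          _ ≤ M := hmM
      · intro r hr
        have hya := h2 r hr
        have hrm : r ∈ m.primeFactors := Nat.primeFactors_mono ⟨l, h1⟩ hm0.ne' hr
        rcases hQ r hrm with h | h
        · omega
        · exact h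
  have hC2 := gen_sum_le (Q := fun p => y < p ∧ Near (log t) (T + 1) p) hs
  have hsm := smSum_le hy M
  have hsm0 := smSum_nonneg y M
  have hly : 0 ≤ log (y : ℝ) := Real.log_natCast_nonneg y
  have hg0 : 0 ≤ ∑ l ∈ gen (fun p => y < p ∧ Near (log t) (T + 1) p) M, (1 : ℝ) / l :=
    Finset.sum_nonneg fun _ _ => by positivity
  have hr0 := recip_nonneg y M
  refine hsplit.trans (add_le_add badPair_sum_le (hB.trans ?_))
  apply mul_le_mul (primePow_sum_le y M) _ (Finset.sum_nonneg fun _ _ => by positivity)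
    (by positivity)
  refine hC.trans ?_
  exact mul_le_mul hsm hC2 hg0 (by positivity)

end Pool.Agent.Work.MP_98b61d_nt
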