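import Pool.Agent.Work.MP_98b61d_nt.Upper1

/-!
Upper bound `N x ≪ x (log log x)^2 / log x`.
-/

namespace Pool.Agent.Work.MP_98b61d_nt

open Finset Real Filter MeasureTheory

open Classical in
/-- pointwise bound. -/
lemma E_sum_le_log : ∃ B : ℝ, 0 < B ∧ ∀ᶠ D : ℝ in atTop, ∀ t : ℝ, 0 < t →
    D ^ 80 - 160 * log D ≤ log t → log t ≤ D ^ 80 →
    ∑ m ∈ (Icc 1 ⌊exp (D ^ 20)⌋₊).filter (fun m => EE t m), (1 : ℝ) / m ≤ B * (log D) ^ 2 := by
  refine ⟨4861 * (134 * 16000) + 1, by norm_num, ?_⟩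
  have a1 := eventually_log_pow_le 1 1 160 1
  have a2 := eventually_log_pow_le 18432 3 80 2
  have a3 : ∀ᶠ D : ℝ in atTop, 1 ≤ log D := Real.tendsto_log_atTop.eventually_ge_atTop 1
  filter_upwards [a1, a2, a3, eventually_ge_atTop 8] with D b1 b2 b3 hD
  intro t ht hlow hup
  rw [pow_one, one_mul] at b1
  have hD0 : 0 < D := by linarith
  have hD1 : 1 ≤ D := by linarith
  have hpow : ∀ a b : ℕ, a ≤ b → D ^ a ≤ D ^ b := fun a b hab => pow_le_pow_right₀ hD1 hab
  have e80 : D ^ 80 = D ^ 78 * D ^ 2 := by rw [← pow_add]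
  have h64 : 64 ≤ D ^ 2 := by nlinarith
  have e178 : D ≤ D ^ 78 := by
    calc D = D ^ 1 := (pow_one D).symm
      _ ≤ D ^ 78 := hpow _ _ (by norm_num)
  have hU : D ^ 80 / 2 ≤ log t := by nlinarith
  have hU1 : 1 ≤ log t := by nlinarith
  have hlogU : log (log t) ≤ 80 * log D := by
    have := Real.log_le_log (by linarith) hup
    rwa [Real.log_pow] at this
  have hlogU0 : 0 ≤ log (log t) := Real.log_nonneg hU1
  obtain ⟨c, hc⟩ : ∃ c, c = 16000 * log D := ⟨_, rfl⟩
  obtain ⟨y, hy⟩ : ∃ y, y = ⌊exp c⌋₊ := ⟨_, rfl⟩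
  obtain ⟨M, hM⟩ : ∃ M, M = ⌊exp (D ^ 20)⌋₊ := ⟨_, rfl⟩
  rw [← hM]
  have hly : c / 2 ≤ log (y : ℝ) := by rw [hy]; exact half_le_log_floor_exp (by linarith)
  have hly2 : log (y : ℝ) ≤ c := by rw [hy]; exact log_floor_exp_le (by linarith)
  have hlM : log (M : ℝ) ≤ D ^ 20 := by rw [hM]; exact log_floor_exp_le (by positivity)
  have hlM0 : 0 ≤ log (M : ℝ) := Real.log_natCast_nonneg M
  have hy8 : 8 ≤ y := by
    rw [hy]
    apply Nat.le_floor
    have := Real.add_one_le_exp c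
    push_cast
    linarith
  have hlypos : 0 < log (y : ℝ) := by linarith
  -- near primes
  have hnear : ∑ p ∈ ((Ioc 0 M).filter Nat.Prime).filter
      (fun p => y < p ∧ Near (log t) (1 + 1) p), (1 : ℝ) / p ≤ 1 / 2 := by
    have h1 := near_sum_le (L := log t) (T := 1 + 1) (y := y) (z := M) hU1 (by norm_num)
      (by nlinarith) (by linarith) (by linarith)
    have h2 : ((Ioc 0 M).filter Nat.Prime).filter (fun p => y < p ∧ Near (log t) (1 + 1) p) =
        ((Ioc y M).filter Nat.Prime).filter (Near (log t) (1 + 1)) := by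
      ext p
      simp only [Finset.mem_filter, Finset.mem_Ioc]
      constructor
      · rintro ⟨⟨⟨_, h3⟩, h4⟩, h5, h6⟩; exact ⟨⟨⟨h5, h3⟩, h4⟩, h6⟩
      · rintro ⟨⟨⟨h5, h3⟩, h4⟩, h6⟩; exact ⟨⟨⟨by omega, h3⟩, h4⟩, h5, h6⟩
    rw [h2]
    refine h1.trans ?_
    rw [div_le_div_iff₀ hlypos (by norm_num)]
    nlinarith
  have hmain := E_sum_le (t := t) (T := 1) (y := y) (M := M) ht (by norm_num) (by nlinarith)
    (by omega) hnear
  have hbad := badSum_le (L := log t) (T := 1) (y := y) (z := M) hU1 (le_refl 1) (by linarith)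
    (by linarith) (by
      have c1 : D ^ 80 = D ^ 20 * D ^ 60 := by rw [← pow_add]
      have c2 : D ^ 2 ≤ D ^ 60 := hpow _ _ (by norm_num)
      have c3 : 0 < D ^ 20 := by positivity
      have c4 : 48 * D ^ 20 ≤ D ^ 80 := by rw [c1]; nlinarith
      linarith)
  have hbad0 : 0 ≤ badSum (log t) 1 y M := Finset.sum_nonneg fun _ _ => by positivity
  have hbad1 : badSum (log t) 1 y M * (1 + log M) ≤ 1 := by
    have hUpos : 0 < log t := by linarith
    have h1 : badSum (log t) 1 y M ≤ 4608 * (3 + 80 * log D) ^ 2 * (D ^ 20) ^ 2 / (D ^ 80 / 2) := by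
      refine hbad.trans ?_
      rw [one_mul]
      apply div_le_div₀ (by positivity) _ (by positivity) hU
      gcongr
    have h2 : 1 + log (M : ℝ) ≤ 2 * D ^ 20 := by
      have : 1 ≤ D ^ 20 := one_le_pow₀ hD1
      linarith
    calc badSum (log t) 1 y M * (1 + log M) ≤
        (4608 * (3 + 80 * log D) ^ 2 * (D ^ 20) ^ 2 / (D ^ 80 / 2)) * (2 * D ^ 20) := by
          gcongr
      _ = (18432 * (3 + 80 * log D) ^ 2) / D ^ 20 := by
          field_simp
          ring
      _ ≤ D / D ^ 20 := by gcongr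
      _ ≤ 1 := by
          rw [div_le_one (by positivity)]
          calc D = D ^ 1 := (pow_one D).symm
            _ ≤ D ^ 20 := hpow _ _ (by norm_num)
  have hrec := recip_le_log (y := y) (z := M) (L := D ^ 80) (by nlinarith) hy8
    (hlM.trans (hpow _ _ (by norm_num)))
  rw [Real.log_pow] at hrec
  push_cast at hrec
  have hrec0 := recip_nonneg y M
  refine hmain.trans ?_
  have h3 : (1 + 2 * recip y M) * (67 * log y * 2) ≤ (4861 * log D) * (134 * (16000 * log D)) := by
    apply mul_le_mul _ _ (by positivity) (by positivity)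
    · linarith
    · linarith
  nlinarith

lemma SS_sum_le {X0 x B : ℝ} {M : ℕ} (hX0 : 0 < X0) (hx : 0 < x) (hB : 0 ≤ B)
    (h : ∀ t : ℝ, X0 < t → t ≤ x → ∀ S ⊆ Icc 1 M, (∀ m ∈ S, EE t m) →
      ∑ m ∈ S, (1 : ℝ) / m ≤ B) :
    ∑ m ∈ Icc 1 M, volume.real (SS X0 x m) / m ≤ B * x := by
  classical
  have h1 : ∀ m : ℕ, volume.real (SS X0 x m) / m =
      ∫ t in Set.Ioc 0 x, Set.indicator (SS X0 x m) (fun _ => 1 / (m : ℝ)) t := by
    intro m
    rw [setIntegral_indicator (measurable_SS X0 x m), setIntegral_const, smul_eq_mul]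
    have h2 : Set.Ioc 0 x ∩ SS X0 x m = SS X0 x m := by
      apply Set.inter_eq_right.mpr
      rintro t ⟨_, h3, h4⟩
      exact ⟨lt_trans hX0 ((le_max_right _ _).trans_lt h3), h4⟩
    rw [h2]; ring
  have hint : ∀ m ∈ Icc 1 M, Integrable
      (fun t => Set.indicator (SS X0 x m) (fun _ => 1 / (m : ℝ)) t)
      (volume.restrict (Set.Ioc 0 x)) := by
    intro m _
    apply Integrable.indicator _ (measurable_SS X0 x m)
    exact integrable_const _
  rw [Finset.sum_congr rfl (fun m _ => h1 m), ← integral_finsetSum _ hint]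
  have h2 : ∫ t in Set.Ioc 0 x, ∑ m ∈ Icc 1 M,
      Set.indicator (SS X0 x m) (fun _ => 1 / (m : ℝ)) t ≤ ∫ t in Set.Ioc 0 x, B := by
    apply setIntegral_mono_on _ (integrableOn_const (by
      rw [Real.volume_Ioc]; exact ENNReal.ofReal_ne_top)) measurableSet_Ioc
    · intro t ht
      have h3 : ∑ m ∈ Icc 1 M, Set.indicator (SS X0 x m) (fun _ => 1 / (m : ℝ)) t =
          ∑ m ∈ (Icc 1 M).filter (fun m => t ∈ SS X0 x m), 1 / (m : ℝ) := by
        rw [Finset.sum_filter]
        apply Finset.sum_congr rfl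
        intro m _
        simp only [Set.indicator]
      rw [h3]
      by_cases h4 : X0 < t
      · apply h t h4 ht.2 _ (Finset.filter_subset _ _)
        intro m hm
        rw [Finset.mem_filter] at hm
        exact hm.2.1
      · have h5 : (Icc 1 M).filter (fun m => t ∈ SS X0 x m) = ∅ := by
          apply Finset.filter_eq_empty_iff.mpr
          rintro m _ ⟨_, h6, _⟩
          exact h4 ((le_max_right _ _).trans_lt h6)
        rw [h5, Finset.sum_empty]
        exact hB
    · exact integrable_finsetSum _ hint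
  refine h2.trans (le_of_eq ?_)
  rw [setIntegral_const, smul_eq_mul, Measure.real, Real.volume_Ioc,
    ENNReal.toReal_ofReal (by linarith)]
  ring

/-- `N x ≪ x (log log x)^2 / log x`. -/
theorem N_upper : ∃ C : ℝ, 0 < C ∧ ∀ᶠ x : ℝ in atTop,
    (N x : ℝ) ≤ C * (x * (log (log x)) ^ 2 / log x) := by
  classical
  obtain ⟨C, hC, hbd⟩ := relSet_bounds'
  obtain ⟨B, hB, hE⟩ := E_sum_le_log
  refine ⟨2 * B + 9 + 2 * C, by positivity, ?_⟩
  have hev : ∀ᶠ D : ℝ in atTop, ∀ x : ℝ, x = exp (D ^ 80) →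
      (N x : ℝ) ≤ (2 * B + 9 + 2 * C) * (x * (log (log x)) ^ 2 / log x) := by
    have a1 := eventually_log_pow_le 1 1 160 1
    have a3 : ∀ᶠ D : ℝ in atTop, 1 ≤ log D := Real.tendsto_log_atTop.eventually_ge_atTop 1
    filter_upwards [hbd, hE, a1, a3, eventually_ge_atTop 8] with D hb hE b1 b3 hD
    intro x hx
    rw [pow_one, one_mul] at b1
    obtain ⟨_, hup, _⟩ := hb x hx
    have hD0 : 0 < D := by linarith
    have hD1 : 1 ≤ D := by linarith
    have hpow : ∀ a b : ℕ, a ≤ b → D ^ a ≤ D ^ b := fun a b hab => pow_le_pow_right₀ hD1 hab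
    have hx0 : 0 < x := by rw [hx]; exact Real.exp_pos _
    have hlogx : log x = D ^ 80 := by rw [hx, Real.log_exp]
    have hp80 : 0 < D ^ 80 := by positivity
    have hp160 : 0 < D ^ 160 := by positivity
    have hX0 : 0 < x / D ^ 160 := by positivity
    have hlogX0 : log (x / D ^ 160) = D ^ 80 - 160 * log D := by
      rw [Real.log_div hx0.ne' hp160.ne', hlogx, Real.log_pow]
      norm_num
    have hsum : ∑ m ∈ Icc 1 ⌊exp (D ^ 20)⌋₊, volume.real (SS (x / D ^ 160) x m) / m ≤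
        (B * (log D) ^ 2) * x := by
      apply SS_sum_le hX0 hx0 (by positivity)
      intro t ht1 ht2 S hS hSE
      have ht0 : 0 < t := lt_trans hX0 ht1
      have h1 := hE t ht0 (by
        rw [← hlogX0]; exact Real.log_le_log hX0 ht1.le) (by
        rw [← hlogx]; exact Real.log_le_log ht0 ht2)
      refine le_trans ?_ h1
      apply Finset.sum_le_sum_of_subset_of_nonneg
      · intro m hm
        rw [Finset.mem_filter]
        exact ⟨hS hm, hSE m hm⟩
      · intro _ _ _; positivity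
    have hlam : D ^ 80 / 2 ≤ D ^ 80 - D ^ 21 := by
      have e1 : D ^ 80 = D ^ 21 * D ^ 59 := by rw [← pow_add]
      have e2 : D ≤ D ^ 59 := by
        calc D = D ^ 1 := (pow_one D).symm
          _ ≤ D ^ 59 := hpow _ _ (by norm_num)
      have e3 : 0 < D ^ 21 := by positivity
      rw [e1]; nlinarith
    have hN1 : (N x : ℝ) ≤ (relSet ⌊x⌋₊).card := by exact_mod_cast N_le x
    have hloglog : log (log x) = 80 * log D := by
      rw [hlogx, Real.log_pow]; norm_num
    obtain ⟨w, hw⟩ : ∃ w, w = x / D ^ 80 := ⟨_, rfl⟩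
    have hw0 : 0 < w := by rw [hw]; positivity
    have t0 : (∑ m ∈ Icc 1 ⌊exp (D ^ 20)⌋₊, volume.real (SS (x / D ^ 160) x m) / m) /
        (D ^ 80 - D ^ 21) ≤ 2 * B * (log D) ^ 2 * w := by
      calc _ ≤ ((B * (log D) ^ 2) * x) / (D ^ 80 / 2) := by
            apply div_le_div₀ (by positivity) hsum (by positivity) hlam
        _ = 2 * B * (log D) ^ 2 * w := by rw [hw]; field_simp
    have t1 : x / D ^ 160 ≤ w := by
      rw [hw]
      exact div_le_div_of_nonneg_left hx0.le hp80 (hpow _ _ (by norm_num))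
    have t2 : x / D ^ 81 ≤ w := by
      rw [hw]
      exact div_le_div_of_nonneg_left hx0.le hp80 (hpow _ _ (by norm_num))
    have t3 : 2 * C * x / (D ^ 80) ^ 3 ≤ 2 * C * w := by
      have e1 : 2 * C * x / (D ^ 80) ^ 3 = 2 * C * (x / (D ^ 80) ^ 3) := by ring
      rw [e1, hw]
      have e2 : D ^ 80 ≤ (D ^ 80) ^ 3 := by rw [← pow_mul]; exact hpow _ _ (by norm_num)
      gcongr
    have h2 : 1 ≤ (log D) ^ 2 := one_le_pow₀ b3
    have h3 : (N x : ℝ) ≤ (2 * B + 9 + 2 * C) * ((log D) ^ 2 * w) := by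
      have h4 : 9 * w + 2 * C * w ≤ (9 + 2 * C) * ((log D) ^ 2 * w) := by
        have : w ≤ (log D) ^ 2 * w := by nlinarith
        nlinarith
      nlinarith
    refine h3.trans ?_
    have h4 : (log D) ^ 2 * w ≤ x * (log (log x)) ^ 2 / log x := by
      rw [hloglog, hlogx, hw]
      have e1 : x * (80 * log D) ^ 2 / D ^ 80 = 6400 * ((log D) ^ 2 * (x / D ^ 80)) := by ring
      rw [e1]
      have : 0 ≤ (log D) ^ 2 * (x / D ^ 80) := by positivity
      linarith
    gcongr
  have htend : Tendsto (fun x : ℝ => (log x) ^ ((1 : ℝ) / 80)) atTop atTop :=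
    (tendsto_rpow_atTop (by positivity)).comp Real.tendsto_log_atTop
  filter_upwards [htend.eventually hev, eventually_gt_atTop (exp 1)] with x hx hxe
  have hx0 : 0 < x := lt_trans (Real.exp_pos 1) hxe
  have hlx : 1 < log x := by
    rwa [Real.lt_log_iff_exp_lt hx0]
  have hDr : ((log x) ^ ((1 : ℝ) / 80)) ^ 80 = log x := by
    rw [← Real.rpow_natCast, ← Real.rpow_mul (by linarith)]
    norm_num
  exact hx x (by rw [hDr, Real.exp_log hx0])

end Pool.Agent.Work.MP_98b61d_nt
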